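import Mathlib

-- part Pool.Agent.Lib.MP_fa98d2_nt.Fourier1
section

/- One-dimensional Fourier coefficients on the unit interval. -/

open MeasureTheory Set Topology Complex
open scoped ENNReal Real

noncomputable section

namespace Pool.Agent.Lib.MP_fa98d2_nt

def ec (t : ℝ) : ℂ := Complex.exp (-(2 * π * I * t))

lemma ec_add (a b : ℝ) : ec (a + b) = ec a * ec b := by
  simp only [ec, ← Complex.exp_add]; congr 1; push_cast; ring

@[simp] lemma ec_zero : ec 0 = 1 := by simp [ec]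

@[simp] lemma norm_ec (t : ℝ) : ‖ec t‖ = 1 := by
  have : ec t = Complex.exp (((-(2 * π * t) : ℝ) : ℂ) * I) := by
    unfold ec; congr 1; push_cast; ring
  rw [this, Complex.norm_exp_ofReal_mul_I]

@[simp] lemma enorm_ec (t : ℝ) : ‖ec t‖ₑ = 1 := by
  rw [← ofReal_norm, norm_ec, ENNReal.ofReal_one]

lemma ec_int (n : ℤ) : ec n = 1 := by
  have := Complex.exp_int_mul_two_pi_mul_I (-n)
  rw [← this, ec]; congr 1; push_cast; ring

lemma ec_eq_one {t : ℝ} (h : ec t = 1) : ∃ n : ℤ, t = n := by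
  rw [ec, Complex.exp_eq_one_iff] at h
  obtain ⟨n, hn⟩ := h
  refine ⟨-n, ?_⟩
  have h2 : (2 * π * I : ℂ) ≠ 0 := by simp [Real.pi_ne_zero]
  have : (t : ℂ) = -n := by
    apply mul_left_cancel₀ h2
    linear_combination -hn
  exact_mod_cast this

lemma ec_half : ec (1 / 2) = -1 := by
  have : ec (1 / 2) = (Complex.exp (π * I))⁻¹ := by
    rw [← Complex.exp_neg, ec]; congr 1; push_cast; ring
  rw [this, Complex.exp_pi_mul_I]; norm_num

@[fun_prop] lemma continuous_ec : Continuous ec := by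
  unfold ec; fun_prop

/-- Fourier coefficient -/
def fc (m : ℤ) (h : ℝ → ℂ) : ℂ := ∫ x in (0 : ℝ)..1, h x * ec (m * x)

lemma fc_zero (h : ℝ → ℂ) : fc 0 h = ∫ x in (0 : ℝ)..1, h x := by simp [fc]

lemma per_ec {h : ℝ → ℂ} (hp : Function.Periodic h 1) (m : ℤ) :
    Function.Periodic (fun x => h x * ec (m * x)) 1 := by
  intro x
  simp only [hp x, mul_add, mul_one, ec_add, ec_int]

lemma int_shift {h : ℝ → ℂ} (hp : Function.Periodic h 1) (s : ℝ) :
    ∫ x in (0 : ℝ)..1, h (x + s) = ∫ x in (0 : ℝ)..1, h x := by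
  rw [intervalIntegral.integral_comp_add_right h s, zero_add, add_comm 1 s,
    hp.intervalIntegral_add_eq s 0, zero_add]

lemma int_neg {h : ℝ → ℂ} (hp : Function.Periodic h 1) :
    ∫ x in (0 : ℝ)..1, h (-x) = ∫ x in (0 : ℝ)..1, h x := by
  rw [intervalIntegral.integral_comp_neg h]
  have := hp.intervalIntegral_add_eq (-1) 0
  simpa using this

lemma fc_shift {h : ℝ → ℂ} (hp : Function.Periodic h 1) (m : ℤ) (s : ℝ) :
    fc m (fun x => h (x + s)) = ec (-(m * s)) * fc m h := by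
  rw [fc, fc, ← int_shift (per_ec hp m) s, ← intervalIntegral.integral_const_mul]
  refine intervalIntegral.integral_congr fun x _ => ?_
  have : ec (m * x) = ec (-(m * s)) * ec (m * (x + s)) := by
    rw [← ec_add]; congr 1; ring
  simp only [this]; ring

lemma fc_scale {h : ℝ → ℂ} (hc : Continuous h) (hp : Function.Periodic h 1) (m : ℤ) {p : ℕ}
    (hp0 : 0 < p) :
    fc m (fun x => h (p * x)) = if (p : ℤ) ∣ m then fc (m / p) h else 0 := by
  have hp' : (p : ℝ) ≠ 0 := by positivity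
  split_ifs with hd
  · obtain ⟨k, rfl⟩ := hd
    rw [Int.mul_ediv_cancel_left _ (by exact_mod_cast hp0.ne'), fc, fc]
    have h1 := intervalIntegral.integral_comp_mul_left (a := 0) (b := 1)
      (fun x => h x * ec (k * x)) hp'
    have h2 := (per_ec hp k).intervalIntegral_add_zsmul_eq (p : ℤ) 0
      (fun a b => Continuous.intervalIntegrable (by fun_prop) a b)
    simp only [zero_add, zsmul_eq_mul, mul_one, Int.cast_natCast, mul_zero] at h1 h2
    rw [h2] at h1
    have hpc : (p : ℂ) ≠ 0 := by exact_mod_cast hp0.ne'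
    rw [Complex.real_smul, Complex.ofReal_inv, Complex.ofReal_natCast,
      inv_mul_cancel_left₀ hpc] at h1
    rw [← h1]
    refine intervalIntegral.integral_congr fun x _ => ?_
    congr 2
    push_cast; ring
  · have hper : Function.Periodic (fun x => h (p * x)) 1 := by
      intro x
      simp only [mul_add, mul_one]
      have := hp.nat_mul p (p * x)
      simpa using this
    have h1 := fc_shift hper m (1 / p)
    have h2 : (fun x => h (p * (x + 1 / p))) = fun x => h (p * x) := by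
      ext x
      rw [mul_add, mul_one_div_cancel hp', hp]
    simp only [h2] at h1
    by_contra hne
    have h3 : ec (-(m * (1 / p))) = 1 := by
      apply mul_right_cancel₀ hne
      rw [one_mul, ← h1]
    obtain ⟨n, hn⟩ := ec_eq_one h3
    apply hd
    refine ⟨-n, ?_⟩
    have : (m : ℝ) = p * (-n) := by
      rw [← hn]; field_simp
    exact_mod_cast this

lemma fc_split {h : ℝ → ℂ} (hc : Continuous h) (m : ℤ) {p : ℕ} (hp0 : 0 < p) :
    ∑ a ∈ Finset.range p, fc m (fun x => h ((x + a) / p)) = p * fc (p * m) h := by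
  have hp' : (p : ℝ) ≠ 0 := by positivity
  have h1 : ∀ a : ℕ, fc m (fun x => h ((x + a) / p)) =
      p * ∫ x in ((a : ℝ) / p)..(((a + 1 : ℕ) : ℝ) / p), h x * ec ((p * m : ℤ) * x) := by
    intro a
    have := intervalIntegral.integral_comp_div_add (a := 0) (b := 1)
      (fun x => h x * ec ((p * m : ℤ) * x)) hp' (a / p)
    rw [Complex.real_smul, Complex.ofReal_natCast, zero_div, zero_add, ← add_div,
      add_comm 1 (a : ℝ)] at this
    push_cast at this ⊢
    rw [← this, fc]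
    refine intervalIntegral.integral_congr fun x _ => ?_
    simp only [← add_div]
    congr 1
    have : (p : ℝ) * m * ((x + a) / p) = m * x + ((m * a : ℤ) : ℝ) := by
      push_cast; field_simp
    rw [this, ec_add, ec_int, mul_one]
  simp_rw [h1]
  rw [← Finset.mul_sum, intervalIntegral.sum_integral_adjacent_intervals
    (a := fun a : ℕ => (a : ℝ) / p) (fun k _ => Continuous.intervalIntegrable (by fun_prop) _ _)]
  simp [fc, div_self hp']

lemma parseval {h : ℝ → ℂ} (hc : Continuous h) :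
    ∫⁻ x in Ioc (0 : ℝ) 1, ‖h x‖ₑ ^ 2 = ∑' m : ℤ, ‖fc m h‖ₑ ^ 2 := by
  have hL : MemLp h 2 (volume.restrict (Ioc (0 : ℝ) 1)) := by
    obtain ⟨C, hC⟩ := (isCompact_Icc (a := (0 : ℝ)) (b := 1)).exists_bound_of_continuousOn
      hc.continuousOn
    refine MemLp.of_bound hc.aestronglyMeasurable C ?_
    filter_upwards [ae_restrict_mem measurableSet_Ioc] with x hx
    exact hC x (Ioc_subset_Icc_self hx)
  have h1 := hasSum_sq_fourierCoeffOn (zero_lt_one' ℝ) hL
  have h2 : ∀ m : ℤ, fourierCoeffOn (zero_lt_one' ℝ) h m = fc m h := by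
    intro m
    rw [fourierCoeffOn_eq_integral, fc]
    simp only [sub_zero, div_one, one_smul]
    refine intervalIntegral.integral_congr fun x _ => ?_
    simp only [fourier_coe_apply, smul_eq_mul, ec]
    rw [mul_comm]
    congr 2
    push_cast; ring
  simp only [h2, sub_zero, inv_one, one_smul] at h1
  rw [intervalIntegral.integral_of_le zero_le_one] at h1
  have h3 : ∀ z : ℂ, ‖z‖ₑ ^ 2 = ENNReal.ofReal (‖z‖ ^ 2) := by
    intro z; rw [ENNReal.ofReal_pow (norm_nonneg _), ofReal_norm]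
  simp_rw [h3]
  rw [← ENNReal.ofReal_tsum_of_nonneg (fun _ => by positivity) h1.summable, h1.tsum_eq,
    ofReal_integral_eq_lintegral_ofReal]
  · exact (Continuous.integrableOn_Icc (by fun_prop)).mono_set Ioc_subset_Icc_self
  · exact Filter.Eventually.of_forall fun x => by positivity

lemma tile (f : ℝ → ℝ≥0∞) :
    ∫⁻ x, f x = ∑' k : ℤ, ∫⁻ x in Ioc (0 : ℝ) 1, f (k + x) := by
  rw [← setLIntegral_univ, ← iUnion_Ioc_intCast ℝ,
    lintegral_iUnion (fun _ => measurableSet_Ioc) (pairwise_disjoint_Ioc_intCast ℝ)]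
  refine tsum_congr fun k => ?_
  rw [← (measurePreserving_add_left volume (k : ℝ)).setLIntegral_comp_preimage_emb
    (measurableEmbedding_addLeft _)]
  simp

lemma tile_neg (f : ℝ → ℝ≥0∞) :
    ∫⁻ x, f x = ∑' k : ℤ, ∫⁻ x in Ioc (0 : ℝ) 1, f (k - x) := by
  rw [← lintegral_neg_eq_self, tile, ← (Equiv.neg ℤ).tsum_eq]
  refine tsum_congr fun k => ?_
  simp [sub_eq_add_neg, add_comm]

lemma continuous_int01 {X : Type*} [TopologicalSpace X] {f : X → ℝ → ℂ}
    (hf : Continuous (Function.uncurry f)) : Continuous fun x => ∫ t in (0 : ℝ)..1, f x t :=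
  intervalIntegral.continuous_parametric_intervalIntegral_of_continuous' hf 0 1

lemma swap01 {f : ℝ → ℝ → ℂ} (hf : Continuous (Function.uncurry f)) :
    ∫ x in (0 : ℝ)..1, ∫ y in (0 : ℝ)..1, f x y = ∫ y in (0 : ℝ)..1, ∫ x in (0 : ℝ)..1, f x y := by
  apply intervalIntegral_intervalIntegral_swap
  rw [uIoc_of_le zero_le_one]
  exact (hf.continuousOn.integrableOn_compact (isCompact_Icc.prod isCompact_Icc)).mono_set
    (prod_mono Ioc_subset_Icc_self Ioc_subset_Icc_self)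

lemma norm_int01_le {f : ℝ → ℂ} {C : ℝ} (h : ∀ x ∈ Ioc (0 : ℝ) 1, ‖f x‖ ≤ C) :
    ‖∫ x in (0 : ℝ)..1, f x‖ ≤ C := by
  have := intervalIntegral.norm_integral_le_of_norm_le_const (a := 0) (b := 1) (C := C) (f := f)
    (by rwa [uIoc_of_le zero_le_one])
  simpa using this

end Pool.Agent.Lib.MP_fa98d2_nt
end
end

-- part Pool.Agent.Lib.MP_fa98d2_nt.Arith
section

/- Multiplicative functions with values in the extended non-negative reals. -/

open Finset ArithmeticFunction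
open scoped ENNReal

noncomputable section

namespace Pool.Agent.Lib.MP_fa98d2_nt

abbrev AF : Type := ArithmeticFunction ℝ≥0∞

def qe (e : ℕ) (F : ℕ → ℕ → ℝ≥0∞) : AF :=
  ⟨fun N => ∑ y ∈ N.divisors, if y ^ e ∣ N then F (N / y ^ e) y else 0, by simp⟩

lemma qe_apply (e : ℕ) (F : ℕ → ℕ → ℝ≥0∞) (N : ℕ) :
    qe e F N = ∑ y ∈ N.divisors, if y ^ e ∣ N then F (N / y ^ e) y else 0 := rfl

lemma tsum_qe {e : ℕ} (he : e ≠ 0) (F : ℕ → ℕ → ℝ≥0∞) (f : ℕ → ℝ≥0∞) :
    ∑' x : ℕ+, ∑' y : ℕ+, F x y * f (x * y ^ e) = ∑' N : ℕ+, qe e F N * f N := by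
  have h1 : ∀ N : ℕ+, qe e F N * f N =
      ∑' y : ℕ+, if (y : ℕ) ^ e ∣ N then F (N / y ^ e) y * f N else 0 := by
    intro N
    rw [qe_apply, sum_mul, ← tsum_eq_sum (L := SummationFilter.unconditional ℕ),
      ← PNat.coe_injective.tsum_eq]
    · simp
    · intro y hy
      rcases Nat.eq_zero_or_pos y with rfl | h
      · simp [zero_pow he] at hy
      · exact ⟨⟨y, h⟩, rfl⟩
    · intro y hy
      rw [if_neg, zero_mul]
      exact fun h => hy (Nat.mem_divisors.2 ⟨(dvd_pow_self y he).trans h, N.ne_zero⟩)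
  simp only [h1]
  rw [ENNReal.tsum_comm]
  conv_rhs => rw [ENNReal.tsum_comm]
  refine tsum_congr fun y => ?_
  symm
  rw [← (mul_left_injective (y ^ e)).tsum_eq]
  · refine tsum_congr fun x => ?_
    simp
  · intro N hN
    have : (y : ℕ) ^ e ∣ N := by by_contra h; simp [h] at hN
    obtain ⟨x, hx⟩ := this
    have hx0 : 0 < x := Nat.pos_of_ne_zero fun h => N.ne_zero (by rw [hx, h, mul_zero])
    exact ⟨⟨x, hx0⟩, PNat.eq (by simp [hx, mul_comm])⟩

lemma mul_eq_qe (f g : AF) : f * g = qe 1 fun x y => f x * g y := by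
  ext N
  rw [mul_apply, Nat.sum_divisorsAntidiagonal' fun x y => f x * g y, qe_apply]
  exact sum_congr rfl fun y hy => by simp [Nat.dvd_of_mem_divisors hy]

lemma tsum_mul (f g : AF) (h : ℕ → ℝ≥0∞) :
    ∑' x : ℕ+, ∑' y : ℕ+, f x * g y * h (x * y) = ∑' N : ℕ+, (f * g) N * h N := by
  rw [mul_eq_qe, ← tsum_qe one_ne_zero]
  simp

lemma qe_pow (e : ℕ) (F : ℕ → ℕ → ℝ≥0∞) {p : ℕ} (hp : p.Prime) (j : ℕ) :
    qe e F (p ^ j) =
      ∑ b ∈ range (j + 1), if e * b ≤ j then F (p ^ (j - e * b)) (p ^ b) else 0 := by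
  rw [qe_apply, Nat.sum_divisors_prime_pow hp]
  refine sum_congr rfl fun b _ => ?_
  rw [← pow_mul, mul_comm b]
  simp only [Nat.pow_dvd_pow_iff_le_right hp.one_lt]
  split_ifs with h
  · rw [Nat.pow_div h hp.pos]
  · rfl

lemma mul_pow_apply (f g : AF) {p : ℕ} (hp : p.Prime) (j : ℕ) :
    (f * g) (p ^ j) = ∑ q ∈ antidiagonal j, f (p ^ q.1) * g (p ^ q.2) := by
  rw [mul_comm, mul_eq_qe, qe_pow _ _ hp,
    Nat.sum_antidiagonal_eq_sum_range_succ fun a b => f (p ^ a) * g (p ^ b)]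
  refine sum_congr rfl fun b hb => ?_
  rw [one_mul, if_pos (Nat.lt_succ_iff.1 (mem_range.1 hb)), mul_comm]

lemma qe_mult {e : ℕ} (he : e ≠ 0) {F : ℕ → ℕ → ℝ≥0∞} (h1 : F 1 1 = 1)
    (hF : ∀ m n m' n', Nat.Coprime (m * n) (m' * n') → m * n ≠ 0 → m' * n' ≠ 0 →
      F (m * m') (n * n') = F m n * F m' n') : (qe e F).IsMultiplicative := by
  refine IsMultiplicative.iff_ne_zero.2 ⟨by simp [qe_apply, h1], fun {M N} hM hN h => ?_⟩
  rw [qe_apply, qe_apply, qe_apply, Nat.divisors_mul, mul_def, sum_image h.mul_injOn_divisors,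
    sum_mul_sum, sum_product]
  refine sum_congr rfl fun y hy => sum_congr rfl fun y' hy' => ?_
  have d1 := Nat.dvd_of_mem_divisors hy
  have d2 := Nat.dvd_of_mem_divisors hy'
  by_cases a1 : y ^ e ∣ M
  · by_cases a2 : y' ^ e ∣ N
    · obtain ⟨x, rfl⟩ := a1
      obtain ⟨x', rfl⟩ := a2
      have y0 : 0 < y ^ e := Nat.pos_of_ne_zero (left_ne_zero_of_mul hM)
      have y0' : 0 < y' ^ e := Nat.pos_of_ne_zero (left_ne_zero_of_mul hN)
      have dv : ∀ x y : ℕ, x * y ∣ y ^ e * x := fun x y => by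
        rw [mul_comm]; exact Nat.mul_dvd_mul_right (dvd_pow_self y he) x
      simp only [mul_pow, mul_mul_mul_comm (y ^ e) x, dvd_mul_right, if_true,
        Nat.mul_div_cancel_left _ y0, Nat.mul_div_cancel_left _ y0',
        Nat.mul_div_cancel_left _ (mul_pos y0 y0')]
      exact hF _ _ _ _ ((h.coprime_dvd_left (dv x y)).coprime_dvd_right (dv x' y'))
        (ne_zero_of_dvd_ne_zero hM (dv x y)) (ne_zero_of_dvd_ne_zero hN (dv x' y'))
    · rw [if_neg a2, mul_zero, if_neg]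
      intro hd
      rw [mul_pow] at hd
      exact a2 ((Nat.Coprime.pow_left e (h.symm.coprime_dvd_left d2)).dvd_of_dvd_mul_left
        ((dvd_mul_left _ _).trans hd))
  · rw [if_neg a1, zero_mul, if_neg]
    intro hd
    rw [mul_pow] at hd
    exact a1 ((Nat.Coprime.pow_left e (h.coprime_dvd_left d1)).dvd_of_dvd_mul_right
      ((dvd_mul_right _ _).trans hd))

def mkMul (c : ℕ → ℕ → ℝ≥0∞) : AF := ⟨fun N => if N = 0 then 0 else N.factorization.prod c, by simp⟩

lemma mkMul_apply (c : ℕ → ℕ → ℝ≥0∞) {N : ℕ} (hN : N ≠ 0) :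
    mkMul c N = N.factorization.prod c := if_neg hN

lemma mkMul_mult (c : ℕ → ℕ → ℝ≥0∞) : (mkMul c).IsMultiplicative := by
  refine IsMultiplicative.iff_ne_zero.2 ⟨by simp [mkMul_apply], fun {M N} hM hN h => ?_⟩
  rw [mkMul_apply _ hM, mkMul_apply _ hN, mkMul_apply _ (mul_ne_zero hM hN),
    Nat.factorization_mul hM hN, Finsupp.prod_add_index_of_disjoint h.disjoint_primeFactors]

lemma mkMul_pow {c : ℕ → ℕ → ℝ≥0∞} {p : ℕ} (hp : p.Prime) (h0 : c p 0 = 1) (j : ℕ) :
    mkMul c (p ^ j) = c p j := by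
  rw [mkMul_apply _ (pow_ne_zero _ hp.ne_zero), hp.factorization_pow,
    Finsupp.prod_single_index h0]

def cube : AF := qe 3 fun x _ => if x = 1 then 1 else 0

lemma cube_mult : cube.IsMultiplicative :=
  qe_mult (by norm_num) (by simp) fun m n m' n' _ _ _ => by
    by_cases h : m = 1 <;> by_cases h' : m' = 1 <;> simp [h, h']

lemma cube_pow {p : ℕ} (hp : p.Prime) (j : ℕ) : cube (p ^ j) = if 3 ∣ j then 1 else 0 := by
  rw [cube, qe_pow _ _ hp]
  simp only [Nat.pow_eq_one, hp.ne_one, false_or]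
  split_ifs with h
  · obtain ⟨c, rfl⟩ := h
    rw [sum_eq_single c]
    · simp
    · intro b _ hb
      split_ifs <;> first | omega | rfl
    · intro hc
      rw [mem_range] at hc
      omega
  · refine sum_eq_zero fun b _ => ?_
    split_ifs <;> first | omega | rfl

lemma tsum_cube (h : ℕ → ℝ≥0∞) : ∑' k : ℕ+, h (k ^ 3) = ∑' N : ℕ+, cube N * h N := by
  rw [cube, ← tsum_qe (by norm_num)]
  symm
  rw [tsum_eq_single 1]
  · simp
  · intro x hx
    simp [hx]

lemma tsum_three (a : ℕ → ℕ → ℝ≥0∞) (h : ℕ → ℝ≥0∞) :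
    ∑' k : ℕ+, ∑' m : ℕ+, ∑' n : ℕ+, a m n * h (k ^ 3 * (m * n ^ 2)) =
      ∑' N : ℕ+, (cube * qe 2 a) N * h N := by
  rw [← tsum_mul]
  have := fun k : ℕ+ => tsum_qe two_ne_zero a fun M => h (k ^ 3 * M)
  simp only [this]
  rw [tsum_cube fun K => ∑' M : ℕ+, qe 2 a M * h (K * M)]
  simp only [← ENNReal.tsum_mul_left, mul_assoc]

section
variable {κ : ℝ → ℝ≥0∞} {gap : ℝ≥0∞}

lemma zsum_gap (anti : ∀ s t, 0 ≤ s → s ≤ t → κ t ≤ κ s)
    (hg : ∀ y, 1 / 16 ≤ y → y ≤ 1 → κ (2 * y) + gap ≤ κ y) {y : ℝ} (hy : 0 ≤ y) :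
    2 * ∑' l : ℕ+, κ ((l : ℕ) * (2 * y)) + (if 1 / 16 ≤ y ∧ y ≤ 1 then gap else 0) ≤
      ∑' l : ℕ+, κ ((l : ℕ) * y) := by
  rw [tsum_pnat_eq_tsum_succ (f := fun l : ℕ => κ (l * (2 * y))),
    tsum_pnat_eq_tsum_succ (f := fun l : ℕ => κ (l * y)),
    ← tsum_even_add_odd (f := fun l : ℕ => κ ((l + 1 : ℕ) * y)) ENNReal.summable ENNReal.summable,
    two_mul, add_right_comm]
  refine add_le_add ?_ (le_of_eq (tsum_congr fun l => by congr 1; push_cast; ring))
  rw [← tsum_ite_eq 0 fun _ : ℕ => (if 1 / 16 ≤ y ∧ y ≤ 1 then gap else 0), ← ENNReal.tsum_add]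
  refine ENNReal.tsum_le_tsum fun l => ?_
  have h1 : κ ((l + 1 : ℕ) * (2 * y)) ≤ κ ((2 * l + 1 : ℕ) * y) :=
    anti _ _ (by positivity) (by push_cast; nlinarith)
  split_ifs with h h'
  · subst h
    simpa using hg y h'.1 h'.2
  · simpa using h1
  · simpa using h1

lemma tsum_pow_ne_top {B : ℕ} (hB : 2 ≤ B) {X : ℝ} (hX : 0 ≤ X) :
    ∑' j : ℕ+, ENNReal.ofReal ((X / (j : ℕ)) ^ B) ≠ ∞ := by
  rw [← ENNReal.ofReal_tsum_of_nonneg fun j => by positivity]
  · exact ENNReal.ofReal_ne_top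
  · simp only [div_eq_mul_inv, mul_pow, inv_pow]
    exact ((Real.summable_nat_pow_inv.2 hB).comp_injective PNat.coe_injective).mul_left _

theorem key_arith (anti : ∀ s t, 0 ≤ s → s ≤ t → κ t ≤ κ s)
    (hg : ∀ y, 1 / 16 ≤ y → y ≤ 1 → κ (2 * y) + gap ≤ κ y) {b t d o : AF} (hid : t * b = d * o)
    (ho : ∀ N, N ≠ 0 → o N = 1) (ht : ∀ N, t N ≤ 1) {C : ℝ≥0∞} (hC : C ≠ ∞) {B : ℕ} (hB : 2 ≤ B)
    {Θ : ℝ → ℝ≥0∞} (hΘ : ∀ X, Θ X = ∑' N : ℕ+, b N * κ ((N : ℕ) / X))
    (h1 : ∀ Y, 0 < Y → Θ Y ≤ C * ENNReal.ofReal (Y ^ B))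
    (h2 : ∀ Y, 1 ≤ Y → Θ Y ≤ 2 * Θ (Y / 2) + C) {X : ℝ} (hX : 0 < X) :
    gap * ∑' k : ℕ+, (if X ≤ 16 * (k : ℕ) ∧ (k : ℕ) ≤ X then d k else 0) ≤
      C * ∑' j : ℕ+, t j * ENNReal.ofReal (min 1 ((X / (j : ℕ)) ^ B)) := by
  have e : ∀ X : ℝ, ∑' j : ℕ+, t j * Θ (X / (j : ℕ)) =
      ∑' k : ℕ+, d k * ∑' l : ℕ+, κ ((l : ℕ) * ((k : ℕ) / X)) := by
    intro X
    have e1 := tsum_mul t b fun N => κ (N / X)
    have e2 := tsum_mul d o fun N => κ (N / X)
    rw [hid, ← e2] at e1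
    simp only [hΘ, ← ENNReal.tsum_mul_left]
    refine Eq.trans (tsum_congr fun j => tsum_congr fun N => ?_)
      (e1.trans (tsum_congr fun k => tsum_congr fun l => ?_))
    · rw [mul_assoc (t _), div_div_eq_mul_div, mul_comm (N : ℝ)]
      push_cast
      rfl
    · rw [ho _ l.ne_zero, mul_one, ← mul_div_assoc, mul_comm (l : ℝ)]
      push_cast
      rfl
  have fin : 2 * ∑' j : ℕ+, t j * Θ (X / 2 / (j : ℕ)) ≠ ∞ := by
    refine ENNReal.mul_ne_top (by simp) (ne_top_of_le_ne_top (ENNReal.mul_ne_top hC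
      (tsum_pow_ne_top hB (X := X / 2) (by positivity))) ?_)
    rw [← ENNReal.tsum_mul_left]
    exact ENNReal.tsum_le_tsum fun j => (mul_le_of_le_one_left' (ht _)).trans
      (h1 _ (by have := j.pos; positivity))
  rw [← ENNReal.add_le_add_iff_left fin]
  calc _ ≤ ∑' j : ℕ+, t j * Θ (X / (j : ℕ)) := by
        rw [e, e, ← ENNReal.tsum_mul_left, ← ENNReal.tsum_mul_left, ← ENNReal.tsum_add]
        refine ENNReal.tsum_le_tsum fun k => ?_
        refine le_trans (le_of_eq ?_) (mul_le_mul_right (zsum_gap anti hg (by positivity)) _)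
        rw [mul_add, mul_left_comm, show ((k : ℕ) : ℝ) / (X / 2) = 2 * ((k : ℕ) / X) by field_simp]
        congr 1
        simp only [le_div_iff₀ hX, div_le_iff₀ hX, one_mul, mul_ite, mul_zero]
        rw [mul_comm gap]
        congr 2
        exact propext ⟨fun h => by linarith, fun h => by linarith⟩
    _ ≤ _ := by
        rw [← ENNReal.tsum_mul_left, ← ENNReal.tsum_mul_left, ← ENNReal.tsum_add]
        refine ENNReal.tsum_le_tsum fun j => ?_
        rw [mul_left_comm 2, mul_left_comm C, ← mul_add, div_right_comm]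
        gcongr
        by_cases h : 1 ≤ X / (j : ℕ)
        · rw [min_eq_left (one_le_pow₀ h), ENNReal.ofReal_one, mul_one]
          exact h2 _ h
        · rw [min_eq_right (pow_le_one₀ (by positivity) (not_le.1 h).le)]
          exact (h1 _ (by have := j.pos; positivity)).trans le_add_self

end

end Pool.Agent.Lib.MP_fa98d2_nt
end
end
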