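import Pool.Agent.Lib.MP_fa98d2_nt.Poisson

/- Poisson summation in three variables for smooth compactly supported functions. -/

open MeasureTheory Matrix Set Topology Filter
open scoped ENNReal MatrixGroups Real ContDiff FourierTransform

noncomputable section

namespace Pool.Agent.Lib.MP_fa98d2_nt

abbrev V3 : Type := Fin 3 → ℝ

def cz (v : Fin 3 → ℤ) : V3 := fun i => v i

def FT (Φ : V3 → ℂ) (η : V3) : ℂ := ∫ x, ec (η ⬝ᵥ x) * Φ x

def box (v : Fin 3 → ℤ) : Set V3 := {x | ∀ i, x i ∈ Ioc (v i : ℝ) (v i + 1)}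

lemma measurableSet_box (v : Fin 3 → ℤ) : MeasurableSet (box v) := by
  have : box v = Set.univ.pi fun i => Ioc (v i : ℝ) (v i + 1) := by ext x; simp [box]
  rw [this]
  exact MeasurableSet.univ_pi fun i => measurableSet_Ioc

lemma mem_box {v : Fin 3 → ℤ} {x : V3} : x ∈ box v ↔ v = fun i => ⌈x i⌉ - 1 := by
  simp only [box, mem_ofPred_eq, funext_iff, eq_sub_iff_add_eq]
  refine forall_congr' fun i => ?_
  rw [eq_comm, Int.ceil_eq_iff]
  simp

lemma hasSum_box {F : Type*} [NormedAddCommGroup F] [NormedSpace ℝ F] {h : V3 → F}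
    (hi : Integrable h) : HasSum (fun v => ∫ x in box 0, h (x + cz v)) (∫ x, h x) := by
  have := hasSum_integral_iUnion (μ := volume) (f := h) measurableSet_box
    (fun v v' hv => Set.disjoint_left.2 fun x h1 h2 => hv ((mem_box.1 h1).trans (mem_box.1 h2).symm))
    hi.integrableOn
  rw [show ⋃ v, box v = univ from eq_univ_of_forall fun x => mem_iUnion.2 ⟨_, mem_box.2 rfl⟩,
    Measure.restrict_univ] at this
  convert this using 2 with v
  rw [← (measurePreserving_add_right volume (cz v)).setIntegral_preimage_emb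
    (measurableEmbedding_addRight _) h (box v)]
  congr 2
  ext x
  simp only [box, cz, mem_ofPred_eq, mem_preimage, Pi.add_apply, Pi.zero_apply, mem_Ioc]
  exact forall_congr' fun i => by constructor <;> rintro ⟨a, b⟩ <;> constructor <;>
    push_cast at * <;> linarith

lemma finite_cz (R : ℝ) : {v : Fin 3 → ℤ | ‖cz v‖ ≤ R}.Finite := by
  refine (Set.Finite.pi' fun _ : Fin 3 => Set.finite_Icc (-⌈R⌉) ⌈R⌉).subset fun v hv i => ?_
  have := abs_le.1 (((norm_le_pi_norm (cz v) i).trans hv).trans (Int.le_ceil R))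
  simp only [cz] at this
  exact ⟨by exact_mod_cast this.1, by exact_mod_cast this.2⟩

lemma poisson_Z {Ψ : V3 → ℂ} (hc : Continuous Ψ) (hs : HasCompactSupport Ψ)
    (h : Summable fun w => FT Ψ (cz w)) : HasSum (fun w => FT Ψ (cz w)) (∑' v, Ψ (cz v)) := by
  obtain ⟨R, hR⟩ := hs.isCompact.isBounded.exists_norm_le
  have h0 : ∀ x, R < ‖x‖ → Ψ x = 0 := fun x hx =>
    image_eq_zero_of_notMem_tsupport fun h => (hR x h).not_gt hx
  set F : V3 → ℂ := fun x => ∑' v, Ψ (x + cz v) with hF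
  have cF : Continuous F := by
    refine continuous_iff_continuousAt.2 fun x0 => ?_
    have : F =ᶠ[𝓝 x0] fun x => ∑ v ∈ (finite_cz (R + ‖x0‖ + 1)).toFinset, Ψ (x + cz v) := by
      filter_upwards [Metric.ball_mem_nhds x0 one_pos] with x hx
      refine tsum_eq_sum fun v hv => h0 _ ?_
      simp only [Finite.mem_toFinset, mem_ofPred_eq, not_le] at hv
      have h1 := norm_sub_norm_le x x0
      have h2 := norm_sub_le (x + cz v) x
      rw [mem_ball_iff_norm] at hx
      rw [add_sub_cancel_left] at h2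
      linarith
    exact (ContinuousAt.congr (by fun_prop) this.symm)
  have pF : ∀ x u, F (x + cz u) = F x := fun x u => by
    simp only [hF]
    rw [← (Equiv.addLeft u).tsum_eq fun v => Ψ (x + cz v)]
    refine tsum_congr fun v => ?_
    congr 1
    ext i; simp [cz, add_assoc]
  set f0 : UnitAddTorus (Fin 3) → ℂ := fun y => F fun i => Quotient.out (y i) with hf0
  have e0 : ∀ x : V3, f0 (fun i => x i) = F x := fun x => by
    choose a ha using fun i => QuotientAddGroup.mk_out_eq_add (AddSubgroup.zmultiples (1 : ℝ)) (x i)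
    choose n hn using fun i => AddSubgroup.mem_zmultiples_iff.1 (a i).2
    rw [← pF x n]
    simp only [hf0]
    congr 1
    ext i
    exact (ha i).trans (by rw [← hn]; simp [cz])
  have cf : Continuous f0 := by
    rw [← (IsOpenQuotientMap.piMap fun _ : Fin 3 => QuotientAddGroup.isOpenQuotientMap_mk
      (N := AddSubgroup.zmultiples (1 : ℝ))).continuous_comp_iff]
    exact cF.congr fun x => (e0 x).symm
  have ch : ∀ (w : Fin 3 → ℤ) (x : V3),
      UnitAddTorus.mFourier (-w) (fun i => (x i : UnitAddCircle)) = ec (cz w ⬝ᵥ x) := fun w x => by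
    simp only [UnitAddTorus.mFourier, ContinuousMap.coe_mk, fourier_coe_apply, ← Complex.exp_sum, ec,
      dotProduct, cz, Fin.sum_univ_three, Pi.neg_apply]
    congr 1
    push_cast; ring
  have co : ∀ w, UnitAddTorus.mFourierCoeff (⟨f0, cf⟩ : C(_, ℂ)) w = FT Ψ (cz w) := fun w => by
    have hi : Integrable fun x => ec (cz w ⬝ᵥ x) * Ψ x :=
      Continuous.integrable_of_hasCompactSupport (by fun_prop) hs.mul_left
    have h1 := hasSum_integral_of_summable_integral_norm (μ := volume.restrict (box 0))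
      (F := fun v x => ec (cz w ⬝ᵥ (x + cz v)) * Ψ (x + cz v))
      (fun v => (hi.comp_add_right _).integrableOn) (hasSum_box hi.norm).summable
    rw [FT, (hasSum_box hi).unique h1, UnitAddTorus.mFourierCoeff_eq_integral _ _ 0]
    simp only [ContinuousMap.coe_mk, e0, ch, smul_eq_mul, hF, ← tsum_mul_left]
    congr 1
    · simp [box]
    · ext x
      refine tsum_congr fun v => ?_
      have : cz w ⬝ᵥ cz v = ((w ⬝ᵥ v : ℤ) : ℝ) := by simp [cz, dotProduct]
      rw [dotProduct_add, ec_add, this, ec_int, mul_one]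
  have := UnitAddTorus.hasSum_mFourier_series_apply_of_summable (f := ⟨f0, cf⟩)
    (by rw [funext co]; exact h) fun i => ((0 : V3) i : UnitAddCircle)
  simp only [co] at this
  simp only [ContinuousMap.coe_mk, e0, hF, zero_add] at this
  convert this using 2 with w
  have := ch (-w) 0
  rw [neg_neg, dotProduct_zero, ec_zero] at this
  rw [this, smul_eq_mul, mul_one]

lemma integral_vecMul (g : G) {h : V3 → ℂ} (hc : Continuous h) :
    ∫ x, h (x ᵥ* g.val) = (dt g)⁻¹ • ∫ x, h x := by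
  have e : LinearMap.det (Matrix.vecMulLinear g.val) = g.val.det := by
    have : Matrix.vecMulLinear g.val = Matrix.toLin' g.val.transpose := by ext i j; simp
    simp [this, LinearMap.det_toLin']
  have h1 := Measure.map_linearMap_addHaar_eq_smul_addHaar (volume : Measure V3)
    (f := Matrix.vecMulLinear g.val) (by rw [e]; exact Matrix.GeneralLinearGroup.det_ne_zero g)
  have h2 := integral_map (μ := (volume : Measure V3)) (φ := Matrix.vecMulLinear g.val)
    (LinearMap.continuous_of_finiteDimensional _).aemeasurable hc.aestronglyMeasurable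
  rw [h1, integral_smul_measure, e, ENNReal.toReal_ofReal (abs_nonneg _), abs_inv] at h2
  exact h2.symm

lemma supp_vecMul (g : G) {F : Type*} [Zero F] {Φ : V3 → F} (hs : HasCompactSupport Φ) :
    HasCompactSupport fun x => Φ (x ᵥ* g.val) := by
  refine HasCompactSupport.intro (hs.isCompact.image (f := fun y => y ᵥ* (g⁻¹).val) (by fun_prop))
    fun x hx => image_eq_zero_of_notMem_tsupport fun h => hx ⟨_, h, ?_⟩
  simp only [Matrix.vecMul_vecMul, ← Units.val_mul, mul_inv_cancel, Units.val_one, vecMul_one]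

lemma FT_vecMul (g : G) {Φ : V3 → ℂ} (hc : Continuous Φ) (w : Fin 3 → ℤ) :
    FT (fun x => Φ (x ᵥ* g.val)) (cz w) = (dt g)⁻¹ • FT Φ (vm w (du g)) := by
  rw [FT, FT, ← integral_vecMul g (by fun_prop)]
  congr 1
  ext x
  congr 2
  rw [vm, du, ← tr_inv, val_tr, Matrix.vecMul_transpose, dotProduct_comm _ (x ᵥ* _),
    Matrix.dotProduct_mulVec, Matrix.vecMul_vecMul, ← Units.val_mul, mul_inv_cancel, Units.val_one,
    vecMul_one, dotProduct_comm]
  rfl

lemma summable_vm (g : G) {Φ : V3 → ℝ} (hs : HasCompactSupport Φ) :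
    Summable fun v => Φ (vm v g) := by
  obtain ⟨R, hR⟩ := (supp_vecMul g hs).isCompact.isBounded.exists_norm_le
  exact summable_of_hasFiniteSupport ((finite_cz R).subset fun v hv => hR _ (subset_tsupport _ hv))

lemma norm_sq_le_nsq (η : V3) : ‖η‖ ^ 2 ≤ nsq η := by
  have : ‖η‖ ≤ √(nsq η) := (pi_norm_le_iff_of_nonneg (Real.sqrt_nonneg _)).2 fun i =>
    Real.abs_le_sqrt (by
      rw [nsq_eq]
      fin_cases i <;> simp <;> nlinarith [sq_nonneg (η 0), sq_nonneg (η 1), sq_nonneg (η 2)])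
  exact (pow_le_pow_left₀ (norm_nonneg _) this 2).trans_eq (Real.sq_sqrt (nsq_nonneg _))

def Ld : V3 →L[ℝ] V3 →L[ℝ] ℝ :=
  ∑ i, (ContinuousLinearMap.mul ℝ ℝ).bilinearComp (ContinuousLinearMap.proj i)
    (ContinuousLinearMap.proj i)

lemma Ld_apply (x y : V3) : Ld x y = y ⬝ᵥ x := by
  simp [Ld, dotProduct, mul_comm]

lemma FT_decay {Φ : V3 → ℂ} (hc : ContDiff ℝ ∞ Φ) (hs : HasCompactSupport Φ) (A : ℕ) :
    ∃ K, 0 ≤ K ∧ ∀ η, nsq η ^ A * ‖FT Φ η‖ ≤ K := by
  have e : VectorFourier.fourierIntegral 𝐞 volume Ld.toLinearMap₁₂ Φ = FT Φ := by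
    ext η
    rw [VectorFourier.fourierIntegral, FT]
    congr 1
    ext x
    rw [Circle.smul_def, Real.fourierChar_apply, smul_eq_mul, ec]
    rw [show Ld.toLinearMap₁₂ x η = η ⬝ᵥ x from Ld_apply x η]
    congr 2
    push_cast; ring
  have h := fun η => VectorFourier.pow_mul_norm_iteratedFDeriv_fourierIntegral_le Ld
    (μ := volume) (K := 0) (N := ⊤) hc (fun k n _ _ => Continuous.integrable_of_hasCompactSupport
      ((continuous_norm.pow k).mul (hc.continuous_iteratedFDeriv (by exact_mod_cast le_top)).norm)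
      (hs.iteratedFDeriv n).norm.mul_left) (k := 0) (n := 2 * A) le_rfl le_top η η
  simp only [norm_iteratedFDeriv_zero, e, Ld_apply, pow_zero, mul_one] at h
  set K := ∑ p ∈ Finset.range (0 + 1) ×ˢ Finset.range (2 * A + 1),
    ∫ v : V3, ‖v‖ ^ p.1 * ‖iteratedFDeriv ℝ p.2 Φ v‖
  have K0 : 0 ≤ K := Finset.sum_nonneg fun p _ => integral_nonneg fun v => by positivity
  refine ⟨(2 * (0 : ℕ) + 2) ^ (2 * A) * K + ‖FT Φ 0‖, by positivity, fun η => ?_⟩
  rcases eq_or_ne η 0 with rfl | h0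
  · refine le_add_of_nonneg_of_le (by positivity) (mul_le_of_le_one_left (norm_nonneg _) ?_)
    exact pow_le_one₀ (nsq_nonneg _) (by simp [nsq])
  refine le_add_of_le_of_nonneg ?_ (norm_nonneg _)
  have h1 := h η
  have h2 := nsq_pos h0
  rw [← nsq, abs_of_pos h2, two_mul, pow_add, mul_assoc, mul_assoc, ← two_mul, pow_mul] at h1
  refine le_of_mul_le_mul_left (h1.trans ?_) (pow_pos h2 A)
  rw [← pow_mul]
  gcongr
  rw [pow_mul]
  exact pow_le_pow_left₀ (by positivity) (norm_sq_le_nsq η) A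

open Classical in
/-- the dual sum -/
def DS (A : ℕ) (g : G) : ℝ≥0∞ :=
  ∑' w, if w = 0 then 0 else ENNReal.ofReal (1 / nsq (vm w g) ^ A)

lemma vm_ne_zero {w : Fin 3 → ℤ} (hw : w ≠ 0) (g : G) : vm w g ≠ 0 := fun h => by
  have := congrArg (· ᵥ* (g⁻¹).val) h
  simp only [vm, Matrix.vecMul_vecMul, ← Units.val_mul, mul_inv_cancel, Units.val_one, vecMul_one,
    zero_vecMul] at this
  exact hw (funext fun i => by simpa using congrFun this i)

lemma pois_err {Φ : V3 → ℝ} (hc : Continuous Φ) (hs : HasCompactSupport Φ) (h0 : ∀ x, 0 ≤ Φ x)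
    {A : ℕ} {K : ℝ} (hK0 : 0 < K) (hK : ∀ η, nsq η ^ A * ‖FT (fun x => Φ x) η‖ ≤ K) (g : G) :
    ∑' v, ENNReal.ofReal (Φ (vm v g)) ≤ ENNReal.ofReal (dt g)⁻¹ *
      (ENNReal.ofReal (∫ x, Φ x) + ENNReal.ofReal K * DS A (du g)) ∧
    ENNReal.ofReal (dt g)⁻¹ * ENNReal.ofReal (∫ x, Φ x) ≤ ∑' v, ENNReal.ofReal (Φ (vm v g)) +
      ENNReal.ofReal (dt g)⁻¹ * (ENNReal.ofReal K * DS A (du g)) := by
  classical
  have hd := inv_pos.2 (dt_pos g)
  rcases eq_or_ne (DS A (du g)) ∞ with h | h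
  · simp [h, ENNReal.mul_top, hK0, dt_pos g]
  set r : (Fin 3 → ℤ) → ℝ := fun w => if w = 0 then 0 else 1 / nsq (vm w (du g)) ^ A with hr
  have r0 : ∀ w, 0 ≤ r w := fun w => by
    have := nsq_nonneg (vm w (du g))
    simp only [hr]; split_ifs <;> positivity
  have e1 : DS A (du g) = ∑' w, ENNReal.ofReal (r w) :=
    tsum_congr fun w => by simp only [hr]; split_ifs <;> simp
  have sr : Summable r :=
    (ENNReal.summable_toReal (e1 ▸ h)).congr fun w => ENNReal.toReal_ofReal (r0 w)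
  set c : (Fin 3 → ℤ) → ℂ := fun w => FT (fun x => Φ x) (vm w (du g)) with hc'
  have b1 : ∀ w, ‖if w = 0 then 0 else c w‖ ≤ K * r w := fun w => by
    simp only [hr]
    split_ifs with hw
    · simp
    · rw [mul_one_div, le_div_iff₀' (pow_pos (nsq_pos (vm_ne_zero hw _)) _)]
      exact hK _
  have sc : Summable c := by
    refine ((Summable.of_norm_bounded (sr.mul_left K) b1).add
      (hasSum_ite_eq 0 (c 0)).summable).congr fun w => ?_
    split_ifs with hw <;> simp [hw]
  have hcΦ : Continuous fun x => (Φ x : ℂ) := by fun_prop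
  have p := poisson_Z (Ψ := fun x => (Φ (x ᵥ* g.val) : ℂ)) (by fun_prop)
    (supp_vecMul g (hs.comp_left (g := Complex.ofReal) rfl))
    (by simp only [FT_vecMul g hcΦ]; exact sc.const_smul _)
  simp only [FT_vecMul g hcΦ] at p
  have p2 := p.unique (sc.hasSum.const_smul (dt g)⁻¹)
  have c0 : c 0 = (∫ x, Φ x : ℝ) := by
    have : vm 0 (du g) = 0 := by ext i; simp [vm, vecMul, dotProduct]
    simp [hc', this, FT, integral_complex_ofReal]
  rw [sc.tsum_eq_add_tsum_ite 0, c0, ← Complex.ofReal_tsum] at p2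
  have b2 := tsum_of_norm_bounded (sr.hasSum.mul_left K) b1
  set Z := ∑' w, if w = 0 then 0 else c w
  have p3 : |∑' v, Φ (vm v g) - (dt g)⁻¹ * ∫ x, Φ x| ≤ (dt g)⁻¹ * (K * ∑' w, r w) := by
    have : ((∑' v, Φ (vm v g) - (dt g)⁻¹ * ∫ x, Φ x : ℝ) : ℂ) = (dt g)⁻¹ • Z := by
      rw [Complex.ofReal_sub, show ((∑' v, Φ (vm v g) : ℝ) : ℂ) = _ from p2]
      simp [mul_add]
    rw [← Real.norm_eq_abs, ← Complex.norm_real, this, norm_smul, Real.norm_of_nonneg hd.le]
    gcongr
  have i0 : 0 ≤ ∫ x, Φ x := integral_nonneg h0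
  have s0 : 0 ≤ ∑' w, r w := tsum_nonneg r0
  have t0 : 0 ≤ ∑' v, Φ (vm v g) := tsum_nonneg fun v => h0 _
  rw [e1, ← ENNReal.ofReal_tsum_of_nonneg r0 sr,
    ← ENNReal.ofReal_tsum_of_nonneg (fun v => h0 _) (summable_vm g hs),
    ← ENNReal.ofReal_mul hK0.le, ← ENNReal.ofReal_add i0 (by positivity),
    ← ENNReal.ofReal_mul hd.le, ← ENNReal.ofReal_mul hd.le, ← ENNReal.ofReal_mul hd.le,
    ← ENNReal.ofReal_add t0 (by positivity)]
  have := abs_le.1 p3
  exact ⟨ENNReal.ofReal_le_ofReal (by linarith), ENNReal.ofReal_le_ofReal (by linarith)⟩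

/-- the test function attached to a coefficient vector -/
def PH {ι : Type} [Fintype ι] (P : ι → V3 → ℝ) (w : V3 → ℝ) (z : ι → ℂ) (ξ : V3) : ℝ :=
  ‖∑ i, (P i ξ : ℂ) * z i‖ ^ 2 * w ξ

lemma FT_PH {ι : Type} [Fintype ι] {P : ι → V3 → ℝ} {w : V3 → ℝ} (hP : ∀ i, ContDiff ℝ ∞ (P i))
    (hw : ContDiff ℝ ∞ w) (hs : HasCompactSupport w) (A : ℕ) :
    ∃ K, 0 < K ∧ ∀ z η, nsq η ^ A * ‖FT (fun x => PH P w z x) η‖ ≤ K * ∑ i, ‖z i‖ ^ 2 := by
  have hc : ∀ i j, ContDiff ℝ ∞ fun x => ((P i x * P j x * w x : ℝ) : ℂ) := fun i j =>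
    Complex.ofRealCLM.contDiff.comp (((hP i).mul (hP j)).mul hw)
  have hs' : ∀ i j, HasCompactSupport fun x => ((P i x * P j x * w x : ℝ) : ℂ) := fun i j =>
    (hs.mul_left (f := fun x => P i x * P j x)).comp_left (g := Complex.ofReal) rfl
  choose K K0 hK using fun p : ι × ι => FT_decay (hc p.1 p.2) (hs' p.1 p.2) A
  have s0 : 0 ≤ ∑ p, K p := Finset.sum_nonneg fun p _ => K0 p
  refine ⟨∑ p, K p + 1, by positivity, fun z η => ?_⟩
  have e : FT (fun x => PH P w z x) η = ∑ p : ι × ι, z p.1 * starRingEnd ℂ (z p.2) *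
      FT (fun x => ((P p.1 x * P p.2 x * w x : ℝ) : ℂ)) η := by
    simp only [FT, ← integral_const_mul]
    have hi : ∀ p : ι × ι, Integrable fun x => ec (η ⬝ᵥ x) * ((P p.1 x * P p.2 x * w x : ℝ) : ℂ) :=
      fun p => Continuous.integrable_of_hasCompactSupport
        ((by fun_prop : Continuous fun x => ec (η ⬝ᵥ x)).mul (hc p.1 p.2).continuous)
        (hs' p.1 p.2).mul_left
    rw [← integral_finsetSum _ fun p _ => (hi p).const_mul _]
    congr 1
    ext x
    rw [PH, Complex.ofReal_mul, Complex.ofReal_pow, ← Complex.mul_conj', map_sum,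
      Finset.sum_mul_sum, ← Finset.sum_product', Finset.sum_mul, Finset.mul_sum,
      Finset.univ_product_univ]
    refine Finset.sum_congr rfl fun p _ => ?_
    rw [map_mul, Complex.conj_ofReal]
    push_cast; ring
  have z0 : 0 ≤ ∑ i, ‖z i‖ ^ 2 := by positivity
  have n0 := pow_nonneg (nsq_nonneg η) A
  rw [e, add_mul, one_mul, Finset.sum_mul]
  refine le_add_of_le_of_nonneg ((mul_le_mul_of_nonneg_left (norm_sum_le _ _) n0).trans ?_) z0
  rw [Finset.mul_sum]
  refine Finset.sum_le_sum fun p _ => ?_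
  rw [norm_mul, norm_mul, Complex.norm_conj, mul_left_comm, mul_comm]
  refine mul_le_mul (hK p η) ?_ (by positivity) (K0 p)
  have a1 := Finset.single_le_sum (f := fun i => ‖z i‖ ^ 2) (fun i _ => by positivity)
    (Finset.mem_univ p.1)
  have a2 := Finset.single_le_sum (f := fun i => ‖z i‖ ^ 2) (fun i _ => by positivity)
    (Finset.mem_univ p.2)
  nlinarith [sq_nonneg (‖z p.1‖ - ‖z p.2‖)]

end Pool.Agent.Lib.MP_fa98d2_nt
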