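import Pool.Agent.Lib.MP_fa98d2_nt.Local
import Pool.Agent.Lib.MP_fa98d2_nt.Pois

/- A Capelli-type operator acting on Whittaker coefficients by a scalar. -/

open MeasureTheory Matrix Set Topology Filter
open scoped ENNReal MatrixGroups Real ContDiff

noncomputable section

namespace Pool.Agent.Lib.MP_fa98d2_nt

/-- smooth kernels -/
structure SK (k : E → ℝ) : Prop where
  sm : ContDiff ℝ ∞ k
  supp : tsupport k ⊆ co '' Om 4

lemma dist_near {v : G} {ε : ℝ} (hv : Near v ε) {h : G} (hh : h ∈ Om 4) :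
    dist (co (v * h)) (co h) ≤ 6 * ε := by
  have hε : 0 ≤ ε := (abs_nonneg _).trans (hv.1 0 0)
  refine (dist_pi_le_iff (by positivity)).2 fun i => (dist_pi_le_iff (by positivity)).2 fun j => ?_
  have e : co (v * h) i j - co h i j = ∑ l, (v.val i l - (1 : Mat) i l) * h.val l j := by
    simp [co, Matrix.mul_apply, sub_mul, Finset.sum_sub_distrib, Matrix.one_apply]
  rw [Real.dist_eq, e]
  refine (Finset.abs_sum_le_sum_abs _ _).trans ?_
  have : ∀ l, |(v.val i l - (1 : Mat) i l) * h.val l j| ≤ ε * 2 := by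
    intro l
    rw [abs_mul]
    refine mul_le_mul (hv.1 i l) ?_ (abs_nonneg _) hε
    exact abs_le_of_sq_le_sq' (by linarith [entry_le h l j, hh.1]) (by norm_num) |> abs_le.2
  rw [Fin.sum_univ_three]
  linarith [this 0, this 1, this 2]

lemma SK.notMem {k : E → ℝ} (hk : SK k) {h : G} (hh : h ∉ Om 4) : co h ∉ tsupport k := fun a => by
  obtain ⟨h', h1, h2⟩ := hk.supp a
  exact hh (isOpenEmbedding_co.injective h2 ▸ h1)

lemma SK.ker {k : E → ℝ} (hk : SK k) : Ker fun h => k (co h) := by
  have hs : ∀ h, h ∉ Om 4 → k (co h) = 0 := fun h hh =>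
    image_eq_zero_of_notMem_tsupport (hk.notMem hh)
  obtain ⟨L, hL⟩ := ContDiff.lipschitzWith_of_hasCompactSupport
    (((isCompact_Om 4).image continuous_co).of_isClosed_subset (isClosed_tsupport k) hk.supp)
    hk.sm (by simp)
  have key : ∀ v ε, Near v ε → ∀ h ∈ Om 4, |k (co (v * h)) - k (co h)| ≤ L * 6 * ε :=
    fun v ε hv h hh => by
      rw [← Real.dist_eq, mul_assoc]
      exact (hL.dist_le_mul _ _).trans (mul_le_mul_of_nonneg_left (dist_near hv hh) L.2)
  refine ⟨hk.sm.continuous.comp continuous_co, hs, L * 6, by positivity, fun v ε _ hv h => ?_⟩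
  by_cases a : h ∈ Om 4
  · exact key v ε hv h a
  · by_cases b : v * h ∈ Om 4
    · have := key v⁻¹ ε hv.inv _ b
      rwa [inv_mul_cancel_left, abs_sub_comm] at this
    · have hε : 0 ≤ ε := (abs_nonneg _).trans (hv.1 0 0)
      rw [hs _ a, hs _ b, sub_zero, abs_zero]; positivity

lemma exists_SK {f : G → ℂ} (hf : Continuous f) (h0 : ∃ g, f g ≠ 0) :
    ∃ k, SK k ∧ ∃ g, conv (fun h => k (co h)) f g ≠ 0 := by
  obtain ⟨g, hg⟩ := h0
  let U : Set G := {h | Fr h < 4} ∩ {h | Fr h⁻¹ < 4} ∩
    {h | 0 < (starRingEnd ℂ (f g) * f (g * h)).re}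
  have hU : IsOpen U := ((isOpen_lt continuous_Fr continuous_const).inter
    (isOpen_lt (continuous_Fr.comp continuous_inv) continuous_const)).inter
      (isOpen_lt continuous_const (by fun_prop))
  have hF1 : Fr 1 = 3 := by simp [Fr, nsq_eq]; norm_num
  have h1 : (1 : G) ∈ U := by
    refine ⟨⟨by simp [hF1]; norm_num, by simp [hF1]; norm_num⟩, ?_⟩
    simp only [mem_ofPred_eq, mul_one, ← Complex.normSq_eq_conj_mul_self, Complex.ofReal_re]
    exact Complex.normSq_pos.2 hg
  obtain ⟨k, k1, -, k2, k3, k4⟩ := exists_contDiff_tsupport_subset (n := ⊤)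
    ((isOpenEmbedding_co.isOpenMap U hU).mem_nhds ⟨1, h1, rfl⟩)
  have hS : SK k := ⟨k2, k1.trans (image_mono fun h hh => ⟨le_of_lt hh.1.1, le_of_lt hh.1.2⟩)⟩
  have hK := hS.ker
  have hkU : ∀ h, k (co h) ≠ 0 → h ∈ U := fun h hh => by
    obtain ⟨h', h3, h4⟩ := k1 (subset_tsupport _ hh)
    rwa [← isOpenEmbedding_co.injective h4]
  refine ⟨k, hS, g, fun hz => ?_⟩
  have hi := (hK.integrable hf g).const_mul (starRingEnd ℂ (f g))
  have e1 : ∫ h, (starRingEnd ℂ (f g) * ((k (co h) : ℂ) * f (g * h))).re ∂mu = 0 := by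
    have := integral_re hi
    simp only [RCLike.re_to_complex] at this
    rw [this, integral_const_mul]
    rw [conv] at hz
    rw [hz]; simp
  have e2 : ∀ h, (starRingEnd ℂ (f g) * ((k (co h) : ℂ) * f (g * h))).re =
      k (co h) * (starRingEnd ℂ (f g) * f (g * h)).re := by
    intro h
    rw [mul_left_comm, Complex.re_ofReal_mul]
  simp_rw [e2] at e1
  have hc : Continuous fun h => k (co h) * (starRingEnd ℂ (f g) * f (g * h)).re :=
    hK.cont.mul (by fun_prop)
  have hnn : 0 ≤ fun h => k (co h) * (starRingEnd ℂ (f g) * f (g * h)).re := by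
    intro h
    by_cases a : k (co h) = 0
    · simp [a]
    · exact mul_nonneg (k3 ⟨_, rfl⟩).1 (le_of_lt (hkU h a).2)
  have hint : Integrable (fun h => k (co h) * (starRingEnd ℂ (f g) * f (g * h)).re) mu := by
    simpa only [← e2, RCLike.re_to_complex] using hi.re
  have := (Continuous.ae_eq_iff_eq mu hc continuous_const).1
    ((integral_eq_zero_iff_of_nonneg hnn hint).1 e1)
  have h2 := congrFun this 1
  have h4 := h1.2
  simp only [mem_ofPred_eq] at h4
  rw [k4, one_mul] at h2
  exact h4.ne' h2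

abbrev J2 : Type := Fin 3 × Fin 3

/-- derivative along an elementary matrix -/
def De (j : J2) (k : E → ℝ) (x : E) : ℝ := fderiv ℝ k x (Pi.single j.1 (x j.2))

lemma SK.De {k : E → ℝ} (hk : SK k) (j : J2) : SK (De j k) := by
  refine ⟨(hk.sm.fderiv_right (m := ∞) (by simp)).clm_apply ?_, subset_trans ?_ hk.supp⟩
  · exact ((ContinuousLinearMap.single ℝ (fun _ : Fin 3 => Fin 3 → ℝ) j.1).comp
      (ContinuousLinearMap.proj (R := ℝ) (φ := fun _ : Fin 3 => Fin 3 → ℝ) j.2)).contDiff
  · refine closure_minimal (fun x hx => support_fderiv_subset ℝ fun h => hx ?_) isClosed_closure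
    simp [_root_.Pool.Agent.Lib.MP_fa98d2_nt.De, h]

lemma conv_De {k : E → ℝ} (hk : SK k) {f : G → ℂ} (hf : Aut f) (m n : ℤ) {g : G} {X : Mat}
    {a b c : ℝ} (h : g.val * X = !![0, a, c; 0, 0, b; 0, 0, 0] * g.val) :
    ∑ j : J2, (X j.1 j.2 : ℂ) * conv (fun h => De j k (co h)) (Wh m n f) g =
      -(2 * π * Complex.I) * (m * a + n * b) * conv (fun h => k (co h)) (Wh m n f) g := by
  set W := Wh m n f with hWe
  have hW : Continuous W := continuous_Wh hf.cont m n
  set u : ℝ → G := fun t => g⁻¹ * nn (t * a) (t * b) (t * c) * g with hu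
  have cu : Continuous u :=
    (continuous_const.mul (continuous_nn (by fun_prop) (by fun_prop) (by fun_prop))).mul
      continuous_const
  set M : G → E := fun h p q => (X * h.val) p q with hM
  have cM : Continuous M := by
    have := Units.continuous_val (M := Mat)
    simp only [hM]
    fun_prop
  have e1 : ∀ t h, co (u t * h) = co h + t • M h := fun t x => by
    have e : (nn (t * a) (t * b) (t * c)).val = 1 + t • !![0, a, c; 0, 0, b; 0, 0, 0] := by
      rw [val_nn]
      ext i j
      fin_cases i <;> fin_cases j <;> simp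
    have : (u t * x).val = x.val + t • (X * x.val) := by
      simp only [hu, Units.val_mul, e, Matrix.mul_add, Matrix.add_mul, Matrix.mul_one,
        Matrix.mul_smul, Matrix.smul_mul, Matrix.mul_assoc]
      have e0 : ∀ Y : Mat, (g⁻¹).val * (g.val * Y) = Y := fun Y => by
        rw [← Matrix.mul_assoc, ← Units.val_mul, inv_mul_cancel, Units.val_one, Matrix.one_mul]
      rw [e0, ← Matrix.mul_assoc _ g.val x.val, ← h, Matrix.mul_assoc, e0]
    ext i j
    exact congrFun (congrFun this i) j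
  have e2 : ∀ t : ℝ, ∫ h, (k (co h + t • M h) : ℂ) * W (g * h) ∂mu =
      ec (t * (m * a + n * b)) * conv (fun h => k (co h)) W g := fun t => by
    rw [conv, ← integral_const_mul, ← integral_mul_left_eq_self _ (u t)⁻¹]
    congr 1
    ext x
    rw [← e1, mul_inv_cancel_left]
    have : g * ((u t)⁻¹ * x) = (nn (t * a) (t * b) (t * c))⁻¹ * (g * x) := by
      simp [hu, mul_assoc]
    rw [this, nn_inv, hWe, Wh_nn hf, ← ec_add, mul_left_comm]
    congr 2
    ring
  set K := (fun p : ℝ × G => (u p.1)⁻¹ * p.2) '' (Icc (-1) 1 ×ˢ Om 4)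
  have hK : IsCompact K := (isCompact_Icc.prod (isCompact_Om 4)).image (by fun_prop)
  set F' : ℝ → G → ℂ := fun t h => (fderiv ℝ k (co h + t • M h) (M h) : ℝ) * W (g * h) with hF'
  have cF' : Continuous (Function.uncurry F') := by
    have := hk.sm.continuous_fderiv (by simp)
    have := continuous_co
    simp only [hF', Function.uncurry_def]
    fun_prop
  obtain ⟨C, hC⟩ := ((isCompact_Icc (a := (-1 : ℝ)) (b := 1)).prod hK).exists_bound_of_continuousOn
    cF'.continuousOn
  have d1 := (hasDerivAt_integral_of_dominated_loc_of_deriv_le (μ := mu) (x₀ := (0 : ℝ))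
    (s := Icc (-1) 1) (F := fun t h => (k (co h + t • M h) : ℂ) * W (g * h)) (F' := F')
    (bound := K.indicator fun _ => C) (Icc_mem_nhds (by norm_num) (by norm_num))
    (Eventually.of_forall fun t => Continuous.aestronglyMeasurable (by
      have := hk.sm.continuous
      have := continuous_co
      fun_prop))
    (by simpa using hk.ker.integrable hW g)
    (cF'.comp (f := fun h => (0, h)) (by fun_prop)).aestronglyMeasurable
    (Eventually.of_forall fun x t ht => by
      by_cases hx : x ∈ K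
      · rw [indicator_of_mem hx]
        exact hC (t, x) ⟨ht, hx⟩
      · have : u t * x ∉ Om 4 := fun h => hx ⟨(t, u t * x), ⟨ht, h⟩, by simp⟩
        simp only [hF', ← e1, indicator_of_notMem hx, fderiv_of_notMem_tsupport ℝ (hk.notMem this)]
        simp)
    ((integrableOn_const hK.measure_lt_top.ne).integrable_indicator hK.measurableSet)
    (Eventually.of_forall fun x t _ => by
      have := ((hk.sm.differentiable (by simp)) (co x + t • M x)).hasFDerivAt.comp_hasDerivAt t
        (((hasDerivAt_id t).smul_const (M x)).const_add (co x))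
      rw [one_smul] at this
      exact this.ofReal_comp.mul_const _)).2
  simp only [e2] at d1
  have d2 : HasDerivAt (fun t : ℝ => ec (t * (m * a + n * b)) * conv (fun h => k (co h)) W g)
      (-(2 * π * Complex.I) * (m * a + n * b) * conv (fun h => k (co h)) W g) 0 := by
    refine HasDerivAt.mul_const ?_ _
    have := (((((hasDerivAt_id (0 : ℝ)).mul_const (m * a + n * b)).ofReal_comp).const_mul
      (2 * π * Complex.I)).neg).cexp
    exact this.congr_deriv (by simp)
  rw [← d1.unique d2]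
  simp only [conv, ← integral_const_mul]
  rw [← integral_finsetSum _ fun j _ => ((hk.De j).ker.integrable hW g).const_mul _]
  congr 1
  ext x
  have : M x = ∑ j : J2, X j.1 j.2 • (Pi.single j.1 (co x j.2) : E) := by
    ext p q
    simp [hM, Matrix.mul_apply, Fintype.sum_prod_type, Pi.single_apply, co, ite_apply]
  simp only [hF', zero_smul, add_zero, De]
  rw [this, map_sum]
  push_cast
  rw [Finset.sum_mul]
  refine Finset.sum_congr rfl fun j _ => ?_
  rw [map_smul, smul_eq_mul]
  push_cast; ring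

/-- cross products with the basis vectors -/
def cr (ξ : V3) : Mat := !![0, ξ 2, -ξ 1; -ξ 2, 0, ξ 0; ξ 1, -ξ 0, 0]

def XX (ξ : V3) (i : Fin 3) : Mat := Matrix.of fun p q => cr ξ i p * ξ q

abbrev J6 : Type := J2 × J2 × J2

def PP (j : J6) (ξ : V3) : ℝ :=
  XX ξ j.2.2.1 j.1.1 j.1.2 * ∑ l, XX ξ l j.2.1.1 j.2.1.2 * cr ξ l j.2.2.2

lemma contDiff_cr (i p : Fin 3) : ContDiff ℝ ∞ fun ξ => cr ξ i p := by
  fin_cases i <;> fin_cases p <;> simp [cr] <;> fun_prop

lemma contDiff_PP (j : J6) : ContDiff ℝ ∞ (PP j) := by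
  have h : ∀ i p q, ContDiff ℝ ∞ fun ξ => XX ξ i p q := fun i p q =>
    (contDiff_cr i p).mul (contDiff_apply ℝ ℝ q)
  exact (h _ _ _).mul (ContDiff.sum fun l _ => (h _ _ _).mul (contDiff_cr _ _))

def fam (k : E → ℝ) (f : G → ℂ) (j : J6) : G → ℂ :=
  conv (fun h => De j.1 (De j.2.1 (De j.2.2 k)) (co h)) f

def om (g : G) : V3 := ![g.val 1 1 * g.val 2 2 - g.val 1 2 * g.val 2 1,
  g.val 1 2 * g.val 2 0 - g.val 1 0 * g.val 2 2, g.val 1 0 * g.val 2 1 - g.val 1 1 * g.val 2 0]

lemma mul_XX (g : G) (i : Fin 3) : g.val * XX (g.val 2) i =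
    !![0, 0, g.val 0 ⬝ᵥ cr (g.val 2) i; 0, 0, om g i; 0, 0, 0] * g.val := by
  ext p q
  fin_cases i <;> fin_cases p <;>
    simp [Matrix.mul_apply, Fin.sum_univ_three, XX, cr, om, dotProduct] <;> ring

lemma mul_YY (g : G) : g.val * (Matrix.of fun p q => om g p * ∑ l, om g l * cr (g.val 2) l q) =
    !![0, g.val.det * nsq (g.val 2), -(g.val.det * g.val 1 ⬝ᵥ g.val 2); 0, 0, 0; 0, 0, 0] *
      g.val := by
  ext p q
  fin_cases p <;> fin_cases q <;>
    simp [Matrix.mul_apply, Fin.sum_univ_three, cr, om, dotProduct, nsq_eq, det_fin_three] <;> ring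

theorem capelli {k : E → ℝ} (hk : SK k) {f : G → ℂ} (hf : Aut f) (m n : ℤ) (g : G) :
    Wh m n (fun x => ∑ j, (PP j (g.val 2) : ℂ) * fam k f j x) g =
      (-(2 * π * Complex.I)) ^ 3 * (m * n ^ 2) * (g.val.det * nsq (g.val 2) : ℝ) *
        Wh m n (conv (fun h => k (co h)) f) g := by
  have hs : ∀ j : J6, SK (De j.1 (De j.2.1 (De j.2.2 k))) := fun j => ((hk.De _).De _).De _
  rw [Wh_sum (f := fun j x => (PP j (g.val 2) : ℂ) * fam k f j x) _
    fun j => (continuous_conv (hs j).ker hf.cont).const_mul _]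
  simp only [Wh_const_mul, fam, Wh_conv (hs _).ker hf.cont, Wh_conv hk.ker hf.cont]
  set c := -(2 * π * Complex.I)
  set T : (E → ℝ) → ℂ := fun k => conv (fun h => k (co h)) (Wh m n f) g with hT
  have a1 : ∀ {k}, SK k → ∀ i, ∑ j : J2, (XX (g.val 2) i j.1 j.2 : ℂ) * T (De j k) =
      c * n * om g i * T k := fun hk i => by
    rw [conv_De hk hf m n (mul_XX g i)]
    simp [c, mul_assoc, hT]
  have a2 := conv_De hk hf m n (mul_YY g)
  change ∑ j : J6, _ * T (De j.1 (De j.2.1 (De j.2.2 k))) = _ * T k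
  change ∑ j : J2, _ * T (De j k) = c * _ * T k at a2
  calc _ = ∑ j3 : J2, ∑ l, cr (g.val 2) l j3.2 * ∑ j2 : J2, XX (g.val 2) l j2.1 j2.2 *
        ∑ j1 : J2, (XX (g.val 2) j3.1 j1.1 j1.2 : ℂ) * T (De j1 (De j2 (De j3 k))) := by
        rw [Fintype.sum_prod_type_right, Fintype.sum_prod_type_right]
        refine Finset.sum_congr rfl fun j3 _ => ?_
        simp only [Finset.mul_sum, PP, Complex.ofReal_mul, Complex.ofReal_sum, Finset.sum_mul]
        conv_rhs => rw [Finset.sum_comm]
        refine Finset.sum_congr rfl fun j2 _ => ?_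
        rw [Finset.sum_comm]
        exact Finset.sum_congr rfl fun l _ => Finset.sum_congr rfl fun j1 _ => by ring
    _ = (c * n) ^ 2 * ∑ j3 : J2, ((Matrix.of fun p q => om g p * ∑ l, om g l *
        cr (g.val 2) l q) j3.1 j3.2 : ℝ) * T (De j3 k) := by
        rw [Finset.mul_sum]
        refine Finset.sum_congr rfl fun j3 _ => ?_
        simp only [a1 ((hk.De _).De _), mul_left_comm _ (c * n * om g j3.1), ← Finset.mul_sum,
          a1 (hk.De _), of_apply]
        push_cast
        simp only [Finset.mul_sum, Finset.sum_mul]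
        exact Finset.sum_congr rfl fun l _ => by ring
    _ = _ := by
        rw [a2]
        push_cast; ring

end Pool.Agent.Lib.MP_fa98d2_nt
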