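import Mathlib
import Pool.Agent.Lib.MP_fa98d2_nt.Arith

-- part Pool.Agent.Lib.MP_fa98d2_nt.Haar
section

/- Haar measure on GL(3,R) in coordinates. -/

open MeasureTheory Matrix Set Topology
open scoped ENNReal MatrixGroups

noncomputable section

namespace Pool.Agent.Lib.MP_fa98d2_nt

abbrev G : Type := GL (Fin 3) ℝ
abbrev E : Type := Fin 3 → Fin 3 → ℝ
abbrev Mat : Type := Matrix (Fin 3) (Fin 3) ℝ

def co (g : G) : E := fun i j => g.val i j

lemma of_co (g : G) : Matrix.of (co g) = g.val := rfl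

lemma isEmbedding_val : IsEmbedding (Units.val : G → Mat) := by
  refine Units.isEmbedding_val_mk' (f := fun A : Mat => A⁻¹) ?_ ?_
  · intro A hA
    refine (continuousAt_matrix_inv A ?_).continuousWithinAt
    have hd : A.det ≠ 0 := ((Matrix.isUnit_iff_isUnit_det A).1 hA).ne_zero
    rw [Ring.inverse_eq_inv']
    exact continuousAt_inv₀ hd
  · intro u
    exact (Matrix.coe_units_inv u).symm

lemma range_co : range co = {x : E | (Matrix.of x).det ≠ 0} := by
  ext x
  constructor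
  · rintro ⟨g, rfl⟩
    exact Matrix.GeneralLinearGroup.det_ne_zero g
  · intro hx
    exact ⟨Matrix.GeneralLinearGroup.mkOfDetNeZero (Matrix.of x) hx, rfl⟩

lemma continuous_detE : Continuous fun x : E => (Matrix.of x).det :=
  Continuous.matrix_det (continuous_matrix fun i j => by
    simp only [Matrix.of_apply]; fun_prop)

lemma isOpenEmbedding_co : IsOpenEmbedding co := by
  refine ⟨isEmbedding_val, ?_⟩
  rw [range_co]
  exact isOpen_ne_fun continuous_detE continuous_const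

lemma continuous_co : Continuous co := isOpenEmbedding_co.continuous

instance : MeasurableSpace G := borel G
instance : BorelSpace G := ⟨rfl⟩
instance : SecondCountableTopology G := isOpenEmbedding_co.isEmbedding.secondCountableTopology
instance : T2Space G := isOpenEmbedding_co.isEmbedding.t2Space
instance : LocallyCompactSpace G := isOpenEmbedding_co.locallyCompactSpace

lemma measurableEmbedding_co : MeasurableEmbedding co := isOpenEmbedding_co.measurableEmbedding

def dens (x : E) : ℝ≥0∞ := ENNReal.ofReal (|(Matrix.of x).det|⁻¹ ^ 3)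

lemma measurable_dens : Measurable dens := by
  unfold dens
  exact ((continuous_detE.measurable.abs.inv).pow_const 3).ennreal_ofReal

def nu : Measure E := volume.withDensity dens

def mu : Measure G := nu.comap co

lemma lintegral_mu (F : E → ℝ≥0∞) (hF : Measurable F) :
    ∫⁻ g, F (co g) ∂mu = ∫⁻ x in range co, dens x * F x := by
  rw [← measurableEmbedding_co.lintegral_map, mu, measurableEmbedding_co.map_comap, nu,
    restrict_withDensity measurableEmbedding_co.measurableSet_range,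
    lintegral_withDensity_eq_lintegral_mul _ measurable_dens hF]
  rfl

lemma lintegral_mu_le (F : E → ℝ≥0∞) (hF : Measurable F) :
    ∫⁻ g, F (co g) ∂mu ≤ ∫⁻ x, dens x * F x := by
  rw [lintegral_mu F hF]
  exact setLIntegral_le_lintegral _ _

lemma nu_map (L : E →ₗ[ℝ] E) (c : ℝ) (hc : 0 < c) (hL : |LinearMap.det L| = c ^ 3)
    (hd : ∀ x, |(Matrix.of (L x)).det| = c * |(Matrix.of x).det|) : MeasurePreserving L nu nu := by
  have hLm : Measurable L := L.continuous_of_finiteDimensional.measurable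
  have hL0 : LinearMap.det L ≠ 0 := by
    intro h; rw [h, abs_zero] at hL; exact (pow_pos hc 3).ne' hL.symm
  refine ⟨hLm, ?_⟩
  ext s hs
  rw [Measure.map_apply hLm hs, nu, withDensity_apply _ (hLm hs), withDensity_apply _ hs,
    ← lintegral_indicator (hLm hs), ← lintegral_indicator hs]
  have h1 : ∀ x, (L ⁻¹' s).indicator dens x =
      ENNReal.ofReal (c ^ 3) * (s.indicator dens) (L x) := by
    intro x
    by_cases hx : L x ∈ s
    · rw [indicator_of_mem hx, indicator_of_mem (show x ∈ L ⁻¹' s from hx), dens, dens, hd,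
        ← ENNReal.ofReal_mul (by positivity)]
      congr 1
      rw [mul_inv, mul_pow, ← mul_assoc, ← mul_pow, mul_inv_cancel₀ hc.ne', one_pow, one_mul]
    · rw [indicator_of_notMem hx, indicator_of_notMem (show x ∉ L ⁻¹' s from hx), mul_zero]
  simp_rw [h1]
  rw [lintegral_const_mul' _ _ ENNReal.ofReal_ne_top,
    ← lintegral_map (measurable_dens.indicator hs) hLm,
    Measure.map_linearMap_addHaar_eq_smul_addHaar _ hL0, lintegral_smul_measure, smul_eq_mul,
    ← mul_assoc, ← ENNReal.ofReal_mul (by positivity), abs_inv, hL,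
    mul_inv_cancel₀ (pow_pos hc 3).ne', ENNReal.ofReal_one, one_mul]

lemma mu_map (t : G → G) (ht : Measurable t) (L : E →ₗ[ℝ] E) (c : ℝ) (hc : 0 < c)
    (hL : |LinearMap.det L| = c ^ 3)
    (hd : ∀ x, |(Matrix.of (L x)).det| = c * |(Matrix.of x).det|)
    (hco : ∀ g, L (co g) = co (t g)) : MeasurePreserving t mu mu := by
  refine ⟨ht, ?_⟩
  ext s hs
  rw [Measure.map_apply ht hs, mu, measurableEmbedding_co.comap_apply,
    measurableEmbedding_co.comap_apply,
    ← (nu_map L c hc hL hd).measure_preimage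
      (measurableEmbedding_co.measurableSet_image' hs).nullMeasurableSet]
  congr 1
  ext x
  constructor
  · rintro ⟨g, hg, rfl⟩
    exact ⟨t g, hg, (hco g).symm⟩
  · rintro ⟨g, hg, hx⟩
    have hx0 : x ∈ range co := by
      rw [range_co]
      intro h0
      have h1 := hd x
      rw [h0, ← hx, abs_zero, mul_zero, abs_eq_zero] at h1
      exact Matrix.GeneralLinearGroup.det_ne_zero g h1
    obtain ⟨g', rfl⟩ := hx0
    refine ⟨g', ?_, rfl⟩
    rw [hco] at hx
    have := isOpenEmbedding_co.injective hx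
    rw [mem_preimage, ← this]
    exact hg

/-- transpose on `G` -/
def tr (g : G) : G :=
  ⟨g.val.transpose, (g⁻¹).val.transpose,
    by rw [← Matrix.transpose_mul, ← Units.val_mul, inv_mul_cancel, Units.val_one,
      Matrix.transpose_one],
    by rw [← Matrix.transpose_mul, ← Units.val_mul, mul_inv_cancel, Units.val_one,
      Matrix.transpose_one]⟩

@[simp] lemma val_tr (g : G) : (tr g).val = g.val.transpose := rfl

lemma tr_mul (g h : G) : tr (g * h) = tr h * tr g := by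
  apply Units.ext; simp [Matrix.transpose_mul]

@[simp] lemma tr_tr (g : G) : tr (tr g) = g := by
  apply Units.ext; simp

@[simp] lemma tr_one : tr 1 = 1 := by
  apply Units.ext; simp

lemma tr_inv (g : G) : tr g⁻¹ = (tr g)⁻¹ := by
  rw [eq_inv_iff_mul_eq_one, ← tr_mul, mul_inv_cancel, tr_one]

lemma continuous_tr : Continuous tr := by
  rw [isEmbedding_val.continuous_iff]
  exact Units.continuous_val.matrix_transpose

def rmul (h : Mat) : E →ₗ[ℝ] E :=
  LinearMap.pi fun i => (Matrix.vecMulLinear h).comp (LinearMap.proj i)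

lemma of_rmul (h : Mat) (x : E) : Matrix.of (rmul h x) = Matrix.of x * h := by
  ext i j
  simp [rmul, Matrix.mul_apply, Matrix.vecMul, dotProduct]

lemma det_rmul (h : Mat) : LinearMap.det (rmul h) = h.det ^ 3 := by
  rw [rmul, LinearMap.det_pi]
  have : Matrix.vecMulLinear h = Matrix.toLin' h.transpose := by
    ext i j
    simp
  simp [this, LinearMap.det_toLin']

def trE : E →ₗ[ℝ] E where
  toFun x := fun i j => x j i
  map_add' _ _ := rfl
  map_smul' _ _ := rfl

lemma det_trE : |LinearMap.det trE| = 1 := by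
  have h : trE.comp trE = LinearMap.id := rfl
  have h2 : LinearMap.det trE * LinearMap.det trE = 1 := by
    rw [← LinearMap.det_comp, h, LinearMap.det_id]
  have h3 : |LinearMap.det trE| * |LinearMap.det trE| = 1 := by rw [← abs_mul, h2, abs_one]
  nlinarith [abs_nonneg (LinearMap.det trE)]

lemma mp_tr : MeasurePreserving tr mu mu := by
  refine mu_map tr continuous_tr.measurable trE 1 one_pos (by rw [det_trE]; norm_num) ?_ ?_
  · intro x
    rw [one_mul, ← Matrix.det_transpose]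
    rfl
  · intro g; rfl

lemma mp_rmul (h : G) : MeasurePreserving (fun g => g * h) mu mu := by
  refine mu_map _ (continuous_mul_const h).measurable (rmul h.val) |h.val.det|
    (abs_pos.2 (Matrix.GeneralLinearGroup.det_ne_zero h)) (by rw [det_rmul, abs_pow]) ?_ ?_
  · intro x
    rw [of_rmul, Matrix.det_mul, abs_mul, mul_comm]
  · intro g
    exact of_rmul h.val (co g)

instance : mu.IsMulRightInvariant := ⟨fun h => (mp_rmul h).map_eq⟩

instance : mu.IsMulLeftInvariant := by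
  refine ⟨fun h => ?_⟩
  have : (fun g => h * g) = tr ∘ (fun g => g * tr h) ∘ tr := by
    ext1 g
    simp [tr_mul]
  rw [this]
  exact (mp_tr.comp ((mp_rmul (tr h)).comp mp_tr)).map_eq

instance : mu.IsOpenPosMeasure := by
  refine ⟨fun U hU hne h0 => ?_⟩
  rw [mu, measurableEmbedding_co.comap_apply, nu,
    withDensity_apply_eq_zero measurable_dens] at h0
  have hV : IsOpen (co '' U) := isOpenEmbedding_co.isOpenMap U hU
  have hsub : co '' U ⊆ {x | dens x ≠ 0} ∩ co '' U := by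
    rintro x ⟨g, hg, rfl⟩
    refine ⟨?_, g, hg, rfl⟩
    have : 0 < |(Matrix.of (co g)).det|⁻¹ ^ 3 := by
      have := abs_pos.2 (Matrix.GeneralLinearGroup.det_ne_zero g)
      rw [of_co]; positivity
    simpa [dens] using this
  exact hV.measure_ne_zero volume (hne.image _) (measure_mono_null hsub h0)

instance : IsFiniteMeasureOnCompacts mu := by
  refine ⟨fun K hK => ?_⟩
  have hK' : IsCompact (co '' K) := hK.image continuous_co
  rw [mu, measurableEmbedding_co.comap_apply, nu, withDensity_apply _ hK'.measurableSet]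
  have hc : Continuous fun g : G => |g.val.det|⁻¹ ^ 3 := by
    refine Continuous.pow (Continuous.inv₀ ?_ ?_) 3
    · exact Units.continuous_val.matrix_det.abs
    · intro g; exact (abs_pos.2 (Matrix.GeneralLinearGroup.det_ne_zero g)).ne'
  obtain ⟨C, hC⟩ := (hK.image hc).bddAbove
  calc ∫⁻ x in co '' K, dens x ≤ ∫⁻ _ in co '' K, ENNReal.ofReal C := by
        refine setLIntegral_mono measurable_const ?_
        rintro x ⟨g, hg, rfl⟩
        exact ENNReal.ofReal_le_ofReal (hC ⟨g, hg, rfl⟩)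
    _ < ∞ := by
        rw [setLIntegral_const]
        exact ENNReal.mul_lt_top ENNReal.ofReal_lt_top hK'.measure_lt_top

instance : mu.IsHaarMeasure := {}

instance : mu.IsInvInvariant := by
  obtain ⟨K, hK, hK1⟩ := exists_compact_mem_nhds (1 : G)
  have hKm : MeasurableSet K := hK.measurableSet
  have hpos : mu K ≠ 0 := (Measure.measure_pos_of_mem_nhds mu hK1).ne'
  have hfin : mu K ≠ ∞ := hK.measure_lt_top.ne
  refine ⟨?_⟩
  ext s hs
  rw [Measure.inv_apply]
  have hsi : MeasurableSet s⁻¹ := hs.inv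
  have hm : Measurable fun p : G × G =>
      K.indicator (1 : G → ℝ≥0∞) p.2 * s.indicator (1 : G → ℝ≥0∞) (p.2⁻¹ * p.1) :=
    ((measurable_one.indicator hKm).comp measurable_snd).mul
      ((measurable_one.indicator hs).comp (measurable_snd.inv.mul measurable_fst))
  have hm' : Measurable fun p : G × G =>
      K.indicator (1 : G → ℝ≥0∞) (p.1 * p.2) * s.indicator (1 : G → ℝ≥0∞) (p.2⁻¹) :=
    ((measurable_one.indicator hKm).comp (measurable_fst.mul measurable_snd)).mul
      ((measurable_one.indicator hs).comp measurable_snd.inv)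
  have h1 : ∫⁻ g, ∫⁻ h, K.indicator (1 : G → ℝ≥0∞) h * s.indicator (1 : G → ℝ≥0∞) (h⁻¹ * g)
      ∂mu ∂mu = mu K * mu s := by
    rw [lintegral_lintegral_swap hm.aemeasurable]
    have : ∀ h : G, ∫⁻ g, K.indicator (1 : G → ℝ≥0∞) h * s.indicator (1 : G → ℝ≥0∞) (h⁻¹ * g)
        ∂mu = K.indicator (1 : G → ℝ≥0∞) h * mu s := by
      intro h
      rw [lintegral_const_mul _ (f := fun g => s.indicator (1 : G → ℝ≥0∞) (h⁻¹ * g))
          ((measurable_one.indicator hs).comp (measurable_const_mul _)),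
        lintegral_mul_left_eq_self (fun g => s.indicator (1 : G → ℝ≥0∞) g),
        lintegral_indicator_one hs]
    simp_rw [this]
    rw [lintegral_mul_const _ (measurable_one.indicator hKm), lintegral_indicator_one hKm]
  have h2 : ∫⁻ g, ∫⁻ h, K.indicator (1 : G → ℝ≥0∞) h * s.indicator (1 : G → ℝ≥0∞) (h⁻¹ * g)
      ∂mu ∂mu = mu K * mu s⁻¹ := by
    have h3 : ∀ g : G, ∫⁻ h, K.indicator (1 : G → ℝ≥0∞) h * s.indicator (1 : G → ℝ≥0∞) (h⁻¹ * g)
        ∂mu = ∫⁻ h, K.indicator (1 : G → ℝ≥0∞) (g * h) * s.indicator (1 : G → ℝ≥0∞) (h⁻¹) ∂mu := by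
      intro g
      rw [← lintegral_mul_left_eq_self _ g]
      simp
    simp_rw [h3]
    rw [lintegral_lintegral_swap hm'.aemeasurable]
    have : ∀ h : G, ∫⁻ g, K.indicator (1 : G → ℝ≥0∞) (g * h) * s.indicator (1 : G → ℝ≥0∞) (h⁻¹)
        ∂mu = mu K * (s⁻¹).indicator (1 : G → ℝ≥0∞) h := by
      intro h
      rw [lintegral_mul_const _ (f := fun g => K.indicator (1 : G → ℝ≥0∞) (g * h))
          ((measurable_one.indicator hKm).comp (measurable_mul_const _)),
        lintegral_mul_right_eq_self (fun g => K.indicator (1 : G → ℝ≥0∞) g),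
        lintegral_indicator_one hKm]
      rfl
    simp_rw [this]
    rw [lintegral_const_mul _ (measurable_one.indicator hsi), lintegral_indicator_one hsi]
  exact ((ENNReal.mul_right_inj hpos hfin).1 (h1.symm.trans h2)).symm

/-- the outer automorphism -/
def du (g : G) : G := (tr g)⁻¹

lemma du_mul (g h : G) : du (g * h) = du g * du h := by
  simp [du, tr_mul]

@[simp] lemma du_du (g : G) : du (du g) = g := by
  simp [du, tr_inv]

@[simp] lemma du_one : du 1 = 1 := by simp [du]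

lemma du_inv (g : G) : du g⁻¹ = (du g)⁻¹ := by simp [du, tr_inv]

lemma continuous_du : Continuous du := continuous_tr.inv

lemma mp_du : MeasurePreserving du mu mu := (Measure.measurePreserving_inv mu).comp mp_tr

def duEquiv : G ≃ᵐ G where
  toFun := du
  invFun := du
  left_inv := du_du
  right_inv := du_du
  measurable_toFun := continuous_du.measurable
  measurable_invFun := continuous_du.measurable

lemma lintegral_du (f : G → ℝ≥0∞) : ∫⁻ g, f (du g) ∂mu = ∫⁻ g, f g ∂mu :=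
  MeasurePreserving.lintegral_comp_emb (g := duEquiv) mp_du duEquiv.measurableEmbedding f

lemma integral_du (f : G → ℂ) : ∫ g, f (du g) ∂mu = ∫ g, f g ∂mu :=
  MeasurePreserving.integral_comp (f := duEquiv) mp_du duEquiv.measurableEmbedding f

end Pool.Agent.Lib.MP_fa98d2_nt
end
end

-- part Pool.Agent.Lib.MP_fa98d2_nt.Weights
section

/- Weights (measurable partitions of unity along families of left translations). -/

open MeasureTheory Matrix Set Topology
open scoped ENNReal MatrixGroups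

noncomputable section

namespace Pool.Agent.Lib.MP_fa98d2_nt

section cont
variable {X : Type} [MeasurableSpace X] {ν : Measure X} {a : X → G}

def InvC (ν : Measure X) (a : X → G) : Prop :=
  ∀ f : G → ℝ≥0∞, Measurable f → ∫⁻ x, f (a x)⁻¹ ∂ν = ∫⁻ x, f (a x) ∂ν

lemma wt_indep [SFinite ν] (ha : Measurable a) (hi : InvC ν a) {β β' F : G → ℝ≥0∞}
    (hβ : Measurable β) (hβ' : Measurable β') (hF : Measurable F) {c : ℝ≥0∞}
    (h1 : ∀ g, ∫⁻ x, β (a x * g) ∂ν = 1) (h2 : ∀ g, ∫⁻ x, β' (a x * g) ∂ν = c)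
    (hinv : ∀ x g, F (a x * g) = F g) :
    ∫⁻ g, β' g * F g ∂mu = c * ∫⁻ g, β g * F g ∂mu := by
  have m1 : Measurable fun p : G × X => β' p.1 * F p.1 * β (a p.2 * p.1) :=
    ((hβ'.comp measurable_fst).mul (hF.comp measurable_fst)).mul
      (hβ.comp ((ha.comp measurable_snd).mul measurable_fst))
  have m2 : Measurable fun p : X × G => β' ((a p.1)⁻¹ * p.2) * (β p.2 * F p.2) :=
    (hβ'.comp ((ha.comp measurable_fst).inv.mul measurable_snd)).mul
      ((hβ.comp measurable_snd).mul (hF.comp measurable_snd))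
  calc ∫⁻ g, β' g * F g ∂mu = ∫⁻ g, ∫⁻ x, β' g * F g * β (a x * g) ∂ν ∂mu := by
        refine lintegral_congr fun g => ?_
        rw [lintegral_const_mul _ (f := fun x => β (a x * g)) (hβ.comp (ha.mul_const g)), h1,
          mul_one]
    _ = ∫⁻ x, ∫⁻ g, β' g * F g * β (a x * g) ∂mu ∂ν := lintegral_lintegral_swap m1.aemeasurable
    _ = ∫⁻ x, ∫⁻ g, β' ((a x)⁻¹ * g) * (β g * F g) ∂mu ∂ν := by
        refine lintegral_congr fun x => ?_
        rw [← lintegral_mul_left_eq_self _ (a x)⁻¹]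
        refine lintegral_congr fun g => ?_
        have : F ((a x)⁻¹ * g) = F g := by
          rw [← hinv x ((a x)⁻¹ * g), mul_inv_cancel_left]
        rw [this, mul_inv_cancel_left]; ring
    _ = ∫⁻ g, ∫⁻ x, β' ((a x)⁻¹ * g) * (β g * F g) ∂ν ∂mu :=
        lintegral_lintegral_swap m2.aemeasurable
    _ = ∫⁻ g, c * (β g * F g) ∂mu := by
        refine lintegral_congr fun g => ?_
        rw [lintegral_mul_const _ (f := fun x => β' ((a x)⁻¹ * g))
          (hβ'.comp (ha.inv.mul_const g)), hi (fun y => β' (y * g)) (hβ'.comp (measurable_mul_const g)),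
          h2]
    _ = c * ∫⁻ g, β g * F g ∂mu := lintegral_const_mul _ (hβ.mul hF)

end cont

section disc
variable {ι : Type} {a : ι → G}

def DWt (a : ι → G) (β : G → ℝ≥0∞) : Prop := ∀ g, ∑' i, β (a i * g) = 1

def DInv (a : ι → G) : Prop := ∀ f : G → ℝ≥0∞, ∑' i, f (a i)⁻¹ = ∑' i, f (a i)

lemma DInv.of_equiv (e : ι ≃ ι) (he : ∀ i, a (e i) = (a i)⁻¹) : DInv a := by
  intro f
  rw [← e.tsum_eq (fun i => f (a i))]
  simp_rw [he]

lemma dwt_indep' [Countable ι] (hi : DInv a) {β β' F : G → ℝ≥0∞}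
    (hβ : Measurable β) (hβ' : Measurable β') (hF : Measurable F) {c : ℝ≥0∞}
    (h1 : DWt a β) (h2 : ∀ g, ∑' i, β' (a i * g) = c) (hinv : ∀ i g, F (a i * g) = F g) :
    ∫⁻ g, β' g * F g ∂mu = c * ∫⁻ g, β g * F g ∂mu := by
  let _ : MeasurableSpace ι := ⊤
  refine wt_indep (ν := Measure.count) (a := a) measurable_from_top ?_ hβ hβ' hF ?_ ?_ hinv
  · intro f _
    rw [lintegral_count, lintegral_count, hi f]
  · intro g; rw [lintegral_count, h1 g]
  · intro g; rw [lintegral_count, h2 g]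

lemma dwt_indep [Countable ι] (hi : DInv a) {β β' F : G → ℝ≥0∞}
    (hβ : Measurable β) (hβ' : Measurable β') (hF : Measurable F)
    (h1 : DWt a β) (h2 : DWt a β') (hinv : ∀ i g, F (a i * g) = F g) :
    ∫⁻ g, β' g * F g ∂mu = ∫⁻ g, β g * F g ∂mu := by
  rw [dwt_indep' hi hβ hβ' hF h1 h2 hinv, one_mul]

/-- the full integral in terms of a weight -/
lemma lintegral_eq_wt [Countable ι] (hi : DInv a) {β f : G → ℝ≥0∞}
    (hβ : Measurable β) (hf : Measurable f) (h1 : DWt a β) :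
    ∫⁻ g, f g ∂mu = ∫⁻ g, β g * ∑' i, f (a i * g) ∂mu := by
  calc ∫⁻ g, f g ∂mu = ∫⁻ g, ∑' i, β ((a i)⁻¹ * g) * f g ∂mu := by
        refine lintegral_congr fun g => ?_
        rw [ENNReal.tsum_mul_right, hi (fun y => β (y * g)), h1 g, one_mul]
    _ = ∑' i, ∫⁻ g, β ((a i)⁻¹ * g) * f g ∂mu :=
        lintegral_tsum fun i => ((hβ.comp (measurable_const_mul _)).mul hf).aemeasurable
    _ = ∑' i, ∫⁻ g, β g * f (a i * g) ∂mu := by
        refine tsum_congr fun i => ?_
        rw [← lintegral_mul_left_eq_self _ (a i)]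
        simp
    _ = ∫⁻ g, ∑' i, β g * f (a i * g) ∂mu :=
        (lintegral_tsum fun i => (hβ.mul (hf.comp (measurable_const_mul _))).aemeasurable).symm
    _ = _ := by simp_rw [ENNReal.tsum_mul_left]

variable {κ V : Type} {c : κ → G} {s : V → G}

/-- the sub-weight -/
def subWt (s : V → G) (β : G → ℝ≥0∞) (g : G) : ℝ≥0∞ := ∑' v, β ((s v)⁻¹ * g)

lemma measurable_subWt [Countable V] {β : G → ℝ≥0∞} (hβ : Measurable β) :
    Measurable (subWt s β) :=
  Measurable.tsum fun _ => hβ.comp (measurable_const_mul _)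

lemma subWt_dwt (hc : DInv c) (hi : DInv a)
    (hE : ∀ f : G → ℝ≥0∞, ∑' k, f (c k) = ∑' v, ∑' i, f (a i * s v))
    {β : G → ℝ≥0∞} (h1 : DWt c β) : DWt a (subWt s β) := by
  intro g
  rw [← hi (fun y => subWt s β (y * g))]
  simp only [subWt]
  rw [ENNReal.tsum_comm, ← h1 g, ← hc (fun y => β (y * g)), hE (fun y => β (y⁻¹ * g))]
  simp [mul_assoc]

lemma unfold_sub [Countable V] {β F : G → ℝ≥0∞} (hβ : Measurable β) (hF : Measurable F) :
    ∫⁻ g, β g * ∑' v, F (s v * g) ∂mu = ∫⁻ g, subWt s β g * F g ∂mu := by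
  simp_rw [subWt, ← ENNReal.tsum_mul_left, ← ENNReal.tsum_mul_right]
  rw [lintegral_tsum (f := fun v g => β g * F (s v * g))
      fun v => (hβ.mul (hF.comp (measurable_const_mul _))).aemeasurable,
    lintegral_tsum (f := fun v g => β ((s v)⁻¹ * g) * F g)
      fun v => ((hβ.comp (measurable_const_mul _)).mul hF).aemeasurable]
  refine tsum_congr fun v => ?_
  rw [← lintegral_mul_left_eq_self _ (s v)⁻¹]
  simp

lemma unfold [Countable V] [Countable ι] (hc : DInv c) (hi : DInv a)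
    (hE : ∀ f : G → ℝ≥0∞, ∑' k, f (c k) = ∑' v, ∑' i, f (a i * s v))
    {β β' F : G → ℝ≥0∞} (hβ : Measurable β) (hβ' : Measurable β') (hF : Measurable F)
    (h1 : DWt c β) (h2 : DWt a β') (hinv : ∀ i g, F (a i * g) = F g) :
    ∫⁻ g, β g * ∑' v, F (s v * g) ∂mu = ∫⁻ g, β' g * F g ∂mu := by
  rw [unfold_sub hβ hF]
  exact dwt_indep hi hβ' (measurable_subWt hβ) hF h2 (subWt_dwt hc hi hE h1) hinv

/-- averaging over a box -/
lemma avg [Countable ι] (hi : DInv a) {X : Type} [MeasurableSpace X] {ν : Measure X}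
    [IsProbabilityMeasure ν] {u : X → G} (hu : Measurable u)
    (ht : ∀ f : G → ℝ≥0∞, Measurable f →
      ∫⁻ x, ∑' i, f ((u x)⁻¹ * a i) ∂ν = ∫⁻ x, ∑' i, f (a i * u x) ∂ν)
    {β F : G → ℝ≥0∞} (hβ : Measurable β) (hF : Measurable F)
    (h1 : DWt a β) (hinv : ∀ i g, F (a i * g) = F g) :
    ∫⁻ g, β g * F g ∂mu = ∫⁻ g, β g * ∫⁻ x, F (u x * g) ∂ν ∂mu := by
  have m0 : Measurable fun p : G × X => β ((u p.2)⁻¹ * p.1) :=
    hβ.comp ((hu.comp measurable_snd).inv.mul measurable_fst)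
  have hb : Measurable fun g => ∫⁻ x, β ((u x)⁻¹ * g) ∂ν := m0.lintegral_prod_right'
  have hw : DWt a fun g => ∫⁻ x, β ((u x)⁻¹ * g) ∂ν := by
    intro g
    have := ht (fun y => β (y * g)) (hβ.comp (measurable_mul_const g))
    simp only [mul_assoc] at this
    rw [← lintegral_tsum (f := fun i x => β ((u x)⁻¹ * (a i * g)))
      fun i => (hβ.comp (hu.inv.mul_const _)).aemeasurable, this]
    simp_rw [h1 _]
    simp
  rw [← dwt_indep hi hβ hb hF h1 hw hinv]
  have m1 : Measurable fun p : G × X => β ((u p.2)⁻¹ * p.1) * F p.1 :=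
    m0.mul (hF.comp measurable_fst)
  have m2 : Measurable fun p : X × G => β p.2 * F (u p.1 * p.2) :=
    (hβ.comp measurable_snd).mul (hF.comp ((hu.comp measurable_fst).mul measurable_snd))
  calc ∫⁻ g, (∫⁻ x, β ((u x)⁻¹ * g) ∂ν) * F g ∂mu
      = ∫⁻ g, ∫⁻ x, β ((u x)⁻¹ * g) * F g ∂ν ∂mu := by
        refine lintegral_congr fun g => ?_
        rw [lintegral_mul_const _ (f := fun x => β ((u x)⁻¹ * g)) (hβ.comp (hu.inv.mul_const g))]
    _ = ∫⁻ x, ∫⁻ g, β ((u x)⁻¹ * g) * F g ∂mu ∂ν := lintegral_lintegral_swap m1.aemeasurable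
    _ = ∫⁻ x, ∫⁻ g, β g * F (u x * g) ∂mu ∂ν := by
        refine lintegral_congr fun x => ?_
        rw [← lintegral_mul_left_eq_self _ (u x)]
        simp
    _ = ∫⁻ g, ∫⁻ x, β g * F (u x * g) ∂ν ∂mu := lintegral_lintegral_swap m2.aemeasurable
    _ = _ := by
        refine lintegral_congr fun g => ?_
        rw [lintegral_const_mul _ (f := fun x => F (u x * g)) (hF.comp (hu.mul_const g))]

end disc

end Pool.Agent.Lib.MP_fa98d2_nt
end
end

-- part Pool.Agent.Lib.MP_fa98d2_nt.Elems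
section

/- Explicit elements of GL(3,R), the determinant shell. -/

open MeasureTheory Matrix Set Topology
open scoped ENNReal MatrixGroups

noncomputable section

namespace Pool.Agent.Lib.MP_fa98d2_nt

def mkG (A : Mat) : G :=
  if h : A.det ≠ 0 then Matrix.GeneralLinearGroup.mkOfDetNeZero A h else 1

lemma val_mkG {A : Mat} (h : A.det ≠ 0) : (mkG A).val = A := by
  rw [mkG, dif_pos h]; rfl

lemma mkG_val (g : G) : mkG g.val = g :=
  Units.ext (val_mkG (Matrix.GeneralLinearGroup.det_ne_zero g))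

/-- upper unipotent element -/
def nn (x y z : ℝ) : G := mkG !![1, x, z; 0, 1, y; 0, 0, 1]

@[simp] lemma val_nn (x y z : ℝ) : (nn x y z).val = !![1, x, z; 0, 1, y; 0, 0, 1] :=
  val_mkG (by simp [Matrix.det_fin_three])

lemma nn_mul (a b c x y z : ℝ) : nn a b c * nn x y z = nn (a + x) (b + y) (c + z + a * y) := by
  apply Units.ext
  simp only [Units.val_mul, val_nn]
  ext i j
  fin_cases i <;> fin_cases j <;> simp [Matrix.mul_apply, Fin.sum_univ_three] <;> ring

@[simp] lemma nn_zero : nn 0 0 0 = 1 := by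
  apply Units.ext
  simp only [val_nn, Units.val_one]
  ext i j
  fin_cases i <;> fin_cases j <;> simp

lemma nn_inv (x y z : ℝ) : (nn x y z)⁻¹ = nn (-x) (-y) (x * y - z) := by
  rw [inv_eq_iff_mul_eq_one, nn_mul]
  convert nn_zero using 2 <;> ring

lemma continuous_nn {α : Type*} [TopologicalSpace α] {x y z : α → ℝ} (hx : Continuous x)
    (hy : Continuous y) (hz : Continuous z) : Continuous fun t => nn (x t) (y t) (z t) := by
  rw [isEmbedding_val.continuous_iff]
  simp only [Function.comp_def, val_nn]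
  refine continuous_matrix fun i j => ?_
  fin_cases i <;> fin_cases j <;> simp <;> fun_prop

/-- diagonal element -/
def dg (a b c : ℝ) : G := mkG !![a, 0, 0; 0, b, 0; 0, 0, c]

lemma val_dg {a b c : ℝ} (ha : a ≠ 0) (hb : b ≠ 0) (hc : c ≠ 0) :
    (dg a b c).val = !![a, 0, 0; 0, b, 0; 0, 0, c] :=
  val_mkG (by simp [Matrix.det_fin_three, ha, hb, hc])

lemma dg_mul {a b c a' b' c' : ℝ} (ha : a ≠ 0) (hb : b ≠ 0) (hc : c ≠ 0)
    (ha' : a' ≠ 0) (hb' : b' ≠ 0) (hc' : c' ≠ 0) :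
    dg a b c * dg a' b' c' = dg (a * a') (b * b') (c * c') := by
  apply Units.ext
  simp only [Units.val_mul, val_dg ha hb hc, val_dg ha' hb' hc',
    val_dg (mul_ne_zero ha ha') (mul_ne_zero hb hb') (mul_ne_zero hc hc')]
  ext i j
  fin_cases i <;> fin_cases j <;> simp [Matrix.mul_apply, Fin.sum_univ_three]

@[simp] lemma dg_one : dg 1 1 1 = 1 := by
  apply Units.ext
  simp only [val_dg one_ne_zero one_ne_zero one_ne_zero, Units.val_one]
  ext i j
  fin_cases i <;> fin_cases j <;> simp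

lemma dg_inv {a b c : ℝ} (ha : a ≠ 0) (hb : b ≠ 0) (hc : c ≠ 0) :
    (dg a b c)⁻¹ = dg a⁻¹ b⁻¹ c⁻¹ := by
  rw [inv_eq_iff_mul_eq_one, dg_mul ha hb hc (inv_ne_zero ha) (inv_ne_zero hb) (inv_ne_zero hc),
    mul_inv_cancel₀ ha, mul_inv_cancel₀ hb, mul_inv_cancel₀ hc, dg_one]

lemma dg_mul_nn {a b c : ℝ} (ha : a ≠ 0) (hb : b ≠ 0) (hc : c ≠ 0) (x y z : ℝ) :
    dg a b c * nn x y z = nn (a / b * x) (b / c * y) (a / c * z) * dg a b c := by
  apply Units.ext
  simp only [Units.val_mul, val_dg ha hb hc, val_nn]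
  ext i j
  fin_cases i <;> fin_cases j <;> simp [Matrix.mul_apply, Fin.sum_univ_three] <;> field_simp

/-- scalar element -/
def sc (t : ℝ) : G := dg t t t

lemma val_sc {t : ℝ} (ht : t ≠ 0) : (sc t).val = t • (1 : Mat) := by
  rw [sc, val_dg ht ht ht]
  ext i j
  fin_cases i <;> fin_cases j <;> simp

lemma val_sc_mul {t : ℝ} (ht : t ≠ 0) (g : G) : (sc t * g).val = t • g.val := by
  rw [Units.val_mul, val_sc ht, Matrix.smul_mul, Matrix.one_mul]

lemma sc_comm {t : ℝ} (ht : t ≠ 0) (g : G) : sc t * g = g * sc t := by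
  apply Units.ext
  rw [val_sc_mul ht, Units.val_mul, val_sc ht, Matrix.mul_smul, Matrix.mul_one]

lemma sc_inv {t : ℝ} (ht : t ≠ 0) : (sc t)⁻¹ = sc t⁻¹ := dg_inv ht ht ht

/-- absolute value of the determinant -/
def dt (g : G) : ℝ := |g.val.det|

lemma dt_pos (g : G) : 0 < dt g := abs_pos.2 (Matrix.GeneralLinearGroup.det_ne_zero g)

lemma dt_mul (g h : G) : dt (g * h) = dt g * dt h := by
  simp [dt, Matrix.det_mul, abs_mul]

@[simp] lemma dt_one : dt 1 = 1 := by simp [dt]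

lemma dt_inv (g : G) : dt g⁻¹ = (dt g)⁻¹ := by
  have := dt_mul g⁻¹ g
  rw [inv_mul_cancel, dt_one] at this
  exact eq_inv_of_mul_eq_one_left this.symm

@[simp] lemma dt_tr (g : G) : dt (tr g) = dt g := by simp [dt]

lemma dt_du (g : G) : dt (du g) = (dt g)⁻¹ := by rw [du, dt_inv, dt_tr]

@[simp] lemma dt_nn (x y z : ℝ) : dt (nn x y z) = 1 := by simp [dt, Matrix.det_fin_three]

lemma dt_dg {a b c : ℝ} (ha : a ≠ 0) (hb : b ≠ 0) (hc : c ≠ 0) :
    dt (dg a b c) = |a * b * c| := by simp [dt, val_dg ha hb hc, Matrix.det_fin_three]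

lemma dt_sc {t : ℝ} (ht : 0 < t) : dt (sc t) = t ^ 3 := by
  rw [sc, dt_dg ht.ne' ht.ne' ht.ne', abs_of_pos (by positivity)]; ring

lemma continuous_dt : Continuous dt := Units.continuous_val.matrix_det.abs

/-- integral matrices -/
def io : SL(3, ℤ) →* G := Matrix.SpecialLinearGroup.mapGL ℝ

lemma val_io (γ : SL(3, ℤ)) : (io γ).val = γ.val.map (Int.cast : ℤ → ℝ) := rfl

@[simp] lemma dt_io (γ : SL(3, ℤ)) : dt (io γ) = 1 := by
  have : (io γ).val.det = ((γ.val.det : ℤ) : ℝ) := by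
    rw [val_io]
    exact ((Int.castRingHom ℝ).map_det γ.val).symm
  rw [dt, this, γ.det_coe]; simp

lemma dinv_io : DInv io := DInv.of_equiv (Equiv.inv _) fun i => by simp

instance : Countable SL(3, ℤ) :=
  inferInstanceAs (Countable {A : Fin 3 → Fin 3 → ℤ // (Matrix.of A).det = 1})

instance : Countable SL(2, ℤ) :=
  inferInstanceAs (Countable {A : Fin 2 → Fin 2 → ℤ // (Matrix.of A).det = 1})

/-- the shell -/
def Sh (c : ℝ) (g : G) : ℝ≥0∞ := if c ≤ dt g ∧ dt g ≤ 2 * c then 1 else 0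

lemma measurable_Sh (c : ℝ) : Measurable (Sh c) := by
  refine Measurable.ite ?_ measurable_const measurable_const
  exact (measurableSet_le measurable_const continuous_dt.measurable).inter
    (measurableSet_le continuous_dt.measurable measurable_const)

lemma Sh_mul_of_dt {c : ℝ} {a : G} (ha : dt a = 1) (g : G) : Sh c (a * g) = Sh c g := by
  simp [Sh, dt_mul, ha]

lemma Sh_mul_left (c : ℝ) (a g : G) : Sh (c * dt a) (a * g) = Sh c g := by
  have := dt_pos a
  unfold Sh
  rw [dt_mul]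
  congr 1
  apply propext
  constructor
  · rintro ⟨h1, h2⟩; constructor <;> nlinarith
  · rintro ⟨h1, h2⟩; constructor <;> nlinarith

lemma Sh_mul_right (c : ℝ) (a g : G) : Sh (c * dt a) (g * a) = Sh c g := by
  rw [← Sh_mul_left c a g]
  simp [Sh, dt_mul, mul_comm]

lemma Sh_le_one (c : ℝ) (g : G) : Sh c g ≤ 1 := by
  unfold Sh; split_ifs <;> simp

lemma Sh_du (g : G) : Sh 1 (du g) = Sh (1 / 2) g := by
  have := dt_pos g
  unfold Sh
  rw [dt_du]
  congr 1
  apply propext
  rw [one_le_inv₀ this, inv_le_comm₀ this (by norm_num)]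
  constructor
  · rintro ⟨h1, h2⟩; constructor <;> linarith
  · rintro ⟨h1, h2⟩; constructor <;> linarith

lemma exists_cube {c : ℝ} (hc : 0 < c) : ∃ t : ℝ, 0 < t ∧ t ^ 3 = c :=
  ⟨c ^ ((3 : ℕ) : ℝ)⁻¹, Real.rpow_pos_of_pos hc _, Real.rpow_inv_natCast_pow hc.le (by norm_num)⟩

/-- shifting the shell, continuous family -/
lemma shift_cont {X : Type} [MeasurableSpace X] {ν : Measure X} [SFinite ν] {a : X → G}
    (ha : Measurable a) (hi : InvC ν a) (hd : ∀ x, dt (a x) = 1) {β F : G → ℝ≥0∞}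
    (hβ : Measurable β) (hF : Measurable F) (h1 : ∀ g, ∫⁻ x, β (a x * g) ∂ν = 1)
    (hinv : ∀ x g, F (a x * g) = F g) (hz : ∀ t : ℝ, 0 < t → ∀ g, F (sc t * g) = F g)
    {c : ℝ} (hc : 0 < c) :
    ∫⁻ g, β g * (Sh c g * F g) ∂mu = ∫⁻ g, β g * (Sh 1 g * F g) ∂mu := by
  obtain ⟨t, ht, htc⟩ := exists_cube hc
  rw [← lintegral_mul_left_eq_self _ (sc t)]
  have h2 : ∀ g, Sh c (sc t * g) = Sh 1 g := by
    intro g
    rw [← Sh_mul_left 1 (sc t) g, dt_sc ht, htc, one_mul]
  simp_rw [h2, hz t ht]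
  rw [wt_indep (β' := fun g => β (sc t * g)) (F := fun g => Sh 1 g * F g) (c := 1) ha hi hβ
    (hβ.comp (measurable_const_mul _)) ((measurable_Sh 1).mul hF) h1 ?_ ?_, one_mul]
  · intro g
    have := h1 (sc t * g)
    simp_rw [← mul_assoc, ← sc_comm ht.ne'] at this ⊢
    exact this
  · intro x g
    simp only [hinv, Sh_mul_of_dt (hd x)]

/-- shifting the shell, discrete family -/
lemma shift_disc {ι : Type} [Countable ι] {a : ι → G}
    (hi : DInv a) (hd : ∀ x, dt (a x) = 1) {β F : G → ℝ≥0∞}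
    (hβ : Measurable β) (hF : Measurable F) (h1 : DWt a β)
    (hinv : ∀ x g, F (a x * g) = F g) (hz : ∀ t : ℝ, 0 < t → ∀ g, F (sc t * g) = F g)
    {c : ℝ} (hc : 0 < c) :
    ∫⁻ g, β g * (Sh c g * F g) ∂mu = ∫⁻ g, β g * (Sh 1 g * F g) ∂mu := by
  let _ : MeasurableSpace ι := ⊤
  refine shift_cont (ν := Measure.count) (a := a) measurable_from_top ?_ hd hβ hF ?_ hinv hz hc
  · intro f _
    rw [lintegral_count, lintegral_count, hi f]
  · intro g; rw [lintegral_count, h1 g]

end Pool.Agent.Lib.MP_fa98d2_nt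
end
end

-- part Pool.Agent.Lib.MP_fa98d2_nt.Param
section

/- Parametrisations of the arithmetic groups. -/

open MeasureTheory Matrix Set Topology
open scoped ENNReal MatrixGroups

noncomputable section

namespace Pool.Agent.Lib.MP_fa98d2_nt

abbrev Prim (n : ℕ) : Type := {v : Fin n → ℤ // ∃ u : Fin n → ℤ, u ⬝ᵥ v = 1}

lemma prim_bij (n : ℕ) : Function.Bijective
    (fun p : ℕ+ × Prim n => (⟨((p.1 : ℕ) : ℤ) • p.2.1, by
      obtain ⟨u, hu⟩ := p.2.2
      intro h0
      have : ((p.1 : ℕ) : ℤ) * (u ⬝ᵥ p.2.1) = 0 := by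
        rw [← smul_eq_mul, ← dotProduct_smul, h0, dotProduct_zero]
      rw [hu, mul_one] at this
      exact p.1.ne_zero (by exact_mod_cast this)⟩ : {v : Fin n → ℤ // v ≠ 0})) := by
  constructor
  · rintro ⟨k, v, u, hu⟩ ⟨k', v', u', hu'⟩ h
    have h1 : ((k : ℕ) : ℤ) • v = ((k' : ℕ) : ℤ) • v' := congrArg Subtype.val h
    have d1 : ((k' : ℕ) : ℤ) ∣ ((k : ℕ) : ℤ) := by
      refine ⟨u ⬝ᵥ v', ?_⟩
      rw [← smul_eq_mul, ← dotProduct_smul, ← h1, dotProduct_smul, hu, smul_eq_mul, mul_one]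
    have d2 : ((k : ℕ) : ℤ) ∣ ((k' : ℕ) : ℤ) := by
      refine ⟨u' ⬝ᵥ v, ?_⟩
      rw [← smul_eq_mul, ← dotProduct_smul, h1, dotProduct_smul, hu', smul_eq_mul, mul_one]
    have hk : k = k' := PNat.eq (Nat.dvd_antisymm (Int.natCast_dvd_natCast.1 d2)
      (Int.natCast_dvd_natCast.1 d1))
    subst hk
    have hk0 : ((k : ℕ) : ℤ) ≠ 0 := by exact_mod_cast k.ne_zero
    have : v = v' := smul_right_injective _ hk0 h1
    subst this
    rfl
  · rintro ⟨v, hv⟩
    obtain ⟨f, hf⟩ := Finset.gcd_eq_sum_mul Finset.univ v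
    set d : ℤ := Finset.univ.gcd v with hd
    have hdv : ∀ i, d ∣ v i := fun i => Finset.gcd_dvd (Finset.mem_univ i)
    have hd0 : d ≠ 0 := by
      intro h0
      apply hv
      ext i
      have := hdv i
      rw [h0, zero_dvd_iff] at this
      exact this
    have hdn : 0 ≤ d := by
      have := Finset.normalize_gcd (s := Finset.univ) (f := v)
      rw [← hd] at this
      rw [← this, ← Int.abs_eq_normalize]
      exact abs_nonneg _
    choose w hw using hdv
    have hpos : 0 < d.toNat := by omega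
    refine ⟨(⟨d.toNat, hpos⟩, ⟨w, f, ?_⟩), ?_⟩
    · apply mul_left_cancel₀ hd0
      rw [mul_one]
      conv_rhs => rw [hf]
      simp only [dotProduct, Finset.mul_sum]
      refine Finset.sum_congr rfl fun i _ => ?_
      rw [hw i]; ring
    · apply Subtype.ext
      ext i
      simp only [PNat.mk_coe, Pi.smul_apply, smul_eq_mul]
      rw [Int.toNat_of_nonneg hdn, ← hw i]

lemma tsum_prim (n : ℕ) (F : (Fin n → ℤ) → ℝ≥0∞) :
    ∑' v, F v = F 0 + ∑' k : ℕ+, ∑' v : Prim n, F (((k : ℕ) : ℤ) • v.1) := by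
  classical
  rw [ENNReal.tsum_eq_add_tsum_ite 0,
    ← ENNReal.tsum_prod' (f := fun p : ℕ+ × Prim n => F (((p.1 : ℕ) : ℤ) • p.2.1))]
  congr 1
  have := (Equiv.ofBijective _ (prim_bij n)).tsum_eq (fun v => F v.1)
  simp only [Equiv.ofBijective_apply] at this
  rw [this]
  refine Eq.trans ?_ (tsum_subtype {v : Fin n → ℤ | v ≠ 0} F).symm
  refine tsum_congr fun v => ?_
  by_cases hv : v = 0 <;> simp [hv]

lemma bij_coset {Γ V V' ι : Type} [Group Γ] (r : Γ → V) (p : ι → Γ) (s : V' → Γ) (e : V' → V)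
    (he : Function.Injective e) (hs : ∀ v, r (s v) = e v) (hp : ∀ i γ, r (p i * γ) = r γ)
    (hpi : Function.Injective p) (hsurj : ∀ γ, ∃ v, r γ = e v)
    (hstab : ∀ γ δ, r γ = r δ → ∃ i, γ * δ⁻¹ = p i) :
    Function.Bijective fun q : V' × ι => p q.2 * s q.1 := by
  constructor
  · rintro ⟨v, i⟩ ⟨v', i'⟩ h
    simp only at h
    have hv : v = v' := he (by rw [← hs, ← hs, ← hp i, h, hp])
    subst hv
    rw [hpi (mul_right_cancel h)]
  · intro γ
    obtain ⟨v, hv⟩ := hsurj γ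
    obtain ⟨i, hi⟩ := hstab γ (s v) (by rw [hv, hs])
    exact ⟨(v, i), by simp [← hi]⟩

lemma row_prim {n : ℕ} (γ : SL(n, ℤ)) (i : Fin n) : ∃ u : Fin n → ℤ, u ⬝ᵥ γ.val i = 1 := by
  refine ⟨fun j => (γ⁻¹).val j i, ?_⟩
  have : (γ * γ⁻¹).val i i = 1 := by simp
  rw [Matrix.SpecialLinearGroup.coe_mul, Matrix.mul_apply] at this
  rw [dotProduct_comm]
  exact this

lemma row_mul_inv {n : ℕ} (γ δ : SL(n, ℤ)) (i : Fin n) (h : γ.val i = δ.val i) (j : Fin n) :
    (γ * δ⁻¹).val i j = (1 : Matrix (Fin n) (Fin n) ℤ) i j := by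
  have : (δ * δ⁻¹).val i j = (1 : Matrix (Fin n) (Fin n) ℤ) i j := by simp
  rw [← this, Matrix.SpecialLinearGroup.coe_mul, Matrix.SpecialLinearGroup.coe_mul,
    Matrix.mul_apply, Matrix.mul_apply, h]

def unZ (a b c : ℤ) : SL(3, ℤ) := ⟨!![1, a, c; 0, 1, b; 0, 0, 1], by simp [Matrix.det_fin_three]⟩

lemma io_unZ (a b c : ℤ) : io (unZ a b c) = nn a b c := by
  apply Units.ext
  rw [val_io, val_nn]
  ext i j
  fin_cases i <;> fin_cases j <;> simp [unZ]

def pZ (h : SL(2, ℤ)) (u0 u1 : ℤ) : SL(3, ℤ) :=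
  ⟨!![h.val 0 0, h.val 0 1, u0; h.val 1 0, h.val 1 1, u1; 0, 0, 1], by
    have := h.det_coe
    rw [Matrix.det_fin_two] at this
    simp [Matrix.det_fin_three, this]⟩

def tZ (a : ℤ) : SL(2, ℤ) := ⟨!![1, a; 0, 1], by simp [Matrix.det_fin_two]⟩

def emb (h : SL(2, ℤ)) : G := io (pZ h 0 0)

lemma pZ_mul (h h' : SL(2, ℤ)) (u0 u1 u0' u1' : ℤ) :
    pZ h u0 u1 * pZ h' u0' u1' = pZ (h * h') (u0 + h.val 0 0 * u0' + h.val 0 1 * u1')
      (u1 + h.val 1 0 * u0' + h.val 1 1 * u1') := by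
  apply Subtype.ext
  ext i j
  fin_cases i <;> fin_cases j <;>
    simp [pZ, Matrix.mul_apply, Fin.sum_univ_three, Fin.sum_univ_two] <;> ring

lemma pZ_one : pZ 1 0 0 = 1 := by
  apply Subtype.ext
  ext i j
  fin_cases i <;> fin_cases j <;> simp [pZ]

lemma unZ_eq (a b c : ℤ) : unZ a b c = pZ (tZ a) c b := by
  apply Subtype.ext
  ext i j
  fin_cases i <;> fin_cases j <;> simp [pZ, unZ, tZ]

lemma val_emb (h : SL(2, ℤ)) : (emb h).val =
    !![(h.val 0 0 : ℝ), h.val 0 1, 0; h.val 1 0, h.val 1 1, 0; 0, 0, 1] := by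
  rw [emb, val_io]
  ext i j
  fin_cases i <;> fin_cases j <;> simp [pZ]

lemma emb_mul_nn (h : SL(2, ℤ)) (y z : ℝ) :
    emb h * nn 0 y z = nn 0 (h.val 1 0 * z + h.val 1 1 * y) (h.val 0 0 * z + h.val 0 1 * y) *
      emb h := by
  apply Units.ext
  simp only [Units.val_mul, val_emb, val_nn]
  ext i j
  fin_cases i <;> fin_cases j <;> simp [Matrix.mul_apply, Fin.sum_univ_three]

lemma emb_mul (h h' : SL(2, ℤ)) : emb (h * h') = emb h * emb h' := by
  simp [emb, ← map_mul, pZ_mul]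

@[simp] lemma emb_one : emb 1 = 1 := by simp [emb, pZ_one]

/-- the mirabolic family -/
def aP (i : SL(2, ℤ) × ℤ × ℤ) : G := io (pZ i.1 i.2.1 i.2.2)

lemma aP_eq (h : SL(2, ℤ)) (u0 u1 : ℤ) : aP (h, u0, u1) = nn 0 u1 u0 * emb h := by
  have := io_unZ 0 u1 u0
  simp only [Int.cast_zero] at this
  rw [← this, emb, ← map_mul, unZ_eq, pZ_mul]
  have : tZ 0 = 1 := by
    apply Subtype.ext; ext i j; fin_cases i <;> fin_cases j <;> simp [tZ]
  simp [aP, this]

/-- the unipotent family -/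
def aN (i : ℤ × ℤ × ℤ) : G := nn i.1 i.2.1 i.2.2

lemma pZ_inj : Function.Injective fun i : SL(2, ℤ) × ℤ × ℤ => pZ i.1 i.2.1 i.2.2 := by
  rintro ⟨h, a, b⟩ ⟨h', a', b'⟩ e
  have e' := congrArg Subtype.val e
  have f := fun i j => congrFun (congrFun e' i) j
  have h1 := f 0 0; have h2 := f 0 1; have h3 := f 1 0; have h4 := f 1 1
  have h5 := f 0 2; have h6 := f 1 2
  simp [pZ] at h1 h2 h3 h4 h5 h6
  subst h5 h6
  have : h = h' := by
    apply Subtype.ext; ext i j; fin_cases i <;> fin_cases j <;> assumption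
  rw [this]

lemma exists_pZ (γ : SL(3, ℤ)) (h : ∀ j, γ.val 2 j = (1 : Matrix (Fin 3) (Fin 3) ℤ) 2 j) :
    ∃ i : SL(2, ℤ) × ℤ × ℤ, γ = pZ i.1 i.2.1 i.2.2 := by
  have h0 := h 0; have h1 := h 1; have h2 := h 2
  simp at h0 h1 h2
  have hd := γ.det_coe
  rw [Matrix.det_fin_three, h0, h1, h2] at hd
  refine ⟨(⟨!![γ.val 0 0, γ.val 0 1; γ.val 1 0, γ.val 1 1], by
    rw [Matrix.det_fin_two_of]; linarith⟩, γ.val 0 2, γ.val 1 2), ?_⟩
  apply Subtype.ext
  ext i j
  fin_cases i <;> fin_cases j <;> simp [pZ, h0, h1, h2]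

lemma dinv_aP : DInv aP := by
  have key : ∀ i : SL(2, ℤ) × ℤ × ℤ, ∃ j : SL(2, ℤ) × ℤ × ℤ,
      (pZ i.1 i.2.1 i.2.2)⁻¹ = pZ j.1 j.2.1 j.2.2 := by
    intro i
    apply exists_pZ
    intro j
    have := row_mul_inv 1 (pZ i.1 i.2.1 i.2.2) 2 (by
      ext j; fin_cases j <;> simp [pZ]) j
    rwa [one_mul] at this
  choose e he using key
  have hinv : Function.Involutive e := by
    intro i
    apply pZ_inj
    simp only
    rw [← he, ← he, inv_inv]
  exact DInv.of_equiv hinv.toPerm fun i => by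
    simp only [Function.Involutive.coe_toPerm, aP, ← he, map_inv]

lemma dinv_aN : DInv aN := by
  have hinv : Function.Involutive
      fun i : ℤ × ℤ × ℤ => ((-i.1, -i.2.1, i.1 * i.2.1 - i.2.2) : ℤ × ℤ × ℤ) := by
    rintro ⟨a, b, c⟩
    simp
  exact DInv.of_equiv hinv.toPerm fun i => by
    simp [aN, nn_inv]

lemma exists_s2 (w : Prim 2) : ∃ h : SL(2, ℤ), h.val 1 = w.1 := by
  obtain ⟨u, hu⟩ := w.2
  have : IsCoprime (w.1 0) (w.1 1) := ⟨u 0, u 1, by simpa [dotProduct, Fin.sum_univ_two] using hu⟩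
  obtain ⟨g, h0, h1⟩ := this.exists_SL2_row 1
  exact ⟨g, by ext j; fin_cases j <;> assumption⟩

def s2 (w : Prim 2) : SL(2, ℤ) := (exists_s2 w).choose

lemma s2_row (w : Prim 2) : (s2 w).val 1 = w.1 := (exists_s2 w).choose_spec

lemma exists_s3 (v : Prim 3) : ∃ h : SL(3, ℤ), h.val 2 = v.1 := by
  obtain ⟨u, hu⟩ := v.2
  simp only [dotProduct, Fin.sum_univ_three] at hu
  obtain ⟨a', b', ha, hb, hc⟩ := extract_gcd (v.1 0) (v.1 1)
  have hc' : IsCoprime a' b' := (gcd_isUnit_iff a' b').1 hc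
  set d := gcd (v.1 0) (v.1 1)
  have hd : IsCoprime d (v.1 2) := ⟨u 0 * a' + u 1 * b', u 2, by
    rw [ha, hb] at hu; linarith⟩
  obtain ⟨g, g0, g1⟩ := hc'.exists_SL2_row 1
  obtain ⟨k, k0, k1⟩ := hd.exists_SL2_row 1
  have hk := k.det_coe
  rw [Matrix.det_fin_two] at hk
  let k3 : SL(3, ℤ) := ⟨!![1, 0, 0; 0, k.val 0 0, k.val 0 1; 0, k.val 1 0, k.val 1 1], by
    simp [Matrix.det_fin_three, hk]⟩
  refine ⟨k3 * pZ g 0 0, ?_⟩
  have g0' : g.val 1 0 = a' := g0
  have g1' : g.val 1 1 = b' := g1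
  have k0' : k.val 1 0 = d := k0
  have k1' : k.val 1 1 = v.1 2 := k1
  ext j
  fin_cases j <;> simp [k3, pZ, Matrix.mul_apply, Fin.sum_univ_three, g0', g1', k0', k1', ← ha, ← hb]

def s3 (v : Prim 3) : SL(3, ℤ) := (exists_s3 v).choose

lemma s3_row (v : Prim 3) : (s3 v).val 2 = v.1 := (exists_s3 v).choose_spec

lemma tsum_SL3 (f : G → ℝ≥0∞) :
    ∑' γ, f (io γ) = ∑' v : Prim 3, ∑' i, f (aP i * io (s3 v)) := by
  have hb := bij_coset (fun γ : SL(3, ℤ) => γ.val 2)
    (fun i : SL(2, ℤ) × ℤ × ℤ => pZ i.1 i.2.1 i.2.2) s3 Subtype.val Subtype.val_injective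
    s3_row (fun i γ => by
      ext j
      simp [pZ, Matrix.mul_apply, Fin.sum_univ_three]) pZ_inj
    (fun γ => ⟨⟨γ.val 2, row_prim γ 2⟩, rfl⟩)
    (fun γ δ h => exists_pZ _ (row_mul_inv γ δ 2 h))
  rw [← (Equiv.ofBijective _ hb).tsum_eq, ENNReal.tsum_prod']
  simp [aP]

lemma tsum_SL2 (f : SL(2, ℤ) → ℝ≥0∞) :
    ∑' γ, f γ = ∑' w : Prim 2, ∑' a : ℤ, f (tZ a * s2 w) := by
  have hb := bij_coset (fun γ : SL(2, ℤ) => γ.val 1) tZ s2 Subtype.val Subtype.val_injective
    s2_row (fun i γ => by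
      ext j
      simp [tZ, Matrix.mul_apply, Fin.sum_univ_two])
    (fun a b h => by simpa [tZ] using congrFun (congrFun (congrArg Subtype.val h) 0) 1)
    (fun γ => ⟨⟨γ.val 1, row_prim γ 1⟩, rfl⟩)
    (fun γ δ h => by
      have h0 := row_mul_inv γ δ 1 h 0
      have h1 := row_mul_inv γ δ 1 h 1
      have hd := (γ * δ⁻¹).det_coe
      rw [Matrix.det_fin_two, h0, h1] at hd
      refine ⟨(γ * δ⁻¹).val 0 1, ?_⟩
      apply Subtype.ext
      ext i j
      fin_cases i <;> fin_cases j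
      · simpa [tZ] using hd
      · simp [tZ]
      · simpa [tZ] using h0
      · simpa [tZ] using h1)
  rw [← (Equiv.ofBijective _ hb).tsum_eq, ENNReal.tsum_prod']
  simp

lemma tsum_P (f : G → ℝ≥0∞) :
    ∑' i, f (aP i) = ∑' w : Prim 2, ∑' i, f (aN i * emb (s2 w)) := by
  rw [ENNReal.tsum_prod', tsum_SL2]
  refine tsum_congr fun w => ?_
  rw [ENNReal.tsum_prod']
  refine tsum_congr fun a => ?_
  rw [← (Equiv.prodComm ℤ ℤ).tsum_eq]
  refine tsum_congr fun u => ?_
  congr 1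
  simp only [aP, aN, Equiv.prodComm_apply, Prod.fst_swap, Prod.snd_swap, ← io_unZ, emb,
    ← map_mul, unZ_eq, pZ_mul]
  simp

end Pool.Agent.Lib.MP_fa98d2_nt
end
end

-- part Pool.Agent.Lib.MP_fa98d2_nt.Coef
section

/- Fourier and Whittaker coefficients of automorphic functions on GL(3). -/

open MeasureTheory Matrix Set Topology
open scoped ENNReal MatrixGroups

noncomputable section

namespace Pool.Agent.Lib.MP_fa98d2_nt

structure Aut (f : G → ℂ) : Prop where
  cont : Continuous f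
  inv : ∀ γ g, f (io γ * g) = f g
  cen : ∀ t : ℝ, t ≠ 0 → ∀ g, f (sc t * g) = f g

lemma Aut.invN {f : G → ℂ} (hf : Aut f) (a b c : ℤ) (g : G) : f (nn a b c * g) = f g := by
  rw [← io_unZ, hf.inv]

/-- coefficient along the unipotent radical of the mirabolic -/
def U2 (c d : ℤ) (f : G → ℂ) (g : G) : ℂ := fc d fun y => fc c fun z => f (nn 0 y z * g)

/-- Whittaker coefficient -/
def Wh (m n : ℤ) (f : G → ℂ) (g : G) : ℂ := fc m fun x => U2 0 n f (nn x 0 0 * g)

structure Cusp (f : G → ℂ) : Prop extends Aut f where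
  c1 : ∀ g, ∫ y in (0 : ℝ)..1, ∫ z in (0 : ℝ)..1, f (nn 0 y z * g) = 0
  c2 : ∀ g, ∫ x in (0 : ℝ)..1, ∫ z in (0 : ℝ)..1, f (nn x 0 z * g) = 0

lemma continuous_fc {X : Type*} [TopologicalSpace X] {f : X → ℝ → ℂ} (m : ℤ)
    (hf : Continuous (Function.uncurry f)) : Continuous fun x => fc m (f x) := by
  unfold fc
  refine continuous_int01 (f := fun x t => f x t * ec (m * t)) (hf.mul ?_)
  fun_prop

lemma cont_nn_mul {X : Type*} [TopologicalSpace X] {f : G → ℂ} (hf : Continuous f)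
    {x y z : X → ℝ} {g : X → G} (hx : Continuous x) (hy : Continuous y) (hz : Continuous z)
    (hg : Continuous g) : Continuous fun t => f (nn (x t) (y t) (z t) * g t) :=
  hf.comp ((continuous_nn hx hy hz).mul hg)

lemma continuous_U2 {f : G → ℂ} (hf : Continuous f) (c d : ℤ) : Continuous (U2 c d f) := by
  unfold U2
  refine continuous_fc d (continuous_fc c (f := fun (p : G × ℝ) z => f (nn 0 p.2 z * p.1)) ?_)
  exact cont_nn_mul hf continuous_const (by fun_prop) (by fun_prop) (by fun_prop)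

lemma continuous_Wh {f : G → ℂ} (hf : Continuous f) (m n : ℤ) : Continuous (Wh m n f) := by
  unfold Wh
  exact continuous_fc m (cont_nn_mul (continuous_U2 hf 0 n) (by fun_prop) continuous_const
    continuous_const (by fun_prop))

lemma Wh_eq (m n : ℤ) (f : G → ℂ) (g : G) :
    Wh m n f g = fc m fun x => fc n fun y => ∫ z in (0 : ℝ)..1, f (nn x y z * g) := by
  simp only [Wh, U2, fc_zero, ← mul_assoc, nn_mul]
  simp

lemma fc_const_mul (m : ℤ) (c : ℂ) (h : ℝ → ℂ) : fc m (fun x => c * h x) = c * fc m h := by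
  simp only [fc, mul_assoc, intervalIntegral.integral_const_mul]

section
variable {f : G → ℂ}

lemma perz (h3 : ∀ g, f (nn 0 0 1 * g) = f g) (x y : ℝ) (g : G) :
    Function.Periodic (fun z => f (nn x y z * g)) 1 := by
  intro z
  have := h3 (nn x y z * g)
  rw [← mul_assoc, nn_mul] at this
  simpa [add_comm] using this

lemma pery (h2 : ∀ g, f (nn 0 1 0 * g) = f g) (x z : ℝ) (g : G) :
    Function.Periodic (fun y => f (nn x y z * g)) 1 := by
  intro y
  have := h2 (nn x y z * g)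
  rw [← mul_assoc, nn_mul] at this
  simpa [add_comm] using this

lemma perx (h1 : ∀ g, f (nn 1 0 0 * g) = f g) (h3 : ∀ g, f (nn 0 0 1 * g) = f g) (y : ℝ) (g : G) :
    Function.Periodic (fun x => ∫ z in (0 : ℝ)..1, f (nn x y z * g)) 1 := by
  intro x
  simp only
  rw [← int_shift (perz h3 (x + 1) y g) y]
  refine intervalIntegral.integral_congr fun z _ => ?_
  have := h1 (nn x y z * g)
  rw [← mul_assoc, nn_mul] at this
  simpa [add_comm] using this

lemma Aut.h1 (hf : Aut f) (g : G) : f (nn 1 0 0 * g) = f g := by simpa using hf.invN 1 0 0 g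
lemma Aut.h2 (hf : Aut f) (g : G) : f (nn 0 1 0 * g) = f g := by simpa using hf.invN 0 1 0 g
lemma Aut.h3 (hf : Aut f) (g : G) : f (nn 0 0 1 * g) = f g := by simpa using hf.invN 0 0 1 g

lemma U2_nn (hf : Aut f) (c d : ℤ) (b e : ℝ) (g : G) :
    U2 c d f (nn 0 b e * g) = ec (-(c * e)) * ec (-(d * b)) * U2 c d f g := by
  simp only [U2, ← mul_assoc, nn_mul, zero_add, zero_mul, add_zero]
  have h1 : ∀ y, (fc c fun z => f (nn 0 (y + b) (z + e) * g)) =
      ec (-(c * e)) * fc c fun z => f (nn 0 (y + b) z * g) := fun y =>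
    fc_shift (perz hf.h3 0 (y + b) g) c e
  simp only [h1, fc_const_mul]
  rw [mul_assoc, ← fc_shift (h := fun y => fc c fun z => f (nn 0 y z * g))]
  intro y
  simp only [pery hf.h2 0 _ g y]

lemma U2_nn_int (hf : Aut f) (n a : ℤ) (g : G) : U2 0 n f (nn a 0 0 * g) = U2 0 n f g := by
  simp only [U2, fc_zero, ← mul_assoc, nn_mul, zero_add, zero_mul, add_zero]
  congr 1
  ext y
  rw [← int_shift (perz hf.h3 a y g) (a * y)]
  refine intervalIntegral.integral_congr fun z _ => ?_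
  have := hf.invN a 0 0 (nn 0 y z * g)
  rw [← mul_assoc, nn_mul] at this
  simpa using this

lemma Wh_nn (hf : Aut f) (m n : ℤ) (a b c : ℝ) (g : G) :
    Wh m n f (nn a b c * g) = ec (-(m * a)) * ec (-(n * b)) * Wh m n f g := by
  simp only [Wh_eq, ← mul_assoc, nn_mul]
  have h1 : ∀ x y, ∫ z in (0 : ℝ)..1, f (nn (x + a) (y + b) (z + c + x * b) * g) =
      ∫ z in (0 : ℝ)..1, f (nn (x + a) (y + b) z * g) := by
    intro x y
    rw [← int_shift (perz hf.h3 (x + a) (y + b) g) (c + x * b)]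
    simp only [add_assoc]
  have h2 : ∀ x, (fc n fun y => ∫ z in (0 : ℝ)..1, f (nn x (y + b) z * g)) =
      ec (-(n * b)) * fc n fun y => ∫ z in (0 : ℝ)..1, f (nn x y z * g) := by
    intro x
    refine fc_shift (h := fun y => ∫ z in (0 : ℝ)..1, f (nn x y z * g)) ?_ n b
    intro y
    simp only [pery hf.h2 x _ g y]
  simp only [h1, h2, fc_const_mul]
  rw [fc_shift (h := fun x => fc n fun y => ∫ z in (0 : ℝ)..1, f (nn x y z * g))]
  · ring
  · intro x
    have := fun y => perx hf.h1 hf.h3 y g x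
    simp only at this ⊢
    simp only [this]

lemma enorm_Wh_nn (hf : Aut f) (m n : ℤ) (a b c : ℝ) (g : G) :
    ‖Wh m n f (nn a b c * g)‖ₑ = ‖Wh m n f g‖ₑ := by
  rw [Wh_nn hf]; simp

lemma U2_sc (hf : Aut f) (c d : ℤ) {t : ℝ} (ht : t ≠ 0) (g : G) :
    U2 c d f (sc t * g) = U2 c d f g := by
  simp only [U2, ← mul_assoc, ← sc_comm ht]
  simp only [mul_assoc, hf.cen t ht]

lemma Wh_sc (hf : Aut f) (m n : ℤ) {t : ℝ} (ht : t ≠ 0) (g : G) :
    Wh m n f (sc t * g) = Wh m n f g := by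
  simp only [Wh, ← mul_assoc, ← sc_comm ht]
  simp only [mul_assoc, U2_sc hf _ _ ht]

lemma Wh_zero (hf : Cusp f) (n : ℤ) (g : G) : Wh 0 n f g = 0 := by
  rw [Wh_eq, fc_zero]
  unfold fc
  rw [swap01]
  · have : ∀ y, ∫ x in (0 : ℝ)..1, (∫ z in (0 : ℝ)..1, f (nn x y z * g)) * ec (n * y) = 0 := by
      intro y
      rw [intervalIntegral.integral_mul_const, ← zero_mul (ec (n * y)), ← hf.c2 (nn 0 y 0 * g)]
      congr 2
      ext x
      rw [← int_shift (perz hf.h3 x y g) (x * y)]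
      simp [← mul_assoc, nn_mul]
    simp [this]
  · refine Continuous.mul (continuous_int01 (f := fun (p : ℝ × ℝ) z => f (nn p.1 p.2 z * g)) ?_)
      (by fun_prop)
    exact cont_nn_mul hf.cont (by fun_prop) (by fun_prop) (by fun_prop) continuous_const

lemma U2_zero (hf : Cusp f) (g : G) : U2 0 0 f g = 0 := by
  simp only [U2, fc_zero, hf.c1]

end

/-- invariance of the integral over the two-torus -/
lemma torus_SL2 (h : SL(2, ℤ)) : ∀ H : ℝ → ℝ → ℂ, Continuous (Function.uncurry H) →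
    (∀ z y, H (z + 1) y = H z y) → (∀ z y, H z (y + 1) = H z y) →
    ∫ y in (0 : ℝ)..1, ∫ z in (0 : ℝ)..1,
      H (h.val 0 0 * z + h.val 0 1 * y) (h.val 1 0 * z + h.val 1 1 * y) =
    ∫ y in (0 : ℝ)..1, ∫ z in (0 : ℝ)..1, H z y := by
  have per : ∀ H : ℝ → ℝ → ℂ, (∀ z y, H (z + 1) y = H z y) → (∀ z y, H z (y + 1) = H z y) →
      ∀ (k l : ℤ) z y, H (z + k) (y + l) = H z y := by
    intro H h1 h2 k l z y
    have a1 : Function.Periodic (fun z => H z (y + l)) 1 := fun z => h1 z _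
    have a2 : Function.Periodic (fun y => H z y) 1 := fun y => h2 z y
    have b1 := a1.int_mul k z
    have b2 := a2.int_mul l y
    simp only [mul_one] at b1 b2
    rw [b1, b2]
  have clos : ∀ (h : SL(2, ℤ)) (H : ℝ → ℝ → ℂ), Continuous (Function.uncurry H) →
      (∀ z y, H (z + 1) y = H z y) → (∀ z y, H z (y + 1) = H z y) →
      Continuous (Function.uncurry fun z y : ℝ =>
        H (h.val 0 0 * z + h.val 0 1 * y) (h.val 1 0 * z + h.val 1 1 * y)) ∧
      (∀ z y : ℝ, H (h.val 0 0 * (z + 1) + h.val 0 1 * y) (h.val 1 0 * (z + 1) + h.val 1 1 * y) =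
        H (h.val 0 0 * z + h.val 0 1 * y) (h.val 1 0 * z + h.val 1 1 * y)) ∧
      (∀ z y : ℝ, H (h.val 0 0 * z + h.val 0 1 * (y + 1)) (h.val 1 0 * z + h.val 1 1 * (y + 1)) =
        H (h.val 0 0 * z + h.val 0 1 * y) (h.val 1 0 * z + h.val 1 1 * y)) := by
    intro h H hc h1 h2
    refine ⟨hc.comp (f := fun p : ℝ × ℝ => ((h.val 0 0 * p.1 + h.val 0 1 * p.2 : ℝ),
      (h.val 1 0 * p.1 + h.val 1 1 * p.2 : ℝ))) (by fun_prop), ?_, ?_⟩
    · intro z y
      refine Eq.trans ?_ (per H h1 h2 (h.val 0 0) (h.val 1 0) _ _)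
      congr 1 <;> ring
    · intro z y
      refine Eq.trans ?_ (per H h1 h2 (h.val 0 1) (h.val 1 1) _ _)
      congr 1 <;> ring
  have hm : h ∈ Subgroup.closure {ModularGroup.S, ModularGroup.T} := by
    simp [SpecialLinearGroup.SL2Z_generators]
  induction hm using Subgroup.closure_induction with
  | one => intro H _ _ _; simp
  | mem g hg =>
    intro H hc h1 h2
    rcases hg with rfl | rfl
    · simp only [ModularGroup.coe_S]
      simp only [of_apply, cons_val', cons_val_zero, cons_val_fin_one, Int.cast_zero, zero_mul,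
        cons_val_one, Int.cast_neg, Int.cast_one, neg_mul, one_mul, zero_add, add_zero]
      rw [swap01 (f := fun y z => H (-y) z)
        (hc.comp (f := fun p : ℝ × ℝ => (-p.1, p.2)) (by fun_prop))]
      congr 1
      ext z
      exact int_neg (h := fun y => H y z) fun y => h1 y z
    · simp only [ModularGroup.coe_T]
      simp only [of_apply, cons_val', cons_val_zero, cons_val_fin_one, Int.cast_zero, zero_mul,
        cons_val_one, Int.cast_one, one_mul, zero_add]
      congr 1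
      ext y
      exact int_shift (h := fun z => H z y) (fun z => h1 z y) y
  | mul a b _ _ ha hb =>
    intro H hc h1 h2
    obtain ⟨k1, k2, k3⟩ := clos a H hc h1 h2
    rw [← ha H hc h1 h2, ← hb _ k1 k2 k3]
    congr 1; ext y; congr 1; ext z
    simp only [Matrix.SpecialLinearGroup.coe_mul, Matrix.mul_apply, Fin.sum_univ_two]
    congr 1 <;> push_cast <;> ring
  | inv a _ ha =>
    intro H hc h1 h2
    obtain ⟨k1, k2, k3⟩ := clos a⁻¹ H hc h1 h2
    rw [← ha _ k1 k2 k3]
    congr 1; ext y; congr 1; ext z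
    have e := fun i j => congrFun (congrFun (congrArg Subtype.val (inv_mul_cancel a)) i) j
    have e1 := e 0 0; have e2 := e 0 1; have e3 := e 1 0; have e4 := e 1 1
    simp only [Matrix.SpecialLinearGroup.coe_mul, Matrix.mul_apply, Fin.sum_univ_two,
      Matrix.SpecialLinearGroup.coe_one, Matrix.one_apply_eq, ne_eq, zero_ne_one,
      not_false_eq_true, Matrix.one_apply_ne, one_ne_zero] at e1 e2 e3 e4
    have f1 := congrArg (Int.cast : ℤ → ℝ) e1
    have f2 := congrArg (Int.cast : ℤ → ℝ) e2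
    have f3 := congrArg (Int.cast : ℤ → ℝ) e3
    have f4 := congrArg (Int.cast : ℤ → ℝ) e4
    push_cast at f1 f2 f3 f4
    congr 1
    · linear_combination z * f1 + y * f2
    · linear_combination z * f3 + y * f4

lemma U2_eq (c d : ℤ) (f : G → ℂ) (g : G) : U2 c d f g =
    ∫ y in (0 : ℝ)..1, ∫ z in (0 : ℝ)..1, f (nn 0 y z * g) * ec (c * z + d * y) := by
  simp only [U2, fc, ec_add, ← mul_assoc, intervalIntegral.integral_mul_const]

lemma U2_emb {f : G → ℂ} (hf : Aut f) (c d : ℤ) (h : SL(2, ℤ)) (g : G) :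
    U2 c d f (emb h * g) =
      U2 (c * h.val 0 0 + d * h.val 1 0) (c * h.val 0 1 + d * h.val 1 1) f g := by
  rw [U2_eq, U2_eq, ← torus_SL2 h (fun z y => f (nn 0 y z * (emb h * g)) * ec (c * z + d * y))]
  · congr 1; ext y; congr 1; ext z
    rw [← mul_assoc, ← emb_mul_nn, mul_assoc, emb, hf.inv]
    congr 2
    push_cast; ring
  · exact (cont_nn_mul hf.cont continuous_const (by fun_prop) (by fun_prop)
      continuous_const).mul (by fun_prop)
  · intro z y
    have := perz hf.h3 0 y (emb h * g) z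
    simp only at this
    rw [this, mul_add, mul_one, add_right_comm, ec_add _ (c : ℝ), ec_int, mul_one]
  · intro z y
    have := pery hf.h2 0 z (emb h * g) y
    simp only at this
    rw [this, mul_add, mul_one, ← add_assoc, ec_add _ (d : ℝ), ec_int, mul_one]

lemma parseval_U2 {f : G → ℂ} (hf : Continuous f) (g : G) :
    ∫⁻ y in Ioc (0 : ℝ) 1, ∫⁻ z in Ioc (0 : ℝ) 1, ‖f (nn 0 y z * g)‖ₑ ^ 2 =
      ∑' c : ℤ, ∑' d : ℤ, ‖U2 c d f g‖ₑ ^ 2 := by
  have h1 : ∀ y, ∫⁻ z in Ioc (0 : ℝ) 1, ‖f (nn 0 y z * g)‖ₑ ^ 2 =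
      ∑' c : ℤ, ‖fc c fun z => f (nn 0 y z * g)‖ₑ ^ 2 := fun y =>
    parseval (cont_nn_mul hf continuous_const continuous_const continuous_id continuous_const)
  have h2 : ∀ c : ℤ, Continuous fun y => fc c fun z => f (nn 0 y z * g) := fun c =>
    continuous_fc c (cont_nn_mul hf continuous_const (by fun_prop) (by fun_prop) continuous_const)
  simp_rw [h1]
  rw [lintegral_tsum fun c => ((h2 c).measurable.enorm.pow_const 2).aemeasurable]
  exact tsum_congr fun c => parseval (h2 c)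

lemma parseval_Wh {f : G → ℂ} (hf : Continuous f) (n : ℤ) (g : G) :
    ∫⁻ x in Ioc (0 : ℝ) 1, ‖U2 0 n f (nn x 0 0 * g)‖ₑ ^ 2 = ∑' m : ℤ, ‖Wh m n f g‖ₑ ^ 2 :=
  parseval (cont_nn_mul (continuous_U2 hf 0 n) continuous_id continuous_const continuous_const
    continuous_const)

end Pool.Agent.Lib.MP_fa98d2_nt
end
end
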