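import Mathlib

/- Cusp forms on PGL(3) over Q, unramified at every prime, in classical form. -/

open MeasureTheory
open scoped MatrixGroups

noncomputable section

namespace Pool.Agent.Lib.MP_fa98d2_nt

/-- `φ` is (the restriction to `GL(3,ℝ)` of) a nonzero square-integrable cusp form on `PGL(3)` of
level one which is a Hecke eigenfunction at each prime `p`, with Satake parameters `α p`. -/
structure CuspForm3 (φ : Matrix (Fin 3) (Fin 3) ℝ → ℂ) (α : ℕ → Fin 3 → ℂ) : Prop where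
  cont : ContinuousOn φ {g | g.det ≠ 0}
  nonzero : ∃ g, g.det ≠ 0 ∧ φ g ≠ 0
  inv : ∀ (γ : SL(3, ℤ)) (g : Matrix (Fin 3) (Fin 3) ℝ), g.det ≠ 0 →
    φ (γ.val.map (Int.cast : ℤ → ℝ) * g) = φ g
  cen : ∀ t : ℝ, t ≠ 0 → ∀ g : Matrix (Fin 3) (Fin 3) ℝ, g.det ≠ 0 → φ (t • g) = φ g
  cusp1 : ∀ g : Matrix (Fin 3) (Fin 3) ℝ, g.det ≠ 0 →
    ∫ y in (0 : ℝ)..1, ∫ z in (0 : ℝ)..1, φ (!![1, 0, z; 0, 1, y; 0, 0, 1] * g) = 0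
  cusp2 : ∀ g : Matrix (Fin 3) (Fin 3) ℝ, g.det ≠ 0 →
    ∫ x in (0 : ℝ)..1, ∫ z in (0 : ℝ)..1, φ (!![1, x, z; 0, 1, 0; 0, 0, 1] * g) = 0
  /-- square-integrable for Haar measure on a fundamental domain, modulo scalars -/
  sqInt : ∃ F : Set (Fin 3 → Fin 3 → ℝ), MeasurableSet F ∧
    (∀ g : Matrix (Fin 3) (Fin 3) ℝ, g.det ≠ 0 →
      ∃! γ : SL(3, ℤ), Matrix.of.symm (γ.val.map (Int.cast : ℤ → ℝ) * g) ∈ F) ∧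
    ∫⁻ x in F ∩ {x | 1 ≤ |(Matrix.of x).det| ∧ |(Matrix.of x).det| ≤ 2},
      ENNReal.ofReal (‖φ (Matrix.of x)‖ ^ 2 / |(Matrix.of x).det| ^ 3) < ⊤
  prod_eq : ∀ p : ℕ, p.Prime → α p 0 * α p 1 * α p 2 = 1
  hecke1 : ∀ p : ℕ, p.Prime → ∀ g : Matrix (Fin 3) (Fin 3) ℝ, g.det ≠ 0 →
    ∑ a ∈ Finset.range p, ∑ b ∈ Finset.range p,
        φ (!![1, (a : ℝ), (b : ℝ); 0, (p : ℝ), 0; 0, 0, (p : ℝ)] * g) +
      ∑ a ∈ Finset.range p, φ (!![(p : ℝ), 0, 0; 0, 1, (a : ℝ); 0, 0, (p : ℝ)] * g) +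
      φ (!![(p : ℝ), 0, 0; 0, (p : ℝ), 0; 0, 0, 1] * g) = p * (α p 0 + α p 1 + α p 2) * φ g
  hecke2 : ∀ p : ℕ, p.Prime → ∀ g : Matrix (Fin 3) (Fin 3) ℝ, g.det ≠ 0 →
    φ (!![(p : ℝ), 0, 0; 0, 1, 0; 0, 0, 1] * g) +
      ∑ a ∈ Finset.range p, φ (!![1, (a : ℝ), 0; 0, (p : ℝ), 0; 0, 0, 1] * g) +
      ∑ a ∈ Finset.range p, ∑ b ∈ Finset.range p,
        φ (!![1, 0, (a : ℝ); 0, 1, (b : ℝ); 0, 0, (p : ℝ)] * g) =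
      p * (α p 0 * α p 1 + α p 1 * α p 2 + α p 2 * α p 0) * φ g

/-- `θ_p = max_i |log_p |α_{i,p}||` -/
def theta (α : ℕ → Fin 3 → ℂ) (p : ℕ) : ℝ := ⨆ i, |Real.logb p ‖α p i‖|

/-- the primes at which the form is tempered -/
def TemperedPrimes (α : ℕ → Fin 3 → ℂ) : Set ℕ := {p | p.Prime ∧ theta α p = 0}

end Pool.Agent.Lib.MP_fa98d2_nt
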