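import Pool.Agent.Lib.MP_fa98d2_nt.Coef

-- part Pool.Agent.Lib.MP_fa98d2_nt.Tiling
section

/- Tilings of the unipotent groups by unit boxes. -/

open MeasureTheory Matrix Set Topology
open scoped ENNReal MatrixGroups

noncomputable section

namespace Pool.Agent.Lib.MP_fa98d2_nt

abbrev I01 : Measure ℝ := volume.restrict (Ioc (0 : ℝ) 1)

instance : IsProbabilityMeasure I01 := ⟨by simp⟩

lemma tileS {σ : ℝ} (hσ : σ = 1 ∨ σ = -1) (f : ℝ → ℝ≥0∞) (s : ℝ) :
    ∑' k : ℤ, ∫⁻ x, f (k + σ * x + s) ∂I01 = ∫⁻ x, f x := by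
  rw [← lintegral_add_right_eq_self f s]
  rcases hσ with rfl | rfl
  · rw [tile]; simp
  · rw [tile_neg]; simp [sub_eq_add_neg]

lemma tile2 {σ : ℝ} (hσ : σ = 1 ∨ σ = -1) (F : ℝ × ℝ → ℝ≥0∞) (hF : Measurable F)
    (s : ℤ → ℝ → ℝ) (hs : ∀ b, Measurable (s b)) (t : ℝ) :
    ∑' u : ℤ × ℤ, ∫⁻ p : ℝ × ℝ, F (u.1 + σ * p.1 + t, u.2 + σ * p.2 + s u.1 p.1) ∂(I01.prod I01) =
      ∫⁻ p, F p := by
  rw [ENNReal.tsum_prod', Measure.volume_eq_prod, lintegral_prod _ hF.aemeasurable,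
    ← tileS hσ _ t]
  refine tsum_congr fun b => ?_
  have hm : ∀ c : ℤ, Measurable fun p : ℝ × ℝ =>
      F (b + σ * p.1 + t, c + σ * p.2 + s b p.1) := fun c => by
    have := hs b
    fun_prop
  simp_rw [lintegral_prod _ (hm _).aemeasurable]
  rw [← lintegral_tsum fun c => (hm c).lintegral_prod_right'.aemeasurable]
  refine lintegral_congr fun y => ?_
  exact tileS hσ (fun z => F (b + σ * y + t, z)) (s b y)

lemma tile3 {σ : ℝ} (hσ : σ = 1 ∨ σ = -1) (F : ℝ × ℝ × ℝ → ℝ≥0∞) (hF : Measurable F)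
    (s : ℤ → ℤ → ℝ × ℝ → ℝ) (hs : ∀ a b, Measurable (s a b)) :
    ∑' u : ℤ × ℤ × ℤ, ∫⁻ p : ℝ × ℝ × ℝ, F (u.1 + σ * p.1, u.2.1 + σ * p.2.1,
      u.2.2 + σ * p.2.2 + s u.1 u.2.1 (p.1, p.2.1)) ∂(I01.prod (I01.prod I01)) = ∫⁻ p, F p := by
  rw [ENNReal.tsum_prod', Measure.volume_eq_prod, lintegral_prod _ hF.aemeasurable,
    ← tileS hσ _ 0]
  refine tsum_congr fun a => ?_
  have hm : ∀ c : ℤ × ℤ, Measurable fun p : ℝ × ℝ × ℝ =>
      F (a + σ * p.1, c.1 + σ * p.2.1, c.2 + σ * p.2.2 + s a c.1 (p.1, p.2.1)) := fun c => by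
    have := hs a c.1
    fun_prop
  simp_rw [lintegral_prod _ (hm _).aemeasurable]
  rw [← lintegral_tsum fun c => (hm c).lintegral_prod_right'.aemeasurable]
  refine lintegral_congr fun x => ?_
  have := tile2 hσ (fun q => F (a + σ * x, q)) (by fun_prop) (fun b y => s a b (x, y))
    (fun b => by have := hs a b; fun_prop) 0
  simpa using this

def uU (p : ℝ × ℝ) : G := nn 0 p.1 p.2
def nR (p : ℝ × ℝ × ℝ) : G := nn p.1 p.2.1 p.2.2

lemma continuous_uU : Continuous uU := continuous_nn continuous_const (by fun_prop) (by fun_prop)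
lemma continuous_nR : Continuous nR := continuous_nn (by fun_prop) (by fun_prop) (by fun_prop)

lemma lintegral_SL2 (h : SL(2, ℤ)) (F : ℝ × ℝ → ℝ≥0∞) (hF : Measurable F) :
    ∫⁻ p : ℝ × ℝ, F (h.val 1 1 * p.1 + h.val 1 0 * p.2, h.val 0 1 * p.1 + h.val 0 0 * p.2) =
      ∫⁻ p, F p := by
  let L := Matrix.toLin (Module.Basis.finTwoProd ℝ) (Module.Basis.finTwoProd ℝ)
    !![(h.val 1 1 : ℝ), h.val 1 0; h.val 0 1, h.val 0 0]
  have hd : LinearMap.det L = 1 := by
    rw [LinearMap.det_toLin, Matrix.det_fin_two_of]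
    have := h.det_coe
    rw [Matrix.det_fin_two] at this
    have h2 := congrArg (Int.cast : ℤ → ℝ) this
    push_cast at h2
    linarith
  have hm := Measure.map_linearMap_addHaar_eq_smul_addHaar (volume : Measure (ℝ × ℝ))
    (f := L) (by rw [hd]; norm_num)
  rw [hd] at hm
  simp only [inv_one, abs_one, ENNReal.ofReal_one, one_smul] at hm
  conv_rhs => rw [← hm]
  rw [lintegral_map hF L.continuous_of_finiteDimensional.measurable]
  simp only [L, Matrix.toLin_finTwoProd_apply]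

lemma dtile_P (f : G → ℝ≥0∞) (hf : Measurable f) :
    ∫⁻ x, ∑' i, f ((uU x)⁻¹ * aP i) ∂(I01.prod I01) =
      ∫⁻ x, ∑' i, f (aP i * uU x) ∂(I01.prod I01) := by
  have hu := continuous_uU.measurable
  have e1 : ∫⁻ x, ∑' i, f ((uU x)⁻¹ * aP i) ∂(I01.prod I01) =
      ∑' h : SL(2, ℤ), ∫⁻ p, f (uU p * emb h) := by
    rw [lintegral_tsum (f := fun i x => f ((uU x)⁻¹ * aP i))
      fun i => (hf.comp (hu.inv.mul_const _)).aemeasurable, ENNReal.tsum_prod']
    refine tsum_congr fun h => ?_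
    rw [← tile2 (σ := -1) (Or.inr rfl) (fun p => f (uU p * emb h)) (hf.comp (hu.mul_const _))
      (fun _ _ => 0) (fun _ => measurable_const) 0, ← (Equiv.prodComm ℤ ℤ).tsum_eq]
    refine tsum_congr fun u => lintegral_congr fun p => ?_
    congr 1
    obtain ⟨a, b⟩ := u
    simp [aP_eq, uU, nn_inv, ← mul_assoc, nn_mul, add_comm]
  have e2 : ∫⁻ x, ∑' i, f (aP i * uU x) ∂(I01.prod I01) =
      ∑' h : SL(2, ℤ), ∫⁻ p, f (emb h⁻¹ * uU p) := by
    have : ∀ x, ∑' i, f (aP i * uU x) = ∑' i, f ((aP i)⁻¹ * uU x) := fun x =>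
      (dinv_aP fun y => f (y * uU x)).symm
    simp_rw [this]
    rw [lintegral_tsum (f := fun i x => f ((aP i)⁻¹ * uU x))
      fun i => (hf.comp (hu.const_mul _)).aemeasurable, ENNReal.tsum_prod']
    refine tsum_congr fun h => ?_
    rw [← tile2 (σ := 1) (Or.inl rfl) (fun p => f (emb h⁻¹ * uU p)) (hf.comp (hu.const_mul _))
      (fun _ _ => 0) (fun _ => measurable_const) 0,
      ← ((Equiv.prodComm ℤ ℤ).trans (Equiv.neg (ℤ × ℤ))).tsum_eq]
    refine tsum_congr fun u => lintegral_congr fun p => ?_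
    congr 1
    obtain ⟨a, b⟩ := u
    have : (emb h)⁻¹ = emb h⁻¹ := by
      rw [inv_eq_iff_mul_eq_one, ← emb_mul, mul_inv_cancel, emb_one]
    simp [aP_eq, uU, nn_inv, mul_assoc, nn_mul, this]
  rw [e1, e2, ← (Equiv.inv SL(2, ℤ)).tsum_eq]
  refine tsum_congr fun h => ?_
  simp only [Equiv.inv_apply]
  rw [← lintegral_SL2 h⁻¹ (fun p => f (uU p * emb h⁻¹)) (hf.comp (hu.mul_const _))]
  refine lintegral_congr fun p => ?_
  simp only [uU, emb_mul_nn, add_comm]

lemma dtile_N1 (f : G → ℝ≥0∞) (hf : Measurable f) :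
    ∫⁻ x, ∑' i, f (aN i * nR x) ∂(I01.prod (I01.prod I01)) = ∫⁻ x, f (nR x) := by
  have hu := continuous_nR.measurable
  rw [lintegral_tsum (f := fun i x => f (aN i * nR x))
    fun i => (hf.comp (hu.const_mul _)).aemeasurable,
    ← tile3 (σ := 1) (Or.inl rfl) (fun p => f (nR p)) (hf.comp hu) (fun a _ p => a * p.2)
      (fun _ _ => by fun_prop)]
  simp [aN, nR, nn_mul]

lemma dtile_N (f : G → ℝ≥0∞) (hf : Measurable f) :
    ∫⁻ x, ∑' i, f ((nR x)⁻¹ * aN i) ∂(I01.prod (I01.prod I01)) =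
      ∫⁻ x, ∑' i, f (aN i * nR x) ∂(I01.prod (I01.prod I01)) := by
  have hu := continuous_nR.measurable
  rw [dtile_N1 f hf, lintegral_tsum (f := fun i x => f ((nR x)⁻¹ * aN i))
    fun i => (hf.comp (hu.inv.mul_const _)).aemeasurable,
    ← tile3 (σ := -1) (Or.inr rfl) (fun p => f (nR p)) (hf.comp hu)
      (fun _ b p => p.1 * p.2 - p.1 * b) (fun _ _ => by fun_prop)]
  refine tsum_congr fun u => lintegral_congr fun p => ?_
  simp only [aN, nR, nn_mul, nn_inv]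
  congr 2 <;> ring

lemma wtR_of_dwt {β : G → ℝ≥0∞} (hβ : Measurable β) (h : DWt aN β) (g : G) :
    ∫⁻ x, β (nR x * g) = 1 := by
  rw [← dtile_N1 (fun y => β (y * g)) (hβ.comp (measurable_mul_const g))]
  simp_rw [mul_assoc, h _]
  simp

lemma lintegral_R3 (F : ℝ × ℝ × ℝ → ℝ≥0∞) (hF : Measurable F) :
    ∫⁻ p, F p = ∫⁻ x, ∫⁻ y, ∫⁻ z, F (x, y, z) := by
  rw [Measure.volume_eq_prod, lintegral_prod _ hF.aemeasurable]
  refine lintegral_congr fun x => ?_
  rw [Measure.volume_eq_prod, lintegral_prod _ (by fun_prop)]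

lemma invC_nR : InvC volume nR := by
  intro f hf
  have hu := continuous_nR.measurable
  rw [lintegral_R3 (fun x => f (nR x)⁻¹) (hf.comp hu.inv),
    lintegral_R3 (fun x => f (nR x)) (hf.comp hu), ← lintegral_neg_eq_self]
  refine lintegral_congr fun x => ?_
  rw [← lintegral_neg_eq_self]
  refine lintegral_congr fun y => ?_
  simp only [Function.comp_apply, Pi.inv_apply, nR, nn_inv, neg_neg]
  exact lintegral_sub_left_eq_self (fun z => f (nn x y z)) _

lemma lintegral_scale (f : ℝ → ℝ≥0∞) (hf : Measurable f) {c : ℝ} (hc : 0 < c) :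
    ∫⁻ x, f (c⁻¹ * x) = ENNReal.ofReal c * ∫⁻ x, f x := by
  rw [← lintegral_map hf (measurable_const_mul _), Real.map_volume_mul_left (inv_ne_zero hc.ne'),
    lintegral_smul_measure, inv_inv, abs_of_pos hc, smul_eq_mul]

lemma lintegral_scale3 (F : ℝ × ℝ × ℝ → ℝ≥0∞) (hF : Measurable F) {a b c : ℝ} (ha : 0 < a)
    (hb : 0 < b) (hc : 0 < c) :
    ∫⁻ p : ℝ × ℝ × ℝ, F (a⁻¹ * p.1, b⁻¹ * p.2.1, c⁻¹ * p.2.2) =
      ENNReal.ofReal (a * b * c) * ∫⁻ p, F p := by
  rw [lintegral_R3 _ (by fun_prop), lintegral_R3 _ hF]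
  have h1 : ∀ x y, ∫⁻ z, F (x, y, c⁻¹ * z) = ENNReal.ofReal c * ∫⁻ z, F (x, y, z) := fun x y =>
    lintegral_scale (fun z => F (x, y, z)) (by fun_prop) hc
  have m1 : Measurable fun q : ℝ × ℝ => ∫⁻ z, F (q.1, q.2, z) :=
    Measurable.lintegral_prod_right' (f := fun r : (ℝ × ℝ) × ℝ => F (r.1.1, r.1.2, r.2))
      (by fun_prop)
  have h2 : ∀ x, ∫⁻ y, ∫⁻ z, F (x, b⁻¹ * y, z) = ENNReal.ofReal b * ∫⁻ y, ∫⁻ z, F (x, y, z) :=
    fun x => lintegral_scale (fun y => ∫⁻ z, F (x, y, z))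
      (m1.comp (f := fun y => (x, y)) (by fun_prop)) hb
  simp only [h1, lintegral_const_mul' _ _ ENNReal.ofReal_ne_top, h2]
  rw [lintegral_scale (fun x => ∫⁻ y, ∫⁻ z, F (x, y, z)) m1.lintegral_prod_right' ha,
    ENNReal.ofReal_mul (by positivity), ENNReal.ofReal_mul ha.le]
  ring

end Pool.Agent.Lib.MP_fa98d2_nt
end
end

-- part Pool.Agent.Lib.MP_fa98d2_nt.Unfold
section

/- The Rankin-Selberg unfolding. -/

open MeasureTheory Matrix Set Topology
open scoped ENNReal MatrixGroups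

noncomputable section

namespace Pool.Agent.Lib.MP_fa98d2_nt

def nsq (w : Fin 3 → ℝ) : ℝ := w ⬝ᵥ w

def vm (v : Fin 3 → ℤ) (g : G) : Fin 3 → ℝ := (fun i => (v i : ℝ)) ᵥ* g.val

def zt (v : Fin 3 → ℤ) (g : G) : ℝ := nsq (vm v g) ^ 3 / dt g ^ 2

def z3 (g : G) : ℝ := nsq (g.val 2) ^ 3 / dt g ^ 2

lemma nsq_eq (w : Fin 3 → ℝ) : nsq w = w 0 ^ 2 + w 1 ^ 2 + w 2 ^ 2 := by
  simp [nsq, dotProduct, Fin.sum_univ_three, sq]

lemma nsq_nonneg (w : Fin 3 → ℝ) : 0 ≤ nsq w := by rw [nsq_eq]; positivity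

lemma nsq_pos {w : Fin 3 → ℝ} (hw : w ≠ 0) : 0 < nsq w :=
  lt_of_le_of_ne (nsq_nonneg w) fun h => hw (dotProduct_self_eq_zero.1 h.symm)

lemma nsq_smul (t : ℝ) (w : Fin 3 → ℝ) : nsq (t • w) = t ^ 2 * nsq w := by
  simp only [nsq_eq, Pi.smul_apply, smul_eq_mul]; ring

lemma continuous_nsq : Continuous nsq := continuous_id.dotProduct continuous_id

lemma continuous_row (i : Fin 3) : Continuous fun g : G => g.val i :=
  continuous_pi fun j => Units.continuous_val.matrix_elem i j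

lemma continuous_z3 : Continuous z3 :=
  ((continuous_nsq.comp (continuous_row 2)).pow 3).div (continuous_dt.pow 2)
    fun g => (pow_pos (dt_pos g) 2).ne'

lemma continuous_vm (v : Fin 3 → ℤ) : Continuous (vm v) :=
  continuous_const.matrix_vecMul Units.continuous_val

lemma continuous_zt (v : Fin 3 → ℤ) : Continuous (zt v) :=
  ((continuous_nsq.comp (continuous_vm v)).pow 3).div (continuous_dt.pow 2)
    fun g => (pow_pos (dt_pos g) 2).ne'

lemma row_ne_zero (g : G) (i : Fin 3) : g.val i ≠ 0 := fun h =>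
  Matrix.GeneralLinearGroup.det_ne_zero g
    (Matrix.det_eq_zero_of_row_eq_zero i fun j => congrFun h j)

lemma z3_pos (g : G) : 0 < z3 g :=
  div_pos (pow_pos (nsq_pos (row_ne_zero g 2)) 3) (pow_pos (dt_pos g) 2)

lemma row_mul (a g : G) (i : Fin 3) : (a * g).val i = a.val i ᵥ* g.val := by
  ext j
  simp [Matrix.mul_apply, Matrix.vecMul, dotProduct]

lemma z3_mul {a : G} (h0 : a.val 2 0 = 0) (h1 : a.val 2 1 = 0) (h2 : a.val 2 2 = 1) (g : G) :
    z3 (a * g) = z3 g / dt a ^ 2 := by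
  have : (a * g).val 2 = g.val 2 := by
    ext j
    simp [Matrix.mul_apply, Fin.sum_univ_three, h0, h1, h2]
  rw [z3, this, dt_mul, z3, mul_pow, div_div, mul_comm]

@[simp] lemma z3_nn (x y z : ℝ) (g : G) : z3 (nn x y z * g) = z3 g := by
  rw [z3_mul] <;> simp

@[simp] lemma dt_emb (h : SL(2, ℤ)) : dt (emb h) = 1 := dt_io _

@[simp] lemma z3_emb (h : SL(2, ℤ)) (g : G) : z3 (emb h * g) = z3 g := by
  rw [z3_mul] <;> simp [val_emb]

lemma z3_sc {t : ℝ} (ht : 0 < t) (g : G) : z3 (sc t * g) = z3 g := by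
  have : (sc t * g).val 2 = t • g.val 2 := by rw [val_sc_mul ht.ne']; rfl
  have hd := dt_pos g
  rw [z3, this, nsq_smul, dt_mul, dt_sc ht, z3]
  field_simp

lemma vm_io (v : Fin 3 → ℤ) (γ : SL(3, ℤ)) (g : G) : vm v (io γ * g) = vm (v ᵥ* γ.val) g := by
  rw [vm, vm, Units.val_mul, ← Matrix.vecMul_vecMul]
  congr 1
  ext j
  simp [val_io, Matrix.vecMul, dotProduct]

lemma zt_io (v : Fin 3 → ℤ) (γ : SL(3, ℤ)) (g : G) : zt v (io γ * g) = zt (v ᵥ* γ.val) g := by
  simp [zt, vm_io, dt_mul]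

lemma z3_io (γ : SL(3, ℤ)) (g : G) : z3 (io γ * g) = zt (γ.val 2) g := by
  rw [z3, zt, dt_mul, dt_io, one_mul, row_mul]; rfl

lemma zt_smul (k : ℤ) (v : Fin 3 → ℤ) (g : G) : zt (k • v) g = (k : ℝ) ^ 6 * zt v g := by
  have : vm (k • v) g = (k : ℝ) • vm v g := by
    rw [vm, vm, ← Matrix.smul_vecMul]
    congr 1
    ext i; simp
  rw [zt, this, nsq_smul, zt]; ring

lemma zt_sc (v : Fin 3 → ℤ) {t : ℝ} (ht : 0 < t) (g : G) : zt v (sc t * g) = zt v g := by
  have : vm v (sc t * g) = t • vm v g := by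
    rw [vm, vm, val_sc_mul ht.ne', Matrix.vecMul_smul]
  have hd := dt_pos g
  rw [zt, this, nsq_smul, dt_mul, dt_sc ht, zt]
  field_simp

lemma measurable_sq {f : G → ℂ} (hf : Continuous f) : Measurable fun g => ‖f g‖ₑ ^ 2 :=
  hf.measurable.enorm.pow_const 2

lemma measurable_F {f : G → ℂ} (hf : Continuous f) {Ψ : ℝ → ℝ≥0∞} (hΨ : Measurable Ψ) :
    Measurable fun g => Sh 1 g * (‖f g‖ₑ ^ 2 * Ψ (z3 g)) :=
  (measurable_Sh 1).mul ((measurable_sq hf).mul (hΨ.comp continuous_z3.measurable))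

lemma tsum_U2 {f : G → ℂ} (hf : Cusp f) (g : G) :
    ∑' c : ℤ, ∑' d : ℤ, ‖U2 c d f g‖ₑ ^ 2 =
      ∑' k : ℕ+, ∑' w : Prim 2, ‖U2 0 (k : ℕ) f (emb (s2 w) * g)‖ₑ ^ 2 := by
  rw [← ENNReal.tsum_prod' (f := fun p : ℤ × ℤ => ‖U2 p.1 p.2 f g‖ₑ ^ 2),
    ← (finTwoArrowEquiv ℤ).tsum_eq, tsum_prim 2]
  have e : ∀ v : Fin 2 → ℤ, finTwoArrowEquiv ℤ v = (v 0, v 1) := fun v => rfl
  simp only [e, Pi.zero_apply, U2_zero hf, enorm_zero,
    ne_eq, OfNat.ofNat_ne_zero, not_false_eq_true, zero_pow, zero_add]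
  refine tsum_congr fun k => ?_
  refine tsum_congr fun w => ?_
  rw [U2_emb hf.toAut, s2_row]
  simp

theorem unfold_main {f : G → ℂ} (hf : Cusp f) {β βN : G → ℝ≥0∞} (hβ : Measurable β)
    (hβN : Measurable βN) (h1 : DWt io β) (hN : DWt aN βN) {Ψ : ℝ → ℝ≥0∞} (hΨ : Measurable Ψ) :
    ∫⁻ g, β g * (Sh 1 g * (‖f g‖ₑ ^ 2 * ∑' v : Prim 3, Ψ (zt v.1 g))) ∂mu =
      ∑' n : ℕ+, ∑' m : ℤ,
        ∫⁻ g, βN g * (Sh 1 g * (‖Wh m (n : ℕ) f g‖ₑ ^ 2 * Ψ (z3 g))) ∂mu := by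
  set βP := subWt (fun v : Prim 3 => io (s3 v)) β
  have hβP : Measurable βP := measurable_subWt hβ
  have hP : DWt aP βP := subWt_dwt dinv_io dinv_aP tsum_SL3 h1
  have step1 : ∫⁻ g, β g * (Sh 1 g * (‖f g‖ₑ ^ 2 * ∑' v : Prim 3, Ψ (zt v.1 g))) ∂mu =
      ∫⁻ g, βP g * (Sh 1 g * (‖f g‖ₑ ^ 2 * Ψ (z3 g))) ∂mu := by
    rw [← unfold_sub hβ (measurable_F hf.cont hΨ)]
    refine lintegral_congr fun g => ?_
    simp only [Sh_mul_of_dt (dt_io _), hf.inv, z3_io, s3_row, ENNReal.tsum_mul_left]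
  have step2 : ∫⁻ g, βP g * (Sh 1 g * (‖f g‖ₑ ^ 2 * Ψ (z3 g))) ∂mu =
      ∑' k : ℕ+, ∫⁻ g, βP g * ∑' w : Prim 2, (fun g =>
        Sh 1 g * (‖U2 0 (k : ℕ) f g‖ₑ ^ 2 * Ψ (z3 g))) (emb (s2 w) * g) ∂mu := by
    rw [avg dinv_aP continuous_uU.measurable dtile_P hβP (measurable_F hf.cont hΨ) hP,
      ← lintegral_tsum]
    · refine lintegral_congr fun g => ?_
      rw [ENNReal.tsum_mul_left]
      congr 1
      simp only [uU, Sh_mul_of_dt (dt_nn _ _ _), z3_nn, Sh_mul_of_dt (dt_emb _), z3_emb,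
        ENNReal.tsum_mul_left, ENNReal.tsum_mul_right]
      have hm : Measurable fun x : ℝ × ℝ => ‖f (nn 0 x.1 x.2 * g)‖ₑ ^ 2 :=
        (measurable_sq hf.cont).comp (continuous_uU.measurable.mul_const g)
      rw [lintegral_const_mul _ (hm.mul_const _), lintegral_mul_const _ hm,
        lintegral_prod _ hm.aemeasurable, parseval_U2 hf.cont, tsum_U2 hf]
    · intro k
      exact (hβP.mul (Measurable.tsum fun w => (measurable_F (continuous_U2 hf.cont _ _) hΨ).comp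
        (measurable_const_mul _))).aemeasurable
    · rintro ⟨h, a, b⟩ g
      rw [aP, Sh_mul_of_dt (dt_io _), hf.inv, ← aP, aP_eq, mul_assoc, z3_nn, z3_emb]
  rw [step1, step2]
  refine tsum_congr fun k => ?_
  have hinv : ∀ (i : ℤ × ℤ × ℤ) (g : G),
      Sh 1 (aN i * g) * (‖U2 0 (k : ℕ) f (aN i * g)‖ₑ ^ 2 * Ψ (z3 (aN i * g))) =
      Sh 1 g * (‖U2 0 (k : ℕ) f g‖ₑ ^ 2 * Ψ (z3 g)) := by
    rintro ⟨a, b, c⟩ g
    have : nn (a : ℝ) b c = nn 0 b c * nn a 0 0 := by simp [nn_mul]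
    simp only [aN, Sh_mul_of_dt (dt_nn _ _ _), z3_nn]
    rw [this, mul_assoc, U2_nn hf.toAut, U2_nn_int hf.toAut]
    simp
  rw [unfold dinv_aP dinv_aN tsum_P hβP hβN (measurable_F (continuous_U2 hf.cont _ _) hΨ) hP hN
    hinv, avg dinv_aN continuous_nR.measurable dtile_N hβN
      (measurable_F (continuous_U2 hf.cont _ _) hΨ) hN hinv, ← lintegral_tsum]
  · refine lintegral_congr fun g => ?_
    rw [ENNReal.tsum_mul_left]
    congr 1
    have e : ∀ x : ℝ × ℝ × ℝ, ‖U2 0 (k : ℕ) f (nR x * g)‖ₑ = ‖U2 0 (k : ℕ) f (nn x.1 0 0 * g)‖ₑ := by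
      intro x
      have : nR x = nn 0 x.2.1 x.2.2 * nn x.1 0 0 := by simp [nn_mul, nR]
      rw [this, mul_assoc, U2_nn hf.toAut]
      simp
    simp only [e]
    simp only [nR, Sh_mul_of_dt (dt_nn _ _ _), z3_nn, ENNReal.tsum_mul_left,
      ENNReal.tsum_mul_right]
    have hm0 : Measurable fun x : ℝ => ‖U2 0 (k : ℕ) f (nn x 0 0 * g)‖ₑ ^ 2 :=
      (measurable_sq (continuous_U2 hf.cont _ _)).comp
        ((continuous_nn continuous_id continuous_const continuous_const).measurable.mul_const g)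
    have hm : Measurable fun x : ℝ × ℝ × ℝ => ‖U2 0 (k : ℕ) f (nn x.1 0 0 * g)‖ₑ ^ 2 :=
      hm0.comp measurable_fst
    rw [lintegral_const_mul _ (hm.mul_const _), lintegral_mul_const _ hm,
      lintegral_prod _ hm.aemeasurable, ← parseval_Wh hf.cont]
    simp
  · intro m
    exact (hβN.mul (measurable_F (continuous_Wh hf.cont _ _) hΨ)).aemeasurable

end Pool.Agent.Lib.MP_fa98d2_nt
end
end

-- part Pool.Agent.Lib.MP_fa98d2_nt.GS
section

/- Gram-Schmidt coordinates. -/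

open MeasureTheory Matrix Set Topology
open scoped ENNReal MatrixGroups

noncomputable section

namespace Pool.Agent.Lib.MP_fa98d2_nt

def gy (g : G) : ℝ := g.val 1 ⬝ᵥ g.val 2 / nsq (g.val 2)
def gz (g : G) : ℝ := g.val 0 ⬝ᵥ g.val 2 / nsq (g.val 2)
def o1 (g : G) : Fin 3 → ℝ := g.val 1 - gy g • g.val 2
def gx (g : G) : ℝ := g.val 0 ⬝ᵥ o1 g / nsq (o1 g)

lemma row0_nn (a b c : ℝ) (g : G) :
    (nn a b c * g).val 0 = g.val 0 + a • g.val 1 + c • g.val 2 := by
  ext j; simp [Matrix.mul_apply, Fin.sum_univ_three]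

lemma row1_nn (a b c : ℝ) (g : G) : (nn a b c * g).val 1 = g.val 1 + b • g.val 2 := by
  ext j; simp [Matrix.mul_apply, Fin.sum_univ_three]

lemma row2_nn (a b c : ℝ) (g : G) : (nn a b c * g).val 2 = g.val 2 := by
  ext j; simp [Matrix.mul_apply, Fin.sum_univ_three]

lemma P_pos (g : G) (i : Fin 3) : 0 < nsq (g.val i) := nsq_pos (row_ne_zero g i)

lemma o1_pos (g : G) : 0 < nsq (o1 g) := by
  have := P_pos (nn 0 (-gy g) 0 * g) 1
  rwa [row1_nn, neg_smul, ← sub_eq_add_neg] at this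

lemma o1_dot (g : G) : o1 g ⬝ᵥ g.val 2 = 0 := by
  have := (P_pos g 2).ne'
  rw [o1, sub_dotProduct, smul_dotProduct, gy, smul_eq_mul, ← nsq, div_mul_cancel₀ _ this,
    sub_self]

lemma r1_dot_o1 (g : G) : g.val 1 ⬝ᵥ o1 g = nsq (o1 g) := by
  have h : g.val 1 = o1 g + gy g • g.val 2 := by simp [o1]
  conv_lhs => rw [h]
  rw [add_dotProduct, smul_dotProduct, dotProduct_comm (g.val 2), o1_dot]
  simp [nsq]

lemma gy_nn (a b c : ℝ) (g : G) : gy (nn a b c * g) = b + gy g := by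
  have := (P_pos g 2).ne'
  simp only [gy, row1_nn, row2_nn, add_dotProduct, smul_dotProduct, smul_eq_mul, ← nsq.eq_1]
  field_simp; ring

lemma gz_nn (a b c : ℝ) (g : G) : gz (nn a b c * g) = c + gz g + a * gy g := by
  have := (P_pos g 2).ne'
  simp only [gz, gy, row0_nn, row2_nn, add_dotProduct, smul_dotProduct, smul_eq_mul, ← nsq.eq_1]
  field_simp; ring

lemma o1_nn (a b c : ℝ) (g : G) : o1 (nn a b c * g) = o1 g := by
  simp only [o1, gy_nn, row1_nn, row2_nn, add_smul]; abel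

lemma gx_nn (a b c : ℝ) (g : G) : gx (nn a b c * g) = a + gx g := by
  have := (o1_pos g).ne'
  simp only [gx, o1_nn, row0_nn, add_dotProduct, smul_dotProduct, smul_eq_mul, r1_dot_o1,
    dotProduct_comm (g.val 2), o1_dot]
  field_simp; ring

lemma continuous_gy : Continuous gy :=
  ((continuous_row 1).dotProduct (continuous_row 2)).div (continuous_nsq.comp (continuous_row 2))
    fun g => (P_pos g 2).ne'

lemma continuous_gz : Continuous gz :=
  ((continuous_row 0).dotProduct (continuous_row 2)).div (continuous_nsq.comp (continuous_row 2))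
    fun g => (P_pos g 2).ne'

lemma continuous_o1 : Continuous o1 :=
  (continuous_row 1).sub (continuous_gy.smul (continuous_row 2))

lemma continuous_gx : Continuous gx :=
  ((continuous_row 0).dotProduct continuous_o1).div (continuous_nsq.comp continuous_o1)
    fun g => (o1_pos g).ne'

/-- the explicit weight for the integral unipotent group -/
def bN (g : G) : ℝ≥0∞ :=
  if gx g ∈ Ico (0 : ℝ) 1 ∧ gy g ∈ Ico (0 : ℝ) 1 ∧ gz g ∈ Ico (0 : ℝ) 1 then 1 else 0

lemma measurable_bN : Measurable bN := by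
  refine Measurable.ite ?_ measurable_const measurable_const
  exact (continuous_gx.measurable measurableSet_Ico).inter
    ((continuous_gy.measurable measurableSet_Ico).inter (continuous_gz.measurable measurableSet_Ico))

lemma int_add_mem_Ico (a : ℤ) (x : ℝ) : (a : ℝ) + x ∈ Ico (0 : ℝ) 1 ↔ a = -⌊x⌋ := by
  rw [← Int.floor_eq_zero_iff, Int.floor_intCast_add]
  omega

lemma dwt_bN : DWt aN bN := by
  intro g
  rw [tsum_eq_single (-⌊gx g⌋, -⌊gy g⌋, -⌊gz g + ((-⌊gx g⌋ : ℤ) : ℝ) * gy g⌋)]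
  · simp only [bN, aN, gx_nn, gy_nn, gz_nn, add_assoc, int_add_mem_Ico]
    simp
  · rintro ⟨a, b, c⟩ hne
    simp only [bN, aN, gx_nn, gy_nn, gz_nn, add_assoc, int_add_mem_Ico]
    rw [if_neg]
    rintro ⟨rfl, rfl, rfl⟩
    exact hne rfl

def orth (g : G) : G := (nn (gx g) (gy g) (gz g))⁻¹ * g

lemma nn_orth (g : G) : nn (gx g) (gy g) (gz g) * orth g = g := by simp [orth]

lemma orth_nn (a b c : ℝ) (g : G) : orth (nn a b c * g) = orth g := by
  rw [orth, gx_nn, gy_nn, gz_nn, ← nn_mul]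
  simp [orth, mul_assoc]

lemma orth_row2 (g : G) : (orth g).val 2 = g.val 2 := by rw [orth, nn_inv, row2_nn]

lemma orth_row1 (g : G) : (orth g).val 1 = o1 g := by
  rw [orth, nn_inv, row1_nn, o1, neg_smul, sub_eq_add_neg]

lemma orth_row0 (g : G) : (orth g).val 0 = g.val 0 - gx g • o1 g - gz g • g.val 2 := by
  rw [orth, nn_inv, row0_nn, o1]; module

structure Orth (o : G) : Prop where
  h01 : o.val 0 ⬝ᵥ o.val 1 = 0
  h02 : o.val 0 ⬝ᵥ o.val 2 = 0
  h12 : o.val 1 ⬝ᵥ o.val 2 = 0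

lemma orth_orth (g : G) : Orth (orth g) := by
  have h1 := (o1_pos g).ne'
  have h2 := (P_pos g 2).ne'
  refine ⟨?_, ?_, ?_⟩
  · simp only [orth_row0, orth_row1, sub_dotProduct, smul_dotProduct, smul_eq_mul,
      dotProduct_comm (g.val 2), o1_dot, ← nsq.eq_1, gx]
    field_simp; ring
  · simp only [orth_row0, orth_row2, sub_dotProduct, smul_dotProduct, smul_eq_mul,
      o1_dot, ← nsq.eq_1, gz]
    field_simp; ring
  · rw [orth_row1, orth_row2, o1_dot]

lemma Orth.mul_transpose {o : G} (h : Orth o) :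
    o.val * o.val.transpose = Matrix.diagonal fun i => nsq (o.val i) := by
  have h10 : o.val 1 ⬝ᵥ o.val 0 = 0 := by rw [dotProduct_comm, h.h01]
  have h20 : o.val 2 ⬝ᵥ o.val 0 = 0 := by rw [dotProduct_comm, h.h02]
  have h21 : o.val 2 ⬝ᵥ o.val 1 = 0 := by rw [dotProduct_comm, h.h12]
  have e : ∀ i j, (o.val * o.val.transpose) i j = o.val i ⬝ᵥ o.val j := fun i j => rfl
  ext i j
  rw [e]
  fin_cases i <;> fin_cases j <;> simp [h.h01, h.h02, h.h12, h10, h20, h21, nsq]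

lemma Orth.dt_sq {o : G} (h : Orth o) :
    dt o ^ 2 = nsq (o.val 0) * nsq (o.val 1) * nsq (o.val 2) := by
  have := congrArg Matrix.det h.mul_transpose
  rw [Matrix.det_mul, Matrix.det_transpose, Matrix.det_diagonal, Fin.prod_univ_three] at this
  rw [dt, sq_abs, sq, this]

lemma Orth.du_row {o : G} (h : Orth o) (i : Fin 3) :
    (du o).val i = (nsq (o.val i))⁻¹ • o.val i := by
  have e : (du o).val = Matrix.diagonal (fun i => (nsq (o.val i))⁻¹) * o.val := by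
    have h1 : Matrix.diagonal (fun i => (nsq (o.val i))⁻¹) * o.val * (tr o).val = 1 := by
      rw [val_tr, Matrix.mul_assoc, h.mul_transpose, Matrix.diagonal_mul_diagonal,
        ← Matrix.diagonal_one]
      congr 1
      ext i
      exact inv_mul_cancel₀ (P_pos o i).ne'
    rw [du, Matrix.coe_units_inv]
    exact Matrix.inv_eq_left_inv h1
  rw [e]
  ext j
  simp [Matrix.diagonal_mul]

/-- squared lengths of the orthogonalised rows -/
def AA (i : Fin 3) (g : G) : ℝ := nsq ((orth g).val i)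

lemma AA_pos (i : Fin 3) (g : G) : 0 < AA i g := P_pos _ _

@[simp] lemma AA_nn (i : Fin 3) (a b c : ℝ) (g : G) : AA i (nn a b c * g) = AA i g := by
  rw [AA, orth_nn, AA]

lemma dt_orth (g : G) : dt (orth g) = dt g := by
  rw [orth, nn_inv, dt_mul, dt_nn, one_mul]

lemma dt_sq (g : G) : dt g ^ 2 = AA 0 g * AA 1 g * AA 2 g := by
  rw [← dt_orth, (orth_orth g).dt_sq]; rfl

lemma AA_two (g : G) : AA 2 g = nsq (g.val 2) := by rw [AA, orth_row2]

lemma du_nn (x y z : ℝ) : (du (nn x y z)).val = !![1, 0, 0; -x, 1, 0; x * y - z, -y, 1] := by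
  rw [du, ← tr_inv, nn_inv, val_tr, val_nn]
  ext i j
  fin_cases i <;> fin_cases j <;> simp

lemma AA_zero (g : G) : AA 0 g = (nsq ((du g).val 0))⁻¹ := by
  have : (du g).val 0 = (du (orth g)).val 0 := by
    conv_lhs => rw [← nn_orth g, du_mul]
    ext j
    simp [du_nn, Matrix.mul_apply, Fin.sum_univ_three]
  have h := AA_pos 0 g
  rw [this, (orth_orth g).du_row, nsq_smul, ← AA]
  field_simp

lemma Orth.orth_eq {o : G} (h : Orth o) : orth o = o := by
  have hy : gy o = 0 := by rw [gy, h.h12, zero_div]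
  have hz : gz o = 0 := by rw [gz, h.h02, zero_div]
  have hx : gx o = 0 := by rw [gx, o1, hy, zero_smul, sub_zero, h.h01, zero_div]
  simp [orth, hx, hy, hz]

lemma orth_orth_eq (g : G) : orth (orth g) = orth g := (orth_orth g).orth_eq

@[simp] lemma AA_orth (i : Fin 3) (g : G) : AA i (orth g) = AA i g := by
  rw [AA, orth_orth_eq, AA]

lemma nsq_row0 (g : G) :
    nsq (g.val 0) = AA 0 g + gx g ^ 2 * AA 1 g + gz g ^ 2 * AA 2 g := by
  have h := orth_orth g
  conv_lhs => rw [← nn_orth g, row0_nn]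
  have h10 : (orth g).val 1 ⬝ᵥ (orth g).val 0 = 0 := by rw [dotProduct_comm, h.h01]
  have h20 : (orth g).val 2 ⬝ᵥ (orth g).val 0 = 0 := by rw [dotProduct_comm, h.h02]
  have h21 : (orth g).val 2 ⬝ᵥ (orth g).val 1 = 0 := by rw [dotProduct_comm, h.h12]
  simp only [AA, nsq, add_dotProduct, dotProduct_add, smul_dotProduct, dotProduct_smul,
    smul_eq_mul, h.h01, h.h02, h.h12, h10, h20, h21]
  ring

lemma nsq_row1 (g : G) : nsq (g.val 1) = AA 1 g + gy g ^ 2 * AA 2 g := by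
  have h := orth_orth g
  conv_lhs => rw [← nn_orth g, row1_nn]
  have h21 : (orth g).val 2 ⬝ᵥ (orth g).val 1 = 0 := by rw [dotProduct_comm, h.h12]
  simp only [AA, nsq, add_dotProduct, dotProduct_add, smul_dotProduct, dotProduct_smul,
    smul_eq_mul, h.h12, h21]
  ring

/-- Frobenius norm squared -/
def Fr (g : G) : ℝ := nsq (g.val 0) + nsq (g.val 1) + nsq (g.val 2)

lemma Fr_pos (g : G) : 0 < Fr g := by
  have := P_pos g 0; have := P_pos g 1; have := P_pos g 2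
  unfold Fr; positivity

lemma Fr_tr (g : G) : Fr (tr g) = Fr g := by
  simp only [Fr, nsq_eq, val_tr, Matrix.transpose_apply]; ring

lemma Fr_du (g : G) : Fr (du g) = Fr g⁻¹ := by rw [du, ← tr_inv, Fr_tr]

lemma continuous_Fr : Continuous Fr :=
  ((continuous_nsq.comp (continuous_row 0)).add (continuous_nsq.comp (continuous_row 1))).add
    (continuous_nsq.comp (continuous_row 2))

lemma cs3 (a b c x y z : ℝ) :
    (a * x + b * y + c * z) ^ 2 ≤ (a ^ 2 + b ^ 2 + c ^ 2) * (x ^ 2 + y ^ 2 + z ^ 2) := by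
  nlinarith [sq_nonneg (a * y - b * x), sq_nonneg (a * z - c * x), sq_nonneg (b * z - c * y)]

lemma nsq_vecMul (v : Fin 3 → ℝ) (h : G) : nsq (v ᵥ* h.val) ≤ Fr h * nsq v := by
  simp only [Fr, nsq_eq, Matrix.vecMul, dotProduct, Fin.sum_univ_three]
  have h0 := cs3 (v 0) (v 1) (v 2) (h.val 0 0) (h.val 1 0) (h.val 2 0)
  have h1 := cs3 (v 0) (v 1) (v 2) (h.val 0 1) (h.val 1 1) (h.val 2 1)
  have h2 := cs3 (v 0) (v 1) (v 2) (h.val 0 2) (h.val 1 2) (h.val 2 2)
  nlinarith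

lemma nsq_row_mul (g h : G) (i : Fin 3) : nsq ((g * h).val i) ≤ Fr h * nsq (g.val i) := by
  rw [row_mul]; exact nsq_vecMul _ _

lemma Fr_mul (g h : G) : Fr (g * h) ≤ Fr g * Fr h := by
  have h0 := nsq_row_mul g h 0
  have h1 := nsq_row_mul g h 1
  have h2 := nsq_row_mul g h 2
  unfold Fr at *
  nlinarith

lemma AA_le_Fr (i : Fin 3) (g : G) : AA i g ≤ Fr g := by
  have h0 := nsq_row0 g
  have h1 := nsq_row1 g
  have h2 := AA_two g
  have := AA_pos 0 g; have := AA_pos 1 g; have := AA_pos 2 g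
  have : 0 ≤ gx g ^ 2 * AA 1 g := by positivity
  have : 0 ≤ gz g ^ 2 * AA 2 g := by positivity
  have : 0 ≤ gy g ^ 2 * AA 2 g := by positivity
  unfold Fr
  fin_cases i <;> simp <;> linarith

lemma dt_sq_le (g : G) : dt g ^ 2 ≤ Fr g ^ 3 := by
  rw [dt_sq]
  have := AA_pos 0 g; have := AA_pos 1 g; have := AA_pos 2 g; have := Fr_pos g
  calc AA 0 g * AA 1 g * AA 2 g ≤ Fr g * Fr g * Fr g := by
        gcongr <;> exact AA_le_Fr _ g
    _ = _ := by ring

def Om (R : ℝ) : Set G := {h | Fr h ≤ R ∧ Fr h⁻¹ ≤ R}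

lemma Om_inv {R : ℝ} {h : G} (hh : h ∈ Om R) : h⁻¹ ∈ Om R := ⟨hh.2, by simpa using hh.1⟩

lemma Om_du {R : ℝ} {h : G} (hh : h ∈ Om R) : du h ∈ Om R :=
  ⟨by rw [Fr_du]; exact hh.2, by rw [← du_inv, Fr_du, inv_inv]; exact hh.1⟩

lemma Om_mul {R S : ℝ} {g h : G} (hg : g ∈ Om R) (hh : h ∈ Om S) : g * h ∈ Om (R * S) := by
  have := Fr_pos g; have := Fr_pos h; have := Fr_pos g⁻¹; have := Fr_pos h⁻¹
  refine ⟨(Fr_mul g h).trans (mul_le_mul hg.1 hh.1 (by positivity) (by linarith [hg.1])), ?_⟩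
  rw [_root_.mul_inv_rev, mul_comm R]
  exact (Fr_mul _ _).trans (mul_le_mul hh.2 hg.2 (by positivity) (by linarith [hh.2]))

lemma Om_mono {R S : ℝ} (h : R ≤ S) : Om R ⊆ Om S := fun _ hg => ⟨hg.1.trans h, hg.2.trans h⟩

lemma isClosed_Om (R : ℝ) : IsClosed (Om R) :=
  (isClosed_le continuous_Fr continuous_const).inter
    (isClosed_le (continuous_Fr.comp continuous_inv) continuous_const)

lemma entry_le (g : G) (i j : Fin 3) : g.val i j ^ 2 ≤ Fr g := by
  simp only [Fr, nsq_eq]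
  fin_cases i <;> fin_cases j <;> simp <;> nlinarith [sq_nonneg (g.val 0 0), sq_nonneg (g.val 0 1),
    sq_nonneg (g.val 0 2), sq_nonneg (g.val 1 0), sq_nonneg (g.val 1 1), sq_nonneg (g.val 1 2),
    sq_nonneg (g.val 2 0), sq_nonneg (g.val 2 1), sq_nonneg (g.val 2 2)]

lemma isCompact_Om (R : ℝ) : IsCompact (Om R) := by
  let K : Set Mat := {A | ∀ i j, A i j ∈ Icc (-√R) √R}
  have hK : IsCompact K := (isCompact_Icc (a := -√R) (b := √R)).matrix
  have hmem : ∀ g : G, Fr g ≤ R → g.val ∈ K := fun g hg i j =>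
    abs_le.1 (Real.abs_le_sqrt ((entry_le g i j).trans hg))
  have hc := Units.isClosedEmbedding_embedProduct.isCompact_preimage
    (hK.prod (hK.image MulOpposite.continuous_op))
  refine hc.of_isClosed_subset (isClosed_Om R) fun g hg => ⟨hmem g hg.1, ?_⟩
  exact ⟨(g⁻¹).val, hmem _ hg.2, rfl⟩

lemma AA_mul_le {R : ℝ} (hR : 1 ≤ R) {h : G} (hh : h ∈ Om R) (g : G) (i : Fin 3) :
    AA i (g * h) ≤ R ^ 5 * AA i g := by
  have k2 : ∀ {h : G}, h ∈ Om R → ∀ g, AA 2 (g * h) ≤ R * AA 2 g := by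
    intro h hh g
    rw [AA_two, AA_two]
    exact (nsq_row_mul g h 2).trans (mul_le_mul_of_nonneg_right hh.1 (nsq_nonneg _))
  have k0 : ∀ {h : G}, h ∈ Om R → ∀ g, AA 0 (g * h) ≤ R * AA 0 g := by
    intro h hh g
    rw [AA_zero, AA_zero, ← div_eq_mul_inv, inv_eq_one_div,
      div_le_div_iff₀ (P_pos _ 0) (P_pos _ 0), one_mul]
    have := nsq_row_mul (du (g * h)) (du h⁻¹) 0
    rw [← du_mul, mul_inv_cancel_right, Fr_du, inv_inv] at this
    exact this.trans (mul_le_mul_of_nonneg_right hh.1 (nsq_nonneg _))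
  have hR5 : R ≤ R ^ 5 := le_self_pow₀ hR (by norm_num)
  have p0 := AA_pos 0 g; have p1 := AA_pos 1 g; have p2 := AA_pos 2 g
  have k1 : AA 1 (g * h) ≤ R ^ 5 * AA 1 g := by
    have a0 := k0 (Om_inv hh) (g * h)
    have a2 := k2 (Om_inv hh) (g * h)
    rw [mul_inv_cancel_right] at a0 a2
    have e1 := dt_sq (g * h)
    rw [dt_mul, mul_pow, dt_sq g] at e1
    have e2 : dt h ^ 2 ≤ R ^ 3 :=
      (dt_sq_le h).trans (pow_le_pow_left₀ (Fr_pos h).le hh.1 3)
    have q0 := AA_pos 0 (g * h); have q1 := AA_pos 1 (g * h); have q2 := AA_pos 2 (g * h)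
    generalize AA 0 (g * h) = b0, AA 1 (g * h) = b1, AA 2 (g * h) = b2, AA 0 g = c0, AA 1 g = c1,
      AA 2 g = c2, dt h ^ 2 = d at *
    have hd : 0 ≤ d := by
      by_contra hd
      have : c0 * c1 * c2 * d < 0 := mul_neg_of_pos_of_neg (by positivity) (not_le.1 hd)
      have : 0 < b0 * b1 * b2 := by positivity
      linarith
    refine le_of_mul_le_mul_left (a := b0 * b2) ?_ (by positivity)
    calc b0 * b2 * b1 = c0 * c1 * c2 * d := by rw [e1]; ring
      _ ≤ (R * b0) * c1 * (R * b2) * R ^ 3 := by gcongr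
      _ = _ := by ring
  fin_cases i
  · exact (k0 hh g).trans (mul_le_mul_of_nonneg_right hR5 p0.le)
  · exact k1
  · exact (k2 hh g).trans (mul_le_mul_of_nonneg_right hR5 p2.le)

end Pool.Agent.Lib.MP_fa98d2_nt
end
end

-- part Pool.Agent.Lib.MP_fa98d2_nt.Conv
section

/- Convolution with Lipschitz kernels. -/

open MeasureTheory Matrix Set Topology
open scoped ENNReal MatrixGroups

noncomputable section

namespace Pool.Agent.Lib.MP_fa98d2_nt

def Near (v : G) (ε : ℝ) : Prop :=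
  (∀ i j, |v.val i j - (1 : Mat) i j| ≤ ε) ∧ ∀ i j, |(v⁻¹).val i j - (1 : Mat) i j| ≤ ε

lemma Near.inv {v : G} {ε : ℝ} (h : Near v ε) : Near v⁻¹ ε := ⟨h.2, by simpa using h.1⟩

lemma Near.du {v : G} {ε : ℝ} (h : Near v ε) : Near (du v) ε := by
  have e : ∀ i j, (1 : Mat) i j = (1 : Mat) j i := fun i j => by
    simp [Matrix.one_apply, eq_comm]
  constructor
  · intro i j
    rw [_root_.Pool.Agent.Lib.MP_fa98d2_nt.du, ← tr_inv, val_tr, Matrix.transpose_apply, e]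
    exact h.2 j i
  · intro i j
    rw [_root_.Pool.Agent.Lib.MP_fa98d2_nt.du, inv_inv, val_tr, Matrix.transpose_apply, e]
    exact h.1 j i

lemma Fr_le_of_near {v : G} (h : ∀ i j, |v.val i j - (1 : Mat) i j| ≤ 1) : Fr v ≤ 36 := by
  have k : ∀ i j, v.val i j ^ 2 ≤ 4 := by
    intro i j
    have h1 := abs_le.1 (h i j)
    have h2 : 0 ≤ (1 : Mat) i j ∧ (1 : Mat) i j ≤ 1 := by
      rw [Matrix.one_apply]; split_ifs <;> norm_num
    nlinarith
  simp only [Fr, nsq_eq]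
  linarith [k 0 0, k 0 1, k 0 2, k 1 0, k 1 1, k 1 2, k 2 0, k 2 1, k 2 2]

lemma Near.mem_Om {v : G} {ε : ℝ} (h : Near v ε) (hε : ε ≤ 1) : v ∈ Om 36 :=
  ⟨Fr_le_of_near fun i j => (h.1 i j).trans hε, Fr_le_of_near fun i j => (h.2 i j).trans hε⟩

structure Ker (k : G → ℝ) : Prop where
  cont : Continuous k
  supp : ∀ h, h ∉ Om 4 → k h = 0
  lip : ∃ C, 0 ≤ C ∧ ∀ v ε, ε ≤ 1 → Near v ε → ∀ h, |k (v * h) - k h| ≤ C * ε

lemma Ker.du {k : G → ℝ} (hk : Ker k) : Ker fun h => k (du h) := by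
  refine ⟨hk.cont.comp continuous_du, fun h hh => hk.supp _ fun h' => hh ?_, ?_⟩
  · simpa using Om_du h'
  · obtain ⟨C, hC, h⟩ := hk.lip
    exact ⟨C, hC, fun v ε hε hv g => by rw [du_mul]; exact h _ ε hε hv.du _⟩

lemma Ker.bdd {k : G → ℝ} (hk : Ker k) : ∃ C, 0 ≤ C ∧ ∀ h, |k h| ≤ C := by
  obtain ⟨C, hC⟩ := (isCompact_Om 4).exists_bound_of_continuousOn hk.cont.continuousOn
  refine ⟨max C 0, le_max_right _ _, fun h => ?_⟩
  by_cases hh : h ∈ Om 4
  · exact (hC h hh).trans (le_max_left _ _)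
  · simp [hk.supp h hh]

def conv (k : G → ℝ) (f : G → ℂ) (g : G) : ℂ := ∫ h, (k h : ℂ) * f (g * h) ∂mu

lemma integrable_of_Om {F : G → ℂ} (hF : Continuous F) {R : ℝ} (h0 : ∀ h, h ∉ Om R → F h = 0) :
    Integrable F mu :=
  (hF.continuousOn.integrableOn_compact (isCompact_Om R)).integrable_of_forall_notMem_eq_zero h0

section
variable {k : G → ℝ} {f : G → ℂ}

lemma Ker.integrable (hk : Ker k) (hf : Continuous f) (g : G) :
    Integrable (fun h => (k h : ℂ) * f (g * h)) mu :=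
  integrable_of_Om (by have := hk.cont; fun_prop) (R := 4) fun h hh => by simp [hk.supp h hh]

lemma conv_eq (hk : Ker k) (f : G → ℂ) (g : G) :
    conv k f g = ∫ h in Om 4, (k h : ℂ) * f (g * h) ∂mu :=
  (setIntegral_eq_integral_of_forall_compl_eq_zero fun h hh => by simp [hk.supp h hh]).symm

lemma continuous_conv (hk : Ker k) (hf : Continuous f) : Continuous (conv k f) := by
  have : conv k f = fun g => ∫ h in Om 4, (k h : ℂ) * f (g * h) ∂mu := funext (conv_eq hk f)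
  rw [this]
  refine continuous_parametric_integral_of_continuous ?_ (isCompact_Om 4)
  have := hk.cont
  unfold Function.uncurry
  fun_prop

lemma Aut.conv (hf : Aut f) (hk : Ker k) : Aut (conv k f) :=
  ⟨continuous_conv hk hf.cont, fun γ g => by
    simp only [_root_.Pool.Agent.Lib.MP_fa98d2_nt.conv, mul_assoc, hf.inv], fun t ht g => by
    simp only [_root_.Pool.Agent.Lib.MP_fa98d2_nt.conv, mul_assoc, hf.cen t ht]⟩

lemma fc_conv (hk : Ker k) {Φ : ℝ → G → ℂ} (hΦ : Continuous (Function.uncurry Φ)) (m : ℤ)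
    (g : G) : fc m (fun x => conv k (Φ x) g) = conv k (fun g' => fc m fun x => Φ x g') g := by
  simp only [fc, conv, ← integral_mul_const, ← intervalIntegral.integral_const_mul, mul_assoc]
  apply intervalIntegral_integral_swap
  have hc : Continuous fun p : ℝ × G => (k p.2 : ℂ) * (Φ p.1 (g * p.2) * ec (m * p.1)) := by
    have := hk.cont
    have h2 : Continuous fun p : ℝ × G => Φ p.1 (g * p.2) :=
      hΦ.comp (f := fun p : ℝ × G => (p.1, g * p.2)) (by fun_prop)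
    fun_prop
  have h1 : IntegrableOn (fun p : ℝ × G => (k p.2 : ℂ) * (Φ p.1 (g * p.2) * ec (m * p.1)))
      (Icc 0 1 ×ˢ Om 4) (volume.prod mu) :=
    hc.continuousOn.integrableOn_compact (isCompact_Icc.prod (isCompact_Om 4))
  rw [uIoc_of_le zero_le_one, ← Measure.restrict_univ (μ := mu), Measure.prod_restrict]
  refine IntegrableOn.of_forall_sdiff_eq_zero h1 (measurableSet_Ioc.prod MeasurableSet.univ) ?_
  rintro ⟨x, h⟩ ⟨h2, h3⟩
  have : h ∉ Om 4 := fun h4 => h3 ⟨Ioc_subset_Icc_self h2.1, h4⟩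
  simp [hk.supp h this]

lemma conv_left (k : G → ℝ) (f : G → ℂ) (a g : G) :
    conv k f (a * g) = conv k (fun g' => f (a * g')) g := by
  simp only [conv, mul_assoc]

lemma fc2_conv (hk : Ker k) (hf : Continuous f) {u : ℝ → ℝ → G}
    (hu : Continuous (Function.uncurry u)) (c d : ℤ) (g : G) :
    (fc d fun y => fc c fun z => conv k f (u y z * g)) =
      conv k (fun g' => fc d fun y => fc c fun z => f (u y z * g')) g := by
  rw [← fc_conv hk (Φ := fun y g' => fc c fun z => f (u y z * g'))]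
  · congr 1
    ext y
    rw [← fc_conv hk (Φ := fun z g' => f (u y z * g'))]
    · simp only [conv_left]
    · exact hf.comp ((hu.comp (f := fun p : ℝ × G => (y, p.1)) (by fun_prop)).mul continuous_snd)
  · refine continuous_fc c (f := fun (p : ℝ × G) z => f (u p.1 z * p.2)) ?_
    exact hf.comp ((hu.comp (f := fun p : (ℝ × G) × ℝ => (p.1.1, p.2)) (by fun_prop)).mul
      (by fun_prop))

lemma U2_conv (hk : Ker k) (hf : Continuous f) (c d : ℤ) :
    U2 c d (conv k f) = conv k (U2 c d f) := by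
  ext g
  exact fc2_conv hk hf (u := fun y z => nn 0 y z)
    (continuous_nn continuous_const (by fun_prop) (by fun_prop)) c d g

lemma Wh_conv (hk : Ker k) (hf : Continuous f) (m n : ℤ) :
    Wh m n (conv k f) = conv k (Wh m n f) := by
  ext g
  simp only [Wh, U2_conv hk hf, conv_left]
  exact fc_conv hk (Φ := fun x g' => U2 0 n f (nn x 0 0 * g'))
    (cont_nn_mul (continuous_U2 hf 0 n) (by fun_prop) continuous_const continuous_const
      (by fun_prop)) m g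

lemma Cusp.conv (hf : Cusp f) (hk : Ker k) : Cusp (conv k f) := by
  refine ⟨hf.toAut.conv hk, fun g => ?_, fun g => ?_⟩
  · have := fc2_conv hk hf.cont (u := fun y z => nn 0 y z)
      (continuous_nn continuous_const (by fun_prop) (by fun_prop)) 0 0 g
    simp only [fc_zero, hf.c1] at this
    rw [this]; simp [_root_.Pool.Agent.Lib.MP_fa98d2_nt.conv]
  · have := fc2_conv hk hf.cont (u := fun x z => nn x 0 z)
      (continuous_nn (by fun_prop) continuous_const (by fun_prop)) 0 0 g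
    simp only [fc_zero, hf.c2] at this
    rw [this]; simp [_root_.Pool.Agent.Lib.MP_fa98d2_nt.conv]

/-- the dual function -/
def dual (f : G → ℂ) (g : G) : ℂ := f (du g)

lemma dual_conv (k : G → ℝ) (f : G → ℂ) :
    dual (conv k f) = conv (fun h => k (du h)) (dual f) := by
  ext g
  simp only [dual, conv, du_mul]
  exact (integral_du fun h => (k h : ℂ) * f (du g * h)).symm

end

lemma cs_lintegral {α : Type*} [MeasurableSpace α] (ν : Measure α) {u : α → ℝ≥0∞}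
    (hu : Measurable u) : (∫⁻ a, u a ∂ν) ^ 2 ≤ ν univ * ∫⁻ a, u a ^ 2 ∂ν := by
  have := ENNReal.lintegral_mul_le_Lp_mul_Lq ν Real.HolderConjugate.two_two
    (f := fun _ => 1) (g := u) aemeasurable_const hu.aemeasurable
  simp only [Pi.mul_apply, one_mul, ENNReal.one_rpow, lintegral_const, ENNReal.rpow_two] at this
  refine (pow_le_pow_left' this 2).trans (le_of_eq ?_)
  have e : ∀ x : ℝ≥0∞, (x ^ (1 / 2 : ℝ)) ^ 2 = x := fun x => by
    rw [← ENNReal.rpow_two, ← ENNReal.rpow_mul]; norm_num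
  rw [mul_pow, e, e, one_pow, one_mul]

lemma enorm_conv_sq {k : G → ℝ} (hk : Ker k) : ∃ c : ℝ≥0∞, c ≠ ∞ ∧ ∀ f : G → ℂ, Continuous f →
    ∀ g, ‖conv k f g‖ₑ ^ 2 ≤ c * ∫⁻ h in Om 4, ‖f (g * h)‖ₑ ^ 2 ∂mu := by
  obtain ⟨C, hC0, hC⟩ := hk.bdd
  refine ⟨ENNReal.ofReal C ^ 2 * mu (Om 4), ENNReal.mul_ne_top (by simp)
    (isCompact_Om 4).measure_lt_top.ne, fun f hf g => ?_⟩
  have hm : Measurable fun h => ‖f (g * h)‖ₑ := (hf.comp (continuous_const_mul g)).measurable.enorm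
  have h1 : ‖conv k f g‖ₑ ≤ ENNReal.ofReal C * ∫⁻ h in Om 4, ‖f (g * h)‖ₑ ∂mu := by
    rw [conv_eq hk, ← lintegral_const_mul _ hm]
    refine (enorm_integral_le_lintegral_enorm _).trans (lintegral_mono fun h => ?_)
    rw [enorm_mul]
    gcongr
    rw [← ofReal_norm, Complex.norm_real]
    exact ENNReal.ofReal_le_ofReal (hC h)
  have h2 := cs_lintegral (mu.restrict (Om 4)) hm
  rw [Measure.restrict_apply_univ] at h2
  calc ‖conv k f g‖ₑ ^ 2 ≤ (ENNReal.ofReal C * ∫⁻ h in Om 4, ‖f (g * h)‖ₑ ∂mu) ^ 2 := by gcongr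
    _ ≤ _ := by rw [mul_pow, mul_assoc]; gcongr

/-- squared norm -/
def N2 (β : G → ℝ≥0∞) (f : G → ℂ) : ℝ≥0∞ := ∫⁻ g, β g * (Sh 1 g * ‖f g‖ₑ ^ 2) ∂mu

section
variable {β : G → ℝ≥0∞} {f : G → ℂ}

lemma N2_shift (hβ : Measurable β) (h1 : DWt io β) (hf : Aut f) {c : ℝ} (hc : 0 < c) :
    ∫⁻ g, β g * (Sh c g * ‖f g‖ₑ ^ 2) ∂mu = N2 β f :=
  shift_disc dinv_io dt_io hβ (measurable_sq hf.cont) h1 (fun γ g => by rw [hf.inv])
    (fun t ht g => by rw [hf.cen t ht.ne']) hc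

lemma N2_indep {β' : G → ℝ≥0∞} (hβ : Measurable β) (h1 : DWt io β) (hβ' : Measurable β')
    (h2 : DWt io β') (hf : Aut f) : N2 β' f = N2 β f :=
  dwt_indep dinv_io hβ hβ' ((measurable_Sh 1).mul (measurable_sq hf.cont)) h1 h2
    fun γ g => by rw [hf.inv, Sh_mul_of_dt (dt_io _)]

lemma N2_right (hβ : Measurable β) (h1 : DWt io β) (hf : Aut f) (h : G) :
    ∫⁻ g, β g * (Sh 1 g * ‖f (g * h)‖ₑ ^ 2) ∂mu = N2 β f := by
  have hβ' : Measurable fun g => β (g * h⁻¹) := hβ.comp (measurable_mul_const _)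
  have h2 : DWt io fun g => β (g * h⁻¹) := fun g => by simpa only [mul_assoc] using h1 (g * h⁻¹)
  rw [← N2_indep hβ h1 hβ' h2 hf, ← N2_shift hβ' h2 hf (c := 1 * dt h) (by simp [dt_pos]),
    ← lintegral_mul_right_eq_self (fun g => β (g * h⁻¹) * (Sh (1 * dt h) g * ‖f g‖ₑ ^ 2)) h]
  simp only [mul_inv_cancel_right, Sh_mul_right]

lemma N2_conv (hβ : Measurable β) (h1 : DWt io β) (hf : Aut f) {k : G → ℝ} (hk : Ker k)
    (h2 : N2 β f ≠ ∞) : N2 β (conv k f) ≠ ∞ := by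
  obtain ⟨c, hc, h⟩ := enorm_conv_sq hk
  have hm : Measurable fun p : G × G => β p.1 * (Sh 1 p.1 * ‖f (p.1 * p.2)‖ₑ ^ 2) :=
    (hβ.comp measurable_fst).mul (((measurable_Sh 1).comp measurable_fst).mul
      ((measurable_sq hf.cont).comp measurable_mul))
  refine ne_top_of_le_ne_top (b := c * (N2 β f * mu (Om 4))) (ENNReal.mul_ne_top hc
    (ENNReal.mul_ne_top h2 (isCompact_Om 4).measure_lt_top.ne)) ?_
  calc N2 β (conv k f) ≤ ∫⁻ g, c * ∫⁻ h in Om 4, β g * (Sh 1 g * ‖f (g * h)‖ₑ ^ 2) ∂mu ∂mu := by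
        refine lintegral_mono fun g => ?_
        have hm : Measurable fun h => ‖f (g * h)‖ₑ ^ 2 :=
          (measurable_sq hf.cont).comp (measurable_const_mul g)
        rw [lintegral_const_mul _ (hm.const_mul _), lintegral_const_mul _ hm]
        calc β g * (Sh 1 g * ‖conv k f g‖ₑ ^ 2) ≤
            β g * (Sh 1 g * (c * ∫⁻ h in Om 4, ‖f (g * h)‖ₑ ^ 2 ∂mu)) := by
              gcongr; exact h f hf.cont g
          _ = _ := by ring
    _ = _ := by
        rw [lintegral_const_mul' _ _ hc, lintegral_lintegral_swap hm.aemeasurable]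
        simp only [N2_right hβ h1 hf, setLIntegral_const]

lemma N2_ne_zero (hβ : Measurable β) (h1 : DWt io β) (hf : Aut f) (h0 : ∃ g, f g ≠ 0) :
    N2 β f ≠ 0 := by
  intro hz
  obtain ⟨g0, hg0⟩ := h0
  have hm : Measurable fun g => Sh (2 / 3 * dt g0) g * ‖f g‖ₑ ^ 2 :=
    (measurable_Sh _).mul (measurable_sq hf.cont)
  have e := lintegral_eq_wt dinv_io hβ hm h1
  simp only [Sh_mul_of_dt (dt_io _), hf.inv] at e
  rw [← N2_shift hβ h1 hf (c := 2 / 3 * dt g0) (by have := dt_pos g0; positivity),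
    lintegral_eq_zero_iff (f := fun g => β g * (Sh (2 / 3 * dt g0) g * ‖f g‖ₑ ^ 2))
      (hβ.mul hm)] at hz
  have e2 : ∫⁻ g, Sh (2 / 3 * dt g0) g * ‖f g‖ₑ ^ 2 ∂mu = 0 := by
    rw [e, ← lintegral_zero (μ := mu)]
    refine lintegral_congr_ae ?_
    filter_upwards [hz] with g hg
    simp only [← ENNReal.tsum_mul_left]
    simp only [Pi.zero_apply] at hg
    simp [hg]
  rw [lintegral_eq_zero_iff hm] at e2
  let U : Set G := {g | 2 / 3 * dt g0 < dt g} ∩ {g | dt g < 2 * (2 / 3 * dt g0)} ∩ {g | f g ≠ 0}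
  have hU : IsOpen U := ((isOpen_lt continuous_const continuous_dt).inter
    (isOpen_lt continuous_dt continuous_const)).inter (isOpen_ne_fun hf.cont continuous_const)
  have hne : U.Nonempty := ⟨g0, ⟨by have := dt_pos g0; simp; linarith,
    by have := dt_pos g0; simp; linarith⟩, hg0⟩
  refine hU.measure_ne_zero mu hne (measure_mono_null ?_ e2)
  rintro g ⟨⟨a, b⟩, c⟩
  simp only [mem_ofPred_eq] at a b c
  simp [Sh, a.le, b.le, c]

end

lemma exists_ker {f : G → ℂ} (hf : Continuous f) (h0 : ∃ g, f g ≠ 0) :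
    ∃ k, Ker k ∧ ∃ g, conv k f g ≠ 0 := by
  obtain ⟨g, hg⟩ := h0
  let U : Set G := {h | Fr h < 4} ∩ {h | Fr h⁻¹ < 4} ∩
    {h | 0 < (starRingEnd ℂ (f g) * f (g * h)).re}
  have hU : IsOpen U := ((isOpen_lt continuous_Fr continuous_const).inter
    (isOpen_lt (continuous_Fr.comp continuous_inv) continuous_const)).inter
      (isOpen_lt continuous_const (by fun_prop))
  have hF1 : Fr 1 = 3 := by simp [Fr, nsq_eq]; norm_num
  have h1 : (1 : G) ∈ U := by
    refine ⟨⟨by simp [hF1]; norm_num, by simp [hF1]; norm_num⟩, ?_⟩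
    simp only [mem_ofPred_eq, mul_one, ← Complex.normSq_eq_conj_mul_self, Complex.ofReal_re]
    exact Complex.normSq_pos.2 hg
  obtain ⟨δ, hδ, hb⟩ := Metric.isOpen_iff.1 (isOpenEmbedding_co.isOpenMap U hU) _ ⟨1, h1, rfl⟩
  let k : G → ℝ := fun h => max 0 (δ - dist (co h) (co 1))
  have hk0 : ∀ h, 0 ≤ k h := fun h => le_max_left _ _
  have hkU : ∀ h, k h ≠ 0 → h ∈ U := by
    intro h hh
    have : co h ∈ Metric.ball (co 1) δ := by
      by_contra h2
      exact hh (max_eq_left (by simpa using h2))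
    obtain ⟨h', h3, h4⟩ := hb this
    rwa [← isOpenEmbedding_co.injective h4]
  have hkc : Continuous k := by
    have := continuous_co
    fun_prop
  have hs : ∀ h, h ∉ Om 4 → k h = 0 := fun h hh => by
    by_contra h2
    obtain ⟨⟨a, b⟩, _⟩ := hkU h h2
    exact hh ⟨le_of_lt a, le_of_lt b⟩
  have key : ∀ v ε, Near v ε → ∀ h ∈ Om 4, |k (v * h) - k h| ≤ 6 * ε := by
    intro v ε hv h hh
    have hε : 0 ≤ ε := (abs_nonneg _).trans (hv.1 0 0)
    have a1 : |k (v * h) - k h| ≤ dist (co (v * h)) (co h) := by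
      refine (abs_max_sub_max_le_max _ _ _ _).trans ?_
      simp only [sub_self, abs_zero, sub_sub_sub_cancel_left, sup_le_iff, dist_nonneg, true_and]
      rw [abs_sub_comm]
      exact abs_dist_sub_le _ _ _
    refine a1.trans ((dist_pi_le_iff (by positivity)).2 fun i =>
      (dist_pi_le_iff (by positivity)).2 fun j => ?_)
    have e : co (v * h) i j - co h i j = ∑ l, (v.val i l - (1 : Mat) i l) * h.val l j := by
      simp [co, Matrix.mul_apply, sub_mul, Finset.sum_sub_distrib, Matrix.one_apply]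
    rw [Real.dist_eq, e]
    refine (Finset.abs_sum_le_sum_abs _ _).trans ?_
    have : ∀ l, |(v.val i l - (1 : Mat) i l) * h.val l j| ≤ ε * 2 := by
      intro l
      rw [abs_mul]
      refine mul_le_mul (hv.1 i l) ?_ (abs_nonneg _) hε
      exact abs_le_of_sq_le_sq' (by linarith [entry_le h l j, hh.1]) (by norm_num) |> abs_le.2
    rw [Fin.sum_univ_three]
    linarith [this 0, this 1, this 2]
  have hK : Ker k := by
    refine ⟨hkc, hs, 6, by norm_num, fun v ε _ hv h => ?_⟩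
    by_cases a : h ∈ Om 4
    · exact key v ε hv h a
    · by_cases b : v * h ∈ Om 4
      · have := key v⁻¹ ε hv.inv _ b
        rwa [inv_mul_cancel_left, abs_sub_comm] at this
      · have hε : 0 ≤ ε := (abs_nonneg _).trans (hv.1 0 0)
        rw [hs _ a, hs _ b]; simp [hε]
  refine ⟨k, hK, g, fun hz => ?_⟩
  have hi := (hK.integrable hf g).const_mul (starRingEnd ℂ (f g))
  have e1 : ∫ h, (starRingEnd ℂ (f g) * ((k h : ℂ) * f (g * h))).re ∂mu = 0 := by
    have := integral_re hi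
    simp only [RCLike.re_to_complex] at this
    rw [this, integral_const_mul, ← conv, hz]; simp
  have e2 : ∀ h, (starRingEnd ℂ (f g) * ((k h : ℂ) * f (g * h))).re =
      k h * (starRingEnd ℂ (f g) * f (g * h)).re := by
    intro h
    rw [mul_left_comm, Complex.re_ofReal_mul]
  simp_rw [e2] at e1
  have hc : Continuous fun h => k h * (starRingEnd ℂ (f g) * f (g * h)).re := by fun_prop
  have hnn : 0 ≤ fun h => k h * (starRingEnd ℂ (f g) * f (g * h)).re := by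
    intro h
    by_cases a : k h = 0
    · simp [a]
    · exact mul_nonneg (hk0 h) (le_of_lt (hkU h a).2)
  have hint : Integrable (fun h => k h * (starRingEnd ℂ (f g) * f (g * h)).re) mu := by
    simpa only [← e2, RCLike.re_to_complex] using hi.re
  have := (Continuous.ae_eq_iff_eq mu hc continuous_const).1
    ((integral_eq_zero_iff_of_nonneg hnn hint).1 e1)
  have h2 := congrFun this 1
  have h3 : k 1 = δ := by simp [k, hδ.le]
  have h4 := h1.2
  simp only [mem_ofPred_eq] at h4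
  rw [h3] at h2
  exact (mul_pos hδ h4).ne' h2

end Pool.Agent.Lib.MP_fa98d2_nt
end
end

-- part Pool.Agent.Lib.MP_fa98d2_nt.Poisson
section

/- Poisson summation for Gaussians on lattices in three-space. -/

open MeasureTheory Matrix Set Topology Complex
open scoped ENNReal MatrixGroups Real

noncomputable section

namespace Pool.Agent.Lib.MP_fa98d2_nt

def eg (a u : ℝ) : ℝ := Real.exp (-π * a * u ^ 2)

lemma eg_pos (a u : ℝ) : 0 < eg a u := Real.exp_pos _

lemma summable_eg {a : ℝ} (ha : 0 < a) (s : ℝ) : Summable fun n : ℤ => eg a (n + s) := by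
  have h := ((summable_jacobiTheta₂_term_iff (I * a * s) (I * a)).2 (by simpa using ha)).norm
  refine (h.mul_left (Real.exp (-π * a * s ^ 2))).congr fun n => ?_
  have : jacobiTheta₂_term n (I * a * s) (I * a) =
      Complex.exp ((-(2 * π * a * n * s) - π * a * n ^ 2 : ℝ) : ℂ) := by
    rw [jacobiTheta₂_term]
    congr 1
    push_cast
    linear_combination (2 * π * n * a * s + π * n ^ 2 * a) * I_mul_I
  rw [this, Complex.norm_exp_ofReal, ← Real.exp_add, eg]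
  congr 1; ring

lemma poisson1 {a : ℝ} (ha : 0 < a) (s τ : ℝ) :
    ∑' n : ℤ, (eg a (n + s) : ℂ) * ec (τ * n) =
      ((√a)⁻¹ : ℝ) * ∑' w : ℤ, (eg a⁻¹ (w + τ) : ℂ) * ec (-(s * (w + τ))) := by
  have h := Complex.tsum_exp_neg_quadratic (a := a) (by simpa using ha) (-a * s - I * τ)
  have ha' : (a : ℂ) ≠ 0 := by exact_mod_cast ha.ne'
  have e1 : ∀ n : ℤ, (eg a (n + s) : ℂ) * ec (τ * n) = Complex.exp (-π * a * s ^ 2) *
      Complex.exp (-π * a * n ^ 2 + 2 * π * (-a * s - I * τ) * n) := by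
    intro n
    simp only [eg, ec, Complex.ofReal_exp, ← Complex.exp_add]
    congr 1; push_cast; ring
  have e2 : ∀ w : ℤ, (eg a⁻¹ (w + τ) : ℂ) * ec (-(s * (w + τ))) = Complex.exp (-π * a * s ^ 2) *
      Complex.exp (-π / a * (w + I * (-a * s - I * τ)) ^ 2) := by
    intro w
    simp only [eg, ec, Complex.ofReal_exp, ← Complex.exp_add]
    congr 1; push_cast
    have : (w + I * (-a * s - I * τ)) = (w + τ) - I * a * s := by
      linear_combination (-τ : ℂ) * I_mul_I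
    rw [this]
    field_simp
    linear_combination ((a : ℂ) ^ 2 * s ^ 2) * I_mul_I
  have e3 : (1 : ℂ) / (a : ℂ) ^ (1 / 2 : ℂ) = ((√a)⁻¹ : ℝ) := by
    rw [Real.sqrt_eq_rpow, Complex.ofReal_inv, Complex.ofReal_cpow ha.le, one_div]
    norm_num
  simp only [e1, e2, tsum_mul_left, h, e3]
  ring

lemma eg_unif {a : ℝ} (ha : 0 < a) : ∃ C, ∀ s : ℝ, ∑' n : ℤ, eg a (n + s) ≤ C := by
  refine ⟨(√a)⁻¹ * ∑' w : ℤ, eg a⁻¹ (w + 0), fun s => ?_⟩
  have h := poisson1 ha s 0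
  simp only [zero_mul, ec_zero, mul_one, ← Complex.ofReal_tsum] at h
  have h2 := congrArg norm h
  rw [Complex.norm_real, norm_mul, Complex.norm_real,
    Real.norm_of_nonneg (tsum_nonneg fun n => (eg_pos _ _).le),
    Real.norm_of_nonneg (by positivity)] at h2
  rw [h2]
  gcongr
  have hs := summable_eg (inv_pos.2 ha) 0
  refine tsum_of_norm_bounded hs.hasSum fun w => ?_
  rw [norm_mul, norm_ec, mul_one, Complex.norm_real, Real.norm_of_nonneg (eg_pos _ _).le]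

lemma summable_shear {a : ℝ} (ha : 0 < a) {ι : Type} {c : ι → ℝ} (hc : Summable c)
    (hc0 : ∀ i, 0 ≤ c i) (s : ι → ℝ) : Summable fun p : ι × ℤ => c p.1 * eg a (p.2 + s p.1) := by
  obtain ⟨C, hC⟩ := eg_unif ha
  rw [summable_prod_of_nonneg fun p => mul_nonneg (hc0 _) (eg_pos _ _).le]
  refine ⟨fun i => (summable_eg ha (s i)).mul_left (c i), ?_⟩
  refine Summable.of_nonneg_of_le (fun i => tsum_nonneg fun _ => mul_nonneg (hc0 _)
    (eg_pos _ _).le) (fun i => ?_) (hc.mul_right C)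
  simp only [tsum_mul_left]
  exact mul_le_mul_of_nonneg_left (hC _) (hc0 i)

lemma summable_shear3 {a b c : ℝ} (ha : 0 < a) (hb : 0 < b) (hc : 0 < c) (s : ℤ → ℝ)
    (t : ℤ × ℤ → ℝ) :
    Summable fun p : (ℤ × ℤ) × ℤ => eg a p.1.1 * eg b (p.1.2 + s p.1.1) * eg c (p.2 + t p.1) :=
  summable_shear hc (c := fun q : ℤ × ℤ => eg a q.1 * eg b (q.2 + s q.1))
    (summable_shear hb (by simpa using summable_eg ha 0) (fun _ => (eg_pos _ _).le) s)
    (fun _ => (mul_pos (eg_pos _ _) (eg_pos _ _)).le) t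

lemma poisson3 {a b c : ℝ} (ha : 0 < a) (hb : 0 < b) (hc : 0 < c) (x y z : ℝ) :
    ∑' p : (ℤ × ℤ) × ℤ, eg a p.1.1 * eg b (p.1.2 + x * p.1.1) *
        eg c (p.2 + (y * p.1.2 + z * p.1.1)) =
      (√a)⁻¹ * (√b)⁻¹ * (√c)⁻¹ * ∑' p : (ℤ × ℤ) × ℤ, eg c⁻¹ p.1.1 * eg b⁻¹ (p.1.2 + -y * p.1.1) *
        eg a⁻¹ (p.2 + (-x * p.1.2 + (x * y - z) * p.1.1)) := by
  have s1 := summable_shear3 ha hb hc (fun i => x * i) (fun q => y * q.2 + z * q.1)
  have s2 := summable_shear3 (inv_pos.2 hc) (inv_pos.2 hb) (inv_pos.2 ha) (fun i => -y * i)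
    (fun q => -x * q.2 + (x * y - z) * q.1)
  have sa : Summable fun n : ℤ => eg a n := by simpa using summable_eg ha 0
  have sc : Summable fun n : ℤ => eg c⁻¹ n := by simpa using summable_eg (inv_pos.2 hc) 0
  have s3 := summable_shear (inv_pos.2 hb) sc (fun _ => (eg_pos _ _).le) (fun i => -y * i)
  have nre : ∀ a u, ‖(eg a u : ℂ)‖ = eg a u := fun a u => by
    rw [Complex.norm_real, Real.norm_of_nonneg (eg_pos _ _).le]
  rw [s1.tsum_prod, s2.tsum_prod, s1.prod.tsum_prod]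
  apply Complex.ofReal_injective
  simp only [Complex.ofReal_tsum, Complex.ofReal_mul, tsum_mul_left]
  have st1 : ∀ s : ℝ, ∑' k : ℤ, (eg c (k + s) : ℂ) =
      ((√c)⁻¹ : ℝ) * ∑' w : ℤ, (eg c⁻¹ w : ℂ) * ec (-(s * w)) := by
    intro s
    simpa using poisson1 hc s 0
  have st2 : ∀ i : ℤ, ∑' j : ℤ, (eg a i : ℂ) * eg b (j + x * i) *
      ∑' k : ℤ, (eg c (k + (y * j + z * i)) : ℂ) =
      ((√b)⁻¹ : ℝ) * ((√c)⁻¹ : ℝ) * ∑' q : ℤ × ℤ, ((eg c⁻¹ q.1 : ℂ) * eg b⁻¹ (q.2 + -y * q.1)) *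
        ((eg a i : ℂ) * ec ((-x * q.2 + (x * y - z) * q.1) * i)) := by
    intro i
    have hs : Summable fun q : ℤ × ℤ => (eg b (q.1 + x * i) : ℂ) *
        ((eg c⁻¹ q.2 : ℂ) * ec (-((y * q.1 + z * i) * q.2))) := by
      refine Summable.of_norm ?_
      simp only [norm_mul, nre, norm_ec, mul_one]
      exact (summable_eg hb (x * i)).mul_of_nonneg sc (fun _ => (eg_pos _ _).le)
        (fun _ => (eg_pos _ _).le)
    have hs' : Summable fun q : ℤ × ℤ => ((eg c⁻¹ q.1 : ℂ) * eg b⁻¹ (q.2 + -y * q.1)) *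
        ((eg a i : ℂ) * ec ((-x * q.2 + (x * y - z) * q.1) * i)) := by
      refine Summable.of_norm ?_
      simp only [norm_mul, nre, norm_ec, mul_one]
      exact s3.mul_right _
    calc _ = (eg a i : ℂ) * ((√c)⁻¹ : ℝ) * ∑' j : ℤ, ∑' w : ℤ, (eg b (j + x * i) : ℂ) *
          ((eg c⁻¹ w : ℂ) * ec (-((y * j + z * i) * w))) := by
          simp only [st1, tsum_mul_left]
          rw [← tsum_mul_left]
          exact tsum_congr fun j => by ring
      _ = (eg a i : ℂ) * ((√c)⁻¹ : ℝ) * ∑' w : ℤ, ∑' j : ℤ, (eg b (j + x * i) : ℂ) *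
          ((eg c⁻¹ w : ℂ) * ec (-((y * j + z * i) * w))) := by
          rw [Summable.tsum_comm (f := fun j w : ℤ => (eg b (j + x * i) : ℂ) *
            ((eg c⁻¹ w : ℂ) * ec (-((y * j + z * i) * w)))) hs]
      _ = _ := by
          rw [hs'.tsum_prod, ← tsum_mul_left, ← tsum_mul_left]
          refine tsum_congr fun w => ?_
          have e : ∀ j : ℤ, (eg b (j + x * i) : ℂ) *
              ((eg c⁻¹ w : ℂ) * ec (-((y * j + z * i) * w))) =
              ((eg c⁻¹ w : ℂ) * ec (-(z * i * w))) * ((eg b (j + x * i) : ℂ) *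
                ec ((-y * w) * j)) := by
            intro j
            rw [show -((y * j + z * i) * w) = -(z * i * w) + (-y * w) * j by ring, ec_add]
            ring
          simp only [e, tsum_mul_left, poisson1 hb]
          simp only [← tsum_mul_left]
          refine tsum_congr fun v => ?_
          rw [show (-x * v + (x * y - z) * w) * i = -(z * i * w) + -(x * i * (v + -y * w)) by ring,
            ec_add]
          ring
  simp only [st2, tsum_mul_left]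
  have hs : Summable fun r : ℤ × (ℤ × ℤ) => ((eg c⁻¹ r.2.1 : ℂ) * eg b⁻¹ (r.2.2 + -y * r.2.1)) *
      ((eg a r.1 : ℂ) * ec ((-x * r.2.2 + (x * y - z) * r.2.1) * r.1)) := by
    refine Summable.of_norm ?_
    simp only [norm_mul, nre, norm_ec, mul_one]
    refine (sa.mul_of_nonneg s3 (fun _ => (eg_pos _ _).le)
      (fun _ => (mul_pos (eg_pos _ _) (eg_pos _ _)).le)).congr fun r => ?_
    ring
  rw [← Summable.tsum_comm (f := fun (i : ℤ) (q : ℤ × ℤ) =>
    ((eg c⁻¹ q.1 : ℂ) * eg b⁻¹ (q.2 + -y * q.1)) *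
      ((eg a i : ℂ) * ec ((-x * q.2 + (x * y - z) * q.1) * i))) hs]
  have st3 : ∀ τ : ℝ, ∑' k : ℤ, (eg a k : ℂ) * ec (τ * k) =
      ((√a)⁻¹ : ℝ) * ∑' w : ℤ, (eg a⁻¹ (w + τ) : ℂ) := by
    intro τ
    simpa using poisson1 ha 0 τ
  simp only [tsum_mul_left, st3]
  simp only [← tsum_mul_left]
  exact tsum_congr fun q => tsum_congr fun w => by ring

def eq3 : (ℤ × ℤ) × ℤ ≃ (Fin 3 → ℤ) where
  toFun p := ![p.1.1, p.1.2, p.2]
  invFun v := ((v 0, v 1), v 2)
  left_inv p := rfl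
  right_inv v := by ext i; fin_cases i <;> rfl

def eq3' : (ℤ × ℤ) × ℤ ≃ (Fin 3 → ℤ) where
  toFun p := ![p.2, p.1.2, p.1.1]
  invFun v := ((v 2, v 1), v 0)
  left_inv p := rfl
  right_inv v := by ext i; fin_cases i <;> rfl

lemma Orth.nsq_vecMul {o : G} (h : Orth o) (u : Fin 3 → ℝ) :
    nsq (u ᵥ* o.val) =
      nsq (o.val 0) * u 0 ^ 2 + nsq (o.val 1) * u 1 ^ 2 + nsq (o.val 2) * u 2 ^ 2 := by
  have e : u ᵥ* o.val = u 0 • o.val 0 + u 1 • o.val 1 + u 2 • o.val 2 := by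
    ext j; simp [Matrix.vecMul, dotProduct, Fin.sum_univ_three]
  have h10 : o.val 1 ⬝ᵥ o.val 0 = 0 := by rw [dotProduct_comm, h.h01]
  have h20 : o.val 2 ⬝ᵥ o.val 0 = 0 := by rw [dotProduct_comm, h.h02]
  have h21 : o.val 2 ⬝ᵥ o.val 1 = 0 := by rw [dotProduct_comm, h.h12]
  simp only [e, nsq, add_dotProduct, dotProduct_add, smul_dotProduct, dotProduct_smul,
    smul_eq_mul, h.h01, h.h02, h.h12, h10, h20, h21]
  ring

lemma Orth.du {o : G} (h : Orth o) : Orth (du o) :=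
  ⟨by simp [h.du_row, h.h01], by simp [h.du_row, h.h02], by simp [h.du_row, h.h12]⟩

lemma nsq_vm (v : Fin 3 → ℤ) (g : G) : nsq (vm v g) = AA 0 g * (v 0 : ℝ) ^ 2 +
    AA 1 g * (v 1 + gx g * v 0) ^ 2 + AA 2 g * (v 2 + (gy g * v 1 + gz g * v 0)) ^ 2 := by
  conv_lhs => rw [← nn_orth g, vm, Units.val_mul, ← Matrix.vecMul_vecMul, (orth_orth g).nsq_vecMul]
  simp [AA, Matrix.vecMul, dotProduct, Fin.sum_univ_three]
  ring

lemma nsq_vm_du (w : Fin 3 → ℤ) (g : G) : nsq (vm w (du g)) = (AA 2 g)⁻¹ * (w 2 : ℝ) ^ 2 +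
    (AA 1 g)⁻¹ * (w 1 + -gy g * w 2) ^ 2 +
    (AA 0 g)⁻¹ * (w 0 + (-gx g * w 1 + (gx g * gy g - gz g) * w 2)) ^ 2 := by
  have e : ∀ i, nsq ((du (orth g)).val i) = (AA i g)⁻¹ := by
    intro i
    have := AA_pos i g
    rw [(orth_orth g).du_row, nsq_smul, ← AA]; field_simp
  conv_lhs => rw [← nn_orth g, du_mul, vm, Units.val_mul, ← Matrix.vecMul_vecMul,
    (orth_orth g).du.nsq_vecMul, e, e, e, du_nn]
  simp [Matrix.vecMul, dotProduct, Fin.sum_univ_three]
  ring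

theorem poisson (g : G) :
    ∑' v : Fin 3 → ℤ, ENNReal.ofReal (Real.exp (-π * nsq (vm v g))) =
      ENNReal.ofReal (dt g)⁻¹ *
        ∑' w : Fin 3 → ℤ, ENNReal.ofReal (Real.exp (-π * nsq (vm w (du g)))) := by
  have p0 := AA_pos 0 g; have p1 := AA_pos 1 g; have p2 := AA_pos 2 g
  have h := poisson3 p0 p1 p2 (gx g) (gy g) (gz g)
  have s1 := summable_shear3 p0 p1 p2 (fun i => gx g * i) (fun q => gy g * q.2 + gz g * q.1)
  have s2 := summable_shear3 (inv_pos.2 p2) (inv_pos.2 p1) (inv_pos.2 p0) (fun i => -gy g * i)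
    (fun q => -gx g * q.2 + (gx g * gy g - gz g) * q.1)
  have e : (√(AA 0 g))⁻¹ * (√(AA 1 g))⁻¹ * (√(AA 2 g))⁻¹ = (dt g)⁻¹ := by
    rw [← mul_inv, ← mul_inv, ← Real.sqrt_mul p0.le, ← Real.sqrt_mul (by positivity), ← dt_sq,
      Real.sqrt_sq (dt_pos g).le]
  have h2 := congrArg ENNReal.ofReal h
  rw [e, ENNReal.ofReal_mul (inv_pos.2 (dt_pos g)).le,
    ENNReal.ofReal_tsum_of_nonneg (fun _ => by unfold eg; positivity) s1,
    ENNReal.ofReal_tsum_of_nonneg (fun _ => by unfold eg; positivity) s2] at h2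
  rw [← eq3.tsum_eq, ← eq3'.tsum_eq]
  convert h2 using 4 with p _ p
  · simp only [nsq_vm, eg, ← Real.exp_add, eq3]
    simp
    ring_nf
  · simp only [nsq_vm_du, eg, ← Real.exp_add, eq3']
    simp
    ring_nf

end Pool.Agent.Lib.MP_fa98d2_nt
end
end
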