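import Pool.Agent.Lib.MP_fa98d2_nt.Arith
import Pool.Agent.Lib.MP_fa98d2_nt.Poisson

/- Mellin transform of the key inequality and Euler product bounds. -/

open Finset MeasureTheory Filter
open scoped ENNReal

noncomputable section

namespace Pool.Agent.Lib.MP_fa98d2_nt

def mel (σ : ℝ) (φ : ℝ → ℝ≥0∞) : ℝ≥0∞ :=
  ∫⁻ X, if 0 < X then ENNReal.ofReal (X ^ (-σ - 1)) * φ X else 0

lemma measurable_mel (σ : ℝ) {φ : ℝ → ℝ≥0∞} (hφ : Measurable φ) :
    Measurable fun X : ℝ => if 0 < X then ENNReal.ofReal (X ^ (-σ - 1)) * φ X else 0 :=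
  Measurable.ite measurableSet_Ioi (Measurable.mul (by fun_prop) hφ) measurable_const

lemma mel_scale (σ : ℝ) {φ : ℝ → ℝ≥0∞} (hφ : Measurable φ) {c : ℝ} (hc : 0 < c) :
    mel σ (fun X => φ (X / c)) = ENNReal.ofReal (c ^ (-σ)) * mel σ φ := by
  have h := lintegral_scale _ (measurable_mel σ hφ) hc
  have e : c ^ (-σ) = c ^ (-σ - 1) * c := by rw [Real.rpow_sub_one hc.ne']; field_simp
  rw [e, ENNReal.ofReal_mul (by positivity), mul_assoc, mel, mel, ← h,
    ← lintegral_const_mul' _ _ ENNReal.ofReal_ne_top]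
  refine lintegral_congr fun X => ?_
  by_cases hX : 0 < X
  · rw [if_pos hX, if_pos (by positivity), ← mul_assoc, ← ENNReal.ofReal_mul (by positivity),
      ← Real.mul_rpow hc.le (by positivity), mul_inv_cancel_left₀ hc.ne', div_eq_inv_mul]
  · rw [if_neg hX, if_neg, mul_zero]
    exact fun h => hX ((mul_pos_iff_of_pos_left (by positivity)).1 h)

lemma mel_tsum (σ : ℝ) (a : ℕ+ → ℝ≥0∞) {φ : ℝ → ℝ≥0∞} (hφ : Measurable φ) :
    mel σ (fun X => ∑' j : ℕ+, a j * φ (X / (j : ℕ))) =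
      (∑' j : ℕ+, a j * ENNReal.ofReal (((j : ℕ) : ℝ) ^ (-σ))) * mel σ φ := by
  rw [← ENNReal.tsum_mul_right]
  have : ∀ j : ℕ+, a j * ENNReal.ofReal (((j : ℕ) : ℝ) ^ (-σ)) * mel σ φ =
      mel σ fun X => a j * φ (X / (j : ℕ)) := by
    intro j
    rw [mul_assoc, ← mel_scale σ hφ (by exact_mod_cast j.pos), mel, mel, ← lintegral_const_mul _
      (measurable_mel σ (φ := fun X => φ (X / (j : ℕ))) (hφ.comp (measurable_id.div_const _)))]
    refine lintegral_congr fun X => ?_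
    split_ifs
    · ring
    · simp
  simp only [this]
  unfold mel
  rw [← lintegral_tsum fun j => (measurable_mel σ (φ := fun X => a j * φ (X / (j : ℕ)))
    ((hφ.comp (measurable_id.div_const _)).const_mul _)).aemeasurable]
  refine lintegral_congr fun X => ?_
  split_ifs
  · rw [ENNReal.tsum_mul_left]
  · simp

lemma mel_const (σ : ℝ) {c : ℝ≥0∞} (hc : c ≠ ∞) (φ : ℝ → ℝ≥0∞) :
    mel σ (fun X => c * φ X) = c * mel σ φ := by
  rw [mel, mel, ← lintegral_const_mul' _ _ hc]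
  refine lintegral_congr fun X => ?_
  split_ifs
  · ring
  · simp

lemma mel_min {σ : ℝ} {B : ℕ} (h0 : 0 < σ) (hB : σ < B) :
    mel σ (fun X => ENNReal.ofReal (min 1 (X ^ B))) ≠ ∞ := by
  have i1 : IntegrableOn (fun X : ℝ => X ^ (B - σ - 1)) (Set.Ioc 0 1) :=
    (intervalIntegral.intervalIntegrable_rpow' (by linarith) (a := 0) (b := 1)).1
  have i2 : IntegrableOn (fun X : ℝ => X ^ (-σ - 1)) (Set.Ioi 1) :=
    integrableOn_Ioi_rpow_of_lt (by linarith) one_pos
  refine ne_top_of_le_ne_top (ENNReal.add_ne_top.2 ⟨i1.lintegral_lt_top.ne,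
    i2.lintegral_lt_top.ne⟩) ?_
  rw [← lintegral_indicator measurableSet_Ioc, ← lintegral_indicator measurableSet_Ioi,
    ← lintegral_add_left (f := Set.indicator _ _)
      (Measurable.indicator (by fun_prop) measurableSet_Ioc)]
  refine lintegral_mono fun X => ?_
  beta_reduce
  split_ifs with hX
  · rw [← ENNReal.ofReal_mul (by positivity)]
    by_cases h : X ≤ 1
    · refine le_trans ?_ le_self_add
      rw [Set.indicator_of_mem (show X ∈ Set.Ioc 0 1 from ⟨hX, h⟩),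
        show B - σ - 1 = -σ - 1 + (B : ℝ) by ring, Real.rpow_add hX, Real.rpow_natCast]
      gcongr
      exact min_le_right _ _
    · refine le_trans ?_ le_add_self
      rw [Set.indicator_of_mem (show X ∈ Set.Ioi 1 from not_le.1 h)]
      exact ENNReal.ofReal_le_ofReal (mul_le_of_le_one_right (by positivity) (min_le_left _ _))
  · exact zero_le

lemma mel_box {σ : ℝ} (h0 : 0 < σ) : mel σ (fun X => if X ≤ 16 ∧ 1 ≤ X then 1 else 0) ≠ 0 := by
  refine ne_of_gt (lt_of_lt_of_le (b := ∫⁻ X, (Set.Icc (1 : ℝ) 16).indicator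
    (fun _ => ENNReal.ofReal (16 ^ (-σ - 1))) X) ?_ (lintegral_mono fun X => ?_))
  · rw [lintegral_indicator_const measurableSet_Icc, Real.volume_Icc]
    exact ENNReal.mul_pos (by simp; positivity) (by norm_num)
  · by_cases h : X ∈ Set.Icc (1 : ℝ) 16
    · have : 0 < X := by linarith [h.1]
      simp only [Set.indicator_of_mem h, this, h.1, h.2, if_true, and_self, mul_one]
      exact ENNReal.ofReal_le_ofReal (Real.rpow_le_rpow_of_nonpos this h.2 (by linarith))
    · simp [h]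

/-- the key inequality -/
def Key (B : ℕ) (t d : AF) : Prop := ∃ gap C : ℝ≥0∞, gap ≠ 0 ∧ C ≠ ∞ ∧ ∀ X : ℝ, 0 < X →
  gap * ∑' k : ℕ+, (if X ≤ 16 * (k : ℕ) ∧ (k : ℕ) ≤ X then d k else 0) ≤
    C * ∑' j : ℕ+, t j * ENNReal.ofReal (min 1 ((X / (j : ℕ)) ^ B))

theorem Key.dir {B : ℕ} {t d : AF} (h : Key B t d) {σ : ℝ} (h0 : 0 < σ) (hB : σ < B)
    (ht : ∑' j : ℕ+, t j * ENNReal.ofReal (((j : ℕ) : ℝ) ^ (-σ)) ≠ ∞) :
    ∑' k : ℕ+, d k * ENNReal.ofReal (((k : ℕ) : ℝ) ^ (-σ)) ≠ ∞ := by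
  obtain ⟨gap, C, hg, hC, h⟩ := h
  have hm : min gap 1 ≠ ∞ := ne_top_of_le_ne_top ENNReal.one_ne_top (min_le_right _ _)
  have k1 := mel_tsum σ (fun k => d k) (φ := fun X => if X ≤ 16 ∧ 1 ≤ X then 1 else 0)
    (Measurable.ite (measurableSet_Iic.inter measurableSet_Ici) measurable_const measurable_const)
  have k2 := mel_tsum σ (fun k => t k) (φ := fun X => ENNReal.ofReal (min 1 (X ^ B)))
    (by fun_prop)
  have k3 : min gap 1 * mel σ (fun X => ∑' j : ℕ+, d j * if X / (j : ℕ) ≤ 16 ∧ 1 ≤ X / (j : ℕ)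
      then 1 else 0) ≤
      C * mel σ fun X => ∑' j : ℕ+, t j * ENNReal.ofReal (min 1 ((X / (j : ℕ)) ^ B)) := by
    rw [← mel_const σ hm, ← mel_const σ hC]
    refine lintegral_mono fun X => ?_
    beta_reduce
    split_ifs with hX
    · refine mul_le_mul_right ?_ _
      refine le_trans (mul_le_mul' (min_le_left _ _) (le_of_eq (tsum_congr fun k => ?_))) (h X hX)
      have : (0 : ℝ) < (k : ℕ) := by exact_mod_cast k.pos
      simp only [div_le_iff₀ this, le_div_iff₀ this, one_mul, mul_ite, mul_one, mul_zero]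
    · rfl
  intro he
  rw [k1, k2, he, ENNReal.top_mul (mel_box h0), ENNReal.mul_top (by simp [hg]), top_le_iff] at k3
  exact ENNReal.mul_ne_top hC (ENNReal.mul_ne_top ht (mel_min h0 hB)) k3

lemma euler {σ : ℝ} (h0 : 0 < σ) (s : Finset ℕ) (hs : ∀ p ∈ s, p.Prime) :
    ∑' j : ℕ+, (if (j : ℕ) ∈ Nat.factoredNumbers s then ENNReal.ofReal (((j : ℕ) : ℝ) ^ (-σ))
      else 0) ≤ ENNReal.ofReal (Real.exp ((1 - 2 ^ (-σ))⁻¹ * ∑ p ∈ s, (p : ℝ) ^ (-σ))) := by
  let f : ℕ →* ℝ := ⟨⟨fun n => (n : ℝ) ^ (-σ), by simp⟩, fun a b => by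
    push_cast; exact Real.mul_rpow (by positivity) (by positivity)⟩
  have h2 : (2 : ℝ) ^ (-σ) < 1 := Real.rpow_lt_one_of_one_lt_of_neg (by norm_num) (by linarith)
  have hp : ∀ {p : ℕ}, p.Prime → (p : ℝ) ^ (-σ) ≤ 2 ^ (-σ) := fun hp =>
    Real.rpow_le_rpow_of_nonpos (by norm_num) (by exact_mod_cast hp.two_le) (by linarith)
  have h := (EulerProduct.summable_and_hasSum_factoredNumbers_prod_filter_prime_geometric (f := f)
    (fun {p} h => by
      change |(p : ℝ) ^ (-σ)| < 1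
      rw [abs_of_nonneg (by positivity)]
      exact (hp h).trans_lt h2) s).2
  calc _ ≤ ∑' j : ℕ, (Nat.factoredNumbers s).indicator (fun j => ENNReal.ofReal (f j)) j := by
        refine le_trans (le_of_eq (tsum_congr fun j => ?_))
          (ENNReal.tsum_comp_le_tsum_of_injective PNat.coe_injective _)
        simp only [Set.indicator_apply]
        rfl
    _ = ENNReal.ofReal (∏ p ∈ s with p.Prime, (1 - f p)⁻¹) := by
        rw [← _root_.tsum_subtype, ← h.tsum_eq, ENNReal.ofReal_tsum_of_nonneg _ h.summable]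
        exact fun j => Real.rpow_nonneg (by positivity) _
    _ ≤ _ := by
        rw [filter_true_of_mem hs, mul_sum, Real.exp_sum]
        refine ENNReal.ofReal_le_ofReal (prod_le_prod (fun p h => ?_) fun p h => ?_)
        · exact inv_nonneg.2 (sub_nonneg.2 ((hp (hs p h)).trans h2.le))
        · change (1 - (p : ℝ) ^ (-σ))⁻¹ ≤ _
          have a1 := hp (hs p h)
          have a2 : 0 ≤ (p : ℝ) ^ (-σ) := by positivity
          generalize (p : ℝ) ^ (-σ) = x at *
          have a3 : 0 < 1 - x := by linarith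
          refine le_trans ?_ (Real.add_one_le_exp _)
          calc (1 - x)⁻¹ = (1 - x)⁻¹ * x + 1 := by field_simp; ring
            _ ≤ _ := by gcongr

lemma sum_rpow_le {σ : ℝ} (h0 : 0 ≤ σ) (h1 : σ < 1) (s : Finset ℕ) (hs : ∀ p ∈ s, 0 < p) :
    ∑ p ∈ s, (p : ℝ) ^ (-σ) ≤ (s.card : ℝ) ^ (1 - σ) / (1 - σ) := by
  induction s using Finset.induction_on_max with
  | empty => simp; positivity
  | insert a s ha ih =>
    have hn : a ∉ s := fun h => lt_irrefl _ (ha a h)
    have hc : s.card + 1 ≤ a := by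
      rw [← card_insert_of_notMem hn]
      refine (card_le_card (t := Icc 1 a) fun x hx => ?_).trans (by simp)
      rw [mem_Icc]
      exact ⟨hs x hx, by rcases mem_insert.1 hx with h | h; exacts [h.le, (ha x h).le]⟩
    rw [sum_insert hn, card_insert_of_notMem hn]
    have ih := ih fun p hp => hs p (mem_insert_of_mem hp)
    generalize s.card = n at *
    have hn : (0 : ℝ) < n + 1 := by positivity
    have b1 : (a : ℝ) ^ (-σ) ≤ (n + 1 : ℝ) ^ (-σ) :=
      Real.rpow_le_rpow_of_nonpos hn (by exact_mod_cast hc) (by linarith)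
    have b2 := rpow_one_add_le_one_add_mul_self (s := -(n + 1 : ℝ)⁻¹) (p := 1 - σ)
      (neg_le_neg (inv_le_one_of_one_le₀ (by linarith))) (by linarith) (by linarith)
    rw [show 1 + -(n + 1 : ℝ)⁻¹ = n / (n + 1) by field_simp; ring,
      Real.div_rpow (by positivity) hn.le, div_le_iff₀ (by positivity)] at b2
    have b3 : (n + 1 : ℝ) ^ (1 - σ) = (n + 1) * (n + 1 : ℝ) ^ (-σ) := by
      rw [sub_eq_add_neg, Real.rpow_add hn, Real.rpow_one]
    rw [le_div_iff₀ (by linarith)] at ih ⊢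
    push_cast
    have b4 : (1 + (1 - σ) * -(n + 1 : ℝ)⁻¹) * (n + 1) ^ (1 - σ) =
        (n + 1) ^ (1 - σ) - (1 - σ) * (n + 1 : ℝ) ^ (-σ) := by
      rw [add_mul, one_mul, b3]; field_simp; ring
    nlinarith

section
variable {t : AF} {T : ℕ → Prop} [DecidablePred T]

lemma trunc_le (ht : ∀ j, t j ≤ 1) (hT : ∀ j p, t j ≠ 0 → p.Prime → p ∣ j → T p) {σ : ℝ}
    (h0 : 0 < σ) (M : ℕ) :
    ∑' j : ℕ+, (if (j : ℕ) ≤ M then t j * ENNReal.ofReal (((j : ℕ) : ℝ) ^ (-σ)) else 0) ≤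
      ENNReal.ofReal (Real.exp ((1 - 2 ^ (-σ))⁻¹ *
        ∑ p ∈ range (M + 1) with p.Prime ∧ T p, (p : ℝ) ^ (-σ))) := by
  refine le_trans (ENNReal.tsum_le_tsum fun j => ?_) (euler h0 _ fun p hp => (mem_filter.1 hp).2.1)
  by_cases h : t j = 0
  · simp [h]
  split_ifs with h1 h2
  · exact mul_le_of_le_one_left' (ht _)
  · refine absurd (Nat.mem_factoredNumbers'.2 fun p hp hd => ?_) h2
    exact mem_filter.2 ⟨mem_range.2 (Nat.lt_succ_of_le ((Nat.le_of_dvd j.pos hd).trans h1)), hp,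
      hT _ p h hp hd⟩
  · exact zero_le
  · rfl

lemma tsum_ne_top (ht : ∀ j, t j ≤ 1) (hT : ∀ j p, t j ≠ 0 → p.Prime → p ∣ j → T p) {σ : ℝ}
    (h0 : 0 < σ) (hs : Summable fun p : {p : ℕ // p.Prime ∧ T p} => (p : ℝ) ^ (-σ)) :
    ∑' j : ℕ+, t j * ENNReal.ofReal (((j : ℕ) : ℝ) ^ (-σ)) ≠ ∞ := by
  have h2 : (2 : ℝ) ^ (-σ) < 1 := Real.rpow_lt_one_of_one_lt_of_neg (by norm_num) (by linarith)
  refine ne_top_of_le_ne_top (ENNReal.ofReal_ne_top (r := Real.exp ((1 - 2 ^ (-σ))⁻¹ *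
    ∑' p : {p : ℕ // p.Prime ∧ T p}, (p : ℝ) ^ (-σ)))) ?_
  rw [ENNReal.tsum_eq_iSup_sum]
  refine iSup_le fun u => ?_
  refine le_trans ?_ ((trunc_le ht hT h0 (u.sup fun j => (j : ℕ))).trans ?_)
  · refine le_trans (le_of_eq (sum_congr rfl fun j hj => ?_)) (ENNReal.sum_le_tsum u)
    rw [if_pos (le_sup (f := fun j : ℕ+ => (j : ℕ)) hj)]
  · gcongr
    rw [← sum_subtype_eq_sum_filter]
    exact hs.sum_le_tsum _ fun p _ => by positivity

open Classical in
/-- the number of integers up to `M` all of whose prime factors are in `T` -/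
def psi (T : ℕ → Prop) (M : ℕ) : ℕ := #{j ∈ Icc 1 M | ∀ p : ℕ, p.Prime → p ∣ j → T p}

lemma tsum_pnat_nat (F : ℕ → ℝ≥0∞) (h0 : F 0 = 0) : ∑' j : ℕ+, F j = ∑' j, F j := by
  refine PNat.coe_injective.tsum_eq fun y hy => ?_
  rcases Nat.eq_zero_or_pos y with rfl | h
  · exact absurd h0 hy
  · exact ⟨⟨y, h⟩, rfl⟩

omit [DecidablePred T] in
lemma one_le_psi {M : ℕ} (hM : 1 ≤ M) : 1 ≤ psi T M :=
  card_pos.2 ⟨1, by simpa [hM] using fun p hp h => absurd h hp.ne_one⟩

lemma count_le_psi (M : ℕ) : #{p ∈ range (M + 1) | p.Prime ∧ T p} ≤ psi T M := by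
  refine card_le_card fun p hp => ?_
  simp only [mem_filter, mem_range, mem_Icc] at hp ⊢
  exact ⟨⟨hp.2.1.pos, by omega⟩, fun q hq h => by
    rw [(Nat.prime_dvd_prime_iff_eq hq hp.2.1).1 h]; exact hp.2.2⟩

lemma psi_le {σ : ℝ} (h0 : 0 < σ) (h1 : σ < 1) : ∃ c : ℝ, 0 < c ∧ ∀ M : ℕ, (psi T M : ℝ) ≤
    M ^ σ * Real.exp (c * (#{p ∈ range (M + 1) | p.Prime ∧ T p} : ℝ) ^ (1 - σ)) := by
  classical
  have h2 : (2 : ℝ) ^ (-σ) < 1 := Real.rpow_lt_one_of_one_lt_of_neg (by norm_num) (by linarith)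
  have h3 : 0 < (1 - (2 : ℝ) ^ (-σ))⁻¹ := inv_pos.2 (by linarith)
  refine ⟨(1 - 2 ^ (-σ))⁻¹ / (1 - σ), div_pos h3 (by linarith), fun M => ?_⟩
  have he := euler h0 {p ∈ range (M + 1) | p.Prime ∧ T p} fun p hp => (mem_filter.1 hp).2.1
  rw [tsum_pnat_nat (fun j => if j ∈ Nat.factoredNumbers {p ∈ range (M + 1) | p.Prime ∧ T p} then
    ENNReal.ofReal ((j : ℝ) ^ (-σ)) else 0) (by simp [Nat.mem_factoredNumbers])] at he
  replace he := (ENNReal.sum_le_tsum {j ∈ Icc 1 M | ∀ p : ℕ, p.Prime → p ∣ j → T p}).trans he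
  rw [sum_congr rfl (g := fun j : ℕ => ENNReal.ofReal ((j : ℝ) ^ (-σ))),
    ← ENNReal.ofReal_sum_of_nonneg fun _ _ => by positivity,
    ENNReal.ofReal_le_ofReal_iff (by positivity)] at he
  · calc _ = ∑ j ∈ Icc 1 M with ∀ p : ℕ, p.Prime → p ∣ j → T p, (1 : ℝ) := by simp [psi]
      _ ≤ M ^ σ * ∑ j ∈ Icc 1 M with ∀ p : ℕ, p.Prime → p ∣ j → T p, (j : ℝ) ^ (-σ) := by
          rw [mul_sum]
          refine sum_le_sum fun j hj => ?_
          have := mem_Icc.1 (mem_filter.1 hj).1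
          have h : (0 : ℝ) < j := by exact_mod_cast this.1
          rw [Real.rpow_neg h.le, ← div_eq_mul_inv, one_le_div (by positivity)]
          gcongr
          exact this.2
      _ ≤ _ := by
          gcongr
          refine he.trans (Real.exp_le_exp.2 ?_)
          rw [div_mul_eq_mul_div, mul_div_assoc]
          exact mul_le_mul_of_nonneg_left
            (sum_rpow_le h0.le h1 _ fun p hp => (mem_filter.1 hp).2.1.pos) h3.le
  · intro j hj
    have := mem_Icc.1 (mem_filter.1 hj).1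
    refine if_pos (Nat.mem_factoredNumbers'.2 fun p hp hd => ?_)
    exact mem_filter.2 ⟨mem_range.2 (Nat.lt_succ_of_le ((Nat.le_of_dvd this.1 hd).trans this.2)),
      hp, (mem_filter.1 hj).2 p hp hd⟩

omit [DecidablePred T] in
theorem Key.count {B : ℕ} {d : AF} (h : Key B t d) (ht : ∀ j, t j ≤ 1)
    (hT : ∀ j p, t j ≠ 0 → p.Prime → p ∣ j → T p) {η : ℝ} (h0 : 0 ≤ η) (hB : 2 ≤ (1 - η) * B) :
    ∃ C : ℝ, 0 ≤ C ∧ ∀ X : ℝ, 0 < X → ∀ M : ℕ, 1 ≤ M → X ≤ (M + 1 : ℝ) ^ η →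
      ∑' k : ℕ+, (if X ≤ 16 * (k : ℕ) ∧ (k : ℕ) ≤ X then d k else 0) ≤
        ENNReal.ofReal (C * psi T M) := by
  classical
  obtain ⟨gap, C, hg, hC, h⟩ := h
  have hK := tsum_pow_ne_top le_rfl zero_le_one
  set K := ∑' j : ℕ+, ENNReal.ofReal ((1 / (j : ℕ)) ^ 2) with hK'
  refine ⟨(gap⁻¹ * C * (1 + K)).toReal, ENNReal.toReal_nonneg, fun X hX M hM hXM => ?_⟩
  have key : ∑' j : ℕ+, t j * ENNReal.ofReal (min 1 ((X / (j : ℕ)) ^ B)) ≤ (1 + K) * psi T M := by
    calc _ ≤ ∑' j : ℕ+, (if (j : ℕ) ∈ {j ∈ Icc 1 M | ∀ p : ℕ, p.Prime → p ∣ j → T p} then 1 else 0)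
          + K := by
          rw [← ENNReal.tsum_add]
          refine ENNReal.tsum_le_tsum fun j => ?_
          have h2 : (1 : ℝ) ≤ (j : ℕ) := by exact_mod_cast j.pos
          by_cases h3 : t j = 0
          · simp [h3]
          by_cases h4 : (j : ℕ) ≤ M
          · rw [if_pos (mem_filter.2 ⟨mem_Icc.2 ⟨j.pos, h4⟩, fun p => hT _ p h3⟩)]
            exact (mul_le_one' (ht _) (ENNReal.ofReal_le_one.2 (min_le_left _ _))).trans le_self_add
          · refine (mul_le_of_le_one_left' (ht _)).trans (le_trans (ENNReal.ofReal_le_ofReal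
              ((min_le_right _ _).trans ?_)) le_add_self)
            have h5 : X ≤ ((j : ℕ) : ℝ) ^ η :=
              hXM.trans (by gcongr; exact_mod_cast not_le.1 h4)
            calc _ ≤ (((j : ℕ) : ℝ) ^ η / (j : ℕ)) ^ B := by gcongr
              _ = ((j : ℕ) : ℝ) ^ ((η - 1) * B) := by
                  rw [Real.rpow_mul_natCast (by linarith), Real.rpow_sub_one (by linarith)]
              _ ≤ ((j : ℕ) : ℝ) ^ (-1 * (2 : ℕ) : ℝ) :=
                  Real.rpow_le_rpow_of_exponent_le h2 (by push_cast; linarith)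
              _ = _ := by rw [Real.rpow_mul_natCast (by linarith), Real.rpow_neg_one, one_div]
      _ ≤ psi T M + K * psi T M := by
          gcongr
          · rw [tsum_pnat_nat (fun j => if j ∈ {j ∈ Icc 1 M | ∀ p : ℕ, p.Prime → p ∣ j → T p}
              then 1 else 0) (by simp), tsum_eq_sum (s := {j ∈ Icc 1 M | ∀ p : ℕ, p.Prime →
                p ∣ j → T p}) fun j hj => if_neg hj, sum_congr rfl fun j hj => if_pos hj]
            simp [psi]
          · exact le_mul_of_one_le_right' (by exact_mod_cast one_le_psi hM)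
      _ = _ := by rw [add_mul, one_mul]
  by_cases hg' : gap = ∞
  · have := (h X hX).trans (mul_le_mul_right key _)
    rw [hg'] at this
    by_contra hc
    rw [ENNReal.top_mul (fun h0 => hc (by rw [h0]; exact zero_le)), top_le_iff] at this
    exact ENNReal.mul_ne_top hC (by finiteness) this
  · rw [ENNReal.ofReal_mul ENNReal.toReal_nonneg, ENNReal.ofReal_natCast,
      ENNReal.ofReal_toReal (by finiteness), mul_assoc, mul_assoc,
      ← ENNReal.mul_le_iff_le_inv hg hg']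
    exact (h X hX).trans (mul_le_mul_right key _)

end

lemma many_primes {s : ℝ} (hs : s < 1) :
    ∀ᶠ y : ℝ in atTop, y ^ s ≤ #{p ∈ Ioc ⌊y / 4⌋₊ ⌊y⌋₊ | p.Prime} := by
  have h2 : 0 < Real.log 2 := Real.log_pos one_lt_two
  have hl := (isLittleO_log_rpow_atTop (r := 1 - max s (1 / 2))
    (by simp [hs]; norm_num)).bound (c := Real.log 2 / 12) (by positivity)
  filter_upwards [hl, eventually_ge_atTop 2] with y hl hy
  have hy0 : 0 < y := by linarith
  have l1 : Real.log 2 ≤ Real.log y := by gcongr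
  rw [Real.norm_of_nonneg (by linarith), Real.norm_of_nonneg (by positivity)] at hl
  have a1 := Chebyshev.theta_ge' (x := y) (by linarith)
  have a2 := Chebyshev.theta_le_log4_mul_x (x := y / 4) (by linarith)
  have a3 : Chebyshev.theta y - Chebyshev.theta (y / 4) ≤
      #{p ∈ Ioc ⌊y / 4⌋₊ ⌊y⌋₊ | p.Prime} * Real.log y := by
    rw [Chebyshev.theta, Chebyshev.theta, sum_filter, sum_filter, sub_le_iff_le_add',
      ← sum_Ioc_consecutive _ (Nat.zero_le ⌊y / 4⌋₊) (Nat.floor_le_floor (by linarith)),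
      add_le_add_iff_left, ← sum_filter, ← nsmul_eq_mul]
    refine sum_le_card_nsmul _ _ _ fun p hp => ?_
    have := mem_filter.1 hp
    exact Real.log_le_log (by exact_mod_cast this.2.pos)
      ((Nat.le_floor_iff hy0.le).1 (mem_Ioc.1 this.1).2)
  have a4 : Real.log 4 = 2 * Real.log 2 := by
    rw [show (4 : ℝ) = 2 ^ 2 by norm_num, Real.log_pow]; norm_num
  have a5 : Real.log (y + 2) ≤ 2 * Real.log y := by
    rw [show 2 * Real.log y = Real.log (y ^ 2) by simp]
    exact Real.log_le_log (by linarith) (by nlinarith)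
  set w := y ^ max s (1 / 2) with hw
  have b1 : 1 ≤ w := Real.one_le_rpow (by linarith) (by positivity)
  have b2 : √y ≤ w := by
    rw [Real.sqrt_eq_rpow]
    exact Real.rpow_le_rpow_of_exponent_le (by linarith) (le_max_right _ _)
  have b3 : y ^ s ≤ w := Real.rpow_le_rpow_of_exponent_le (by linarith) (le_max_left _ _)
  have b4 : w * Real.log y ≤ Real.log 2 / 12 * y := by
    refine (mul_le_mul_of_nonneg_left hl (by linarith)).trans (le_of_eq ?_)
    rw [mul_left_comm, hw, ← Real.rpow_add hy0, add_sub_cancel, Real.rpow_one]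
  refine b3.trans (le_of_mul_le_mul_right ?_ (h2.trans_le l1))
  have c1 : √y * Real.log y ≤ w * Real.log y := by gcongr; linarith
  have c2 : Real.log y ≤ w * Real.log y := le_mul_of_one_le_left (by linarith) b1
  rw [a4] at a2
  linarith

end Pool.Agent.Lib.MP_fa98d2_nt
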