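import Pool.Agent.Lib.MP_fa98d2_nt.Poisson

-- part Pool.Agent.Lib.MP_fa98d2_nt.Hecke
section

/- Hecke operators and the recursion for Whittaker coefficients. -/

open MeasureTheory Matrix Set Topology
open scoped ENNReal MatrixGroups

noncomputable section

namespace Pool.Agent.Lib.MP_fa98d2_nt

def TB (p : ℕ) (f : G → ℂ) (g : G) : ℂ :=
  f (dg p 1 1 * g) + ∑ a ∈ Finset.range p, f (dg 1 p 1 * (nn a 0 0 * g)) +
    ∑ a ∈ Finset.range p, ∑ b ∈ Finset.range p, f (dg 1 1 p * (nn 0 b a * g))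

def TA (p : ℕ) (f : G → ℂ) (g : G) : ℂ :=
  ∑ a ∈ Finset.range p, ∑ b ∈ Finset.range p, f (dg 1 p p * (nn a 0 b * g)) +
    ∑ a ∈ Finset.range p, f (dg p 1 p * (nn 0 a 0 * g)) + f (dg p p 1 * g)

lemma fc_sum {ι : Type*} (s : Finset ι) {h : ι → ℝ → ℂ} (hc : ∀ i, Continuous (h i)) (m : ℤ) :
    fc m (fun x => ∑ i ∈ s, h i x) = ∑ i ∈ s, fc m (h i) := by
  simp only [fc, Finset.sum_mul]
  exact intervalIntegral.integral_finsetSum fun i _ =>
    Continuous.intervalIntegrable ((hc i).mul (by fun_prop)) _ _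

lemma fc_add {h k : ℝ → ℂ} (hh : Continuous h) (hk : Continuous k) (m : ℤ) :
    fc m (fun x => h x + k x) = fc m h + fc m k := by
  simp only [fc, add_mul]
  exact intervalIntegral.integral_add (Continuous.intervalIntegrable (hh.mul (by fun_prop)) _ _)
    (Continuous.intervalIntegrable (hk.mul (by fun_prop)) _ _)

def W3 (f : G → ℂ) (g : G) (x y : ℝ) : ℂ := fc 0 fun z => f (nn x y z * g)

def W2 (n : ℤ) (f : G → ℂ) (g : G) (x : ℝ) : ℂ := fc n (W3 f g x)

lemma Wh_eq2 (m n : ℤ) (f : G → ℂ) (g : G) : Wh m n f g = fc m (W2 n f g) := by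
  rw [Wh_eq]; unfold W2 W3; simp only [fc_zero]

section
variable {f : G → ℂ}

lemma cont_z (hf : Continuous f) (g : G) (x y : ℝ) : Continuous fun z => f (nn x y z * g) :=
  cont_nn_mul hf continuous_const continuous_const continuous_id continuous_const

lemma cont_W3' (hf : Continuous f) (g : G) : Continuous (Function.uncurry (W3 f g)) :=
  continuous_fc 0 (f := fun (p : ℝ × ℝ) z => f (nn p.1 p.2 z * g))
    (cont_nn_mul hf (by fun_prop) (by fun_prop) (by fun_prop) continuous_const)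

lemma cont_W3 (hf : Continuous f) (g : G) (x : ℝ) : Continuous (W3 f g x) :=
  (cont_W3' hf g).comp (f := fun y => (x, y)) (by fun_prop)

lemma cont_W2 (hf : Continuous f) (n : ℤ) (g : G) : Continuous (W2 n f g) :=
  continuous_fc n (cont_W3' hf g)

lemma per_W3 (hf : Aut f) (g : G) (x : ℝ) : Function.Periodic (W3 f g x) 1 := by
  intro y
  simp only [W3, pery hf.h2 x _ g y]

lemma per_W2 (hf : Aut f) (n : ℤ) (g : G) : Function.Periodic (W2 n f g) 1 := by
  intro x
  have : W3 f g (x + 1) = W3 f g x := by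
    ext y
    simp only [W3, fc_zero]
    exact perx hf.h1 hf.h3 y g x
  simp only [W2, this]

lemma W3_shift (hf : Aut f) (g : G) (x y s : ℝ) :
    (fc 0 fun z => f (nn x y (z + s) * g)) = W3 f g x y := by
  rw [fc_shift (perz hf.h3 x y g)]; simp [W3]

lemma W3_scale (hf : Aut f) (g : G) (x y : ℝ) {p : ℕ} (hp : 0 < p) :
    (fc 0 fun z => f (nn x y (p * z) * g)) = W3 f g x y := by
  rw [fc_scale (cont_z hf.cont g x y) (perz hf.h3 x y g) 0 hp]; simp [W3]

lemma W3_split (hf : Aut f) (g : G) (x y s : ℝ) {p : ℕ} (hp : 0 < p) :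
    (fc 0 fun z => ∑ a ∈ Finset.range p, f (nn x y ((z + a) / p + s) * g)) = p * W3 f g x y := by
  have hc : Continuous fun z => f (nn x y (z + s) * g) :=
    (cont_z hf.cont g x y).comp (f := fun z => z + s) (by fun_prop)
  rw [fc_sum _ (h := fun (a : ℕ) z => f (nn x y ((z + a) / p + s) * g))
    fun a => hc.comp (f := fun z : ℝ => (z + a) / p) (by fun_prop),
    fc_split hc 0 hp, mul_zero, W3_shift hf]

lemma Wh_add {f k : G → ℂ} (hf : Continuous f) (hk : Continuous k) (m n : ℤ) (g : G) :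
    Wh m n (fun g => f g + k g) g = Wh m n f g + Wh m n k g := by
  simp only [Wh_eq2]
  rw [← fc_add (cont_W2 hf n g) (cont_W2 hk n g)]
  congr 1; ext x
  unfold W2
  rw [← fc_add (cont_W3 hf g x) (cont_W3 hk g x)]
  congr 1; ext y
  exact fc_add (cont_z hf g x y) (cont_z hk g x y) 0

lemma Wh_sum {ι : Type*} (s : Finset ι) {f : ι → G → ℂ} (hf : ∀ i, Continuous (f i)) (m n : ℤ)
    (g : G) : Wh m n (fun g => ∑ i ∈ s, f i g) g = ∑ i ∈ s, Wh m n (f i) g := by
  simp only [Wh_eq2]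
  rw [← fc_sum _ fun i => cont_W2 (hf i) n g]
  congr 1; ext x
  unfold W2
  rw [← fc_sum _ fun i => cont_W3 (hf i) g x]
  congr 1; ext y
  exact fc_sum _ (fun i => cont_z (hf i) g x y) 0

lemma Wh_const_mul (c : ℂ) (m n : ℤ) (g : G) :
    Wh m n (fun g => c * f g) g = c * Wh m n f g := by
  simp only [Wh, U2, fc_const_mul]

variable {p : ℕ}

lemma WB1 (hf : Aut f) (hp : 0 < p) (m n : ℤ) (g : G) :
    Wh m n (fun g => f (dg p 1 1 * g)) g =
      if (p : ℤ) ∣ m then Wh (m / p) n f (dg p 1 1 * g) else 0 := by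
  have hp' : (p : ℝ) ≠ 0 := by positivity
  rw [Wh_eq2, Wh_eq2, ← fc_scale (cont_W2 hf.cont _ _) (per_W2 hf _ _) m hp]
  congr 1; ext x
  unfold W2
  congr 1; ext y
  rw [← W3_scale hf _ _ _ hp, W3]
  simp [← mul_assoc, dg_mul_nn hp' one_ne_zero one_ne_zero]

lemma WB2 (hf : Aut f) (hp : 0 < p) (m n : ℤ) (g : G) :
    Wh m n (fun g => ∑ a ∈ Finset.range p, f (dg 1 p 1 * (nn a 0 0 * g))) g =
      if (p : ℤ) ∣ n then p * Wh (p * m) (n / p) f (dg 1 p 1 * g) else 0 := by
  have hp' : (p : ℝ) ≠ 0 := by positivity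
  have e : ∀ a : ℕ, W2 n (fun g => f (dg 1 p 1 * (nn a 0 0 * g))) g = fun x =>
      if (p : ℤ) ∣ n then W2 (n / p) f (dg 1 p 1 * g) ((x + a) / p) else 0 := by
    intro a
    ext x
    unfold W2
    rw [← fc_scale (cont_W3 hf.cont _ _) (per_W3 hf _ _) n hp]
    congr 1; ext y
    rw [← W3_shift hf _ _ _ (a * y), W3]
    congr 1; ext z
    rw [← mul_assoc (nn _ _ _), nn_mul, ← mul_assoc, dg_mul_nn one_ne_zero hp' one_ne_zero,
      mul_assoc]
    congr 3 <;> ring
  rw [Wh_sum _ fun a => by have := hf.cont; fun_prop]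
  simp only [Wh_eq2, e]
  split_ifs with h
  · exact fc_split (cont_W2 hf.cont _ _) m hp
  · simp [fc]

lemma WB3 (hf : Aut f) (hp : 0 < p) (m n : ℤ) (g : G) :
    Wh m n (fun g => ∑ a ∈ Finset.range p, ∑ b ∈ Finset.range p,
      f (dg 1 1 p * (nn 0 b a * g))) g = p ^ 2 * Wh m (p * n) f (dg 1 1 p * g) := by
  have hp' : (p : ℝ) ≠ 0 := by positivity
  simp only [Finset.sum_comm (s := Finset.range p) (t := Finset.range p)
    (f := fun (a b : ℕ) => f (dg 1 1 p * (nn 0 b a * _)))]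
  rw [Wh_sum _ fun a => by have := hf.cont; fun_prop]
  have e : ∀ (b : ℕ) x, W3 (fun g => ∑ a ∈ Finset.range p, f (dg 1 1 p * (nn 0 b a * g))) g x =
      fun y => p * W3 f (dg 1 1 p * g) x ((y + b) / p) := by
    intro b x
    ext y
    rw [← W3_split hf _ _ _ 0 hp, W3]
    congr 1; ext z
    refine Finset.sum_congr rfl fun a _ => ?_
    rw [← mul_assoc (nn _ _ _), nn_mul, ← mul_assoc, dg_mul_nn one_ne_zero one_ne_zero hp',
      mul_assoc]
    congr 3 <;> ring
  simp only [Wh_eq2]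
  rw [← fc_sum _ fun b => cont_W2 (by have := hf.cont; fun_prop) _ _, ← fc_const_mul]
  congr 1; ext x
  simp only [W2, e, fc_const_mul, ← Finset.mul_sum, fc_split (cont_W3 hf.cont _ _) n hp]
  ring

lemma WA1 (hf : Aut f) (hp : 0 < p) (m n : ℤ) (g : G) :
    Wh m n (fun g => ∑ a ∈ Finset.range p, ∑ b ∈ Finset.range p,
      f (dg 1 p p * (nn a 0 b * g))) g = p ^ 2 * Wh (p * m) n f (dg 1 p p * g) := by
  have hp' : (p : ℝ) ≠ 0 := by positivity
  rw [Wh_sum _ fun a => by have := hf.cont; fun_prop]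
  have e : ∀ (a : ℕ), W2 n (fun g => ∑ b ∈ Finset.range p, f (dg 1 p p * (nn a 0 b * g))) g =
      fun x => p * W2 n f (dg 1 p p * g) ((x + a) / p) := by
    intro a
    ext x
    unfold W2
    rw [← fc_const_mul]
    congr 1; ext y
    rw [← W3_split hf _ _ _ (a * y / p) hp, W3]
    congr 1; ext z
    refine Finset.sum_congr rfl fun b _ => ?_
    rw [← mul_assoc (nn _ _ _), nn_mul, ← mul_assoc, dg_mul_nn one_ne_zero hp' hp', mul_assoc]
    congr 3
    · ring
    · field_simp; ring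
    · ring
  simp only [Wh_eq2, e, fc_const_mul, ← Finset.mul_sum, fc_split (cont_W2 hf.cont _ _) m hp]
  ring

lemma WA2 (hf : Aut f) (hp : 0 < p) (m n : ℤ) (g : G) :
    Wh m n (fun g => ∑ a ∈ Finset.range p, f (dg p 1 p * (nn 0 a 0 * g))) g =
      if (p : ℤ) ∣ m then p * Wh (m / p) (p * n) f (dg p 1 p * g) else 0 := by
  have hp' : (p : ℝ) ≠ 0 := by positivity
  have e : W2 n (fun g => ∑ a ∈ Finset.range p, f (dg p 1 p * (nn 0 a 0 * g))) g =
      fun x => p * W2 (p * n) f (dg p 1 p * g) (p * x) := by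
    ext x
    unfold W2
    rw [← fc_split (cont_W3 hf.cont _ _) n hp,
      ← fc_sum _ (h := fun (a : ℕ) y => W3 f (dg p 1 p * g) (p * x) ((y + a) / p))
        fun a => (cont_W3 hf.cont _ _).comp (f := fun y : ℝ => (y + a) / p) (by fun_prop)]
    congr 1; ext y
    unfold W3
    rw [← fc_sum _ fun a => cont_z hf.cont _ _ _]
    congr 1; ext z
    refine Finset.sum_congr rfl fun b _ => ?_
    rw [← mul_assoc (nn _ _ _), nn_mul, ← mul_assoc, dg_mul_nn hp' one_ne_zero hp', mul_assoc]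
    congr 3
    · ring
    · ring
    · field_simp; ring
  simp only [Wh_eq2, e, fc_const_mul, fc_scale (cont_W2 hf.cont _ _) (per_W2 hf _ _) m hp]
  split_ifs <;> simp

lemma WA3 (hf : Aut f) (hp : 0 < p) (m n : ℤ) (g : G) :
    Wh m n (fun g => f (dg p p 1 * g)) g =
      if (p : ℤ) ∣ n then Wh m (n / p) f (dg p p 1 * g) else 0 := by
  have hp' : (p : ℝ) ≠ 0 := by positivity
  have e : W2 n (fun g => f (dg p p 1 * g)) g =
      fun x => if (p : ℤ) ∣ n then W2 (n / p) f (dg p p 1 * g) x else 0 := by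
    ext x
    unfold W2
    rw [← fc_scale (cont_W3 hf.cont _ _) (per_W3 hf _ _) n hp]
    congr 1; ext y
    rw [← W3_scale hf _ _ _ hp, W3]
    simp [← mul_assoc, dg_mul_nn hp' hp' one_ne_zero, hp']
  simp only [Wh_eq2, e]
  split_ifs <;> simp [fc]

lemma Wh_TB (hf : Aut f) (hp : 0 < p) {l : ℂ} (h : ∀ g, TB p f g = l * f g) (m n : ℤ) (g : G) :
    l * Wh m n f g = (if (p : ℤ) ∣ m then Wh (m / p) n f (dg p 1 1 * g) else 0) +
      (if (p : ℤ) ∣ n then p * Wh (p * m) (n / p) f (dg 1 p 1 * g) else 0) +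
      p ^ 2 * Wh m (p * n) f (dg 1 1 p * g) := by
  have := hf.cont
  rw [← Wh_const_mul, ← WB1 hf hp, ← WB2 hf hp, ← WB3 hf hp, ← Wh_add, ← Wh_add]
  · simp only [← h, TB]
  all_goals fun_prop

lemma Wh_TA (hf : Aut f) (hp : 0 < p) {l : ℂ} (h : ∀ g, TA p f g = l * f g) (m n : ℤ) (g : G) :
    l * Wh m n f g = p ^ 2 * Wh (p * m) n f (dg 1 p p * g) +
      (if (p : ℤ) ∣ m then p * Wh (m / p) (p * n) f (dg p 1 p * g) else 0) +
      (if (p : ℤ) ∣ n then Wh m (n / p) f (dg p p 1 * g) else 0) := by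
  have := hf.cont
  rw [← Wh_const_mul, ← WA1 hf hp, ← WA2 hf hp, ← WA3 hf hp, ← Wh_add, ← Wh_add]
  · simp only [← h, TA]
  all_goals fun_prop

end

lemma conv_add {k : G → ℝ} (hk : Ker k) {f f' : G → ℂ} (hf : Continuous f) (hf' : Continuous f')
    (g : G) : conv k (fun g => f g + f' g) g = conv k f g + conv k f' g := by
  simp only [conv, mul_add]
  exact integral_add (hk.integrable hf g) (hk.integrable hf' g)

lemma conv_sum {k : G → ℝ} (hk : Ker k) {ι : Type*} (s : Finset ι) {f : ι → G → ℂ}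
    (hf : ∀ i, Continuous (f i)) (g : G) :
    conv k (fun g => ∑ i ∈ s, f i g) g = ∑ i ∈ s, conv k (f i) g := by
  simp only [conv, Finset.mul_sum]
  exact integral_finsetSum _ fun i _ => hk.integrable (hf i) g

lemma conv_const_mul (k : G → ℝ) (c : ℂ) (f : G → ℂ) (g : G) :
    conv k (fun g => c * f g) g = c * conv k f g := by
  simp only [conv, ← integral_const_mul]
  congr 1; ext h; ring

lemma TB_conv {k : G → ℝ} (hk : Ker k) {f : G → ℂ} (hf : Continuous f) (p : ℕ) (g : G) :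
    TB p (conv k f) g = conv k (TB p f) g := by
  unfold TB
  rw [conv_add hk, conv_add hk, conv_sum hk, conv_sum hk]
  · simp only [← mul_assoc, conv_left, mul_assoc (dg _ _ _ * nn _ _ _)]
    congr 1
    refine Finset.sum_congr rfl fun a _ => ?_
    rw [conv_sum hk]
    fun_prop
  all_goals fun_prop

lemma TA_conv {k : G → ℝ} (hk : Ker k) {f : G → ℂ} (hf : Continuous f) (p : ℕ) (g : G) :
    TA p (conv k f) g = conv k (TA p f) g := by
  unfold TA
  rw [conv_add hk, conv_add hk, conv_sum hk, conv_sum hk]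
  · simp only [← mul_assoc, conv_left, mul_assoc (dg _ _ _ * nn _ _ _)]
    congr 2
    refine Finset.sum_congr rfl fun a _ => ?_
    rw [conv_sum hk]
    fun_prop
  all_goals fun_prop

end Pool.Agent.Lib.MP_fa98d2_nt
end
end

-- part Pool.Agent.Lib.MP_fa98d2_nt.Shintani
section

/- The Shintani formula. -/

open MeasureTheory Matrix Set Topology
open scoped ENNReal MatrixGroups

noncomputable section

namespace Pool.Agent.Lib.MP_fa98d2_nt

structure Rec (e1 e2 : ℂ) (β : ℕ → ℕ → ℂ) : Prop where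
  r2 : ∀ a b, e2 * β a b = (if a = 0 then 0 else β (a - 1) b) +
    (if b = 0 then 0 else β (a + 1) (b - 1)) + β a (b + 1)
  r1 : ∀ a b, e1 * β a b = β (a + 1) b + (if a = 0 then 0 else β (a - 1) (b + 1)) +
    (if b = 0 then 0 else β a (b - 1))

lemma Rec.zero {e1 e2 : ℂ} {β : ℕ → ℕ → ℂ} (h : Rec e1 e2 β) (h0 : β 0 0 = 0) (a b : ℕ) :
    β a b = 0 := by
  have key : ∀ N a b, a + b ≤ N → β a b = 0 := by
    intro N
    induction N with
    | zero =>
      intro a b hab
      obtain rfl : a = 0 := by omega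
      obtain rfl : b = 0 := by omega
      exact h0
    | succ N ih =>
      intro a b hab
      rcases b with _ | b
      · rcases a with _ | a
        · exact h0
        · have := h.r1 a 0
          rw [ih a 0 (by omega)] at this
          split_ifs at this with h1 h2 h2
          · simpa using this.symm
          · exact absurd rfl h2
          · rw [ih (a - 1) (0 + 1) (by omega)] at this
            simpa using this.symm
          · exact absurd rfl h2
      · have := h.r2 a b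
        rw [ih a b (by omega), ih (a - 1) b (by omega)] at this
        split_ifs at this with h1 h2 h2
        · simpa using this.symm
        · rw [ih (a + 1) (b - 1) (by omega)] at this
          simpa using this.symm
        · simpa using this.symm
        · rw [ih (a + 1) (b - 1) (by omega)] at this
          simpa using this.symm
  exact key _ a b le_rfl

lemma Rec.unique {e1 e2 : ℂ} {β γ : ℕ → ℕ → ℂ} (h : Rec e1 e2 β) (h' : Rec e1 e2 γ)
    (h0 : γ 0 0 = 1) (a b : ℕ) : β a b = γ a b * β 0 0 := by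
  have : Rec e1 e2 fun a b => β a b - γ a b * β 0 0 := by
    constructor
    · intro a b
      have h1 := h.r2 a b
      have h2 := h'.r2 a b
      split_ifs at h1 h2 ⊢ <;> linear_combination h1 - β 0 0 * h2
    · intro a b
      have h1 := h.r1 a b
      have h2 := h'.r1 a b
      split_ifs at h1 h2 ⊢ <;> linear_combination h1 - β 0 0 * h2
  exact sub_eq_zero.1 (this.zero (by simp [h0]) a b)

def HH (e1 e2 : ℂ) : ℕ → ℂ
  | 0 => 0
  | 1 => 0
  | 2 => 1
  | (k + 3) => e1 * HH e1 e2 (k + 2) - e2 * HH e1 e2 (k + 1) + HH e1 e2 k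

def SS (e1 e2 : ℂ) (a b : ℕ) : ℂ :=
  HH e1 e2 (a + b + 2) * HH e1 e2 (b + 2) - HH e1 e2 (a + b + 3) * HH e1 e2 (b + 1)

lemma SS_zero (e1 e2 : ℂ) : SS e1 e2 0 0 = 1 := by simp [SS, HH]

lemma rec_SS (e1 e2 : ℂ) : Rec e1 e2 (SS e1 e2) := by
  have h0 : HH e1 e2 0 = 0 := rfl
  have h1 : HH e1 e2 1 = 0 := rfl
  have hr : ∀ k, HH e1 e2 (k + 3) =
    e1 * HH e1 e2 (k + 2) - e2 * HH e1 e2 (k + 1) + HH e1 e2 k := fun k => rfl
  have z1 : ∀ a b, (if a = 0 then 0 else SS e1 e2 (a - 1) b) =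
      HH e1 e2 (a + b + 1) * HH e1 e2 (b + 2) - HH e1 e2 (a + b + 2) * HH e1 e2 (b + 1) := by
    intro a b
    rcases a with _ | a
    · simp [mul_comm]
    · simp only [Nat.add_eq_zero_iff, one_ne_zero, and_false, if_false, Nat.add_sub_cancel, SS]
      congr 3 <;> ring
  have z2 : ∀ a b, (if b = 0 then 0 else SS e1 e2 a (b - 1)) =
      HH e1 e2 (a + b + 1) * HH e1 e2 (b + 1) - HH e1 e2 (a + b + 2) * HH e1 e2 b := by
    intro a b
    rcases b with _ | b
    · simp [h0, h1]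
    · simp only [Nat.add_eq_zero_iff, one_ne_zero, and_false, if_false, Nat.add_sub_cancel, SS]
      rfl
  constructor
  · intro a b
    have k1 := hr b
    have k2 := hr (a + b + 1)
    rw [z1, z2]
    simp only [SS, show a + 1 + b + 1 = a + b + 2 by ring, show a + 1 + b + 2 = a + b + 3 by ring,
      show a + (b + 1) + 2 = a + b + 3 by ring, show a + (b + 1) + 3 = a + b + 1 + 3 by ring,
      show b + 1 + 2 = b + 3 by ring, show b + 1 + 1 = b + 2 by ring, k1, k2,
      show a + b + 1 + 2 = a + b + 3 by ring, show a + b + 1 + 1 = a + b + 2 by ring]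
    ring
  · intro a b
    have k1 := hr b
    have k2 := hr (a + b + 1)
    rw [z1, z2]
    simp only [SS, show a + 1 + b + 2 = a + b + 3 by ring, show a + 1 + b + 3 = a + b + 1 + 3 by ring,
      show a + (b + 1) + 2 = a + b + 3 by ring, show a + (b + 1) + 1 = a + b + 2 by ring,
      show b + 1 + 2 = b + 3 by ring, show b + 1 + 1 = b + 2 by ring, k1, k2,
      show a + b + 1 + 2 = a + b + 3 by ring, show a + b + 1 + 1 = a + b + 2 by ring]
    ring

def DI (m n : ℕ) : G := dg ((m : ℝ) * n)⁻¹ (n : ℝ)⁻¹ 1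

def Bf (ε : ℤ) (f : G → ℂ) (g : G) (m n : ℕ) : ℂ := (m * n : ℂ) * Wh (ε * m) n f (DI m n * g)

def Hk (f : G → ℂ) (e1 e2 : ℕ → ℂ) : Prop :=
  ∀ p : ℕ, p.Prime → (∀ g, TA p f g = p * e1 p * f g) ∧ ∀ g, TB p f g = p * e2 p * f g

section
variable {f : G → ℂ} {p : ℕ} {ε : ℤ}

lemma unit_dvd (hε : IsUnit ε) (m : ℕ) : (p : ℤ) ∣ ε * m ↔ p ∣ m := by
  rw [hε.dvd_mul_left, Int.natCast_dvd_natCast]

lemma Bf_B (hf : Aut f) (hp : 0 < p) {l : ℂ} (h : ∀ g, TB p f g = p * l * f g) (hε : IsUnit ε)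
    (g : G) {m n : ℕ} (hm : 0 < m) (hn : 0 < n) :
    l * Bf ε f g m n = (if p ∣ m then Bf ε f g (m / p) n else 0) +
      (if p ∣ n then Bf ε f g (p * m) (n / p) else 0) + Bf ε f g m (p * n) := by
  have hp' : (p : ℝ) ≠ 0 := by positivity
  have hpz : (p : ℤ) ≠ 0 := by positivity
  have hpc : (p : ℂ) ≠ 0 := by exact_mod_cast hp.ne'
  have k := Wh_TB hf hp h (ε * m) n (DI m n * g)
  have e1 : (m * n : ℂ) * (if (p : ℤ) ∣ ε * m then
      Wh (ε * m / p) n f (dg p 1 1 * (DI m n * g)) else 0) =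
      p * (if p ∣ m then Bf ε f g (m / p) n else 0) := by
    simp only [unit_dvd hε]
    split_ifs with h1
    · obtain ⟨m, rfl⟩ := h1
      have : (m : ℝ) ≠ 0 := by rintro h; simp_all
      rw [Nat.mul_div_cancel_left _ hp, Bf, ← mul_assoc (dg _ _ _), DI, DI,
        dg_mul hp' one_ne_zero one_ne_zero (by positivity) (by positivity) one_ne_zero]
      push_cast
      rw [mul_left_comm ε, Int.mul_ediv_cancel_left _ hpz, one_mul, one_mul,
        show (p : ℝ) * ((p : ℝ) * m * n)⁻¹ = ((m : ℝ) * n)⁻¹ by field_simp]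
      ring
    · simp
  have e2 : (m * n : ℂ) * (if (p : ℤ) ∣ n then
      p * Wh (p * (ε * m)) (n / p) f (dg 1 p 1 * (DI m n * g)) else 0) =
      p * (if p ∣ n then Bf ε f g (p * m) (n / p) else 0) := by
    simp only [Int.natCast_dvd_natCast]
    split_ifs with h1
    · obtain ⟨n, rfl⟩ := h1
      have : (n : ℝ) ≠ 0 := by rintro h; simp_all
      rw [Nat.mul_div_cancel_left _ hp, Bf, ← mul_assoc (dg _ _ _), DI, DI,
        dg_mul one_ne_zero hp' one_ne_zero (by positivity) (by positivity) one_ne_zero]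
      push_cast
      rw [mul_left_comm ε, Int.mul_ediv_cancel_left _ hpz, one_mul, one_mul,
        show (p : ℝ) * ((p : ℝ) * n)⁻¹ = (n : ℝ)⁻¹ by field_simp,
        show (m : ℝ) * (p * n) = p * m * n by ring]
      ring
    · simp
  have e3 : (m * n : ℂ) * (p ^ 2 * Wh (ε * m) (p * n) f (dg 1 1 p * (DI m n * g))) =
      p * Bf ε f g m (p * n) := by
    rw [Bf, ← Wh_sc hf _ _ hp' (DI m (p * n) * g), ← mul_assoc (dg _ _ _), ← mul_assoc (sc _),
      DI, DI, sc, dg_mul one_ne_zero one_ne_zero hp' (by positivity) (by positivity) one_ne_zero,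
      dg_mul hp' hp' hp' (by positivity) (by positivity) one_ne_zero]
    push_cast
    rw [one_mul, one_mul, show (p : ℝ) * ((p : ℝ) * n)⁻¹ = (n : ℝ)⁻¹ by field_simp,
      show (p : ℝ) * ((m : ℝ) * (p * n))⁻¹ = ((m : ℝ) * n)⁻¹ by field_simp]
    ring
  apply mul_left_cancel₀ hpc
  rw [mul_add, mul_add, ← e1, ← e2, ← e3, ← mul_add, ← mul_add, ← k, Bf]
  ring

lemma Bf_A (hf : Aut f) (hp : 0 < p) {l : ℂ} (h : ∀ g, TA p f g = p * l * f g) (hε : IsUnit ε)
    (g : G) {m n : ℕ} (hm : 0 < m) (hn : 0 < n) :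
    l * Bf ε f g m n = Bf ε f g (p * m) n + (if p ∣ m then Bf ε f g (m / p) (p * n) else 0) +
      (if p ∣ n then Bf ε f g m (n / p) else 0) := by
  have hp' : (p : ℝ) ≠ 0 := by positivity
  have hpz : (p : ℤ) ≠ 0 := by positivity
  have hpc : (p : ℂ) ≠ 0 := by exact_mod_cast hp.ne'
  have k := Wh_TA hf hp h (ε * m) n (DI m n * g)
  have e1 : (m * n : ℂ) * (p ^ 2 * Wh (p * (ε * m)) n f (dg 1 p p * (DI m n * g))) =
      p * Bf ε f g (p * m) n := by
    rw [Bf, ← Wh_sc hf _ _ hp' (DI (p * m) n * g), ← mul_assoc (dg _ _ _), ← mul_assoc (sc _),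
      DI, DI, sc, dg_mul one_ne_zero hp' hp' (by positivity) (by positivity) one_ne_zero,
      dg_mul hp' hp' hp' (by positivity) (by positivity) one_ne_zero]
    push_cast
    rw [one_mul, mul_left_comm ε,
      show (p : ℝ) * ((p : ℝ) * m * n)⁻¹ = ((m : ℝ) * n)⁻¹ by field_simp]
    ring
  have e2 : (m * n : ℂ) * (if (p : ℤ) ∣ ε * m then
      p * Wh (ε * m / p) (p * n) f (dg p 1 p * (DI m n * g)) else 0) =
      p * (if p ∣ m then Bf ε f g (m / p) (p * n) else 0) := by
    simp only [unit_dvd hε]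
    split_ifs with h1
    · obtain ⟨m, rfl⟩ := h1
      have : (m : ℝ) ≠ 0 := by rintro h; simp_all
      rw [Nat.mul_div_cancel_left _ hp, Bf, ← Wh_sc hf _ _ hp' (DI m (p * n) * g),
        ← mul_assoc (dg _ _ _), ← mul_assoc (sc _), DI, DI, sc,
        dg_mul hp' one_ne_zero hp' (by positivity) (by positivity) one_ne_zero,
        dg_mul hp' hp' hp' (by positivity) (by positivity) one_ne_zero]
      push_cast
      rw [mul_left_comm ε, Int.mul_ediv_cancel_left _ hpz, one_mul,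
        show (p : ℝ) * ((p : ℝ) * n)⁻¹ = (n : ℝ)⁻¹ by field_simp,
        show (m : ℝ) * (p * n) = p * m * n by ring]
      ring
    · simp
  have e3 : (m * n : ℂ) * (if (p : ℤ) ∣ n then
      Wh (ε * m) (n / p) f (dg p p 1 * (DI m n * g)) else 0) =
      p * (if p ∣ n then Bf ε f g m (n / p) else 0) := by
    simp only [Int.natCast_dvd_natCast]
    split_ifs with h1
    · obtain ⟨n, rfl⟩ := h1
      have : (n : ℝ) ≠ 0 := by rintro h; simp_all
      rw [Nat.mul_div_cancel_left _ hp, Bf, ← mul_assoc (dg _ _ _), DI, DI,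
        dg_mul hp' hp' one_ne_zero (by positivity) (by positivity) one_ne_zero]
      push_cast
      rw [Int.mul_ediv_cancel_left _ hpz, one_mul,
        show (p : ℝ) * ((p : ℝ) * n)⁻¹ = (n : ℝ)⁻¹ by field_simp,
        show (p : ℝ) * ((m : ℝ) * (p * n))⁻¹ = ((m : ℝ) * n)⁻¹ by field_simp]
      ring
    · simp
  apply mul_left_cancel₀ hpc
  rw [mul_add, mul_add, ← e1, ← e2, ← e3, ← mul_add, ← mul_add, ← k, Bf]
  ring

lemma dvd_pow_mul (hp : p.Prime) {u : ℕ} (hu : ¬ p ∣ u) (a : ℕ) : p ∣ p ^ a * u ↔ ¬ a = 0 := by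
  rcases a with _ | a
  · simpa using hu
  · simpa using Dvd.dvd.mul_right (dvd_pow_self p (Nat.succ_ne_zero a)) u

lemma pow_mul_div (hp : 0 < p) (u : ℕ) {a : ℕ} (ha : ¬ a = 0) :
    p ^ a * u / p = p ^ (a - 1) * u := by
  obtain ⟨a, rfl⟩ := Nat.exists_eq_succ_of_ne_zero ha
  rw [pow_succ', mul_assoc, Nat.mul_div_cancel_left _ hp]
  rfl

lemma rec_Bf (hf : Aut f) {e1 e2 : ℕ → ℂ} (hk : Hk f e1 e2) (hp : p.Prime) (hε : IsUnit ε) (g : G)
    {u v : ℕ} (hu0 : 0 < u) (hv0 : 0 < v) (hu : ¬ p ∣ u) (hv : ¬ p ∣ v) :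
    Rec (e1 p) (e2 p) fun a b => Bf ε f g (p ^ a * u) (p ^ b * v) := by
  have hp0 := hp.pos
  have e : ∀ a u : ℕ, p * (p ^ a * u) = p ^ (a + 1) * u := fun a u => by ring
  constructor
  · intro a b
    rw [Bf_B hf hp0 (hk p hp).2 hε g (by positivity) (by positivity)]
    simp only [dvd_pow_mul hp hu, dvd_pow_mul hp hv, ite_not, e]
    split_ifs with h1 h2 h2 <;> simp only [pow_mul_div hp0 _, h1, h2, not_false_eq_true]
  · intro a b
    rw [Bf_A hf hp0 (hk p hp).1 hε g (by positivity) (by positivity)]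
    simp only [dvd_pow_mul hp hu, dvd_pow_mul hp hv, ite_not, e]
    split_ifs with h1 h2 h2 <;> simp only [pow_mul_div hp0 _, h1, h2, not_false_eq_true]

end

/-- the global coefficient -/
def AC (e1 e2 : ℕ → ℂ) (m n : ℕ) : ℂ :=
  ∏ p ∈ (m * n).primeFactors, SS (e1 p) (e2 p) (m.factorization p) (n.factorization p)

lemma AC_mul (e1 e2 : ℕ → ℂ) {m n m' n' : ℕ} (h : Nat.Coprime (m * n) (m' * n'))
    (h0 : m * n ≠ 0) (h0' : m' * n' ≠ 0) :
    AC e1 e2 (m * m') (n * n') = AC e1 e2 m n * AC e1 e2 m' n' := by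
  have hm : m ≠ 0 := left_ne_zero_of_mul h0
  have hn : n ≠ 0 := right_ne_zero_of_mul h0
  have hm' : m' ≠ 0 := left_ne_zero_of_mul h0'
  have hn' : n' ≠ 0 := right_ne_zero_of_mul h0'
  rw [AC, show m * m' * (n * n') = (m * n) * (m' * n') by ring, h.primeFactors_mul,
    Finset.prod_union h.disjoint_primeFactors, AC, AC, Nat.factorization_mul hm hm',
    Nat.factorization_mul hn hn']
  have key : ∀ {x y p : ℕ}, Nat.Coprime x y → p ∈ x.primeFactors → ∀ {z}, z ∣ y →
      z.factorization p = 0 := by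
    intro x y p hxy hp z hz
    apply Nat.factorization_eq_zero_of_not_dvd
    intro hd
    have := Nat.dvd_gcd (Nat.dvd_of_mem_primeFactors hp) (hd.trans hz)
    rw [hxy] at this
    exact (Nat.prime_of_mem_primeFactors hp).not_dvd_one this
  congr 1
  · refine Finset.prod_congr rfl fun p hp => ?_
    simp [key h hp (dvd_mul_right m' n'), key h hp (dvd_mul_left n' m')]
  · refine Finset.prod_congr rfl fun p hp => ?_
    simp [key h.symm hp (dvd_mul_right m n), key h.symm hp (dvd_mul_left n m)]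

lemma AC_one (e1 e2 : ℕ → ℂ) : AC e1 e2 1 1 = 1 := by simp [AC]

lemma AC_pow (e1 e2 : ℕ → ℂ) {p : ℕ} (hp : p.Prime) (a b : ℕ) :
    AC e1 e2 (p ^ a) (p ^ b) = SS (e1 p) (e2 p) a b := by
  rw [AC, ← pow_add]
  by_cases h : a + b = 0
  · obtain rfl : a = 0 := by omega
    obtain rfl : b = 0 := by omega
    simp [SS_zero]
  · rw [Nat.primeFactors_prime_pow h hp]
    simp [hp.factorization_pow]

theorem shintani {f : G → ℂ} (hf : Aut f) {e1 e2 : ℕ → ℂ} (hk : Hk f e1 e2) {ε : ℤ}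
    (hε : IsUnit ε) (g : G) :
    ∀ N m n : ℕ, m * n = N → N ≠ 0 → Bf ε f g m n = AC e1 e2 m n * Bf ε f g 1 1 := by
  intro N
  induction N using Nat.strong_induction_on with
  | _ N ih =>
    intro m n hN h0
    by_cases h1 : N = 1
    · subst h1
      obtain rfl : m = 1 := Nat.eq_one_of_mul_eq_one_right hN
      obtain rfl : n = 1 := by simpa using hN
      simp [AC_one]
    have hm : m ≠ 0 := by rintro rfl; simp_all
    have hn : n ≠ 0 := by rintro rfl; simp_all
    have hp := Nat.minFac_prime h1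
    have hpN := Nat.minFac_dvd N
    generalize N.minFac = p at hp hpN
    obtain ⟨a, u, hu, rfl⟩ := Nat.exists_eq_pow_mul_and_not_dvd hm p hp.ne_one
    obtain ⟨b, v, hv, rfl⟩ := Nat.exists_eq_pow_mul_and_not_dvd hn p hp.ne_one
    have hu0 : u ≠ 0 := right_ne_zero_of_mul hm
    have hv0 : v ≠ 0 := right_ne_zero_of_mul hn
    have huv : ¬ p ∣ u * v := fun h => (hp.dvd_mul.1 h).elim hu hv
    have hlt : u * v < N := by
      have : u * v ∣ N := ⟨p ^ a * p ^ b, by rw [← hN]; ring⟩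
      refine lt_of_le_of_ne (Nat.le_of_dvd (Nat.pos_of_ne_zero h0) this) fun h => huv ?_
      rwa [h]
    have hc : Nat.Coprime (p ^ a * p ^ b) (u * v) := by
      rw [← pow_add]
      exact Nat.Coprime.pow_left _ ((Nat.Prime.coprime_iff_not_dvd hp).2 huv)
    have := (rec_Bf hf hk hp hε g (Nat.pos_of_ne_zero hu0) (Nat.pos_of_ne_zero hv0) hu hv).unique
      (rec_SS _ _) (SS_zero _ _) a b
    simp only [pow_zero, one_mul] at this
    rw [this, ih _ hlt u v rfl (mul_ne_zero hu0 hv0),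
      AC_mul _ _ hc (by have := hp.pos; positivity) (mul_ne_zero hu0 hv0), AC_pow _ _ hp,
      mul_assoc]

end Pool.Agent.Lib.MP_fa98d2_nt
end
end

-- part Pool.Agent.Lib.MP_fa98d2_nt.Local
section

/- The local Rankin-Selberg factor at a non-tempered prime. -/

open PowerSeries Finset
open scoped ComplexOrder ComplexConjugate

noncomputable section

namespace Pool.Agent.Lib.MP_fa98d2_nt

def GG (c : ℂ) : PowerSeries ℂ := mk fun n => c ^ n

lemma GG_mul (c : ℂ) : (1 - C c * X) * GG c = 1 := by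
  ext n
  rcases n with _ | n
  · simp [GG, sub_mul, mul_assoc]
  · simp [GG, sub_mul, mul_assoc, coeff_succ_X_mul, coeff_one, pow_succ']

def PS (F : ℕ → ℕ → ℂ) : PowerSeries ℂ :=
  mk fun j => ∑ b ∈ range (j + 1), if 2 * b ≤ j then F (j - 2 * b) b else 0

lemma PS_add (F F' : ℕ → ℕ → ℂ) : PS (fun a b => F a b + F' a b) = PS F + PS F' := by
  ext j
  simp only [PS, coeff_mk, map_add, ← sum_add_distrib]
  exact sum_congr rfl fun b _ => by split_ifs <;> simp

lemma PS_smul (w : ℂ) (F : ℕ → ℕ → ℂ) : PS (fun a b => w * F a b) = C w * PS F := by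
  ext j
  simp only [PS, coeff_mk, coeff_C_mul, mul_sum]
  exact sum_congr rfl fun b _ => by split_ifs <;> simp

lemma PS_geo (x z : ℂ) : (1 - C z * X ^ 2) * PS (fun a b => x ^ a * z ^ b) = GG x := by
  ext j
  rw [sub_mul, one_mul, mul_assoc, map_sub, coeff_C_mul, coeff_X_pow_mul']
  simp only [PS, GG, coeff_mk]
  split_ifs with h
  · obtain ⟨i, rfl⟩ := Nat.exists_eq_add_of_le' h
    rw [sum_range_succ', sum_range_succ, if_neg (by omega), Nat.add_sub_cancel, mul_sum]
    have : ∀ b, (if 2 * (b + 1) ≤ i + 2 then x ^ (i + 2 - 2 * (b + 1)) * z ^ (b + 1) else 0) =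
        z * if 2 * b ≤ i then x ^ (i - 2 * b) * z ^ b else 0 := by
      intro b
      by_cases hb : 2 * b ≤ i
      · rw [if_pos hb, if_pos (by omega), show i + 2 - 2 * (b + 1) = i - 2 * b by omega]; ring
      · rw [if_neg hb, if_neg (by omega), mul_zero]
    simp [this]
  · have : j = 0 ∨ j = 1 := by omega
    rcases this with rfl | rfl <;> simp [sum_range_succ]

def WW (x y : ℂ) (m n : ℕ) : ℂ := x ^ m * y ^ n - y ^ m * x ^ n

lemma four (a a' c c' : ℂ) :
    PS (fun i j => WW a a' (i + j + 2) (j + 1) * WW c c' (i + j + 2) (j + 1)) *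
      ((1 - C a * C c * X) * (1 - C a' * C c * X) * (1 - C a * C c' * X) * (1 - C a' * C c' * X)) =
      C a * C a' * C c * C c' * (C a - C a') * (C c - C c') := by
  have e : (fun i j => WW a a' (i + j + 2) (j + 1) * WW c c' (i + j + 2) (j + 1)) = fun i j =>
      (a * a' * c * c') * (a * c) * ((a * c) ^ i * (a * a' * c * c') ^ j) +
      (-((a * a' * c * c') * (a' * c))) * ((a' * c) ^ i * (a * a' * c * c') ^ j) +
      (-((a * a' * c * c') * (a * c'))) * ((a * c') ^ i * (a * a' * c * c') ^ j) +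
      (a * a' * c * c') * (a' * c') * ((a' * c') ^ i * (a * a' * c * c') ^ j) := by
    funext i j
    simp only [WW, mul_pow]
    ring
  rw [e, PS_add, PS_add, PS_add, PS_smul, PS_smul, PS_smul, PS_smul]
  have hne : (1 - C (a * a' * c * c') * X ^ 2 : PowerSeries ℂ) ≠ 0 := by
    intro h
    simpa using congrArg (coeff 0) h
  apply mul_left_cancel₀ hne
  have g1 := PS_geo (a * c) (a * a' * c * c')
  have g2 := PS_geo (a' * c) (a * a' * c * c')
  have g3 := PS_geo (a * c') (a * a' * c * c')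
  have g4 := PS_geo (a' * c') (a * a' * c * c')
  have k1 := GG_mul (a * c)
  have k2 := GG_mul (a' * c)
  have k3 := GG_mul (a * c')
  have k4 := GG_mul (a' * c')
  rw [← g1] at k1
  rw [← g2] at k2
  rw [← g3] at k3
  rw [← g4] at k4
  simp only [map_mul, map_neg] at k1 k2 k3 k4 ⊢
  generalize PS (fun i j => (a * c) ^ i * (a * a' * c * c') ^ j) = P1 at *
  generalize PS (fun i j => (a' * c) ^ i * (a * a' * c * c') ^ j) = P2 at *
  generalize PS (fun i j => (a * c') ^ i * (a * a' * c * c') ^ j) = P3 at *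
  generalize PS (fun i j => (a' * c') ^ i * (a * a' * c * c') ^ j) = P4 at *
  generalize (C a : PowerSeries ℂ) = A at *
  generalize (C a' : PowerSeries ℂ) = A' at *
  generalize (C c : PowerSeries ℂ) = B at *
  generalize (C c' : PowerSeries ℂ) = B' at *
  linear_combination
    (A * A' * B * B') * (A * B) * ((1 - A' * B * X) * (1 - A * B' * X) * (1 - A' * B' * X)) * k1 -
    (A * A' * B * B') * (A' * B) * ((1 - A * B * X) * (1 - A * B' * X) * (1 - A' * B' * X)) * k2 -
    (A * A' * B * B') * (A * B') * ((1 - A * B * X) * (1 - A' * B * X) * (1 - A' * B' * X)) * k3 +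
    (A * A' * B * B') * (A' * B') * ((1 - A * B * X) * (1 - A' * B * X) * (1 - A * B' * X)) * k4

def Alt (x y z : ℂ) (m n : ℕ) : ℂ := WW x y m n + WW y z m n + WW z x m n

lemma rec_Alt {x y z : ℂ} (h : x * y * z = 1) :
    Rec (x + y + z) (x * y + y * z + z * x) fun a b => Alt x y z (a + b + 2) (b + 1) := by
  constructor
  · intro a b
    rcases a with _ | a <;> rcases b with _ | b <;>
      simp only [Nat.add_eq_zero_iff, one_ne_zero, and_false, if_false, if_true,
        Nat.add_sub_cancel]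
    · simp only [Alt, WW]; ring
    · linear_combination (norm := (simp only [Alt, WW]; ring1)) Alt x y z (b + 3) (b + 1) * h
    · linear_combination (norm := (simp only [Alt, WW]; ring1)) Alt x y z (a + 2) 1 * h
    · linear_combination (norm := (simp only [Alt, WW]; ring1))
        (Alt x y z (a + b + 4) (b + 1) + Alt x y z (a + b + 3) (b + 2)) * h
  · intro a b
    rcases a with _ | a <;> rcases b with _ | b <;>
      simp only [Nat.add_eq_zero_iff, one_ne_zero, and_false, if_false, if_true,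
        Nat.add_sub_cancel]
    · simp only [Alt, WW]; ring
    · linear_combination (norm := (simp only [Alt, WW]; ring1)) Alt x y z (b + 2) (b + 1) * h
    · simp only [Alt, WW]; ring
    · linear_combination (norm := (simp only [Alt, WW]; ring1)) Alt x y z (a + b + 3) (b + 1) * h

lemma SS_Alt {x y z : ℂ} (h : x * y * z = 1) (a b : ℕ) :
    Alt x y z (a + b + 2) (b + 1) =
      SS (x + y + z) (x * y + y * z + z * x) a b * Alt x y z 2 1 :=
  (rec_Alt h).unique (rec_SS _ _) (SS_zero _ _) a b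

lemma conj_HH (e1 e2 : ℂ) (k : ℕ) : conj (HH e1 e2 k) = HH (conj e1) (conj e2) k := by
  induction k using Nat.strong_induction_on with
  | _ k ih =>
    match k with
    | 0 => simp [HH]
    | 1 => simp [HH]
    | 2 => simp [HH]
    | k + 3 => simp [HH, ih k (by omega), ih (k + 1) (by omega), ih (k + 2) (by omega)]

lemma conj_SS (e1 e2 : ℂ) (a b : ℕ) : conj (SS e1 e2 a b) = SS (conj e1) (conj e2) a b := by
  simp [SS, conj_HH]

/-- the Cauchy identity -/
lemma cauchy {x y z u v w : ℂ} (h : x * y * z = 1) (h' : u * v * w = 1)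
    (h0 : Alt x y z 2 1 ≠ 0) (h0' : Alt u v w 2 1 ≠ 0) :
    PS (fun a b => SS (x + y + z) (x * y + y * z + z * x) a b *
      SS (u + v + w) (u * v + v * w + w * u) a b) = (1 - X ^ 3) *
      (GG (x * u) * GG (x * v) * GG (x * w) * GG (y * u) * GG (y * v) * GG (y * w) *
        GG (z * u) * GG (z * v) * GG (z * w)) := by
  have e : PS (fun a b => (Alt x y z 2 1 * Alt u v w 2 1) *
      (SS (x + y + z) (x * y + y * z + z * x) a b * SS (u + v + w) (u * v + v * w + w * u) a b)) =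
      PS fun i j => WW x y (i + j + 2) (j + 1) * WW u v (i + j + 2) (j + 1) +
        WW x y (i + j + 2) (j + 1) * WW v w (i + j + 2) (j + 1) +
        WW x y (i + j + 2) (j + 1) * WW w u (i + j + 2) (j + 1) +
        WW y z (i + j + 2) (j + 1) * WW u v (i + j + 2) (j + 1) +
        WW y z (i + j + 2) (j + 1) * WW v w (i + j + 2) (j + 1) +
        WW y z (i + j + 2) (j + 1) * WW w u (i + j + 2) (j + 1) +
        WW z x (i + j + 2) (j + 1) * WW u v (i + j + 2) (j + 1) +
        WW z x (i + j + 2) (j + 1) * WW v w (i + j + 2) (j + 1) +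
        WW z x (i + j + 2) (j + 1) * WW w u (i + j + 2) (j + 1) := by
    congr 1
    funext i j
    have k1 := SS_Alt h i j
    have k2 := SS_Alt h' i j
    calc _ = (SS (x + y + z) (x * y + y * z + z * x) i j * Alt x y z 2 1) *
          (SS (u + v + w) (u * v + v * w + w * u) i j * Alt u v w 2 1) := by ring
      _ = _ := by rw [← k1, ← k2, Alt, Alt]; ring
  rw [PS_smul] at e
  iterate 8 rw [PS_add] at e
  have f1 := four x y u v
  have f2 := four x y v w
  have f3 := four x y w u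
  have f4 := four y z u v
  have f5 := four y z v w
  have f6 := four y z w u
  have f7 := four z x u v
  have f8 := four z x v w
  have f9 := four z x w u
  have hne : (C (Alt x y z 2 1 * Alt u v w 2 1) : PowerSeries ℂ) ≠ 0 := by
    intro h
    simpa [h0, h0'] using congrArg (coeff 0) h
  have hh : (C x : PowerSeries ℂ) * C y * C z = 1 := by rw [← map_mul, ← map_mul, h, map_one]
  have hh' : (C u : PowerSeries ℂ) * C v * C w = 1 := by rw [← map_mul, ← map_mul, h', map_one]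
  have key : PS (fun a b => SS (x + y + z) (x * y + y * z + z * x) a b *
      SS (u + v + w) (u * v + v * w + w * u) a b) *
      ((1 - C (x * u) * X) * (1 - C (x * v) * X) * (1 - C (x * w) * X) *
        (1 - C (y * u) * X) * (1 - C (y * v) * X) * (1 - C (y * w) * X) *
        (1 - C (z * u) * X) * (1 - C (z * v) * X) * (1 - C (z * w) * X)) = 1 - X ^ 3 := by
    apply mul_left_cancel₀ hne
    rw [← mul_assoc, e]
    have : (1 - X ^ 3 : PowerSeries ℂ) = 1 - (C x * C y * C z) * (C u * C v * C w) * X ^ 3 := by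
      rw [hh, hh', one_mul, one_mul]
    rw [this]
    simp only [Alt, WW, map_mul, map_add, map_sub, map_pow] at f1 f2 f3 f4 f5 f6 f7 f8 f9 ⊢
    generalize (C x : PowerSeries ℂ) = a1 at *
    generalize (C y : PowerSeries ℂ) = a2 at *
    generalize (C z : PowerSeries ℂ) = a3 at *
    generalize (C u : PowerSeries ℂ) = c1 at *
    generalize (C v : PowerSeries ℂ) = c2 at *
    generalize (C w : PowerSeries ℂ) = c3 at *
    linear_combination
      ((1 - a1 * c3 * X) * (1 - a2 * c3 * X) * (1 - a3 * c1 * X) * (1 - a3 * c2 * X) *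
        (1 - a3 * c3 * X)) * f1 +
      ((1 - a1 * c1 * X) * (1 - a2 * c1 * X) * (1 - a3 * c1 * X) * (1 - a3 * c2 * X) *
        (1 - a3 * c3 * X)) * f2 +
      ((1 - a1 * c2 * X) * (1 - a2 * c2 * X) * (1 - a3 * c1 * X) * (1 - a3 * c2 * X) *
        (1 - a3 * c3 * X)) * f3 +
      ((1 - a2 * c3 * X) * (1 - a3 * c3 * X) * (1 - a1 * c1 * X) * (1 - a1 * c2 * X) *
        (1 - a1 * c3 * X)) * f4 +
      ((1 - a2 * c1 * X) * (1 - a3 * c1 * X) * (1 - a1 * c1 * X) * (1 - a1 * c2 * X) *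
        (1 - a1 * c3 * X)) * f5 +
      ((1 - a2 * c2 * X) * (1 - a3 * c2 * X) * (1 - a1 * c1 * X) * (1 - a1 * c2 * X) *
        (1 - a1 * c3 * X)) * f6 +
      ((1 - a3 * c3 * X) * (1 - a1 * c3 * X) * (1 - a2 * c1 * X) * (1 - a2 * c2 * X) *
        (1 - a2 * c3 * X)) * f7 +
      ((1 - a3 * c1 * X) * (1 - a1 * c1 * X) * (1 - a2 * c1 * X) * (1 - a2 * c2 * X) *
        (1 - a2 * c3 * X)) * f8 +
      ((1 - a3 * c2 * X) * (1 - a1 * c2 * X) * (1 - a2 * c1 * X) * (1 - a2 * c2 * X) *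
        (1 - a2 * c3 * X)) * f9
  have m : ∀ {P Q p q : PowerSeries ℂ}, P * Q = 1 → p * q = 1 → P * p * (Q * q) = 1 :=
    fun h1 h2 => by rw [mul_mul_mul_comm, h1, h2, mul_one]
  rw [← key, mul_assoc, m (m (m (m (m (m (m (m (GG_mul _) (GG_mul _)) (GG_mul _)) (GG_mul _))
    (GG_mul _)) (GG_mul _)) (GG_mul _)) (GG_mul _)) (GG_mul _), mul_one]

/-- log derivative -/
def LD (F : PowerSeries ℂ) (P : ℕ → ℂ) : Prop := derivative ℂ F = F * mk P

lemma LD.mul {F F' : PowerSeries ℂ} {P P' : ℕ → ℂ} (h : LD F P) (h' : LD F' P') :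
    LD (F * F') fun n => P n + P' n := by
  have : (mk fun n => P n + P' n) = mk P + mk P' := by ext; simp
  rw [LD, Derivation.leibniz, h, h', this, smul_eq_mul, smul_eq_mul]
  ring

lemma LD_GG (c : ℂ) : LD (GG c) fun n => c ^ (n + 1) := by
  have h := congrArg (derivative ℂ) (GG_mul c)
  have e : (mk fun n => c ^ (n + 1)) = C c * GG c := by ext; simp [GG, pow_succ']
  rw [Derivation.leibniz, derivative_one, map_sub, derivative_one, Derivation.leibniz,
    derivative_C, derivative_X] at h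
  simp only [smul_eq_mul] at h
  rw [LD, e]
  linear_combination GG c * h - derivative ℂ (GG c) * GG_mul c

lemma LD.rec_eq {F : PowerSeries ℂ} {P : ℕ → ℂ} (h : LD F P) (n : ℕ) :
    coeff (n + 1) F * (n + 1) = ∑ q ∈ antidiagonal n, coeff q.1 F * P q.2 := by
  have := congrArg (coeff n) h
  rw [coeff_derivative, coeff_mul] at this
  simpa using this

lemma LD.real {F : PowerSeries ℂ} {g : ℕ → ℝ} (h : LD F fun n => g n) (h0 : coeff 0 F = 1)
    (hg : ∀ n, 0 ≤ g n) : ∃ d : ℕ → ℝ, (∀ n, coeff n F = d n) ∧ (∀ n, 0 ≤ d n) ∧ d 0 = 1 ∧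
      (∀ n, g n / (n + 1) ≤ d (n + 1)) ∧ 2 * d 2 = g 1 + g 0 ^ 2 := by
  have key : ∀ n, ∃ d : ℝ, 0 ≤ d ∧ coeff n F = d := by
    intro n
    induction n using Nat.strong_induction_on with
    | _ n ih =>
      rcases n with _ | n
      · exact ⟨1, zero_le_one, by simp [h0]⟩
      · choose! d hd using ih
        refine ⟨(∑ q ∈ antidiagonal n, d q.1 * g q.2) / (n + 1), div_nonneg (sum_nonneg
          fun q hq => mul_nonneg (hd _ (by rw [HasAntidiagonal.mem_antidiagonal] at hq; omega)).1 (hg _))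
          (by positivity), ?_⟩
        push_cast
        rw [eq_div_iff (by exact_mod_cast Nat.succ_ne_zero n), h.rec_eq]
        exact sum_congr rfl fun q hq => by rw [(hd _ (by rw [HasAntidiagonal.mem_antidiagonal] at hq; omega)).2]
  choose d hd0 hd using key
  have d0 : d 0 = 1 := by exact_mod_cast (hd 0).symm.trans h0
  have hr : ∀ n : ℕ, d (n + 1) * (n + 1) = ∑ q ∈ antidiagonal n, d q.1 * g q.2 := by
    intro n
    have := h.rec_eq n
    simp only [hd] at this
    exact_mod_cast this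
  refine ⟨d, hd, hd0, d0, fun n => ?_, ?_⟩
  · rw [div_le_iff₀ (by positivity), hr]
    have := single_le_sum (f := fun q : ℕ × ℕ => d q.1 * g q.2)
      (fun q _ => mul_nonneg (hd0 _) (hg _)) (s := antidiagonal n) (a := (0, n)) (by simp)
    simpa [d0] using this
  · have h1 := hr 0
    have h2 := hr 1
    simp [d0, Nat.antidiagonal_succ] at h1 h2
    rw [h1] at h2
    linarith

def qs (e1 e2 : ℂ) (j : ℕ) : ℝ :=
  ∑ b ∈ range (j + 1), if 2 * b ≤ j then ‖SS e1 e2 (j - 2 * b) b‖ ^ 2 else 0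

def bs (e1 e2 : ℂ) (j : ℕ) : ℝ := ∑ q ∈ antidiagonal j, (if 3 ∣ q.1 then 1 else 0) * qs e1 e2 q.2

theorem local_pos {r : ℝ} {u z : ℂ} (hr : 1 < r) (hu : ‖u‖ = 1) (hz : ‖z‖ = 1)
    (h : r * u * (u / r) * z = 1) :
    ∃ d : ℕ → ℝ, (∀ n, 0 ≤ d n) ∧ d 0 = 1 ∧ (∀ n, (r ^ (n + 1) - 1) ^ 2 / (n + 1) ≤ d (n + 1)) ∧
      1 ≤ d 2 ∧ ∀ j, bs (r * u + u / r + z) (r * u * (u / r) + u / r * z + z * (r * u)) j =
        ∑ q ∈ antidiagonal j, d q.2 := by
  have hr0 : (r : ℂ) ≠ 0 := by exact_mod_cast (by linarith : r ≠ 0)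
  have hu' : u * conj u = 1 := by rw [Complex.mul_conj, Complex.normSq_eq_norm_sq, hu]; simp
  have hz' : z * conj z = 1 := by rw [Complex.mul_conj, Complex.normSq_eq_norm_sq, hz]; simp
  have hA : Alt (r * u) (u / r) z 2 1 ≠ 0 := by
    have : Alt (r * u) (u / r) z 2 1 = (r * u - u / r) * (u / r - z) * (r * u - z) := by
      simp only [Alt, WW]; ring
    have n1 : ‖r * u‖ = r := by rw [norm_mul, hu, Complex.norm_real, mul_one]; exact abs_of_pos (by linarith)
    have n2 : ‖u / r‖ < 1 := by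
      rw [norm_div, hu, Complex.norm_real, Real.norm_of_nonneg (by linarith), div_lt_one (by linarith)]
      exact hr
    rw [this]
    refine mul_ne_zero (mul_ne_zero ?_ ?_) ?_ <;> rw [sub_ne_zero] <;> intro he <;>
      apply_fun norm at he <;> linarith
  have hc := cauchy (u := conj (r * u)) (v := conj (u / r)) (w := conj z) h
    (by rw [← map_mul, ← map_mul, h, map_one]) hA
    (by simpa [Alt, WW] using (map_ne_zero (starRingEnd ℂ)).2 hA)
  set v := u * conj z with hv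
  have hv1 : ‖v‖ = 1 := by rw [hv, norm_mul, hu, Complex.norm_conj, hz, mul_one]
  set g : ℕ → ℝ := fun n => (r ^ (n + 1) + (r ^ (n + 1))⁻¹) ^ 2 +
    2 * (r ^ (n + 1) + (r ^ (n + 1))⁻¹) * (v ^ (n + 1)).re with hg
  have hre : ∀ n : ℕ, -1 ≤ (v ^ n).re := fun n => by
    have := (abs_le.1 (Complex.abs_re_le_norm (v ^ n))).1
    rwa [norm_pow, hv1, one_pow] at this
  have ht : ∀ s : ℝ, 1 < s → ∀ c : ℝ, -1 ≤ c → (s - 1) ^ 2 ≤ (s + s⁻¹) ^ 2 + 2 * (s + s⁻¹) * c := by
    intro s hs c hc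
    have h1 : 0 < s⁻¹ := by positivity
    have h2 : s * s⁻¹ = 1 := mul_inv_cancel₀ (by linarith)
    have h3 : 0 ≤ (s + s⁻¹) * (c + 1) := mul_nonneg (by linarith) (by linarith)
    have h4 : 0 ≤ s⁻¹ * (s⁻¹ * (s - 1) ^ 2) := by positivity
    have h5 : s⁻¹ * (s⁻¹ * (s - 1) ^ 2) = 1 - 2 * s⁻¹ + s⁻¹ ^ 2 := by
      linear_combination (s * s⁻¹ + 1 - 2 * s⁻¹) * h2
    nlinarith
  have hg1 : ∀ n, (r ^ (n + 1) - 1) ^ 2 ≤ g n := fun n =>
    ht _ (one_lt_pow₀ hr n.succ_ne_zero) _ (hre _)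
  have hL := (((((((LD_GG (r * u * conj (r * u))).mul (LD_GG (r * u * conj (u / r)))).mul
    (LD_GG (r * u * conj z))).mul (LD_GG (u / r * conj (r * u)))).mul
    (LD_GG (u / r * conj (u / r)))).mul (LD_GG (u / r * conj z))).mul
    (LD_GG (z * conj (r * u)))).mul (LD_GG (z * conj (u / r)))
  have hL' := hL
  rw [show (fun n => _) = fun n => ((g n : ℝ) : ℂ) from ?_] at hL'
  · obtain ⟨d, hd, hd0, d0, hd1, hd2⟩ := hL'.real (by simp [GG]) fun n =>
      (sq_nonneg _).trans (hg1 n)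
    refine ⟨d, hd0, d0, fun n => le_trans (by gcongr; exact hg1 n) (hd1 n), ?_, fun j => ?_⟩
    · have a1 : (v ^ 2).re = 2 * v.re ^ 2 - 1 := by
        have := Complex.normSq_eq_norm_sq v
        rw [hv1, Complex.normSq_apply] at this
        simp only [sq, Complex.mul_re]
        linarith
      have a2 := hre 1
      simp only [hg, zero_add, pow_one, one_add_one_eq_two, a1] at hd2 a2
      have b1 : ∀ s : ℝ, 1 < s → 2 ≤ s + s⁻¹ := by
        intro s hs
        have h2 : s * s⁻¹ = 1 := mul_inv_cancel₀ (by linarith)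
        have h4 : 0 ≤ s⁻¹ * (s - 1) ^ 2 := by positivity
        nlinarith
      have b2 := b1 r hr
      have b3 := b1 (r ^ 2) (one_lt_pow₀ hr two_ne_zero)
      generalize r + r⁻¹ = t at *
      generalize r ^ 2 + (r ^ 2)⁻¹ = t' at *
      generalize v.re = c at *
      have c1 : 4 * (1 + c) ≤ t ^ 2 + 2 * t * c := by nlinarith
      have c2 : 8 * c ^ 2 ≤ t' ^ 2 + 2 * t' * (2 * c ^ 2 - 1) := by nlinarith [sq_nonneg c]
      have c3 : (4 * (1 + c)) ^ 2 ≤ (t ^ 2 + 2 * t * c) ^ 2 := by gcongr; linarith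
      nlinarith [sq_nonneg (3 * c + 2)]
    · have e3 : (mk fun n => if 3 ∣ n then (1 : ℂ) else 0) * (1 - X ^ 3) = 1 := by
        ext n
        rw [mul_sub, mul_one, map_sub, coeff_mul_X_pow', coeff_mk, coeff_one]
        simp only [coeff_mk]
        split_ifs <;> first | omega | simp
      have hc' := congrArg ((mk fun n => if 3 ∣ n then (1 : ℂ) else 0) * ·) hc
      beta_reduce at hc'
      rw [← mul_assoc _ (1 - X ^ 3), e3, one_mul, mul_comm _ (GG (z * conj z)), hz'] at hc'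
      have := congrArg (coeff j) hc'
      rw [coeff_mul, coeff_mul] at this
      simp only [hd] at this
      simp only [GG, PS, coeff_mk, one_pow, one_mul, ← map_mul, ← map_add, ← conj_SS,
        Complex.mul_conj, Complex.normSq_eq_norm_sq] at this
      simp only [bs, qs]
      have e4 : ∀ (p : Prop) [Decidable p] (a : ℝ),
          ((if p then a else 0 : ℝ) : ℂ) = if p then (a : ℂ) else 0 := by
        intro p _ a; split_ifs <;> simp
      apply Complex.ofReal_injective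
      simp only [Complex.ofReal_sum, Complex.ofReal_mul, e4, Complex.ofReal_one]
      exact this
  · funext n
    have a1 : r * u * conj (r * u) = r ^ 2 := by
      rw [map_mul, Complex.conj_ofReal]; linear_combination (r : ℂ) ^ 2 * hu'
    have a2 : r * u * conj (u / r) = 1 := by
      rw [map_div₀, Complex.conj_ofReal, ← hu']; field_simp
    have a3 : u / r * conj (r * u) = 1 := by
      rw [map_mul, Complex.conj_ofReal, ← hu']; field_simp
    have a4 : u / r * conj (u / r) = ((r : ℂ) ^ 2)⁻¹ := by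
      rw [map_div₀, Complex.conj_ofReal, inv_eq_one_div, ← hu']; field_simp
    have a5 : r * u * conj z = r * v := by rw [hv, mul_assoc]
    have a6 : u / r * conj z = (r : ℂ)⁻¹ * v := by rw [hv]; ring
    have a7 : z * conj (r * u) = r * conj v := by simp [hv]; ring
    have a8 : z * conj (u / r) = (r : ℂ)⁻¹ * conj v := by simp [hv]; ring
    rw [a1, a2, a3, a4, a5, a6, a7, a8]
    simp only [hg, mul_pow, ← map_pow]
    push_cast
    rw [Complex.re_eq_add_conj]
    have : (r : ℂ) ^ (n + 1) ≠ 0 := pow_ne_zero _ hr0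
    simp only [inv_pow, ← pow_mul, mul_comm 2 (n + 1)]
    simp only [pow_mul]
    field_simp
    ring

/-- the shape of non-tempered parameters -/
lemma shape {α : Fin 3 → ℂ} (h : α 0 * α 1 * α 2 = 1)
    (ha : α 0 * α 1 + α 1 * α 2 + α 2 * α 0 = conj (α 0 + α 1 + α 2)) (hn : ¬ ∀ i, ‖α i‖ = 1) :
    ∃ (r : ℝ) (u z : ℂ), 1 < r ∧ ‖u‖ = 1 ∧ ‖z‖ = 1 ∧ r * u * (u / r) * z = 1 ∧
      α 0 + α 1 + α 2 = r * u + u / r + z ∧
      α 0 * α 1 + α 1 * α 2 + α 2 * α 0 = r * u * (u / r) + u / r * z + z * (r * u) ∧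
      (∀ i, ‖α i‖ = r ∨ ‖α i‖ = r⁻¹ ∨ ‖α i‖ = 1) ∧ ∃ i, ‖α i‖ = r := by
  have key : ∀ x y z : ℂ, x * y * z = 1 → 1 < ‖x‖ → conj x * y = 1 →
      ∃ (r : ℝ) (u : ℂ), 1 < r ∧ ‖u‖ = 1 ∧ ‖z‖ = 1 ∧ x = r * u ∧ y = u / r ∧ ‖x‖ = r ∧
        ‖y‖ = r⁻¹ := by
    intro x y z h h1 h2
    have hx : (‖x‖ : ℂ) ≠ 0 := by exact_mod_cast (by linarith : ‖x‖ ≠ 0)
    have n1 : ‖x‖ * ‖y‖ = 1 := by simpa using congrArg norm h2
    have n2 : ‖x‖ * ‖y‖ * ‖z‖ = 1 := by simpa using congrArg norm h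
    refine ⟨‖x‖, x / ‖x‖, h1, by rw [norm_div, Complex.norm_real, norm_norm, div_self (by linarith)], by rwa [n1, one_mul] at n2, by field_simp, ?_,
      rfl, eq_inv_of_mul_eq_one_right n1⟩
    have := Complex.mul_conj x
    rw [Complex.normSq_eq_norm_sq] at this
    push_cast at this
    field_simp
    linear_combination x * h2 - y * this
  have root : ∀ x y z : ℂ, x * y * z = 1 → x * y + y * z + z * x = conj (x + y + z) → ‖x‖ ≠ 1 →
      conj x * y = 1 ∨ conj x * z = 1 := by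
    intro x y z h ha hx
    have h1 := congrArg conj h
    have h2 := congrArg conj ha
    simp only [map_mul, map_add, map_one, Complex.conj_conj] at h1 h2 ha
    have : (conj x * x - 1) * ((conj x * y - 1) * (conj x * z - 1)) = 0 := by
      linear_combination conj x ^ 3 * h - conj x ^ 2 * ha - conj x * h2 + h1
    rcases mul_eq_zero.1 this with h3 | h3
    · exfalso
      apply hx
      have : ‖x‖ * ‖x‖ = 1 := by simpa using congrArg norm (sub_eq_zero.1 h3)
      nlinarith [norm_nonneg x]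
    · simpa [sub_eq_zero] using h3
  have main : ∀ x y z : ℂ, x * y * z = 1 → x * y + y * z + z * x = conj (x + y + z) → 1 < ‖x‖ →
      ∃ (r : ℝ) (u w : ℂ), 1 < r ∧ ‖u‖ = 1 ∧ ‖w‖ = 1 ∧ r * u * (u / r) * w = 1 ∧
        x + y + z = r * u + u / r + w ∧
        x * y + y * z + z * x = r * u * (u / r) + u / r * w + w * (r * u) ∧ ‖x‖ = r ∧
        (‖y‖ = r⁻¹ ∨ ‖y‖ = 1) ∧ (‖z‖ = r⁻¹ ∨ ‖z‖ = 1) := by
    intro x y z h ha hx
    rcases root x y z h ha hx.ne' with h2 | h2
    · obtain ⟨r, u, h3, h4, h5, h6, h7, h8, h9⟩ := key x y z h hx h2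
      exact ⟨r, u, z, h3, h4, h5, by rw [← h6, ← h7, h], by rw [← h6, ← h7], by rw [← h6, ← h7],
        h8, Or.inl h9, Or.inr h5⟩
    · obtain ⟨r, u, h3, h4, h5, h6, h7, h8, h9⟩ := key x z y (by rw [← h]; ring) hx h2
      exact ⟨r, u, y, h3, h4, h5, by rw [← h6, ← h7, ← h]; ring, by rw [← h6, ← h7]; ring,
        by rw [← h6, ← h7]; ring, h8, Or.inr h5, Or.inl h9⟩
  have n : ‖α 0‖ * ‖α 1‖ * ‖α 2‖ = 1 := by simpa using congrArg norm h
  have n0 := norm_nonneg (α 0)
  have n1 := norm_nonneg (α 1)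
  have n2 := norm_nonneg (α 2)
  by_cases c0 : 1 < ‖α 0‖
  · obtain ⟨r, u, w, h1, h2, h3, h4, h5, h6, h7, h8, h9⟩ := main _ _ _ h ha c0
    exact ⟨r, u, w, h1, h2, h3, h4, h5, h6, fun i => by fin_cases i <;> simp_all, 0, h7⟩
  by_cases c1 : 1 < ‖α 1‖
  · obtain ⟨r, u, w, h1, h2, h3, h4, h5, h6, h7, h8, h9⟩ := main (α 1) (α 2) (α 0)
      (by rw [← h]; ring) (by rw [show α 1 + α 2 + α 0 = α 0 + α 1 + α 2 by ring, ← ha]; ring) c1
    exact ⟨r, u, w, h1, h2, h3, h4, by rw [← h5]; ring, by rw [← h6]; ring,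
      fun i => by fin_cases i <;> simp_all, 1, h7⟩
  by_cases c2 : 1 < ‖α 2‖
  · obtain ⟨r, u, w, h1, h2, h3, h4, h5, h6, h7, h8, h9⟩ := main (α 2) (α 0) (α 1)
      (by rw [← h]; ring) (by rw [show α 2 + α 0 + α 1 = α 0 + α 1 + α 2 by ring, ← ha]; ring) c2
    exact ⟨r, u, w, h1, h2, h3, h4, by rw [← h5]; ring, by rw [← h6]; ring,
      fun i => by fin_cases i <;> simp_all, 2, h7⟩
  exfalso
  apply hn
  push Not at c0 c1 c2
  have m : ∀ a b c : ℝ, 0 ≤ a → 0 ≤ b → 0 ≤ c → a ≤ 1 → b ≤ 1 → c ≤ 1 → a * b * c = 1 → a = 1 := by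
    intro a b c ha hb hc ha1 hb1 hc1 h
    have : b * c ≤ 1 := mul_le_one₀ hb1 hc hc1
    nlinarith
  intro i
  fin_cases i
  · exact m _ _ _ n0 n1 n2 c0 c1 c2 n
  · exact m (‖α 1‖) _ _ n1 n2 n0 c1 c2 c0 (by rw [← n]; ring)
  · exact m (‖α 2‖) _ _ n2 n0 n1 c2 c0 c1 (by rw [← n]; ring)

end Pool.Agent.Lib.MP_fa98d2_nt
end
end
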