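import Pool.Agent.Lib.MP_fa98d2_nt.Poisson
import Pool.Agent.Lib.MP_fa98d2_nt.Local

-- part Pool.Agent.Lib.MP_fa98d2_nt.Growth
section

/- Moderate growth and decay of Whittaker coefficients. -/

open MeasureTheory Matrix Set Topology
open scoped ENNReal MatrixGroups

noncomputable section

namespace Pool.Agent.Lib.MP_fa98d2_nt

lemma count_SL3 {B : ℝ} (hB : 1 ≤ B) :
    ∑' γ : SL(3, ℤ), (if Fr (io γ) ≤ B then 1 else 0 : ℝ≥0∞) ≤ ENNReal.ofReal ((3 * B) ^ 9) := by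
  classical
  let N : ℤ := ⌊B⌋
  let S : Finset (Fin 3 → Fin 3 → ℤ) :=
    Fintype.piFinset fun _ => Fintype.piFinset fun _ => Finset.Icc (-N) N
  have hN : 0 ≤ N := Int.floor_nonneg.2 (by linarith)
  have hinj : Function.Injective fun γ : SL(3, ℤ) => (fun i j => γ.val i j : Fin 3 → Fin 3 → ℤ) :=
    fun a b h => Subtype.ext h
  calc ∑' γ : SL(3, ℤ), (if Fr (io γ) ≤ B then 1 else 0 : ℝ≥0∞)
      ≤ ∑' γ : SL(3, ℤ), (fun A => if A ∈ S then 1 else 0 : (Fin 3 → Fin 3 → ℤ) → ℝ≥0∞)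
          (fun i j => γ.val i j) := by
        refine ENNReal.tsum_le_tsum fun γ => ?_
        split_ifs with h
        · have : (fun i j => γ.val i j) ∈ S := by
            simp only [S, Fintype.mem_piFinset, Finset.mem_Icc]
            intro i j
            have h1 := (entry_le (io γ) i j).trans h
            have h2 : ((|γ.val i j| : ℤ) : ℝ) ≤ B := by
              refine le_trans ?_ h1
              have := Int.le_self_sq |γ.val i j|
              rw [sq_abs] at this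
              rw [val_io, Matrix.map_apply]
              exact_mod_cast this
            exact abs_le.1 (Int.le_floor.2 h2)
          simp [this]
        · exact zero_le
    _ ≤ ∑' A, (if A ∈ S then 1 else 0 : ℝ≥0∞) := ENNReal.tsum_comp_le_tsum_of_injective hinj _
    _ = S.card := by
        rw [tsum_eq_sum (s := S) (by intro b hb; simp [hb])]
        simp
    _ ≤ _ := by
        rw [← ENNReal.ofReal_natCast]
        apply ENNReal.ofReal_le_ofReal
        have h1 : ((N + 1 - -N).toNat : ℝ) ≤ 3 * B := by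
          have : (((N + 1 - -N).toNat : ℤ) : ℝ) = N + 1 - -N := by
            rw [Int.toNat_of_nonneg (by omega)]; push_cast; ring
          have h2 : (N : ℝ) ≤ B := Int.floor_le B
          push_cast at this
          rw [this]; linarith
        simp only [S, Fintype.card_piFinset, Int.card_Icc, Finset.prod_const, Finset.card_univ,
          Fintype.card_fin, ← pow_mul, Nat.cast_pow]
        gcongr

lemma Fr_one : Fr 1 = 3 := by simp [Fr, nsq_eq]; norm_num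

def FF (g : G) : ℝ := Fr g * Fr g⁻¹

lemma three_le_FF (g : G) : 3 ≤ FF g := by
  rw [← Fr_one, ← mul_inv_cancel g]; exact Fr_mul _ _

open Classical in
lemma count_orbit (g x : G) :
    ∑' γ : SL(3, ℤ), (if g⁻¹ * (io γ * x) ∈ Om 4 then 1 else 0 : ℝ≥0∞) ≤
      ENNReal.ofReal ((48 * FF g) ^ 9) := by
  by_cases h : ∃ γ0 : SL(3, ℤ), g⁻¹ * (io γ0 * x) ∈ Om 4
  · obtain ⟨γ0, h0⟩ := h
    have hB : 1 ≤ 16 * FF g := by linarith [three_le_FF g]
    have := count_SL3 hB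
    rw [show 3 * (16 * FF g) = 48 * FF g by ring] at this
    refine le_trans ?_ this
    rw [← (Equiv.mulRight γ0).tsum_eq]
    refine ENNReal.tsum_le_tsum fun γ => ?_
    split_ifs with h1 h2
    · exact le_rfl
    · exfalso
      apply h2
      have e : io γ = g * ((g⁻¹ * (io (γ * γ0) * x)) * (g⁻¹ * (io γ0 * x))⁻¹) * g⁻¹ := by
        simp [mul_assoc]
      have h3 := (Om_mul h1 (Om_inv h0)).1
      rw [e]
      have := Fr_pos g; have := Fr_pos g⁻¹
      calc _ ≤ Fr (g * _) * Fr g⁻¹ := Fr_mul _ _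
        _ ≤ (Fr g * (4 * 4)) * Fr g⁻¹ := by
            gcongr
            exact (Fr_mul _ _).trans (by gcongr; exact h3)
        _ = _ := by rw [FF]; ring
    · exact zero_le
    · exact zero_le
  · push Not at h
    simp [h]

lemma dt_Om4 {h : G} (hh : h ∈ Om 4) : 1 / 8 ≤ dt h ∧ dt h ≤ 8 := by
  have k : ∀ h : G, Fr h ≤ 4 → dt h ≤ 8 := fun h h1 => by
    have := (dt_sq_le h).trans (pow_le_pow_left₀ (Fr_pos h).le h1 3)
    nlinarith [dt_pos h]
  refine ⟨?_, k h hh.1⟩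
  have := k _ hh.2
  rw [dt_inv, inv_le_comm₀ (dt_pos h) (by norm_num)] at this
  simpa using this

lemma shell_cover (g : G) {h : G} (hh : h ∈ Om 4) :
    1 ≤ ∑ j ∈ Finset.range 6, Sh (2 ^ j / 8 * dt g) (g * h) := by
  obtain ⟨h1, h2⟩ := dt_Om4 hh
  have : ∃ j ∈ Finset.range 6, (2 : ℝ) ^ j / 8 ≤ dt h ∧ dt h ≤ 2 * (2 ^ j / 8) := by
    by_cases a : dt h ≤ 1 / 4
    · exact ⟨0, by simp, by norm_num; constructor <;> linarith⟩
    by_cases b : dt h ≤ 1 / 2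
    · exact ⟨1, by simp, by norm_num; constructor <;> linarith⟩
    by_cases c : dt h ≤ 1
    · exact ⟨2, by simp, by norm_num; constructor <;> linarith⟩
    by_cases d : dt h ≤ 2
    · exact ⟨3, by simp, by norm_num; constructor <;> linarith⟩
    by_cases e : dt h ≤ 4
    · exact ⟨4, by simp, by norm_num; constructor <;> linarith⟩
    · exact ⟨5, by simp, by norm_num; constructor <;> linarith⟩
  obtain ⟨j, hj, h3⟩ := this
  refine le_trans ?_ (Finset.single_le_sum (f := fun j => Sh (2 ^ j / 8 * dt g) (g * h))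
    (fun _ _ => zero_le) hj)
  simp only [Sh_mul_left]
  rw [Sh, if_pos h3]

open Classical in
lemma local_L2 {β : G → ℝ≥0∞} {f : G → ℂ} (hβ : Measurable β) (h1 : DWt io β) (hf : Aut f)
    (g : G) :
    ∫⁻ h in Om 4, ‖f (g * h)‖ₑ ^ 2 ∂mu ≤ 6 * (ENNReal.ofReal ((48 * FF g) ^ 9) * N2 β f) := by
  let χ : G → ℝ≥0∞ := fun x => if g⁻¹ * x ∈ Om 4 then 1 else 0
  have hχ : Measurable χ := Measurable.ite
    ((measurable_const_mul _) (isClosed_Om 4).measurableSet) measurable_const measurable_const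
  have hm : ∀ c, Measurable fun x => χ x * (Sh c x * ‖f x‖ₑ ^ 2) := fun c =>
    hχ.mul ((measurable_Sh c).mul (measurable_sq hf.cont))
  have k : ∀ c, 0 < c → ∫⁻ x, χ x * (Sh c x * ‖f x‖ₑ ^ 2) ∂mu ≤
      ENNReal.ofReal ((48 * FF g) ^ 9) * N2 β f := by
    intro c hc
    rw [lintegral_eq_wt dinv_io hβ (hm c) h1, ← N2_shift hβ h1 hf hc,
      ← lintegral_const_mul' _ _ ENNReal.ofReal_ne_top]
    refine lintegral_mono fun x => ?_
    simp only [Sh_mul_of_dt (dt_io _), hf.inv, ENNReal.tsum_mul_right]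
    rw [mul_left_comm]
    gcongr
    exact count_orbit g x
  calc ∫⁻ h in Om 4, ‖f (g * h)‖ₑ ^ 2 ∂mu
      ≤ ∫⁻ h, ∑ j ∈ Finset.range 6,
          χ (g * h) * (Sh (2 ^ j / 8 * dt g) (g * h) * ‖f (g * h)‖ₑ ^ 2) ∂mu := by
        rw [← lintegral_indicator (isClosed_Om 4).measurableSet]
        refine lintegral_mono fun h => ?_
        by_cases hh : h ∈ Om 4
        · rw [indicator_of_mem hh, ← Finset.mul_sum, ← Finset.sum_mul]
          have : χ (g * h) = 1 := by simp [χ, hh]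
          rw [this, one_mul]
          exact le_mul_of_one_le_left' (shell_cover g hh)
        · rw [indicator_of_notMem hh]; exact zero_le
    _ = ∑ j ∈ Finset.range 6, ∫⁻ x, χ x * (Sh (2 ^ j / 8 * dt g) x * ‖f x‖ₑ ^ 2) ∂mu := by
        rw [lintegral_mul_left_eq_self (fun x => ∑ j ∈ Finset.range 6,
          χ x * (Sh (2 ^ j / 8 * dt g) x * ‖f x‖ₑ ^ 2)) g, lintegral_finsetSum _ fun j _ => hm _]
    _ ≤ ∑ j ∈ Finset.range 6, ENNReal.ofReal ((48 * FF g) ^ 9) * N2 β f :=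
        Finset.sum_le_sum fun j _ => k _ (by have := dt_pos g; positivity)
    _ = _ := by simp

lemma moderate {β : G → ℝ≥0∞} {f : G → ℂ} (hβ : Measurable β) (h1 : DWt io β) (hf : Aut f)
    (h2 : N2 β f ≠ ∞) {k : G → ℝ} (hk : Ker k) :
    ∃ C, 0 ≤ C ∧ ∀ g, ‖conv k f g‖ ^ 2 ≤ C * FF g ^ 9 := by
  obtain ⟨c, hc, h⟩ := enorm_conv_sq hk
  refine ⟨(c * 6 * N2 β f).toReal * 48 ^ 9, by positivity, fun g => ?_⟩
  have hF : 0 ≤ FF g := by linarith [three_le_FF g]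
  have h3 := (h f hf.cont g).trans (mul_le_mul_right (local_L2 hβ h1 hf g) c)
  have hne : c * 6 * N2 β f ≠ ∞ := ENNReal.mul_ne_top (ENNReal.mul_ne_top hc (by simp)) h2
  rw [← ofReal_norm, ← ENNReal.ofReal_pow (norm_nonneg _),
    show c * (6 * (ENNReal.ofReal ((48 * FF g) ^ 9) * N2 β f)) =
      (c * 6 * N2 β f) * ENNReal.ofReal ((48 * FF g) ^ 9) by ring,
    ← ENNReal.ofReal_toReal hne, ← ENNReal.ofReal_mul ENNReal.toReal_nonneg,
    ENNReal.ofReal_le_ofReal_iff (by positivity)] at h3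
  refine h3.trans (le_of_eq ?_)
  ring

def Y1 (g : G) : ℝ := AA 0 g / AA 1 g
def Y2 (g : G) : ℝ := AA 1 g / AA 2 g

lemma Y1_pos (g : G) : 0 < Y1 g := div_pos (AA_pos _ _) (AA_pos _ _)
lemma Y2_pos (g : G) : 0 < Y2 g := div_pos (AA_pos _ _) (AA_pos _ _)

def Hh (g : G) : ℝ := (1 + Y1 g) * (1 + Y2 g) * (1 + (Y1 g)⁻¹) * (1 + (Y2 g)⁻¹)

def DD (m n : ℤ) (g : G) : ℝ := 1 + (m : ℝ) ^ 2 * Y1 g + (n : ℝ) ^ 2 * Y2 g

lemma Hh_pos (g : G) : 0 < Hh g := by
  have := Y1_pos g; have := Y2_pos g; unfold Hh; positivity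

lemma one_le_DD (m n : ℤ) (g : G) : 1 ≤ DD m n g := by
  have := Y1_pos g; have := Y2_pos g
  have : 0 ≤ (m : ℝ) ^ 2 * Y1 g := by positivity
  have : 0 ≤ (n : ℝ) ^ 2 * Y2 g := by positivity
  unfold DD; linarith

@[simp] lemma Hh_orth (g : G) : Hh (orth g) = Hh g := by simp [Hh, Y1, Y2]
@[simp] lemma DD_orth (m n : ℤ) (g : G) : DD m n (orth g) = DD m n g := by simp [DD, Y1, Y2]

lemma ratio_le {R : ℝ} (hR : 1 ≤ R) {h : G} (hh : h ∈ Om R) (g : G) (i j : Fin 3) :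
    AA i (g * h) / AA j (g * h) ≤ R ^ 10 * (AA i g / AA j g) := by
  have a := AA_mul_le hR hh g i
  have b := AA_mul_le hR (Om_inv hh) (g * h) j
  rw [mul_inv_cancel_right] at b
  have p1 := AA_pos i g; have p2 := AA_pos j g; have p3 := AA_pos j (g * h)
  rw [← mul_div_assoc, div_le_div_iff₀ p3 p2]
  calc AA i (g * h) * AA j g ≤ (R ^ 5 * AA i g) * (R ^ 5 * AA j (g * h)) :=
        mul_le_mul a b p2.le (by positivity)
    _ = _ := by ring

lemma Hh_mul_le {R : ℝ} (hR : 1 ≤ R) {h : G} (hh : h ∈ Om R) (g : G) :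
    Hh (g * h) ≤ R ^ 40 * Hh g := by
  have k : ∀ i j, 1 + AA i (g * h) / AA j (g * h) ≤ R ^ 10 * (1 + AA i g / AA j g) := by
    intro i j
    have := ratio_le hR hh g i j
    have := one_le_pow₀ (n := 10) hR
    linarith
  have p : ∀ i j x, 0 ≤ 1 + AA i x / AA j x := fun i j x => by
    have := AA_pos i x; have := AA_pos j x; positivity
  simp only [Hh, Y1, Y2, inv_div]
  have hR0 : 0 ≤ R ^ 10 := by positivity
  calc _ ≤ (R ^ 10 * (1 + AA 0 g / AA 1 g)) * (R ^ 10 * (1 + AA 1 g / AA 2 g)) *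
        (R ^ 10 * (1 + AA 1 g / AA 0 g)) * (R ^ 10 * (1 + AA 2 g / AA 1 g)) := by
        have := p 0 1 g; have := p 1 2 g; have := p 1 0 g; have := p 2 1 g
        refine mul_le_mul (mul_le_mul (mul_le_mul (k _ _) (k _ _) (p _ _ _) (by positivity))
          (k _ _) (p _ _ _) (by positivity)) (k _ _) (p _ _ _) (by positivity)
    _ = _ := by ring

lemma DD_le {R : ℝ} (hR : 1 ≤ R) {h : G} (hh : h ∈ Om R) (m n : ℤ) (g : G) :
    DD m n g ≤ R ^ 10 * DD m n (g * h) := by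
  have a := ratio_le hR (Om_inv hh) (g * h) 0 1
  have b := ratio_le hR (Om_inv hh) (g * h) 1 2
  rw [mul_inv_cancel_right] at a b
  have := one_le_pow₀ (n := 10) hR
  have a' := mul_le_mul_of_nonneg_left a (sq_nonneg (m : ℝ))
  have b' := mul_le_mul_of_nonneg_left b (sq_nonneg (n : ℝ))
  simp only [DD, Y1, Y2]
  linarith

lemma FF_orth (g : G) : FF (orth g) ≤ Hh g := by
  have h := orth_orth g
  have p0 := AA_pos 0 g; have p1 := AA_pos 1 g; have p2 := AA_pos 2 g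
  have e : ∀ i, nsq ((du (orth g)).val i) = (AA i g)⁻¹ := by
    intro i
    have := AA_pos i g
    rw [h.du_row, nsq_smul, ← AA]; field_simp
  rw [FF, ← Fr_du, Fr, Fr, e, e, e, ← AA, ← AA, ← AA]
  simp only [Hh, Y1, Y2, inv_div]
  generalize AA 0 g = a, AA 1 g = b, AA 2 g = c at *
  have h1 : a + b + c ≤ c * ((1 + a / b) * (1 + b / c)) := by
    have : c * ((1 + a / b) * (1 + b / c)) = a + b + c + a * c / b := by field_simp; ring
    rw [this]; have : 0 < a * c / b := by positivity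
    linarith
  have h2 : a⁻¹ + b⁻¹ + c⁻¹ ≤ c⁻¹ * ((1 + b / a) * (1 + c / b)) := by
    have : c⁻¹ * ((1 + b / a) * (1 + c / b)) = a⁻¹ + b⁻¹ + c⁻¹ + b / (a * c) := by
      field_simp; ring
    rw [this]; have : 0 < b / (a * c) := by positivity
    linarith
  calc _ ≤ (c * ((1 + a / b) * (1 + b / c))) * (c⁻¹ * ((1 + b / a) * (1 + c / b))) :=
        mul_le_mul h1 h2 (by positivity) (by positivity)
    _ = _ := by field_simp

lemma nn_mem_Om {x y z : ℝ} (hx : x ∈ Ioc (0 : ℝ) 1) (hy : y ∈ Ioc (0 : ℝ) 1)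
    (hz : z ∈ Ioc (0 : ℝ) 1) : nn x y z ∈ Om 6 := by
  obtain ⟨x0, x1⟩ := hx; obtain ⟨y0, y1⟩ := hy; obtain ⟨z0, z1⟩ := hz
  have : x * y ≤ 1 := by nlinarith
  have : 0 < x * y := by positivity
  constructor
  · simp [Fr, nsq_eq]; nlinarith
  · rw [nn_inv]; simp [Fr, nsq_eq]; nlinarith

lemma FF_mul_le {R : ℝ} {a : G} (ha : a ∈ Om R) (g : G) : FF (a * g) ≤ R ^ 2 * FF g := by
  have := Fr_pos g; have := Fr_pos g⁻¹; have := Fr_pos a; have := Fr_pos (g⁻¹ * a⁻¹)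
  have hR : 0 ≤ R := by linarith [ha.1]
  rw [FF, FF, _root_.mul_inv_rev]
  calc _ ≤ (R * Fr g) * (Fr g⁻¹ * R) := by
        refine mul_le_mul ((Fr_mul _ _).trans ?_) ((Fr_mul _ _).trans ?_) (by positivity)
          (by positivity)
        · gcongr; exact ha.1
        · gcongr; exact ha.2
    _ = _ := by ring

lemma norm_fc_le {h : ℝ → ℂ} {C : ℝ} (m : ℤ) (hb : ∀ x ∈ Ioc (0 : ℝ) 1, ‖h x‖ ≤ C) :
    ‖fc m h‖ ≤ C := norm_int01_le fun x hx => by simpa using hb x hx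

lemma norm_Wh_orth {f : G → ℂ} (hf : Aut f) (m n : ℤ) (g : G) :
    ‖Wh m n f (orth g)‖ = ‖Wh m n f g‖ := by
  conv_rhs => rw [← nn_orth g, Wh_nn hf]
  simp

def Dec (B : ℕ) (f : G → ℂ) : Prop :=
  ∃ C, 0 ≤ C ∧ ∀ m n g, ‖Wh m n f g‖ ^ 2 ≤ C * Hh g ^ 9 / DD m n g ^ B

lemma dec_zero {f : G → ℂ} (hf : Aut f) {C : ℝ} (hC : 0 ≤ C)
    (h : ∀ g, ‖f g‖ ^ 2 ≤ C * FF g ^ 9) : Dec 0 f := by
  refine ⟨C * 36 ^ 9, by positivity, fun m n g => ?_⟩
  have hH := Hh_pos g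
  rw [pow_zero, div_one, ← norm_Wh_orth hf, Wh_eq]
  refine (Real.le_sqrt (norm_nonneg _) (by positivity)).1 ?_
  refine norm_fc_le _ fun x hx => norm_fc_le _ fun y hy => norm_int01_le fun z hz => ?_
  refine Real.le_sqrt_of_sq_le ((h _).trans ?_)
  have h1 := FF_mul_le (nn_mem_Om hx hy hz) (orth g)
  have h2 := FF_orth g
  have h3 := three_le_FF (nn x y z * orth g)
  rw [mul_assoc, ← mul_pow]
  gcongr
  linarith

lemma norm_int_le {κ : G → ℝ} {W : G → ℂ} {R c S : ℝ} (g : G) (hc : ∀ h, |κ h| ≤ c)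
    (h0 : ∀ h, h ∉ Om R → κ h = 0) (hS : ∀ h ∈ Om R, ‖W (g * h)‖ ≤ S) :
    ‖∫ h, (κ h : ℂ) * W (g * h) ∂mu‖ ≤ c * S * mu.real (Om R) := by
  rw [← setIntegral_eq_integral_of_forall_compl_eq_zero (s := Om R)
    fun h hh => by simp [h0 h hh]]
  refine norm_setIntegral_le_of_norm_le_const (isCompact_Om R).measure_lt_top fun h hh => ?_
  rw [norm_mul, Complex.norm_real]
  exact mul_le_mul (hc h) (hS h hh) (norm_nonneg _) ((abs_nonneg _).trans (hc h))

lemma conv_diff {k : G → ℝ} (hk : Ker k) {W : G → ℂ} (hW : Continuous W) {u o : G}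
    (hu : ∀ x, W (u * x) = -W x) :
    2 * conv k W o = ∫ h, ((k h - k (o⁻¹ * u * o * h) : ℝ) : ℂ) * W (o * h) ∂mu := by
  have e : conv k W o = -∫ h, (k (o⁻¹ * u * o * h) : ℂ) * W (o * h) ∂mu := by
    rw [conv, ← integral_mul_left_eq_self _ (o⁻¹ * u * o), ← integral_neg]
    congr 1
    ext h
    have : o * (o⁻¹ * u * o * h) = u * (o * h) := by simp [mul_assoc]
    rw [this, hu]; ring
  have i1 := hk.integrable hW o
  have i2 : Integrable (fun h => (k (o⁻¹ * u * o * h) : ℂ) * W (o * h)) mu := by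
    have := (i1.comp_mul_left (o⁻¹ * u * o)).neg
    refine this.congr (Filter.Eventually.of_forall fun h => ?_)
    have : o * (o⁻¹ * u * o * h) = u * (o * h) := by simp [mul_assoc]
    simp only [Pi.neg_apply, this, hu]; ring
  rw [two_mul]
  nth_rw 2 [e]
  rw [conv, ← sub_eq_add_neg, ← integral_sub i1 i2]
  congr 1
  ext h
  push_cast; ring

lemma near_conj {o : G} (ho : Orth o) {u : G} {s : ℝ} {a b : Fin 3}
    (h1 : ∀ i j, u.val i j = (1 : Mat) i j + if i = a ∧ j = b then s else 0)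
    (h2 : ∀ i j, (u⁻¹).val i j = (1 : Mat) i j + if i = a ∧ j = b then -s else 0) :
    Near (o⁻¹ * u * o) √(s ^ 2 * (nsq (o.val b) / nsq (o.val a))) := by
  have key : ∀ (u : G) (s : ℝ), (∀ i j, u.val i j = (1 : Mat) i j + if i = a ∧ j = b then s else 0)
      → ∀ i j, |(o⁻¹ * u * o).val i j - (1 : Mat) i j| ≤
        √(s ^ 2 * (nsq (o.val b) / nsq (o.val a))) := by
    intro u s h i j
    have e1 : u.val = 1 + Matrix.single a b s := by
      ext i j; rw [h, Matrix.add_apply, Matrix.single_apply]; simp only [eq_comm]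
    have e2 : (o⁻¹ * u * o).val = 1 + (o⁻¹).val * Matrix.single a b s * o.val := by
      rw [Units.val_mul, Units.val_mul, e1, Matrix.mul_add, Matrix.add_mul, Matrix.mul_one,
        ← Units.val_mul, inv_mul_cancel, Units.val_one]
    have e3 : (o⁻¹).val i a = (nsq (o.val a))⁻¹ * o.val a i := by
      have := congrFun (ho.du_row a) i
      rw [du, ← tr_inv] at this
      exact this
    have e4 : ((o⁻¹).val * Matrix.single a b s * o.val) i j = (o⁻¹).val i a * s * o.val b j := by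
      rw [Matrix.mul_apply, Finset.sum_eq_single b]
      · simp
      · intro l _ hl
        rw [Matrix.mul_single_apply_of_ne _ _ _ _ _ hl, zero_mul]
      · simp
    rw [e2, Matrix.add_apply, add_sub_cancel_left, e4, e3]
    apply Real.abs_le_sqrt
    have p := P_pos o a
    have k : ∀ (w : Fin 3 → ℝ) (l : Fin 3), w l ^ 2 ≤ nsq w := by
      intro w l
      rw [nsq_eq]
      fin_cases l <;> simp <;> nlinarith [sq_nonneg (w 0), sq_nonneg (w 1), sq_nonneg (w 2)]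
    calc _ = s ^ 2 * (o.val a i ^ 2 * o.val b j ^ 2 / nsq (o.val a) ^ 2) := by field_simp
      _ ≤ s ^ 2 * (nsq (o.val a) * nsq (o.val b) / nsq (o.val a) ^ 2) := by
          gcongr <;> exact k _ _
      _ = _ := by field_simp
  refine ⟨key u s h1, fun i j => ?_⟩
  have := key u⁻¹ (-s) h2 i j
  rw [neg_sq] at this
  simpa [mul_assoc] using this

lemma exists_flip {f : G → ℂ} (hf : Aut f) (m n : ℤ) (g : G) (hD : 3 < DD m n g) :
    ∃ u ε, (∀ x, Wh m n f (u * x) = -Wh m n f x) ∧ Near ((orth g)⁻¹ * u * orth g) ε ∧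
      0 ≤ ε ∧ ε ^ 2 ≤ 1 / DD m n g := by
  have p0 := AA_pos 0 g; have p1 := AA_pos 1 g; have p2 := AA_pos 2 g
  have q1 := Y1_pos g; have q2 := Y2_pos g
  have hneg : ec (-(1 / 2)) = -1 := by
    have := ec_add (-(1 / 2)) 1
    rw [show (-(1 / 2) + 1 : ℝ) = 1 / 2 by norm_num, ec_half, show ec 1 = 1 by simpa using ec_int 1,
      mul_one] at this
    exact this.symm
  rcases le_total ((n : ℝ) ^ 2 * Y2 g) ((m : ℝ) ^ 2 * Y1 g) with h | h
  · have hm : (m : ℝ) ≠ 0 := by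
      intro h0
      have : 0 ≤ (n : ℝ) ^ 2 * Y2 g := by positivity
      rw [DD, h0] at hD; rw [h0] at h; linarith
    refine ⟨nn (1 / (2 * m)) 0 0, _, fun x => ?_,
      near_conj (orth_orth g) (s := 1 / (2 * m)) (a := 0) (b := 1) ?_ ?_, Real.sqrt_nonneg _, ?_⟩
    · rw [Wh_nn hf, show (m : ℝ) * (1 / (2 * m)) = 1 / 2 by field_simp, hneg]; simp
    · intro i j; fin_cases i <;> fin_cases j <;> simp
    · intro i j; rw [nn_inv]; fin_cases i <;> fin_cases j <;> simp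
    · rw [Real.sq_sqrt (by rw [← AA, ← AA]; positivity), ← AA, ← AA,
        show (1 / (2 * m)) ^ 2 * (AA 1 g / AA 0 g) = 1 / (4 * ((m : ℝ) ^ 2 * Y1 g)) by
          rw [Y1]; field_simp; norm_num]
      apply one_div_le_one_div_of_le (by linarith)
      rw [DD] at hD ⊢; linarith
  · have hm : (n : ℝ) ≠ 0 := by
      intro h0
      have : 0 ≤ (m : ℝ) ^ 2 * Y1 g := by positivity
      rw [DD, h0] at hD; rw [h0] at h; linarith
    refine ⟨nn 0 (1 / (2 * n)) 0, _, fun x => ?_,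
      near_conj (orth_orth g) (s := 1 / (2 * n)) (a := 1) (b := 2) ?_ ?_, Real.sqrt_nonneg _, ?_⟩
    · rw [Wh_nn hf, show (n : ℝ) * (1 / (2 * n)) = 1 / 2 by field_simp, hneg]; simp
    · intro i j; fin_cases i <;> fin_cases j <;> simp
    · intro i j; rw [nn_inv]; fin_cases i <;> fin_cases j <;> simp
    · rw [Real.sq_sqrt (by rw [← AA, ← AA]; positivity), ← AA, ← AA,
        show (1 / (2 * n)) ^ 2 * (AA 2 g / AA 1 g) = 1 / (4 * ((n : ℝ) ^ 2 * Y2 g)) by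
          rw [Y2]; field_simp; norm_num]
      apply one_div_le_one_div_of_le (by linarith)
      rw [DD] at hD ⊢; linarith

lemma dec_step {f : G → ℂ} (hf : Aut f) {k : G → ℝ} (hk : Ker k) {B : ℕ} (hd : Dec B f) :
    Dec (B + 1) (conv k f) := by
  obtain ⟨C, hC, hd⟩ := hd
  obtain ⟨L, hL, hlip⟩ := hk.lip
  obtain ⟨M, hM, hb⟩ := hk.bdd
  set V := mu.real (Om 144) with hV
  have hV0 : 0 ≤ V := measureReal_nonneg
  refine ⟨(3 * M ^ 2 + L ^ 2) * V ^ 2 * (C * (144 ^ 40) ^ 9 * (144 ^ 10) ^ B), by positivity,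
    fun m n g => ?_⟩
  have hD := one_le_DD m n g
  have hH := Hh_pos g
  set S2 := (C * (144 ^ 40) ^ 9 * (144 ^ 10) ^ B) * Hh g ^ 9 / DD m n g ^ B with hS2
  have hS20 : 0 ≤ S2 := by positivity
  have hS : ∀ h ∈ Om 144, ‖Wh m n f (orth g * h)‖ ≤ √S2 := by
    intro h hh
    refine Real.le_sqrt_of_sq_le ((hd _ _ _).trans ?_)
    have a := Hh_mul_le (by norm_num) hh (orth g)
    have b := DD_le (by norm_num) hh m n (orth g)
    rw [Hh_orth] at a
    rw [DD_orth] at b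
    have c := one_le_DD m n (orth g * h)
    have d := Hh_pos (orth g * h)
    rw [hS2, div_le_div_iff₀ (by positivity) (by positivity)]
    calc C * Hh (orth g * h) ^ 9 * DD m n g ^ B ≤
        C * (144 ^ 40 * Hh g) ^ 9 * (144 ^ 10 * DD m n (orth g * h)) ^ B := by gcongr
      _ = _ := by rw [mul_pow, mul_pow]; ring
  have goal : ‖Wh m n (conv k f) g‖ ^ 2 ≤ (3 * M ^ 2 + L ^ 2) * V ^ 2 * S2 / DD m n g := by
    rw [← norm_Wh_orth (hf.conv hk), Wh_conv hk hf.cont]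
    by_cases h3 : DD m n g ≤ 3
    · have := norm_int_le (orth g) hb
        (fun h hh => hk.supp h fun h' => hh (Om_mono (by norm_num) h')) hS
      rw [← conv, ← hV] at this
      calc _ ≤ (M * √S2 * V) ^ 2 := by gcongr
        _ = M ^ 2 * V ^ 2 * S2 := by rw [mul_pow, mul_pow, Real.sq_sqrt hS20]; ring
        _ ≤ _ := by
            rw [le_div_iff₀ (by linarith)]
            have : 0 ≤ L ^ 2 * V ^ 2 * S2 := by positivity
            have : M ^ 2 * V ^ 2 * S2 * DD m n g ≤ M ^ 2 * V ^ 2 * S2 * 3 := by gcongr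
            nlinarith
    · obtain ⟨u, ε, hu, hn, hε, hε2⟩ := exists_flip hf m n g (not_le.1 h3)
      have hε1 : ε ≤ 1 := by
        have : 1 / DD m n g ≤ 1 := by rw [div_le_one (by linarith)]; exact hD
        nlinarith
      have e := conv_diff hk (continuous_Wh hf.cont m n) (o := orth g) hu
      have := norm_int_le (κ := fun h => k h - k ((orth g)⁻¹ * u * orth g * h)) (c := L * ε)
        (orth g) (fun h => by rw [abs_sub_comm]; exact hlip _ ε hε1 hn h) (fun h hh => by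
          rw [hk.supp h fun h' => hh (Om_mono (by norm_num) h'), hk.supp, sub_zero]
          intro h'
          apply hh
          have := Om_mul (Om_inv (hn.mem_Om hε1)) h'
          rw [inv_mul_cancel_left] at this
          exact Om_mono (by norm_num) this) hS
      rw [← e, ← hV, norm_mul, Complex.norm_two] at this
      have h4 : ‖conv k (Wh m n f) (orth g)‖ ≤ L * ε * √S2 * V := by
        linarith [norm_nonneg (conv k (Wh m n f) (orth g))]
      calc _ ≤ (L * ε * √S2 * V) ^ 2 := by gcongr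
        _ = L ^ 2 * V ^ 2 * S2 * ε ^ 2 := by
            rw [mul_pow, mul_pow, mul_pow, Real.sq_sqrt hS20]; ring
        _ ≤ (3 * M ^ 2 + L ^ 2) * V ^ 2 * S2 * (1 / DD m n g) := by
            gcongr
            linarith [sq_nonneg M]
        _ = _ := by ring
  refine goal.trans (le_of_eq ?_)
  rw [hS2, pow_succ (DD m n g) B]
  field_simp

end Pool.Agent.Lib.MP_fa98d2_nt
end
end

-- part Pool.Agent.Lib.MP_fa98d2_nt.Bound
section

/- Upper bound for the theta integral. -/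

open MeasureTheory Matrix Set Topology
open scoped ENNReal MatrixGroups Real

noncomputable section

namespace Pool.Agent.Lib.MP_fa98d2_nt

def gauss (s : ℝ) : ℝ≥0∞ := ENNReal.ofReal (Real.exp (-π * s ^ (1 / 3 : ℝ)))

lemma measurable_gauss : Measurable gauss := by
  unfold gauss
  fun_prop

lemma gauss_le {s : ℝ} (hs : 0 < s) (A : ℕ) :
    gauss s ≤ ENNReal.ofReal ((3 * A).factorial / s ^ A) := by
  apply ENNReal.ofReal_le_ofReal
  set u := s ^ (1 / 3 : ℝ)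
  have hu : 0 < u := Real.rpow_pos_of_pos hs _
  have h3 : u ^ (3 * A) = s ^ A := by
    rw [pow_mul]; congr 1
    have := Real.rpow_inv_natCast_pow (x := s) (n := 3) hs.le (by norm_num)
    simpa [u] using this
  have h1 := Real.pow_div_factorial_le_exp u hu.le (3 * A)
  have h2 : Real.exp (-π * u) ≤ Real.exp (-u) :=
    Real.exp_le_exp.2 (by nlinarith [Real.pi_gt_three])
  refine h2.trans ?_
  rw [Real.exp_neg, ← h3, ← inv_div]
  exact inv_anti₀ (by positivity) h1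

def Psi (X s : ℝ) : ℝ≥0∞ := ∑' k : ℕ+, gauss (((k : ℕ) : ℝ) ^ 6 * s / X ^ 2)

lemma measurable_Psi (X : ℝ) : Measurable (Psi X) :=
  Measurable.tsum fun _ => measurable_gauss.comp (by fun_prop)

def zeta2 : ℝ≥0∞ := ∑' m : ℤ, ENNReal.ofReal (1 / (m : ℝ) ^ 2)

lemma zeta2_ne_top : zeta2 ≠ ∞ := by
  rw [zeta2, ← ENNReal.ofReal_tsum_of_nonneg (fun _ => by positivity)
    (Real.summable_one_div_int_pow.2 one_lt_two)]
  exact ENNReal.ofReal_ne_top

lemma tsum_pnat_le : ∑' k : ℕ+, ENNReal.ofReal (1 / ((k : ℕ) : ℝ) ^ 2) ≤ zeta2 := by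
  have := ENNReal.tsum_comp_le_tsum_of_injective (f := fun k : ℕ+ => ((k : ℕ) : ℤ))
    (fun a b h => PNat.eq (Int.ofNat_inj.1 h)) fun m => ENNReal.ofReal (1 / (m : ℝ) ^ 2)
  simpa [zeta2] using this

lemma Psi_le {X s : ℝ} (hX : 0 < X) (hs : 0 < s) {A : ℕ} (hA : 1 ≤ A) :
    Psi X s ≤ zeta2 * ENNReal.ofReal ((3 * A).factorial * X ^ (2 * A) / s ^ A) := by
  refine le_trans ?_ (mul_le_mul_left tsum_pnat_le _)
  rw [← ENNReal.tsum_mul_right]
  refine ENNReal.tsum_le_tsum fun k => ?_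
  have hk : (1 : ℝ) ≤ (k : ℕ) := by exact_mod_cast k.pos
  refine (gauss_le (by positivity) A).trans ?_
  rw [← ENNReal.ofReal_mul (by positivity)]
  apply ENNReal.ofReal_le_ofReal
  have : ((k : ℕ) : ℝ) ^ 2 ≤ (((k : ℕ) : ℝ) ^ 6) ^ A := by
    rw [← pow_mul]; exact pow_le_pow_right₀ hk (by omega)
  rw [div_pow, mul_pow, ← pow_mul X, div_div_eq_mul_div, div_mul_div_comm, one_mul]
  gcongr

/-- the theta integral -/
def Th (β : G → ℝ≥0∞) (f : G → ℂ) (X : ℝ) : ℝ≥0∞ :=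
  ∫⁻ g, β g * (Sh 1 g * (‖f g‖ₑ ^ 2 * ∑' v : Prim 3, Psi X (zt v.1 g))) ∂mu

lemma Th_eq {f : G → ℂ} (hf : Cusp f) {β : G → ℝ≥0∞} (hβ : Measurable β) (h1 : DWt io β) (X : ℝ) :
    Th β f X = ∑' n : ℕ+, ∑' m : ℤ,
      ∫⁻ g, bN g * (Sh 1 g * (‖Wh m (n : ℕ) f g‖ₑ ^ 2 * Psi X (z3 g))) ∂mu :=
  unfold_main hf hβ measurable_bN h1 dwt_bN (measurable_Psi X)

lemma z3_eq (g : G) : z3 g = (Y1 g * Y2 g ^ 2)⁻¹ := by
  have := AA_pos 0 g; have := AA_pos 1 g; have := AA_pos 2 g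
  rw [z3, dt_sq, ← AA_two, Y1, Y2]
  field_simp

lemma key_ineq {y1 y2 N : ℝ} (h1 : 0 < y1) (h2 : 0 < y2) (a : ℕ) (hN0 : 0 ≤ N)
    (hN : N ≤ 13 * (1 + (y1 * y2 ^ 2)⁻¹) * (1 + y1 + y2) ^ 2) :
    ((1 + y1) * (1 + y2) * (1 + y1⁻¹) * (1 + y2⁻¹)) ^ 10 * (y1 * y2 ^ 2) ^ (25 + a) * N ^ 5 ≤
      2 ^ 35 * 13 ^ 5 * (1 + y1 + y2) ^ (3 * (25 + a) + 60) := by
  set T := 1 + y1 + y2
  set w := y1 * y2 ^ 2
  have hw : 0 < w := by positivity
  have hT : 1 ≤ T := by simp only [T]; linarith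
  have t1 : y1 ≤ T := by simp only [T]; linarith
  have t2 : y2 ≤ T := by simp only [T]; linarith
  have hwT : w ≤ T ^ 3 := by
    calc w ≤ T * T ^ 2 := by simp only [w]; gcongr
      _ = _ := by ring
  have hT3 : 1 ≤ T ^ 3 := one_le_pow₀ hT
  have e1 : 1 + y1⁻¹ ≤ (1 + w⁻¹) * T ^ 2 := by
    have : y1⁻¹ = w⁻¹ * y2 ^ 2 := by simp only [w]; field_simp
    rw [this, add_mul, one_mul]
    gcongr
    exact one_le_pow₀ hT
  have e2 : 1 + y2⁻¹ ≤ 2 * (1 + w⁻¹) * T := by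
    have : y2⁻¹ ^ 2 = w⁻¹ * y1 := by simp only [w]; field_simp
    have h3 : w⁻¹ * y1 ≤ w⁻¹ * T := by gcongr
    have h4 : 0 < w⁻¹ * T := by positivity
    nlinarith [sq_nonneg (y2⁻¹ - 1)]
  have e3 : (1 + y1) * (1 + y2) * (1 + y1⁻¹) * (1 + y2⁻¹) ≤ 2 * (1 + w⁻¹) ^ 2 * T ^ 5 := by
    calc _ ≤ T * T * ((1 + w⁻¹) * T ^ 2) * (2 * (1 + w⁻¹) * T) := by
          gcongr <;> simp only [T] <;> linarith
      _ = _ := by ring
  have e4 : (1 + w⁻¹) * w ≤ 2 * T ^ 3 := by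
    rw [add_mul, inv_mul_cancel₀ hw.ne']; linarith
  have hv : 0 < 1 + w⁻¹ := by positivity
  have hH : 0 ≤ (1 + y1) * (1 + y2) * (1 + y1⁻¹) * (1 + y2⁻¹) := by positivity
  clear_value T w
  generalize (1 + y1) * (1 + y2) * (1 + y1⁻¹) * (1 + y2⁻¹) = H at *
  generalize 1 + w⁻¹ = v at *
  have hT0 : 0 ≤ T := by linarith
  calc _ ≤ (2 * v ^ 2 * T ^ 5) ^ 10 * w ^ (25 + a) * (13 * v * T ^ 2) ^ 5 := by
        gcongr
    _ = 2 ^ 10 * 13 ^ 5 * T ^ 60 * ((v * w) ^ 25 * w ^ a) := by ring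
    _ ≤ 2 ^ 10 * 13 ^ 5 * T ^ 60 * ((2 * T ^ 3) ^ 25 * (T ^ 3) ^ a) := by gcongr
    _ = _ := by ring

lemma norm_co_le (g : G) : ‖co g‖ ^ 2 ≤ Fr g := by
  refine (Real.le_sqrt (norm_nonneg _) (Fr_pos g).le).1 ?_
  refine (pi_norm_le_iff_of_nonneg (Real.sqrt_nonneg _)).2 fun i =>
    (pi_norm_le_iff_of_nonneg (Real.sqrt_nonneg _)).2 fun j => ?_
  exact Real.abs_le_sqrt (entry_le g i j)

lemma box_norm {g : G} (hb : gx g ∈ Ico (0 : ℝ) 1 ∧ gy g ∈ Ico (0 : ℝ) 1 ∧ gz g ∈ Ico (0 : ℝ) 1)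
    (hd : dt g ≤ 2) :
    1 + ‖co g‖ ^ 2 ≤ 13 * (1 + (Y1 g * Y2 g ^ 2)⁻¹) * (1 + Y1 g + Y2 g) ^ 2 := by
  obtain ⟨⟨x0, x1⟩, ⟨y0, y1⟩, z0, z1⟩ := hb
  have p0 := AA_pos 0 g; have p1 := AA_pos 1 g; have p2 := AA_pos 2 g
  have q1 := Y1_pos g; have q2 := Y2_pos g
  have e1 : AA 1 g = Y2 g * AA 2 g := by rw [Y2]; field_simp
  have e0 : AA 0 g = Y1 g * Y2 g * AA 2 g := by rw [Y1, Y2]; field_simp
  have hF : Fr g ≤ 3 * AA 2 g * (1 + Y1 g + Y2 g) ^ 2 := by
    rw [Fr, nsq_row0, nsq_row1, ← AA_two]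
    have a1 : gx g ^ 2 * AA 1 g ≤ 1 * AA 1 g := by gcongr; nlinarith
    have a2 : gz g ^ 2 * AA 2 g ≤ 1 * AA 2 g := by gcongr; nlinarith
    have a3 : gy g ^ 2 * AA 2 g ≤ 1 * AA 2 g := by gcongr; nlinarith
    have a4 : Y1 g * Y2 g + 2 * Y2 g + 3 ≤ 3 * (1 + Y1 g + Y2 g) ^ 2 := by nlinarith
    have a5 := mul_le_mul_of_nonneg_right a4 p2.le
    nlinarith
  have hz : AA 2 g ^ 3 ≤ 4 * (Y1 g * Y2 g ^ 2)⁻¹ := by
    rw [← z3_eq, z3, ← AA_two, ← mul_div_assoc, le_div_iff₀ (pow_pos (dt_pos g) 2), mul_comm 4]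
    gcongr
    nlinarith [dt_pos g]
  have hA : AA 2 g ≤ 1 + AA 2 g ^ 3 := by nlinarith [sq_nonneg (AA 2 g - 1), sq_nonneg (AA 2 g)]
  have hT : 1 ≤ (1 + Y1 g + Y2 g) ^ 2 := one_le_pow₀ (by linarith)
  have hw : 0 < (Y1 g * Y2 g ^ 2)⁻¹ := by positivity
  have h5 : AA 2 g * (1 + Y1 g + Y2 g) ^ 2 ≤
      (4 * (1 + (Y1 g * Y2 g ^ 2)⁻¹)) * (1 + Y1 g + Y2 g) ^ 2 := by
    gcongr; linarith
  have h6 : 1 ≤ (1 + (Y1 g * Y2 g ^ 2)⁻¹) * (1 + Y1 g + Y2 g) ^ 2 :=
    one_le_mul_of_one_le_of_one_le (by linarith) hT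
  linarith [norm_co_le g]

def JJ : ℝ≥0∞ := ∫⁻ g, Sh 1 g * ENNReal.ofReal (1 / (1 + ‖co g‖ ^ 2) ^ 5) ∂mu

lemma JJ_ne_top : JJ ≠ ∞ := by
  let F : E → ℝ≥0∞ := fun x =>
    (if 1 ≤ |(Matrix.of x).det| then 1 else 0) * ENNReal.ofReal (1 / (1 + ‖x‖ ^ 2) ^ 5)
  have hF : Measurable F := (Measurable.ite (measurableSet_le measurable_const
    continuous_detE.measurable.abs) measurable_const measurable_const).mul (by fun_prop)
  have h1 : JJ ≤ ∫⁻ g, F (co g) ∂mu := by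
    refine lintegral_mono fun g => ?_
    simp only [F]
    gcongr
    unfold Sh
    split_ifs with a b
    · exact le_rfl
    · exact absurd a.1 b
    · exact zero_le
    · exact zero_le
  have h2 : ∫⁻ x, dens x * F x ≤ ∫⁻ x : E, ENNReal.ofReal ((1 + ‖x‖ ^ 2) ^ (-(10 : ℝ) / 2)) := by
    refine lintegral_mono fun x => ?_
    have e : (1 + ‖x‖ ^ 2) ^ (-(10 : ℝ) / 2) = 1 / (1 + ‖x‖ ^ 2) ^ 5 := by
      rw [show -(10 : ℝ) / 2 = -((5 : ℕ) : ℝ) by norm_num, Real.rpow_neg (by positivity),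
        Real.rpow_natCast, one_div]
    simp only [F, e]
    split_ifs with a
    · rw [one_mul]
      refine mul_le_of_le_one_left' ?_
      rw [dens, ENNReal.ofReal_le_one]
      exact pow_le_one₀ (by positivity) (inv_le_one_of_one_le₀ a)
    · simp
  have h3 := (integrable_rpow_neg_one_add_norm_sq (E := E) (μ := volume) (r := 10)
    (by simp [Module.finrank_pi_fintype]; norm_num)).lintegral_lt_top
  exact (h1.trans_lt ((lintegral_mu_le F hF).trans_lt (h2.trans_lt h3))).ne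

lemma Wh_bound {C : ℝ} (hC : 0 ≤ C) {B : ℕ} {m n : ℤ} (hm : m ≠ 0) (hn : n ≠ 0) (g : G) :
    C * Hh g ^ 9 / DD m n g ^ (B + 2) ≤
      1 / (m : ℝ) ^ 2 * (1 / (n : ℝ) ^ 2) * (C * Hh g ^ 10 / (1 + Y1 g + Y2 g) ^ B) := by
  have q1 := Y1_pos g; have q2 := Y2_pos g; have hH := Hh_pos g
  have hm1 : (1 : ℝ) ≤ (m : ℝ) ^ 2 := by
    have : 1 ≤ m ^ 2 := by have := sq_pos_of_ne_zero hm; omega
    exact_mod_cast this
  have hn1 : (1 : ℝ) ≤ (n : ℝ) ^ 2 := by
    have : 1 ≤ n ^ 2 := by have := sq_pos_of_ne_zero hn; omega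
    exact_mod_cast this
  have a1 : (m : ℝ) ^ 2 * Y1 g ≤ DD m n g := by
    have : 0 ≤ (n : ℝ) ^ 2 * Y2 g := by positivity
    unfold DD; linarith
  have a2 : (n : ℝ) ^ 2 * Y2 g ≤ DD m n g := by
    have : 0 ≤ (m : ℝ) ^ 2 * Y1 g := by positivity
    unfold DD; linarith
  have a3 : 1 + Y1 g + Y2 g ≤ DD m n g := by
    unfold DD; nlinarith
  have a4 : 1 ≤ Hh g * (Y1 g * Y2 g) := by
    have : Hh g * (Y1 g * Y2 g) = ((1 + Y1 g) * (1 + Y2 g)) ^ 2 := by
      unfold Hh; field_simp; ring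
    rw [this]
    exact one_le_pow₀ (by nlinarith)
  have hD := one_le_DD m n g
  rw [div_mul_div_comm, div_mul_div_comm, div_le_div_iff₀ (by positivity) (by positivity)]
  calc C * Hh g ^ 9 * ((m : ℝ) ^ 2 * (n : ℝ) ^ 2 * (1 + Y1 g + Y2 g) ^ B) ≤
      C * Hh g ^ 9 * ((m : ℝ) ^ 2 * (n : ℝ) ^ 2 * (1 + Y1 g + Y2 g) ^ B) *
        (Hh g * (Y1 g * Y2 g)) := le_mul_of_one_le_right (by positivity) a4
    _ = C * Hh g ^ 10 * (((m : ℝ) ^ 2 * Y1 g) * ((n : ℝ) ^ 2 * Y2 g) * (1 + Y1 g + Y2 g) ^ B) := by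
        ring
    _ ≤ C * Hh g ^ 10 * (DD m n g * DD m n g * DD m n g ^ B) := by gcongr
    _ = _ := by ring

theorem Th_le {f : G → ℂ} (hf : Cusp f) {β : G → ℝ≥0∞} (hβ : Measurable β) (h1 : DWt io β)
    (a : ℕ) (hd : Dec (3 * (25 + a) + 60 + 2) f) :
    ∃ C : ℝ≥0∞, C ≠ ∞ ∧ ∀ X, 0 < X → Th β f X ≤ C * ENNReal.ofReal (X ^ (2 * (25 + a))) := by
  obtain ⟨C, hC, hd⟩ := hd
  set A := 25 + a with hA
  obtain ⟨K, hK⟩ : ∃ K : ℝ, K = C * (2 ^ 35 * 13 ^ 5) * (3 * A).factorial := ⟨_, rfl⟩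
  have hK0 : 0 ≤ K := by rw [hK]; positivity
  refine ⟨zeta2 * zeta2 * (zeta2 * ENNReal.ofReal K * JJ), by
    have := zeta2_ne_top; have := JJ_ne_top; finiteness, fun X hX => ?_⟩
  rw [Th_eq hf hβ h1]
  have key : ∀ (n : ℕ+) (m : ℤ),
      ∫⁻ g, bN g * (Sh 1 g * (‖Wh m (n : ℕ) f g‖ₑ ^ 2 * Psi X (z3 g))) ∂mu ≤
        ENNReal.ofReal (1 / ((n : ℕ) : ℝ) ^ 2) * (ENNReal.ofReal (1 / (m : ℝ) ^ 2) *
          (zeta2 * ENNReal.ofReal K * JJ * ENNReal.ofReal (X ^ (2 * A)))) := by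
    intro n m
    by_cases hm : m = 0
    · simp [hm, Wh_zero hf]
    have hn : ((n : ℕ) : ℤ) ≠ 0 := by exact_mod_cast n.ne_zero
    have e : ENNReal.ofReal (1 / ((n : ℕ) : ℝ) ^ 2) * (ENNReal.ofReal (1 / (m : ℝ) ^ 2) *
          (zeta2 * ENNReal.ofReal K * JJ * ENNReal.ofReal (X ^ (2 * A)))) =
        (zeta2 * ENNReal.ofReal (1 / (m : ℝ) ^ 2 * (1 / ((n : ℕ) : ℝ) ^ 2) * K * X ^ (2 * A))) *
          JJ := by
      rw [ENNReal.ofReal_mul (p := _ * K) (by positivity),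
        ENNReal.ofReal_mul (q := K) (by positivity),
        ENNReal.ofReal_mul (p := 1 / (m : ℝ) ^ 2) (by positivity)]
      ac_rfl
    rw [e, JJ, ← lintegral_const_mul' _ _ (by have := zeta2_ne_top; finiteness)]
    refine lintegral_mono fun g => ?_
    unfold bN
    split_ifs with hb
    swap
    · simp
    unfold Sh
    split_ifs with hs
    swap
    · simp
    simp only [one_mul]
    have q1 := Y1_pos g; have q2 := Y2_pos g; have hH := Hh_pos g
    have b1 := (hd m (n : ℕ) g).trans (Wh_bound hC hm hn g)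
    have b2 := Psi_le hX (z3_pos g) (A := A) (by omega)
    have b3 := key_ineq q1 q2 a (by positivity) (box_norm hb (by linarith [hs.2]))
    rw [← ofReal_norm, ← ENNReal.ofReal_pow (norm_nonneg _)]
    refine (mul_le_mul' (ENNReal.ofReal_le_ofReal b1) b2).trans ?_
    rw [mul_left_comm, mul_assoc zeta2, ← ENNReal.ofReal_mul (by positivity),
      ← ENNReal.ofReal_mul (by positivity)]
    refine mul_le_mul_right (ENNReal.ofReal_le_ofReal ?_) _
    rw [z3_eq, inv_pow, div_inv_eq_mul]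
    push_cast
    rw [← Hh, ← hA] at b3
    have hT : 0 < (1 + Y1 g + Y2 g) ^ (3 * A + 60) := by positivity
    have hN : 0 < (1 + ‖co g‖ ^ 2) ^ 5 := by positivity
    have b4 : Hh g ^ 10 * (Y1 g * Y2 g ^ 2) ^ A / (1 + Y1 g + Y2 g) ^ (3 * A + 60) ≤
        2 ^ 35 * 13 ^ 5 / (1 + ‖co g‖ ^ 2) ^ 5 := by
      rw [div_le_div_iff₀ hT hN]; exact b3
    have hX2 : 0 ≤ X ^ (2 * A) := by positivity
    have hF : (0 : ℝ) ≤ (3 * A).factorial := by positivity
    have hmn : 0 ≤ 1 / (m : ℝ) ^ 2 * (1 / ((n : ℕ) : ℝ) ^ 2) := by positivity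
    rw [hK]
    generalize (1 + Y1 g + Y2 g) ^ (3 * A + 60) = T, (1 + ‖co g‖ ^ 2) ^ 5 = N, Hh g ^ 10 = H,
      (Y1 g * Y2 g ^ 2) ^ A = w, X ^ (2 * A) = x, ((3 * A).factorial : ℝ) = F,
      1 / (m : ℝ) ^ 2 * (1 / ((n : ℕ) : ℝ) ^ 2) = r at *
    calc _ = r * C * F * x * (H * w / T) := by ring
      _ ≤ r * C * F * x * (2 ^ 35 * 13 ^ 5 / N) := by gcongr
      _ = _ := by ring
  refine (ENNReal.tsum_le_tsum fun n => ENNReal.tsum_le_tsum (key n)).trans ?_
  simp only [ENNReal.tsum_mul_left, ENNReal.tsum_mul_right, ← zeta2.eq_1]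
  calc _ ≤ zeta2 * (zeta2 * (zeta2 * ENNReal.ofReal K * JJ * ENNReal.ofReal (X ^ (2 * A)))) := by
        gcongr; exact tsum_pnat_le
    _ = _ := by ac_rfl

end Pool.Agent.Lib.MP_fa98d2_nt
end
end

-- part Pool.Agent.Lib.MP_fa98d2_nt.FE
section

/- The functional equation of the theta integral. -/

open MeasureTheory Matrix Set Topology
open scoped ENNReal MatrixGroups Real

noncomputable section

namespace Pool.Agent.Lib.MP_fa98d2_nt

def duZ (γ : SL(3, ℤ)) : SL(3, ℤ) := (γ.transpose)⁻¹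

lemma tr_io (γ : SL(3, ℤ)) : tr (io γ) = io γ.transpose := by
  apply Units.ext
  rw [val_tr, val_io, val_io]
  rfl

lemma du_io (γ : SL(3, ℤ)) : du (io γ) = io (duZ γ) := by
  rw [du, tr_io, duZ, map_inv]

lemma io_inj : Function.Injective io := by
  intro a b h
  apply Subtype.ext
  have := congrArg Units.val h
  rw [val_io, val_io] at this
  exact Matrix.map_injective Int.cast_injective this

lemma duZ_invol : Function.Involutive duZ := fun γ => io_inj (by rw [← du_io, ← du_io, du_du])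

lemma tr_dg {a b c : ℝ} (ha : a ≠ 0) (hb : b ≠ 0) (hc : c ≠ 0) : tr (dg a b c) = dg a b c := by
  apply Units.ext
  rw [val_tr, val_dg ha hb hc]
  ext i j
  fin_cases i <;> fin_cases j <;> simp

lemma du_sc {t : ℝ} (ht : t ≠ 0) : du (sc t) = sc t⁻¹ := by
  rw [du, sc, tr_dg ht ht ht, dg_inv ht ht ht, sc]

def wZ : SL(3, ℤ) := ⟨!![0, 0, -1; 0, -1, 0; -1, 0, 0], by simp [Matrix.det_fin_three]⟩

lemma val_w : (io wZ).val = !![0, 0, -1; 0, -1, 0; -1, 0, 0] := by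
  rw [val_io]
  ext i j
  fin_cases i <;> fin_cases j <;> simp [wZ]

lemma w_du_nn (x y z : ℝ) : io wZ * du (nn x y z) = nn (-y) (-x) (x * y - z) * io wZ := by
  apply Units.ext
  simp only [Units.val_mul, val_w, du_nn, val_nn]
  ext i j
  fin_cases i <;> fin_cases j <;> simp [Matrix.mul_apply, Fin.sum_univ_three]

lemma Aut.dual {f : G → ℂ} (hf : Aut f) : Aut (dual f) :=
  ⟨hf.cont.comp continuous_du, fun γ g => by
    simp only [_root_.Pool.Agent.Lib.MP_fa98d2_nt.dual, du_mul, du_io, hf.inv], fun t ht g => by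
    simp only [_root_.Pool.Agent.Lib.MP_fa98d2_nt.dual, du_mul, du_sc ht,
      hf.cen _ (inv_ne_zero ht)]⟩

lemma dual_nn {f : G → ℂ} (hf : Aut f) (x y z : ℝ) (g : G) :
    dual f (nn x y z * g) = f (nn (-y) (-x) (x * y - z) * (io wZ * du g)) := by
  rw [dual, du_mul, ← hf.inv wZ, ← mul_assoc, w_du_nn, mul_assoc]

lemma Cusp.dual {f : G → ℂ} (hf : Cusp f) : Cusp (dual f) := by
  refine ⟨hf.toAut.dual, fun g => ?_, fun g => ?_⟩
  · simp only [dual_nn hf.toAut, neg_zero, zero_mul, zero_sub]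
    rw [← hf.c2 (io wZ * du g), ← int_neg (perx hf.h1 hf.h3 0 (io wZ * du g))]
    congr 1
    ext y
    exact int_neg (perz hf.h3 (-y) 0 _)
  · simp only [dual_nn hf.toAut, neg_zero, mul_zero, zero_sub]
    rw [← hf.c1 (io wZ * du g),
      ← int_neg (h := fun y => ∫ z in (0 : ℝ)..1, f (nn 0 y z * (io wZ * du g)))
        (fun y => by simp only [pery hf.h2 0 _ _ y])]
    congr 1
    ext y
    exact int_neg (perz hf.h3 0 (-y) _)

lemma dwt_du {β : G → ℝ≥0∞} (h1 : DWt io β) : DWt io fun g => β (du g) := by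
  intro g
  simp only [du_mul, du_io]
  rw [← h1 (du g)]
  exact duZ_invol.toPerm.tsum_eq fun γ => β (io γ * du g)

def Tall (X : ℝ) (g : G) : ℝ≥0∞ := ∑' v : Fin 3 → ℤ, gauss (zt v g / X ^ 2)

lemma measurable_Tall (X : ℝ) : Measurable (Tall X) :=
  Measurable.tsum fun v => measurable_gauss.comp ((continuous_zt v).measurable.div_const _)

lemma Tall_eq (X : ℝ) (g : G) : Tall X g = 1 + ∑' v : Prim 3, Psi X (zt v.1 g) := by
  rw [Tall, tsum_prim 3, ENNReal.tsum_comm]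
  congr 1
  · have : vm 0 g = 0 := by
      ext j; simp [vm, Matrix.vecMul, dotProduct]
    simp [zt, this, nsq, gauss]
  · simp only [zt_smul, Psi, Int.cast_natCast]

lemma Tall_io (X : ℝ) (γ : SL(3, ℤ)) (g : G) : Tall X (io γ * g) = Tall X g := by
  let e : (Fin 3 → ℤ) ≃ (Fin 3 → ℤ) :=
    { toFun := fun v => v ᵥ* γ.val
      invFun := fun v => v ᵥ* (γ⁻¹).val
      left_inv := fun v => by
        simp only [Matrix.vecMul_vecMul, ← Matrix.SpecialLinearGroup.coe_mul, mul_inv_cancel,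
          Matrix.SpecialLinearGroup.coe_one, Matrix.vecMul_one]
      right_inv := fun v => by
        simp only [Matrix.vecMul_vecMul, ← Matrix.SpecialLinearGroup.coe_mul, inv_mul_cancel,
          Matrix.SpecialLinearGroup.coe_one, Matrix.vecMul_one] }
  simp only [Tall, zt_io]
  exact e.tsum_eq fun v => gauss (zt v g / X ^ 2)

lemma Tall_sc (X : ℝ) {t : ℝ} (ht : 0 < t) (g : G) : Tall X (sc t * g) = Tall X g := by
  simp only [Tall, zt_sc _ ht]

lemma gauss_cube {u : ℝ} (hu : 0 ≤ u) : gauss (u ^ 3) = ENNReal.ofReal (Real.exp (-π * u)) := by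
  have := Real.pow_rpow_inv_natCast (x := u) (n := 3) hu (by norm_num)
  rw [gauss, show (1 / 3 : ℝ) = ((3 : ℕ) : ℝ)⁻¹ by norm_num, this]

lemma nsq_vm_sc (v : Fin 3 → ℤ) {t : ℝ} (ht : t ≠ 0) (g : G) :
    nsq (vm v (sc t * g)) = t ^ 2 * nsq (vm v g) := by
  rw [vm, vm, val_sc_mul ht, Matrix.vecMul_smul, nsq_smul]

lemma Tall_poisson {X : ℝ} (hX : 0 < X) (g : G) :
    Tall X g = ENNReal.ofReal X * Tall X⁻¹ (du g) := by
  have hd := dt_pos g
  obtain ⟨c, hc, hc3⟩ := exists_cube (c := (dt g * X)⁻¹) (by positivity)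
  have h := poisson (sc c * g)
  rw [dt_mul, dt_sc hc, hc3, du_mul, du_sc hc.ne',
    show ((dt g * X)⁻¹ * dt g)⁻¹ = X by field_simp] at h
  simp only [nsq_vm_sc _ hc.ne', nsq_vm_sc _ (inv_ne_zero hc.ne')] at h
  have hc6 : c ^ 6 = ((dt g * X)⁻¹) ^ 2 := by rw [← hc3]; ring
  convert h using 2
  · refine tsum_congr fun v => ?_
    rw [← gauss_cube (mul_nonneg (sq_nonneg _) (nsq_nonneg _)), mul_pow, ← pow_mul, hc6, zt]
    congr 1
    field_simp
  · refine tsum_congr fun v => ?_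
    rw [← gauss_cube (mul_nonneg (sq_nonneg _) (nsq_nonneg _)), mul_pow, ← pow_mul, inv_pow c, hc6,
      zt, dt_du]
    congr 1
    field_simp

lemma Th_add (β : G → ℝ≥0∞) (hβ : Measurable β) {f : G → ℂ} (hf : Continuous f) (X : ℝ) :
    ∫⁻ g, β g * (Sh 1 g * (‖f g‖ₑ ^ 2 * Tall X g)) ∂mu = N2 β f + Th β f X := by
  simp only [Tall_eq, mul_add, mul_one]
  exact lintegral_add_left (hβ.mul ((measurable_Sh 1).mul (measurable_sq hf))) _

lemma N2_dual {β : G → ℝ≥0∞} {f : G → ℂ} (hβ : Measurable β) (h1 : DWt io β) (hf : Aut f) :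
    N2 (fun g => β (du g)) (dual f) = N2 β f := by
  rw [← N2_shift (β := fun g => β (du g)) (hβ.comp continuous_du.measurable) (dwt_du h1) hf.dual (c := 1 / 2) (by norm_num),
    N2, ← lintegral_du fun g => β g * (Sh 1 g * ‖f g‖ₑ ^ 2)]
  simp only [Sh_du, dual, Function.comp_apply]

theorem func_eq {β : G → ℝ≥0∞} {f : G → ℂ} (hβ : Measurable β) (h1 : DWt io β) (hf : Aut f)
    {X : ℝ} (hX : 0 < X) :
    N2 β f + Th β f X =
      ENNReal.ofReal X * (N2 β f + Th (fun g => β (du g)) (dual f) X⁻¹) := by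
  have hβ' : Measurable fun g => β (du g) := hβ.comp continuous_du.measurable
  rw [← Th_add β hβ hf.cont, ← N2_dual hβ h1 hf, ← Th_add _ hβ' hf.dual.cont,
    ← shift_disc (F := fun g => ‖dual f g‖ₑ ^ 2 * Tall X⁻¹ g) dinv_io dt_io hβ' ((measurable_sq hf.dual.cont).mul (measurable_Tall _))
      (dwt_du h1) (fun γ g => by simp only [Pi.mul_apply, hf.dual.inv, Tall_io])
      (fun t ht g => by simp only [Pi.mul_apply, hf.dual.cen t ht.ne', Tall_sc _ ht])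
      (c := 1 / 2) (by norm_num), ← lintegral_const_mul' _ _ ENNReal.ofReal_ne_top,
    ← lintegral_du]
  refine lintegral_congr fun g => ?_
  simp only [Sh_du, dual, Pi.mul_apply, Tall_poisson hX, du_du]
  ring

end Pool.Agent.Lib.MP_fa98d2_nt
end
end

-- part Pool.Agent.Lib.MP_fa98d2_nt.Shell
section

/- The theta integral as a Dirichlet-type sum. -/

open MeasureTheory Matrix Set Topology
open scoped ENNReal MatrixGroups Real

noncomputable section

namespace Pool.Agent.Lib.MP_fa98d2_nt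

lemma tsum_int_pnat (F : ℤ → ℝ≥0∞) (h0 : F 0 = 0) :
    ∑' m, F m = ∑' m : ℕ+, (F (1 * (m : ℕ)) + F (-1 * (m : ℕ))) := by
  rw [tsum_of_nat_of_neg_add_one ENNReal.summable ENNReal.summable,
    tsum_eq_zero_add' (f := fun n : ℕ => F n) ENNReal.summable, ENNReal.tsum_add,
    tsum_pnat_eq_tsum_succ (f := fun m : ℕ => F (1 * m)),
    tsum_pnat_eq_tsum_succ (f := fun m : ℕ => F (-1 * m))]
  simp [h0]

lemma shell_step {f : G → ℂ} (hf : Aut f) {e1 e2 : ℕ → ℂ} (hk : Hk f e1 e2) {ε : ℤ}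
    (hε : IsUnit ε) {m n : ℕ} (hm : 0 < m) (hn : 0 < n) {Ψ : ℝ → ℝ≥0∞} (hΨ : Measurable Ψ) :
    ∫⁻ g, bN g * (Sh 1 g * (‖Wh (ε * m) n f g‖ₑ ^ 2 * Ψ (z3 g))) ∂mu =
      ‖AC e1 e2 m n‖ₑ ^ 2 *
        ∫⁻ g, bN g * (Sh 1 g * (‖Wh ε 1 f g‖ₑ ^ 2 * Ψ (((m : ℝ) * n ^ 2) ^ 2 * z3 g))) ∂mu := by
  have hm' : (0 : ℝ) < m := by positivity
  have hn' : (0 : ℝ) < n := by positivity
  have hdt : dt (DI m n) = ((m : ℝ) * n ^ 2)⁻¹ := by
    rw [DI, dt_dg (by positivity) (by positivity) one_ne_zero, abs_of_pos (by positivity)]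
    field_simp
  have hz : ∀ g, z3 (DI m n * g) = ((m : ℝ) * n ^ 2) ^ 2 * z3 g := by
    intro g
    rw [z3_mul, hdt]
    · field_simp
    all_goals
      rw [DI, val_dg (by positivity) (by positivity) one_ne_zero]
      simp
  have hS : ∀ g, Sh 1 (DI m n * g) = Sh (m * n ^ 2) g := by
    intro g
    rw [← Sh_mul_left (m * n ^ 2) (DI m n) g, hdt, mul_inv_cancel₀ (by positivity)]
  set c : ℝ≥0∞ := ENNReal.ofReal (m * n * (m * n)) with hc
  have hc0 : c ≠ 0 := by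
    rw [hc, ne_eq, ENNReal.ofReal_eq_zero, not_le]; positivity
  have hW : ∀ g, c * ‖Wh (ε * m) n f (DI m n * g)‖ₑ ^ 2 =
      ‖AC e1 e2 m n‖ₑ ^ 2 * ‖Wh ε 1 f g‖ₑ ^ 2 := by
    intro g
    have h1 := shintani hf hk hε g _ m n rfl (by positivity)
    have h2 : Bf ε f g 1 1 = Wh ε 1 f g := by simp [Bf, DI]
    rw [h2, Bf] at h1
    rw [← mul_pow, ← enorm_mul, ← h1, enorm_mul, mul_pow, hc]
    congr 1
    rw [← ofReal_norm, ← ENNReal.ofReal_pow (norm_nonneg _)]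
    congr 1
    simp [sq]
  let F : G → ℝ≥0∞ := fun g => ‖Wh ε 1 f g‖ₑ ^ 2 * Ψ (((m : ℝ) * n ^ 2) ^ 2 * z3 g)
  have hF : Measurable F := (measurable_sq (continuous_Wh hf.cont _ _)).mul
    (hΨ.comp (continuous_z3.measurable.const_mul _))
  have hFn : ∀ x g, F (nR x * g) = F g := fun x g => by
    simp only [F, nR, enorm_Wh_nn hf, z3_nn]
  have hw := wtR_of_dwt measurable_bN dwt_bN
  have hw' : ∀ g, ∫⁻ x, bN (DI m n * (nR x * g)) = c := by
    intro g
    have := lintegral_scale3 (fun x => bN (nR x * (DI m n * g)))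
      (measurable_bN.comp (continuous_nR.measurable.mul_const _)) hm' hn' (mul_pos hm' hn')
    rw [hw, mul_one] at this
    rw [hc, ← this]
    refine lintegral_congr fun x => ?_
    rw [← mul_assoc, ← mul_assoc, nR, nR, DI, dg_mul_nn (by positivity) (by positivity) one_ne_zero]
    congr 4 <;> field_simp
  rw [← (ENNReal.mul_right_inj hc0 ENNReal.ofReal_ne_top), ← lintegral_mul_left_eq_self _ (DI m n),
    ← lintegral_const_mul' c _ ENNReal.ofReal_ne_top, mul_left_comm c,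
    ← shift_cont (F := F) continuous_nR.measurable invC_nR (fun x => dt_nn _ _ _) measurable_bN hF
      hw hFn (fun t ht g => by simp only [F, Wh_sc hf _ _ ht.ne', z3_sc ht])
      (c := m * n ^ 2) (by positivity),
    ← wt_indep (β' := fun g => bN (DI m n * g)) (F := fun g => Sh (m * n ^ 2) g * F g)
      continuous_nR.measurable invC_nR measurable_bN
      (measurable_bN.comp (measurable_const_mul _)) ((measurable_Sh _).mul hF) hw hw'
      (fun x g => by rw [hFn, nR, Sh_mul_of_dt (dt_nn _ _ _)]),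
    ← lintegral_const_mul' _ _ (by finiteness)]
  refine lintegral_congr fun g => ?_
  simp only [hS, hz, F]
  calc _ = bN (DI m n * g) * (Sh (m * n ^ 2) g * ((c * ‖Wh (ε * m) n f (DI m n * g)‖ₑ ^ 2) *
        Ψ (((m : ℝ) * n ^ 2) ^ 2 * z3 g))) := by ring
    _ = _ := by rw [hW]; ring

def wt (f : G → ℂ) (g : G) : ℝ≥0∞ :=
  bN g * (Sh 1 g * (‖Wh 1 1 f g‖ₑ ^ 2 + ‖Wh (-1) 1 f g‖ₑ ^ 2))

lemma measurable_wt {f : G → ℂ} (hf : Continuous f) : Measurable (wt f) :=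
  measurable_bN.mul ((measurable_Sh 1).mul ((measurable_sq (continuous_Wh hf _ _)).add
    (measurable_sq (continuous_Wh hf _ _))))

def kap (f : G → ℂ) (y : ℝ) : ℝ≥0∞ := ∫⁻ g, wt f g * gauss (y ^ 2 * z3 g) ∂mu

theorem Th_shell {f : G → ℂ} (hf : Cusp f) {e1 e2 : ℕ → ℂ} (hk : Hk f e1 e2) {β : G → ℝ≥0∞}
    (hβ : Measurable β) (h1 : DWt io β) (X : ℝ) :
    Th β f X = ∑' k : ℕ+, ∑' m : ℕ+, ∑' n : ℕ+, ‖AC e1 e2 m n‖ₑ ^ 2 *
      kap f (((k : ℕ) : ℝ) ^ 3 * (((m : ℕ) : ℝ) * ((n : ℕ) : ℝ) ^ 2) / X) := by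
  rw [Th_eq hf hβ h1]
  have e : ∀ n : ℕ+, ∑' m : ℤ,
      ∫⁻ g, bN g * (Sh 1 g * (‖Wh m (n : ℕ) f g‖ₑ ^ 2 * Psi X (z3 g))) ∂mu =
      ∑' m : ℕ+, ∑' k : ℕ+, ‖AC e1 e2 m n‖ₑ ^ 2 *
        kap f (((k : ℕ) : ℝ) ^ 3 * (((m : ℕ) : ℝ) * ((n : ℕ) : ℝ) ^ 2) / X) := by
    intro n
    rw [tsum_int_pnat _ (by simp [Wh_zero hf])]
    refine tsum_congr fun m => ?_
    rw [shell_step hf.toAut hk isUnit_one m.pos n.pos (measurable_Psi X),
      shell_step hf.toAut hk isUnit_one.neg m.pos n.pos (measurable_Psi X), ← mul_add,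
      ENNReal.tsum_mul_left, ← lintegral_add_left]
    · congr 1
      unfold kap
      rw [← lintegral_tsum]
      · refine lintegral_congr fun g => ?_
        rw [ENNReal.tsum_mul_left, wt, Psi]
        have : ∀ k : ℕ+, (((k : ℕ) : ℝ) ^ 3 * (((m : ℕ) : ℝ) * ((n : ℕ) : ℝ) ^ 2) / X) ^ 2 * z3 g =
            ((k : ℕ) : ℝ) ^ 6 * ((((m : ℕ) : ℝ) * ((n : ℕ) : ℝ) ^ 2) ^ 2 * z3 g) / X ^ 2 :=
          fun k => by ring
        simp only [this]
        ring
      · intro k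
        exact ((measurable_wt hf.cont).mul (measurable_gauss.comp
          (continuous_z3.measurable.const_mul _))).aemeasurable
    · exact measurable_bN.mul ((measurable_Sh 1).mul ((measurable_sq (continuous_Wh hf.cont _ _)).mul
        ((measurable_Psi X).comp (continuous_z3.measurable.const_mul _))))
  simp only [e]
  rw [ENNReal.tsum_comm]
  conv_rhs => rw [ENNReal.tsum_comm]
  exact tsum_congr fun m => ENNReal.tsum_comm

lemma gauss_anti {s t : ℝ} (hs : 0 ≤ s) (h : s ≤ t) : gauss t ≤ gauss s := by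
  apply ENNReal.ofReal_le_ofReal
  apply Real.exp_le_exp.2
  have := Real.rpow_le_rpow hs h (z := 1 / 3) (by norm_num)
  nlinarith [Real.pi_pos]

lemma kap_anti (f : G → ℂ) {s t : ℝ} (hs : 0 ≤ s) (h : s ≤ t) : kap f t ≤ kap f s := by
  refine lintegral_mono fun g => ?_
  have := z3_pos g
  exact mul_le_mul_right (gauss_anti (by positivity) (by gcongr)) _

/-- the gap -/
def gap (f : G → ℂ) : ℝ≥0∞ :=
  ∫⁻ g, wt f g * ENNReal.ofReal (Real.exp (-π * z3 g ^ (1 / 3 : ℝ)) *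
    (1 - Real.exp (-π * (z3 g ^ (1 / 3 : ℝ) / 32)))) ∂mu

lemma kap_gap {f : G → ℂ} (hf : Continuous f) {y : ℝ} (h1 : 1 / 16 ≤ y) (h2 : y ≤ 1) :
    kap f (2 * y) + gap f ≤ kap f y := by
  rw [kap, gap, kap, ← lintegral_add_left (f := fun g => wt f g * gauss ((2 * y) ^ 2 * z3 g))
    ((measurable_wt hf).mul (measurable_gauss.comp (continuous_z3.measurable.const_mul _)))]
  refine lintegral_mono fun g => ?_
  simp only [Pi.mul_apply, Function.comp_apply]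
  rw [← mul_add]
  gcongr
  have hz := z3_pos g
  set u := z3 g ^ (1 / 3 : ℝ)
  have hu : 0 < u := Real.rpow_pos_of_pos hz _
  set v := (y ^ 2) ^ (1 / 3 : ℝ)
  have hv1 : v ≤ 1 := Real.rpow_le_one (by positivity) (by nlinarith) (by norm_num)
  have hv2 : 1 / 8 ≤ v := by
    have : ((1 / 8 : ℝ) ^ 3) ^ (1 / 3 : ℝ) = 1 / 8 := by
      have := Real.pow_rpow_inv_natCast (x := 1 / 8) (n := 3) (by norm_num) (by norm_num)
      rwa [show ((3 : ℕ) : ℝ)⁻¹ = 1 / 3 by norm_num] at this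
    rw [← this]
    exact Real.rpow_le_rpow (by norm_num) (by nlinarith) (by norm_num)
  have h4 : 5 / 4 ≤ (4 : ℝ) ^ (1 / 3 : ℝ) := by
    have : ((5 / 4 : ℝ) ^ 3) ^ (1 / 3 : ℝ) = 5 / 4 := by
      have := Real.pow_rpow_inv_natCast (x := 5 / 4) (n := 3) (by norm_num) (by norm_num)
      rwa [show ((3 : ℕ) : ℝ)⁻¹ = 1 / 3 by norm_num] at this
    rw [← this]
    exact Real.rpow_le_rpow (by norm_num) (by norm_num) (by norm_num)
  rw [gauss, gauss, show (2 * y) ^ 2 * z3 g = 4 * (y ^ 2 * z3 g) by ring,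
    Real.mul_rpow (by norm_num) (by positivity), Real.mul_rpow (by positivity) hz.le,
    ← ENNReal.ofReal_add (by positivity)]
  · apply ENNReal.ofReal_le_ofReal
    have hπ := Real.pi_pos
    have a1 : Real.exp (-π * ((4 : ℝ) ^ (1 / 3 : ℝ) * (v * u))) ≤
        Real.exp (-π * (v * u)) * Real.exp (-π * (u / 32)) := by
      rw [← Real.exp_add]
      apply Real.exp_le_exp.2
      have : v * u + u / 32 ≤ (4 : ℝ) ^ (1 / 3 : ℝ) * (v * u) := by
        have : 5 / 4 * (v * u) ≤ (4 : ℝ) ^ (1 / 3 : ℝ) * (v * u) := by gcongr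
        nlinarith
      nlinarith
    have a2 : Real.exp (-π * u) ≤ Real.exp (-π * (v * u)) := by
      apply Real.exp_le_exp.2
      have : v * u ≤ u := by nlinarith
      nlinarith
    have a3 : Real.exp (-π * (u / 32)) ≤ 1 := Real.exp_le_one_iff.2 (by nlinarith)
    nlinarith
  · have a3 : Real.exp (-π * (u / 32)) ≤ 1 :=
      Real.exp_le_one_iff.2 (by nlinarith [Real.pi_pos])
    exact mul_nonneg (Real.exp_pos _).le (by linarith)

lemma gap_ne_zero {f : G → ℂ} (hf : Cusp f) {e1 e2 : ℕ → ℂ} (hk : Hk f e1 e2) {β : G → ℝ≥0∞}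
    (hβ : Measurable β) (h1 : DWt io β) (h0 : ∃ g, f g ≠ 0) : gap f ≠ 0 := by
  intro hz
  have hm : Measurable fun g => ENNReal.ofReal (Real.exp (-π * z3 g ^ (1 / 3 : ℝ)) *
      (1 - Real.exp (-π * (z3 g ^ (1 / 3 : ℝ) / 32)))) := by
    have := continuous_z3.measurable
    fun_prop
  rw [gap, lintegral_eq_zero_iff (f := fun g => wt f g * _) ((measurable_wt hf.cont).mul hm)] at hz
  have hw : ∀ᵐ g ∂mu, wt f g = 0 := by
    filter_upwards [hz] with g hg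
    refine (mul_eq_zero.1 hg).resolve_right ?_
    rw [ENNReal.ofReal_eq_zero, not_le]
    have hu : 0 < z3 g ^ (1 / 3 : ℝ) := Real.rpow_pos_of_pos (z3_pos g) _
    have : Real.exp (-π * (z3 g ^ (1 / 3 : ℝ) / 32)) < 1 :=
      Real.exp_lt_one_iff.2 (by nlinarith [Real.pi_pos])
    exact mul_pos (Real.exp_pos _) (by linarith)
  have hk0 : ∀ y, kap f y = 0 := by
    intro y
    rw [kap, ← lintegral_zero (μ := mu)]
    refine lintegral_congr_ae ?_
    filter_upwards [hw] with g hg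
    simp [hg]
  have hT : Th β f 1 = 0 := by simp [Th_shell hf hk hβ h1, hk0]
  apply N2_ne_zero hβ h1 hf.toAut h0
  have hm2 : Measurable fun g => β g * (Sh 1 g * ‖f g‖ₑ ^ 2) :=
    hβ.mul ((measurable_Sh 1).mul (measurable_sq hf.cont))
  have hm3 : Measurable fun g => ∑' v : Prim 3, Psi 1 (zt v.1 g) :=
    Measurable.tsum fun v => (measurable_Psi 1).comp (continuous_zt _).measurable
  rw [Th, lintegral_eq_zero_iff (f := fun g => β g * (Sh 1 g * (‖f g‖ₑ ^ 2 * _))) (hβ.mul ((measurable_Sh 1).mul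
    ((measurable_sq hf.cont).mul hm3)))] at hT
  rw [N2, lintegral_eq_zero_iff hm2]
  filter_upwards [hT] with g hg
  have hne : ∑' v : Prim 3, Psi 1 (zt v.1 g) ≠ 0 := by
    rw [ne_eq, ENNReal.tsum_eq_zero, not_forall]
    refine ⟨⟨![0, 0, 1], ![0, 0, 1], by simp⟩, ?_⟩
    rw [Psi, ENNReal.tsum_eq_zero, not_forall]
    refine ⟨1, ?_⟩
    rw [gauss, ENNReal.ofReal_eq_zero, not_le]
    exact Real.exp_pos _
  simp only [Pi.mul_apply, Pi.zero_apply, ← mul_assoc, mul_eq_zero, hne, or_false] at hg ⊢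
  exact hg

end Pool.Agent.Lib.MP_fa98d2_nt
end
end
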