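import Pool.Agent.Lib.MP_fa98d2_nt.Local
import Pool.Agent.Lib.MP_fa98d2_nt.Shell
import Pool.Agent.Lib.MP_fa98d2_nt.Defs
import Pool.Agent.Lib.MP_fa98d2_nt.Dirich

-- part Pool.Agent.Lib.MP_fa98d2_nt.Adjoint
section

/- The two Hecke operators at a prime are adjoint. -/

open MeasureTheory Matrix Set Topology
open scoped ENNReal MatrixGroups

noncomputable section

namespace Pool.Agent.Lib.MP_fa98d2_nt

abbrev Ix (p : ℕ) : Type := Unit ⊕ Fin p ⊕ Fin p × Fin p

def dZ (p : ℕ) : Ix p → Matrix (Fin 3) (Fin 3) ℤ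
  | .inl _ => !![p, 0, 0; 0, 1, 0; 0, 0, 1]
  | .inr (.inl a) => !![1, a, 0; 0, p, 0; 0, 0, 1]
  | .inr (.inr (a, b)) => !![1, 0, a; 0, 1, b; 0, 0, p]

def wv (p : ℕ) : Ix p → Fin 3 → ℤ
  | .inl _ => ![1, 0, 0]
  | .inr (.inl a) => ![-a, 1, 0]
  | .inr (.inr (a, b)) => ![-a, -b, 1]

def dR (p : ℕ) : Ix p → G
  | .inl _ => dg p 1 1
  | .inr (.inl a) => dg 1 p 1 * nn a 0 0
  | .inr (.inr (a, b)) => dg 1 1 p * nn 0 b a

variable {p : ℕ}

lemma val_dR (hp : 0 < p) (i : Ix p) : (dR p i).val = (dZ p i).map (Int.cast : ℤ → ℝ) := by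
  have hp' : (p : ℝ) ≠ 0 := by positivity
  rcases i with _ | a | ⟨a, b⟩
  · simp only [dR, dZ, val_dg hp' one_ne_zero one_ne_zero]
    ext i j; fin_cases i <;> fin_cases j <;> simp
  · simp only [dR, dZ, Units.val_mul, val_dg one_ne_zero hp' one_ne_zero, val_nn]
    ext i j; fin_cases i <;> fin_cases j <;> simp [Matrix.mul_apply, Fin.sum_univ_three]
  · simp only [dR, dZ, Units.val_mul, val_dg one_ne_zero one_ne_zero hp', val_nn]
    ext i j; fin_cases i <;> fin_cases j <;> simp [Matrix.mul_apply, Fin.sum_univ_three]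

lemma det_dZ (i : Ix p) : (dZ p i).det = p := by
  rcases i with _ | a | ⟨a, b⟩ <;> simp [dZ, Matrix.det_fin_three]

lemma dZ_wv (i : Ix p) (r : Fin 3) : (p : ℤ) ∣ (dZ p i *ᵥ wv p i) r := by
  rcases i with _ | a | ⟨a, b⟩ <;> fin_cases r <;>
    simp [dZ, wv, Matrix.mulVec, dotProduct, Fin.sum_univ_three]

lemma fin_eq_of_dvd {a b : Fin p} (h : (p : ℤ) ∣ -(a : ℤ) + b) : a = b := by
  have := Int.eq_zero_of_abs_lt_dvd h (by have := a.2; have := b.2; rw [abs_lt]; omega)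
  exact Fin.ext (by omega)

lemma ix_eq (hp : p.Prime) {i j : Ix p} (h : ∀ r, (p : ℤ) ∣ (dZ p j *ᵥ wv p i) r) : i = j := by
  have h1 : ¬ (p : ℤ) ∣ 1 := fun h => hp.not_dvd_one (by exact_mod_cast h)
  have k0 := h 0; have k1 := h 1; have k2 := h 2
  rcases i with _ | a | ⟨a, b⟩ <;> rcases j with _ | c | ⟨c, d⟩ <;>
    simp [dZ, wv, Matrix.mulVec, dotProduct, Fin.sum_univ_three, h1] at k0 k1 k2 ⊢
  · exact fin_eq_of_dvd k0
  · exact ⟨fin_eq_of_dvd k0, fin_eq_of_dvd k1⟩

lemma exists_wv (hp : p.Prime) {s : Matrix (Fin 3) (Fin 3) ℤ} (hs : s.det = p) :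
    ∃ i : Ix p, ∀ r, (p : ℤ) ∣ (s *ᵥ wv p i) r := by
  have := Fact.mk hp
  have hd : (s.map (Int.cast : ℤ → ZMod p)).det = 0 := by
    have := (Int.castRingHom (ZMod p)).map_det s
    rw [hs] at this
    simpa using this.symm
  obtain ⟨w, hw0, hw⟩ := Matrix.exists_mulVec_eq_zero_iff.2 hd
  have key : ∀ (i : Ix p) (c : ZMod p), (∀ l, ((wv p i l : ℤ) : ZMod p) = c * w l) →
      ∀ r, (p : ℤ) ∣ (s *ᵥ wv p i) r := by
    intro i c h r
    rw [← ZMod.intCast_zmod_eq_zero_iff_dvd]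
    have := congrFun hw r
    simp only [Matrix.mulVec, dotProduct, Fin.sum_univ_three, Matrix.map_apply,
      Pi.zero_apply] at this ⊢
    push_cast
    rw [h, h, h]
    linear_combination c * this
  by_cases h2 : w 2 = 0
  · by_cases h1 : w 1 = 0
    · have h0 : w 0 ≠ 0 := fun h0 => hw0 (by ext l; fin_cases l <;> assumption)
      refine ⟨.inl (), key _ (w 0)⁻¹ fun l => ?_⟩
      fin_cases l <;> simp [wv, h0, h1, h2]
    · refine ⟨.inr (.inl ⟨(-w 0 / w 1).val, ZMod.val_lt _⟩), key _ (w 1)⁻¹ fun l => ?_⟩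
      fin_cases l <;> simp [wv, h1, h2]
      field_simp
  · refine ⟨.inr (.inr (⟨(-w 0 / w 2).val, ZMod.val_lt _⟩, ⟨(-w 1 / w 2).val, ZMod.val_lt _⟩)),
      key _ (w 2)⁻¹ fun l => ?_⟩
    fin_cases l <;> simp [wv, h2] <;> field_simp

lemma exists_hnf (hp : p.Prime) {s : Matrix (Fin 3) (Fin 3) ℤ} (hs : s.det = p) :
    ∃ q : SL(3, ℤ) × Ix p, s = q.1.val * dZ p q.2 := by
  obtain ⟨i, hi⟩ := exists_wv hp hs
  choose c hc using hi
  have : ∃ γ : Matrix (Fin 3) (Fin 3) ℤ, s = γ * dZ p i := by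
    rcases i with _ | a | ⟨a, b⟩
    · refine ⟨Matrix.of fun r => ![c r, s r 1, s r 2], ?_⟩
      ext r j
      have := hc r
      simp [wv, Matrix.mulVec, dotProduct, Fin.sum_univ_three] at this
      fin_cases j <;> simp [dZ, Matrix.mul_apply, Fin.sum_univ_three]
      linarith
    · refine ⟨Matrix.of fun r => ![s r 0, c r, s r 2], ?_⟩
      ext r j
      have := hc r
      simp [wv, Matrix.mulVec, dotProduct, Fin.sum_univ_three] at this
      fin_cases j <;> simp [dZ, Matrix.mul_apply, Fin.sum_univ_three]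
      linarith
    · refine ⟨Matrix.of fun r => ![s r 0, s r 1, c r], ?_⟩
      ext r j
      have := hc r
      simp [wv, Matrix.mulVec, dotProduct, Fin.sum_univ_three] at this
      fin_cases j <;> simp [dZ, Matrix.mul_apply, Fin.sum_univ_three]
      linarith
  obtain ⟨γ, hγ⟩ := this
  have hd : γ.det = 1 := by
    rw [hγ, Matrix.det_mul, det_dZ] at hs
    have hp0 : (p : ℤ) ≠ 0 := by exact_mod_cast hp.ne_zero
    exact mul_right_cancel₀ hp0 (by rw [hs, one_mul])
  exact ⟨(⟨γ, hd⟩, i), hγ⟩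

def aH (p : ℕ) (q : SL(3, ℤ) × Ix p) : G := io q.1 * dR p q.2

lemma val_aH (hp : 0 < p) (q : SL(3, ℤ) × Ix p) :
    (aH p q).val = (q.1.val * dZ p q.2).map (Int.cast : ℤ → ℝ) := by
  rw [aH, Units.val_mul, val_io, val_dR hp]
  exact (Matrix.map_mul (f := Int.castRingHom ℝ)).symm

lemma aH_inj (hp : p.Prime) : Function.Injective (aH p) := by
  rintro ⟨γ, i⟩ ⟨γ', j⟩ h
  have h1 : γ.val * dZ p i = γ'.val * dZ p j := by
    have := congrArg Units.val h
    rw [val_aH hp.pos, val_aH hp.pos] at this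
    exact Matrix.map_injective Int.cast_injective this
  have h2 : dZ p j = (γ'⁻¹ * γ).val * dZ p i := by
    rw [Matrix.SpecialLinearGroup.coe_mul, Matrix.mul_assoc, h1, ← Matrix.mul_assoc,
      ← Matrix.SpecialLinearGroup.coe_mul, inv_mul_cancel, Matrix.SpecialLinearGroup.coe_one,
      Matrix.one_mul]
  obtain rfl : i = j := by
    refine ix_eq hp fun r => ?_
    rw [h2, ← Matrix.mulVec_mulVec, Matrix.mulVec, dotProduct]
    exact Finset.dvd_sum fun l _ => (dZ_wv i l).mul_left _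
  obtain rfl : γ = γ' := io_inj (mul_right_cancel h)
  rfl

/-- the twisted dual automorphism -/
def th (x : G) : G := io wZ * du x * (io wZ)⁻¹

lemma th_mul (x y : G) : th (x * y) = th x * th y := by simp [th, du_mul, mul_assoc]

lemma th_inv (x : G) : th x⁻¹ = (th x)⁻¹ := by simp [th, du_inv, mul_assoc]

lemma th_io (γ : SL(3, ℤ)) : th (io γ) = io (wZ * duZ γ * wZ⁻¹) := by simp [th, du_io]

lemma w_mul_w : wZ * wZ = 1 := by
  apply Subtype.ext
  ext i j
  fin_cases i <;> fin_cases j <;> simp [wZ, Matrix.mul_apply, Fin.sum_univ_three]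

lemma du_w : du (io wZ) = io wZ := by
  have : wZ.transpose = wZ := by
    apply Subtype.ext
    ext i j
    fin_cases i <;> fin_cases j <;> simp [wZ]
  rw [du_io, duZ, this, inv_eq_of_mul_eq_one_right w_mul_w]

lemma th_th (x : G) : th (th x) = x := by
  have : io wZ * io wZ = 1 := by rw [← map_mul, w_mul_w, map_one]
  have h2 : (io wZ)⁻¹ = io wZ := inv_eq_of_mul_eq_one_right this
  simp only [th, du_mul, du_du, du_w, h2, ← mul_assoc, this, one_mul]
  rw [mul_assoc, this, mul_one]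

lemma th_nn (x y z : ℝ) : th (nn x y z) = nn (-y) (-x) (x * y - z) := by
  rw [th, w_du_nn, mul_inv_cancel_right]

lemma th_dg {a b c : ℝ} (ha : a ≠ 0) (hb : b ≠ 0) (hc : c ≠ 0) :
    th (dg a b c) = dg c⁻¹ b⁻¹ a⁻¹ := by
  rw [th, du, tr_dg ha hb hc, dg_inv ha hb hc, mul_inv_eq_iff_eq_mul]
  apply Units.ext
  simp only [Units.val_mul, val_w, val_dg (inv_ne_zero ha) (inv_ne_zero hb) (inv_ne_zero hc),
    val_dg (inv_ne_zero hc) (inv_ne_zero hb) (inv_ne_zero ha)]
  ext i j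
  fin_cases i <;> fin_cases j <;> simp [Matrix.mul_apply, Fin.sum_univ_three]

lemma dt_th (x : G) : dt (th x) = (dt x)⁻¹ := by simp [th, dt_mul, dt_inv, dt_du]

lemma tsum_aH_inv (hp : p.Prime) (Φ : G → ℝ≥0∞) :
    ∑' q, Φ (aH p q)⁻¹ = ∑' q : SL(3, ℤ) × Ix p, Φ (io q.1 * th (dR p q.2)) := by
  have key : ∀ q, ∃ q', aH p q' = (th (aH p q))⁻¹ := by
    intro q
    obtain ⟨q', hq'⟩ := exists_hnf hp
      (s := wZ.val * (q.1.val * dZ p q.2).transpose * (wZ⁻¹).val) (by
        simp only [Matrix.det_mul, Matrix.det_transpose, det_dZ,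
          Matrix.SpecialLinearGroup.det_coe, one_mul, mul_one])
    refine ⟨q', Units.ext ?_⟩
    have e : (th (aH p q))⁻¹ = io wZ * tr (aH p q) * io wZ⁻¹ := by simp [th, du, mul_assoc]
    rw [val_aH hp.pos, ← hq', e, Units.val_mul, Units.val_mul, val_tr, val_aH hp.pos, val_io,
      val_io]
    exact (Matrix.map_mul (f := Int.castRingHom ℝ)).trans
      (congrArg (· * _) (Matrix.map_mul (f := Int.castRingHom ℝ)))
  choose e he using key
  have hinv : Function.Involutive e := fun q => aH_inj hp (by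
    rw [he, he, th_inv, inv_inv, th_th])
  rw [← hinv.toPerm.tsum_eq]
  simp only [Function.Involutive.coe_toPerm, he, inv_inv]
  let t : SL(3, ℤ) ≃ SL(3, ℤ) :=
    (duZ_invol.toPerm.trans (Equiv.mulLeft wZ)).trans (Equiv.mulRight wZ⁻¹)
  conv_rhs => rw [← (Equiv.prodCongr t (Equiv.refl (Ix p))).tsum_eq]
  refine tsum_congr fun q => ?_
  rw [aH, th_mul, th_io]
  rfl

lemma dt_dR (hp : 0 < p) (i : Ix p) : dt (dR p i) = p := by
  rw [dt, val_dR hp]
  have := (Int.castRingHom ℝ).map_det (dZ p i)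
  rw [det_dZ] at this
  simp only [eq_intCast, Int.cast_natCast, RingHom.mapMatrix_apply, Int.coe_castRingHom] at this
  rw [← this, abs_of_pos (by positivity)]

lemma adj_main (hp : p.Prime) {β : G → ℝ≥0∞} (hβ : Measurable β) (h1 : DWt io β)
    {F : G → G → ℝ≥0∞} (hF : Measurable (Function.uncurry F))
    (i1 : ∀ γ x y, F (io γ * x) y = F x y) (i2 : ∀ γ x y, F x (io γ * y) = F x y)
    (c1 : ∀ t : ℝ, 0 < t → ∀ x y, F (sc t * x) y = F x y)
    (c2 : ∀ t : ℝ, 0 < t → ∀ x y, F x (sc t * y) = F x y) :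
    ∫⁻ g, β g * (Sh 1 g * ∑ i, F (dR p i * g) g) ∂mu =
      ∫⁻ g, β g * (Sh 1 g * ∑ i, F g (th (dR p i) * g)) ∂mu := by
  obtain ⟨t, ht, ht3⟩ := exists_cube (c := (p : ℝ)) (by have := hp.pos; positivity)
  have hs : ∀ x g, sc t * (x * g) = x * (sc t * g) := fun x g => by
    rw [← mul_assoc, sc_comm ht.ne', mul_assoc]
  have m1 : ∀ a b : G, Measurable fun g => F (a * g) (b * g) := fun a b =>
    hF.comp (f := fun g => (a * g, b * g)) (by fun_prop)
  have m2 : ∀ a : G, Measurable fun g => β (a * g) := fun a => hβ.comp (measurable_const_mul a)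
  calc _ = ∫⁻ g, ∑' q : SL(3, ℤ) × Ix p, β g * β (aH p q * ((sc t)⁻¹ * g)) *
          (Sh 1 g * F (aH p q * g) (1 * g)) ∂mu := by
        refine lintegral_congr fun g => ?_
        rw [ENNReal.tsum_prod', ENNReal.tsum_comm, tsum_fintype, Finset.mul_sum, Finset.mul_sum]
        refine Finset.sum_congr rfl fun i _ => ?_
        simp only [aH, mul_assoc, i1, ENNReal.tsum_mul_left, ENNReal.tsum_mul_right, h1 _, one_mul]
    _ = ∑' q : SL(3, ℤ) × Ix p, ∫⁻ g, β ((aH p q)⁻¹ * (sc t * g)) * β g *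
          (Sh 1 g * F (1 * g) ((aH p q)⁻¹ * g)) ∂mu := by
        rw [lintegral_tsum (f := fun (q : SL(3, ℤ) × Ix p) g =>
          β g * β (aH p q * ((sc t)⁻¹ * g)) * (Sh 1 g * F (aH p q * g) (1 * g)))
          fun q => ((hβ.mul (hβ.comp (by fun_prop))).mul
          ((measurable_Sh 1).mul (m1 _ _))).aemeasurable]
        refine tsum_congr fun q => ?_
        rw [← lintegral_mul_left_eq_self _ ((aH p q)⁻¹ * sc t)]
        refine lintegral_congr fun g => ?_
        have hd : dt ((aH p q)⁻¹ * sc t) = 1 := by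
          have : (p : ℝ) ≠ 0 := by have := hp.pos; positivity
          rw [dt_mul, dt_inv, aH, dt_mul, dt_io, dt_dR hp.pos, dt_sc ht, ht3, one_mul,
            inv_mul_cancel₀ this]
        rw [Sh_mul_of_dt hd]
        simp only [mul_assoc, ← hs, inv_mul_cancel_left, mul_inv_cancel_left, one_mul, c1 t ht,
          c2 t ht]
    _ = _ := by
        rw [← lintegral_tsum (f := fun (q : SL(3, ℤ) × Ix p) g =>
          β ((aH p q)⁻¹ * (sc t * g)) * β g * (Sh 1 g * F (1 * g) ((aH p q)⁻¹ * g)))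
          fun q => (((hβ.comp (by fun_prop)).mul hβ).mul
          ((measurable_Sh 1).mul (m1 _ _))).aemeasurable]
        refine lintegral_congr fun g => ?_
        rw [tsum_aH_inv hp fun y => β (y * (sc t * g)) * β g * (Sh 1 g * F (1 * g) (y * g)),
          ENNReal.tsum_prod', ENNReal.tsum_comm, tsum_fintype, Finset.mul_sum, Finset.mul_sum]
        refine Finset.sum_congr rfl fun i _ => ?_
        simp only [mul_assoc, i2, ENNReal.tsum_mul_right, h1 _, one_mul]

lemma sum_neg_per {φ : ℤ → ℂ} (hp : ∀ a, φ (a + p) = φ a) :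
    ∑ a ∈ Finset.range p, φ (-a) = ∑ a ∈ Finset.range p, φ a := by
  rw [← Finset.sum_range_reflect]
  have h1 : ∑ a ∈ Finset.range p, φ (-((p - 1 - a : ℕ) : ℤ)) =
      ∑ a ∈ Finset.range p, φ ((a + 1 : ℕ) : ℤ) := by
    refine Finset.sum_congr rfl fun a ha => ?_
    rw [← hp]
    congr 1
    have := Finset.mem_range.1 ha
    omega
  have h2 := Finset.sum_range_succ (fun a : ℕ => φ a) p
  rw [Finset.sum_range_succ'] at h2
  have h3 := hp 0
  simp only [zero_add, Nat.cast_zero] at h2 h3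
  rw [h1]
  linear_combination h2 + h3

lemma TB_eq (f : G → ℂ) (g : G) : TB p f g = ∑ i, f (dR p i * g) := by
  simp only [TB, Fintype.sum_sum_type, Fintype.sum_prod_type, dR, Finset.sum_range, mul_assoc,
    add_assoc]
  simp

lemma TA_eq (hp : 0 < p) {f : G → ℂ} (hf : Aut f) (g : G) :
    TA p f g = ∑ i, f (th (dR p i) * g) := by
  have hp' : (p : ℝ) ≠ 0 := by positivity
  have e : ∀ a b c : ℝ, a ≠ 0 → b ≠ 0 → c ≠ 0 → ∀ x,
      f (dg a b c * x) = f (dg (p * a) (p * b) (p * c) * x) := by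
    intro a b c ha hb hc x
    rw [← hf.cen p hp', ← mul_assoc, sc, dg_mul hp' hp' hp' ha hb hc]
  simp only [Fintype.sum_sum_type, Fintype.sum_prod_type, dR, th_mul, th_nn,
    th_dg hp' one_ne_zero one_ne_zero, th_dg one_ne_zero hp' one_ne_zero,
    th_dg one_ne_zero one_ne_zero hp', inv_one, mul_assoc,
    e _ _ _ one_ne_zero one_ne_zero (inv_ne_zero hp'),
    e _ _ _ one_ne_zero (inv_ne_zero hp') one_ne_zero,
    e _ _ _ (inv_ne_zero hp') one_ne_zero one_ne_zero, mul_one, mul_inv_cancel₀ hp', neg_zero,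
    mul_zero, zero_mul, sub_zero, zero_sub]
  have s1 := sum_neg_per (p := p) (φ := fun a => f (dg p 1 p * (nn 0 a 0 * g))) (fun a => by
    have : nn 0 ((a + p : ℤ) : ℝ) 0 = nn 0 p 0 * nn 0 a 0 := by simp [nn_mul, add_comm]
    simp only [this, mul_assoc]
    rw [← mul_assoc, dg_mul_nn hp' one_ne_zero hp', mul_assoc]
    simpa [hp'] using hf.h2 _)
  have s2 : ∀ x : ℝ, _ := fun x =>
    sum_neg_per (p := p) (φ := fun b => f (dg 1 p p * (nn x 0 b * g))) (fun a => by
      have : nn x 0 ((a + p : ℤ) : ℝ) = nn 0 0 p * nn x 0 a := by simp [nn_mul, add_comm]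
      simp only [this, mul_assoc]
      rw [← mul_assoc, dg_mul_nn one_ne_zero hp' hp', mul_assoc]
      simpa [hp'] using hf.h3 _)
  have s3 : ∀ x : ℝ, _ := fun x =>
    sum_neg_per (p := p) (φ := fun b => f (dg 1 p p * (nn b 0 x * g))) (fun a => by
      have : nn ((a + p : ℤ) : ℝ) 0 x = nn p 0 0 * nn a 0 x := by simp [nn_mul, add_comm]
      simp only [this, mul_assoc]
      rw [← mul_assoc, dg_mul_nn one_ne_zero hp' hp', mul_assoc]
      simpa [hp'] using hf.h1 _)
  simp only [Int.cast_neg, Int.cast_natCast] at s1 s2 s3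
  have s4 : ∀ x : ℝ, ∑ b : Fin p, f (dg 1 p p * (nn (-((b : ℕ) : ℝ)) 0 x * g)) =
      ∑ b ∈ Finset.range p, f (dg 1 p p * (nn b 0 x * g)) := fun x => by
    rw [← s3, Finset.sum_range]
  simp only [← Finset.sum_range (f := fun a : ℕ => f (dg p 1 p * (nn 0 (-a) 0 * g))), s4, s1]
  rw [← Finset.sum_range (f := fun a : ℕ =>
    ∑ b ∈ Finset.range p, f (dg 1 p p * (nn b 0 (-a) * g))), Finset.sum_comm]
  simp only [s2, TA]
  simp
  ring

lemma sum_sq_expand {ι : Type*} [Fintype ι] (x : ι → ℂ) (z : ℂ) :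
    ∑ i, ‖x i - z‖ ^ 2 = ∑ i, ‖x i‖ ^ 2 - 2 * ((∑ i, x i) * starRingEnd ℂ z).re +
      Fintype.card ι * ‖z‖ ^ 2 := by
  simp only [← Complex.normSq_eq_norm_sq, Complex.normSq_sub, Finset.sum_mul, Complex.re_sum,
    Finset.mul_sum, Finset.sum_sub_distrib, Finset.sum_add_distrib, Finset.sum_const,
    Finset.card_univ, nsmul_eq_mul]
  ring

lemma sq_enorm (z : ℂ) : ‖z‖ₑ ^ 2 = ENNReal.ofReal (‖z‖ ^ 2) := by
  rw [ENNReal.ofReal_pow (norm_nonneg _), ofReal_norm]

lemma quad_int {ι : Type} [Fintype ι] {β : G → ℝ≥0∞} (hβ : Measurable β) {f : G → ℂ}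
    (hf : Continuous f) (d : ι → G) {l c : ℂ} (hc : ‖c‖ = 1) (hl : ∀ g, ∑ i, f (d i * g) = l * f g)
    {M : ℝ} (hM : 2 * ‖l‖ ≤ M)
    (hN : ∫⁻ g, β g * (Sh 1 g * ∑ i, ‖f (d i * g)‖ₑ ^ 2) ∂mu = Fintype.card ι * N2 β f) :
    ∫⁻ g, β g * (Sh 1 g * ∑ i, ‖f (d i * g) - c * f g‖ₑ ^ 2) ∂mu +
      ENNReal.ofReal (M + 2 * (l * starRingEnd ℂ c).re) * N2 β f =
      Fintype.card ι * N2 β f + ENNReal.ofReal (Fintype.card ι + M) * N2 β f := by
  have hre : 0 ≤ M + 2 * (l * starRingEnd ℂ c).re := by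
    have := (abs_le.1 (Complex.abs_re_le_norm (l * starRingEnd ℂ c))).1
    rw [norm_mul, Complex.norm_conj, hc, mul_one] at this
    linarith
  have hM0 : 0 ≤ M := le_trans (by positivity) hM
  have hm : ∀ r : ℝ≥0∞, Measurable fun g => r * (β g * (Sh 1 g * ‖f g‖ₑ ^ 2)) := fun r =>
    (hβ.mul ((measurable_Sh 1).mul (measurable_sq hf))).const_mul r
  rw [← hN, N2, ← lintegral_const_mul' _ _ ENNReal.ofReal_ne_top,
    ← lintegral_const_mul' _ _ ENNReal.ofReal_ne_top, ← lintegral_add_right _ (hm _),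
    ← lintegral_add_right _ (hm _)]
  refine lintegral_congr fun g => ?_
  have : ∑ i, ‖f (d i * g) - c * f g‖ₑ ^ 2 +
      ENNReal.ofReal (M + 2 * (l * starRingEnd ℂ c).re) * ‖f g‖ₑ ^ 2 =
      ∑ i, ‖f (d i * g)‖ₑ ^ 2 + ENNReal.ofReal (Fintype.card ι + M) * ‖f g‖ₑ ^ 2 := by
    simp only [sq_enorm]
    rw [← ENNReal.ofReal_sum_of_nonneg fun _ _ => by positivity,
      ← ENNReal.ofReal_sum_of_nonneg fun _ _ => by positivity, ← ENNReal.ofReal_mul hre,
      ← ENNReal.ofReal_mul (by positivity),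
      ← ENNReal.ofReal_add (Finset.sum_nonneg fun _ _ => by positivity) (by positivity),
      ← ENNReal.ofReal_add (Finset.sum_nonneg fun _ _ => by positivity) (by positivity),
      sum_sq_expand, hl, norm_mul, hc, map_mul,
      show l * f g * (starRingEnd ℂ c * starRingEnd ℂ (f g)) =
        (f g * starRingEnd ℂ (f g)) * (l * starRingEnd ℂ c) by ring, Complex.mul_conj,
      Complex.re_ofReal_mul, Complex.normSq_eq_norm_sq]
    congr 1
    ring
  calc _ = β g * (Sh 1 g * (∑ i, ‖f (d i * g) - c * f g‖ₑ ^ 2 +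
        ENNReal.ofReal (M + 2 * (l * starRingEnd ℂ c).re) * ‖f g‖ₑ ^ 2)) := by ring
    _ = _ := by rw [this]; ring

theorem adjoint (hp : p.Prime) {β : G → ℝ≥0∞} (hβ : Measurable β) (h1 : DWt io β) {f : G → ℂ}
    (hf : Aut f) (h2 : N2 β f ≠ ∞) (h0 : N2 β f ≠ 0) {lA lB : ℂ}
    (hA : ∀ g, TA p f g = lA * f g) (hB : ∀ g, TB p f g = lB * f g) :
    lB = starRingEnd ℂ lA := by
  have hc := hf.cont
  have n1 := adj_main hp hβ h1 (F := fun x _ => ‖f x‖ₑ ^ 2)
    ((measurable_sq hc).comp measurable_fst) (fun γ x y => by rw [hf.inv]) (fun _ _ _ => rfl)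
    (fun t ht x y => by rw [hf.cen t ht.ne']) (fun _ _ _ _ => rfl)
  have n2 := adj_main hp hβ h1 (F := fun _ y => ‖f y‖ₑ ^ 2)
    ((measurable_sq hc).comp measurable_snd) (fun _ _ _ => rfl) (fun γ x y => by rw [hf.inv])
    (fun _ _ _ _ => rfl) (fun t ht x y => by rw [hf.cen t ht.ne'])
  have n0 : ∫⁻ g, β g * (Sh 1 g * ∑ _i : Ix p, ‖f g‖ₑ ^ 2) ∂mu =
      Fintype.card (Ix p) * N2 β f := by
    rw [N2, ← lintegral_const_mul' _ _ (ENNReal.natCast_ne_top _)]
    refine lintegral_congr fun g => ?_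
    simp only [Finset.sum_const, Finset.card_univ, nsmul_eq_mul]
    ring
  rw [n0] at n1 n2
  have key : ∀ c : ℂ, ‖c‖ = 1 → (lB * starRingEnd ℂ c).re = (lA * c).re := by
    intro c hc1
    have n3 := adj_main hp hβ h1 (F := fun x y => ‖f x - c * f y‖ₑ ^ 2)
      (Measurable.pow_const (Continuous.measurable (by fun_prop)) 2)
      (fun γ x y => by rw [hf.inv]) (fun γ x y => by rw [hf.inv])
      (fun t ht x y => by rw [hf.cen t ht.ne']) (fun t ht x y => by rw [hf.cen t ht.ne'])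
    have q1 := quad_int hβ hc (dR p) hc1 (fun g => by rw [← TB_eq, hB])
      (M := 2 * ‖lA‖ + 2 * ‖lB‖) (by linarith [norm_nonneg lA]) n1
    have q2 := quad_int hβ hc (fun i => th (dR p i)) (c := starRingEnd ℂ c)
      (by rw [Complex.norm_conj, hc1]) (fun g => by rw [← TA_eq hp.pos hf, hA])
      (M := 2 * ‖lA‖ + 2 * ‖lB‖) (by linarith [norm_nonneg lB]) n2.symm
    have e : ∀ x y : ℂ, ‖x - starRingEnd ℂ c * y‖ₑ = ‖y - c * x‖ₑ := by
      intro x y
      have : y - c * x = -c * (x - starRingEnd ℂ c * y) := by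
        have := Complex.mul_conj c
        rw [Complex.normSq_eq_norm_sq, hc1] at this
        push_cast at this
        linear_combination (-y) * this
      rw [this, enorm_mul, enorm_neg, ← ofReal_norm c, hc1]; simp
    simp only [e] at q2
    rw [n3, ← q2] at q1
    have hfin : ∫⁻ g, β g * (Sh 1 g * ∑ i, ‖f g - c * f (th (dR p i) * g)‖ₑ ^ 2) ∂mu ≠ ∞ := by
      refine ne_top_of_le_ne_top ?_ (le_self_add.trans q2.le)
      finiteness
    rw [ENNReal.add_right_inj hfin, ENNReal.mul_left_inj h0 h2, ENNReal.ofReal_eq_ofReal_iff,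
      Complex.conj_conj] at q1
    · linarith
    · have := (abs_le.1 (Complex.abs_re_le_norm (lB * starRingEnd ℂ c))).1
      rw [norm_mul, Complex.norm_conj, hc1, mul_one] at this
      linarith [norm_nonneg lA]
    · have := (abs_le.1 (Complex.abs_re_le_norm (lA * starRingEnd ℂ (starRingEnd ℂ c)))).1
      rw [norm_mul, Complex.norm_conj, Complex.norm_conj, hc1, mul_one] at this
      linarith [norm_nonneg lB]
  have k1 := key 1 (by simp)
  have k2 := key Complex.I (by simp)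
  apply Complex.ext
  · simpa using k1
  · simpa using k2

end Pool.Agent.Lib.MP_fa98d2_nt
end
end

-- part Pool.Agent.Lib.MP_fa98d2_nt.Core
section

/- The key inequality for a cusp form. -/

open MeasureTheory Finset
open scoped ENNReal MatrixGroups

noncomputable section

namespace Pool.Agent.Lib.MP_fa98d2_nt

def el1 (α : ℕ → Fin 3 → ℂ) (p : ℕ) : ℂ := α p 0 + α p 1 + α p 2

def el2 (α : ℕ → Fin 3 → ℂ) (p : ℕ) : ℂ := α p 0 * α p 1 + α p 1 * α p 2 + α p 2 * α p 0

structure Good (β : G → ℝ≥0∞) (e1 e2 : ℕ → ℂ) (f : G → ℂ) : Prop where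
  cusp : Cusp f
  fin : N2 β f ≠ ∞
  ne : ∃ g, f g ≠ 0
  hk : Hk f e1 e2

lemma CuspForm3.good {φ : Mat → ℂ} {α : ℕ → Fin 3 → ℂ} (h : CuspForm3 φ α) :
    ∃ β : G → ℝ≥0∞, Measurable β ∧ DWt io β ∧ Good β (el1 α) (el2 α) fun g => φ g.val := by
  classical
  obtain ⟨F, hF, h1, h2⟩ := h.sqInt
  have hd : ∀ g : G, g.val.det ≠ 0 := fun g => Matrix.GeneralLinearGroup.det_ne_zero g
  refine ⟨fun g => if co g ∈ F then 1 else 0,
    Measurable.ite (continuous_co.measurable hF) measurable_const measurable_const, fun g => ?_,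
    ⟨⟨h.cont.comp_continuous Units.continuous_val hd, fun γ g => h.inv γ _ (hd g),
      fun t ht g => by rw [val_sc_mul ht, h.cen t ht _ (hd g)]⟩, fun g => ?_, fun g => ?_⟩,
    ?_, ?_, fun p hp => ⟨fun g => ?_, fun g => ?_⟩⟩
  · obtain ⟨γ, hγ, hu⟩ := h1 _ (hd g)
    rw [tsum_eq_single γ]
    · exact if_pos hγ
    · exact fun γ' hγ' => if_neg fun h => hγ' (hu _ h)
  · simpa using h.cusp1 _ (hd g)
  · simpa using h.cusp2 _ (hd g)
  · refine ne_top_of_le_ne_top h2.ne ?_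
    have hm : MeasurableSet (F ∩ {x | 1 ≤ |(Matrix.of x).det| ∧ |(Matrix.of x).det| ≤ 2}) :=
      hF.inter ((measurableSet_le measurable_const continuous_detE.measurable.abs).inter
        (measurableSet_le continuous_detE.measurable.abs measurable_const))
    calc _ = ∫⁻ g, (F ∩ {x | 1 ≤ |(Matrix.of x).det| ∧ |(Matrix.of x).det| ≤ 2}).indicator
          (fun x => ‖φ (Matrix.of x)‖ₑ ^ 2) (co g) ∂mu := by
          refine lintegral_congr fun g => ?_
          simp only [Set.indicator_apply, Set.mem_inter_iff, Set.mem_ofPred_eq, of_co, Sh, dt,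
            mul_one]
          by_cases a1 : co g ∈ F <;> by_cases a2 : 1 ≤ |g.val.det| ∧ |g.val.det| ≤ 2 <;>
            simp [a1, a2]
      _ ≤ _ := by
          rw [← measurableEmbedding_co.lintegral_map, mu, measurableEmbedding_co.map_comap]
          refine (lintegral_mono' Measure.restrict_le_self le_rfl).trans (le_of_eq ?_)
          rw [lintegral_indicator hm, nu, restrict_withDensity hm,
            lintegral_withDensity_eq_lintegral_mul_non_measurable _ measurable_dens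
              (Filter.Eventually.of_forall fun x => ENNReal.ofReal_lt_top)]
          refine lintegral_congr fun x => ?_
          rw [Pi.mul_apply, dens, sq_enorm, ← ENNReal.ofReal_mul (by positivity), inv_pow,
            div_eq_inv_mul]
  · obtain ⟨g, hg, h0⟩ := h.nonzero
    exact ⟨mkG g, by rwa [val_mkG hg]⟩
  · have hp' : (p : ℝ) ≠ 0 := by exact_mod_cast hp.ne_zero
    rw [el1, ← h.hecke1 p hp _ (hd g)]
    simp [TA, ← mul_assoc, val_dg, hp']
  · have hp' : (p : ℝ) ≠ 0 := by exact_mod_cast hp.ne_zero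
    rw [el2, ← h.hecke2 p hp _ (hd g)]
    simp [TB, ← mul_assoc, val_dg, hp']

section
variable {β : G → ℝ≥0∞} {e1 e2 : ℕ → ℂ} {f : G → ℂ}

lemma Good.conv (hβ : Measurable β) (h1 : DWt io β) (h : Good β e1 e2 f) :
    ∃ k, Ker k ∧ Good β e1 e2 (conv k f) := by
  obtain ⟨k, hk, h0⟩ := exists_ker h.cusp.cont h.ne
  refine ⟨k, hk, h.cusp.conv hk, N2_conv hβ h1 h.cusp.toAut hk h.fin, h0, fun p hp =>
    ⟨fun g => ?_, fun g => ?_⟩⟩
  · rw [TA_conv hk h.cusp.cont, ← conv_const_mul, funext (h.hk p hp).1]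
  · rw [TB_conv hk h.cusp.cont, ← conv_const_mul, funext (h.hk p hp).2]

lemma Good.smooth (hβ : Measurable β) (h1 : DWt io β) (h : Good β e1 e2 f) (B : ℕ) :
    ∃ f', Good β e1 e2 f' ∧ Dec B f' ∧ Dec B (dual f') := by
  induction B with
  | zero =>
    obtain ⟨k, hk, h'⟩ := h.conv hβ h1
    obtain ⟨C, hC, hm⟩ := moderate hβ h1 h.cusp.toAut h.fin hk
    obtain ⟨C', hC', hm'⟩ := moderate (β := fun g => β (du g)) (hβ.comp continuous_du.measurable)
      (dwt_du h1) h.cusp.toAut.dual (by rw [N2_dual hβ h1 h.cusp.toAut]; exact h.fin) hk.du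
    exact ⟨_, h', dec_zero h'.cusp.toAut hC hm,
      dec_zero h'.cusp.toAut.dual hC' (by rw [dual_conv]; exact hm')⟩
  | succ B ih =>
    obtain ⟨f', h', d1, d2⟩ := ih
    obtain ⟨k, hk, h''⟩ := h'.conv hβ h1
    exact ⟨_, h'', dec_step h'.cusp.toAut hk d1,
      by rw [dual_conv]; exact dec_step h'.cusp.toAut.dual hk.du d2⟩

def bb (e1 e2 : ℕ → ℂ) : AF := cube * qe 2 fun m n => ‖AC e1 e2 m n‖ₑ ^ 2

lemma bb_mult : (bb e1 e2).IsMultiplicative :=
  cube_mult.mul (qe_mult two_ne_zero (by simp [AC_one]) fun m n m' n' h h0 h0' => by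
    rw [AC_mul _ _ h h0 h0', enorm_mul, mul_pow])

lemma qs_nonneg (a b : ℂ) (j : ℕ) : 0 ≤ qs a b j :=
  sum_nonneg fun _ _ => by split_ifs <;> positivity

lemma bb_pow {p : ℕ} (hp : p.Prime) (j : ℕ) :
    bb e1 e2 (p ^ j) = ENNReal.ofReal (bs (e1 p) (e2 p) j) := by
  rw [bb, mul_pow_apply _ _ hp, bs, ENNReal.ofReal_sum_of_nonneg fun q _ =>
    mul_nonneg (by split_ifs <;> norm_num) (qs_nonneg _ _ _)]
  refine sum_congr rfl fun q _ => ?_
  rw [cube_pow hp, qe_pow _ _ hp, ENNReal.ofReal_mul' (qs_nonneg _ _ _), qs,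
    ENNReal.ofReal_sum_of_nonneg fun _ _ => by split_ifs <;> positivity]
  congr 1
  · split_ifs <;> simp
  · refine sum_congr rfl fun b _ => ?_
    split_ifs
    · rw [AC_pow _ _ hp, sq_enorm]
    · simp

lemma Good.key (hβ : Measurable β) (h1 : DWt io β) (h : Good β e1 e2 f) (a : ℕ) {t d o : AF}
    (hid : t * bb e1 e2 = d * o) (ho : ∀ N, N ≠ 0 → o N = 1) (ht : ∀ N, t N ≤ 1) :
    Key (2 * (25 + a)) t d := by
  obtain ⟨f', h', d1, d2⟩ := h.smooth hβ h1 (3 * (25 + a) + 60 + 2)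
  obtain ⟨C, hC, b1⟩ := Th_le h'.cusp hβ h1 a d1
  obtain ⟨C', hC', b2⟩ := Th_le (β := fun g => β (du g)) h'.cusp.dual
    (hβ.comp continuous_du.measurable) (dwt_du h1) a d2
  refine ⟨gap f', C + (2 * N2 β f' + C'), gap_ne_zero h'.cusp h'.hk hβ h1 h'.ne,
    by have := h'.fin; finiteness, fun X hX => key_arith (κ := kap f') (Θ := Th β f')
      (fun s t => kap_anti f') (fun y => kap_gap h'.cusp.cont) hid ho ht
      (by have := h'.fin; finiteness) (by omega) (fun X => ?_)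
      (fun Y hY => (b1 Y hY).trans (by gcongr; exact le_self_add)) (fun Y hY => ?_) hX⟩
  · rw [Th_shell h'.cusp h'.hk hβ h1, bb, ← tsum_three _ fun N => kap f' (N / X)]
    push_cast
    rfl
  · have hY0 : 0 < Y := by linarith
    have k1 := func_eq hβ h1 h'.cusp.toAut hY0
    have k2 := func_eq hβ h1 h'.cusp.toAut (half_pos hY0)
    have k3 : ENNReal.ofReal Y * Th (fun g => β (du g)) (dual f') Y⁻¹ ≤ C' := by
      refine (mul_le_mul_right (b2 _ (inv_pos.2 hY0)) _).trans ?_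
      rw [mul_left_comm, ← ENNReal.ofReal_mul hY0.le]
      refine mul_le_of_le_one_right' (ENNReal.ofReal_le_one.2 ?_)
      rw [← mul_inv_cancel₀ hY0.ne']
      gcongr
      exact pow_le_of_le_one (by positivity) (inv_le_one_of_one_le₀ hY) (by omega)
    have k4 : ENNReal.ofReal Y = 2 * ENNReal.ofReal (Y / 2) := by
      rw [← ENNReal.ofReal_ofNat 2, ← ENNReal.ofReal_mul (by norm_num)]
      congr 1; ring
    calc _ ≤ N2 β f' + Th β f' Y := le_add_self
      _ ≤ 2 * (ENNReal.ofReal (Y / 2) * N2 β f') + C' := by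
          rw [k1, mul_add, ← mul_assoc, ← k4]; gcongr
      _ ≤ 2 * (N2 β f' + Th β f' (Y / 2)) + C' := by
          rw [k2]; gcongr; exact le_self_add
      _ ≤ _ := by
          rw [mul_add, add_comm (2 * N2 β f'), add_assoc]
          exact add_le_add_right le_add_self _

end

lemma theta_nonneg (α : ℕ → Fin 3 → ℂ) (p : ℕ) : 0 ≤ theta α p :=
  Real.iSup_nonneg fun _ => abs_nonneg _

lemma local_data {α : ℕ → Fin 3 → ℂ} {p : ℕ} (hp : p.Prime) (h : α p 0 * α p 1 * α p 2 = 1)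
    (ha : el2 α p = starRingEnd ℂ (el1 α p)) (hn : theta α p ≠ 0) :
    ∃ d : ℕ → ℝ, (∀ n, 0 ≤ d n) ∧ d 0 = 1 ∧
      (∀ n : ℕ, (((p : ℝ) ^ theta α p) ^ (n + 1) - 1) ^ 2 / (n + 1) ≤ d (n + 1)) ∧
      1 ≤ d 2 ∧ ∀ j, bs (el1 α p) (el2 α p) j = ∑ q ∈ antidiagonal j, d q.2 := by
  obtain ⟨r, u, z, h1, h2, h3, h4, h5, h6, h7, i, h8⟩ := shape h ha fun h => hn (by simp [theta, h])
  have hp1 : (1 : ℝ) < p := by exact_mod_cast hp.one_lt
  have hl : 0 < Real.logb p r := Real.logb_pos hp1 h1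
  have : theta α p = Real.logb p r := by
    refine le_antisymm (ciSup_le fun j => ?_) (le_ciSup_of_le (Set.finite_range _).bddAbove i ?_)
    · rcases h7 j with h | h | h <;> simp [h, abs_of_pos hl, hl.le]
    · rw [h8, abs_of_pos hl]
  rw [this, Real.rpow_logb (by linarith) hp1.ne' (by linarith), el1, el2, h5, h6]
  exact local_pos h1 h2 h3 h4

theorem CuspForm3.core {φ : Mat → ℂ} {α : ℕ → Fin 3 → ℂ} (h : CuspForm3 φ α) :
    ∃ t d : AF, (∀ a, Key (2 * (25 + a)) t d) ∧ (∀ j, t j ≤ 1) ∧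
      (∀ j p, t j ≠ 0 → p.Prime → p ∣ j → theta α p = 0) ∧
      (∀ p : ℕ, p.Prime → ∀ n : ℕ,
        ENNReal.ofReal ((((p : ℝ) ^ theta α p) ^ (n + 1) - 1) ^ 2 / (n + 1)) ≤ d (p ^ (n + 1))) ∧
      ∀ p : ℕ, p.Prime → theta α p ≠ 0 → 1 ≤ d (p ^ 2) := by
  obtain ⟨β, hβ, h1, hg⟩ := h.good
  have ha : ∀ p : ℕ, p.Prime → el2 α p = starRingEnd ℂ (el1 α p) := by
    intro p hp
    have := adjoint hp hβ h1 hg.cusp.toAut hg.fin (N2_ne_zero hβ h1 hg.cusp.toAut hg.ne)
      (hg.hk p hp).1 (hg.hk p hp).2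
    rw [map_mul, map_natCast] at this
    exact mul_left_cancel₀ (by exact_mod_cast hp.ne_zero) this
  have hl := fun p hp => local_data hp (h.prod_eq p hp) (ha p hp)
  choose! d d1 d2 d3 d4 d5 using hl
  let t := mkMul fun p j => if j = 0 ∨ theta α p = 0 then 1 else 0
  let D := mkMul fun p j => if theta α p = 0 then bb (el1 α) (el2 α) (p ^ j) else
    ENNReal.ofReal (d p j)
  have hD : ∀ p : ℕ, p.Prime → ∀ j, D (p ^ j) = if theta α p = 0 then bb (el1 α) (el2 α) (p ^ j)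
      else ENNReal.ofReal (d p j) := by
    intro p hp j
    refine mkMul_pow hp ?_ j
    split_ifs with h
    · rw [pow_zero, bb_mult.1]
    · rw [d2 p hp h, ENNReal.ofReal_one]
  have ht : ∀ j, t j ≤ 1 := by
    intro j
    rcases eq_or_ne j 0 with rfl | hj
    · simp
    · rw [mkMul_apply _ hj]
      exact prod_le_one' fun p _ => by beta_reduce; split_ifs <;> simp
  refine ⟨t, D, fun a => hg.key hβ h1 a (o := mkMul fun _ _ => 1) ?_
    (fun N hN => by simp [mkMul_apply _ hN]) ht, ht, fun j p hj hp hd => ?_, fun p hp n => ?_,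
    fun p hp hn => ?_⟩
  · rw [ArithmeticFunction.IsMultiplicative.eq_iff_eq_on_prime_powers _
      ((mkMul_mult _).mul bb_mult) _ ((mkMul_mult _).mul (mkMul_mult _))]
    intro p j hp
    rw [mul_pow_apply _ _ hp, mul_pow_apply _ _ hp, ← Nat.sum_antidiagonal_swap (f := fun q =>
      D (p ^ q.1) * _)]
    simp only [hD p hp, mkMul_pow (c := fun _ _ => 1) hp rfl, mul_one, Prod.fst_swap,
      mkMul_pow (c := fun p j => if j = 0 ∨ theta α p = 0 then 1 else 0) hp (by simp)]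
    by_cases h0 : theta α p = 0
    · simp [h0]
    · simp only [h0, or_false, if_false]
      rw [← ENNReal.ofReal_sum_of_nonneg fun q _ => d1 p hp h0 _, ← d5 p hp h0, ← bb_pow hp,
        sum_eq_single (0, j)]
      · simp
      · intro q hq hne
        rw [if_neg, zero_mul]
        intro h
        rw [HasAntidiagonal.mem_antidiagonal] at hq
        exact hne (Prod.ext h (by simpa [h] using hq))
      · simp
  · have hj0 : j ≠ 0 := by rintro rfl; simp at hj
    rw [mkMul_apply _ hj0, Finsupp.prod, prod_ne_zero_iff] at hj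
    have := hj p (by simp [hp, hd, hj0])
    by_contra h0
    simp [h0, (hp.factorization_pos_of_dvd hj0 hd).ne'] at this
  · rw [hD p hp]
    split_ifs with h0
    · simp [h0]
    · exact ENNReal.ofReal_le_ofReal (d3 p hp h0 n)
  · rw [hD p hp, if_neg hn]
    exact ENNReal.one_le_ofReal.2 (d4 p hp hn)

end Pool.Agent.Lib.MP_fa98d2_nt
end
end

-- part Pool.Agent.Lib.MP_fa98d2_nt.Final
section

/- Consequences for the set of tempered primes. -/

open Finset Filter Topology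
open scoped ENNReal

noncomputable section

namespace Pool.Agent.Lib.MP_fa98d2_nt

variable {φ : Mat → ℂ} {α : ℕ → Fin 3 → ℂ}

def pw (x : Nat.Primes × ℕ) : ℕ+ := ⟨x.1 ^ (x.2 + 1), pow_pos x.1.2.pos _⟩

lemma pw_inj : Function.Injective pw := by
  intro x y h
  have := Nat.Prime.pow_inj x.1.2 y.1.2 (congrArg PNat.val h)
  exact Prod.ext (Subtype.ext this.1) this.2

lemma lt_B (σ : ℝ) : σ < (2 * (25 + ⌈σ⌉₊) : ℕ) := by
  have := Nat.le_ceil σ
  have : (0 : ℝ) ≤ ⌈σ⌉₊ := by positivity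
  push_cast
  linarith

lemma CuspForm3.sumA (h : CuspForm3 φ α) {σ : ℝ} (h0 : 0 < σ)
    (hs : Summable fun p : TemperedPrimes α => (p : ℝ) ^ (-σ)) :
    Summable fun x : Nat.Primes × ℕ => (((x.1 : ℝ) ^ theta α x.1) ^ (x.2 + 1) - 1) ^ 2 /
      (x.2 + 1) * ((pw x : ℕ) : ℝ) ^ (-σ) := by
  obtain ⟨t, d, hk, h1, h2, h3, h4⟩ := h.core
  have := (hk ⌈σ⌉₊).dir h0 (lt_B σ) (tsum_ne_top h1 h2 h0 hs)
  replace := ne_top_of_le_ne_top this (ENNReal.tsum_comp_le_tsum_of_injective pw_inj _)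
  replace := ne_top_of_le_ne_top this (ENNReal.tsum_le_tsum fun x =>
    mul_le_mul_left (h3 x.1 x.1.2 x.2) _)
  refine (ENNReal.summable_toReal this).congr fun x => ?_
  rw [← ENNReal.ofReal_mul (by positivity), ENNReal.toReal_ofReal (by positivity)]

theorem CuspForm3.partA (h : CuspForm3 φ α) {σ : ℝ} (h0 : 0 < σ)
    (hs : Summable fun p : TemperedPrimes α => (p : ℝ) ^ (-σ)) :
    Summable fun x : Nat.Primes × ℕ+ => ((x.1 : ℝ) ^ (x.2 * theta α x.1) - 1) ^ 2 /
      (x.2 * (x.1 : ℝ) ^ (x.2 * σ)) := by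
  rw [← (Equiv.prodCongr (Equiv.refl Nat.Primes) Equiv.pnatEquivNat.symm).summable_iff]
  refine (h.sumA h0 hs).congr fun x => ?_
  have : (0 : ℝ) < x.1 := by exact_mod_cast x.1.2.pos
  have e : ∀ s : ℝ, (x.1 : ℝ) ^ (((x.2 + 1 : ℕ) : ℝ) * s) = ((x.1 : ℝ) ^ s) ^ (x.2 + 1) :=
    fun s => by rw [mul_comm, Real.rpow_mul_natCast this.le]
  simp only [Function.comp_apply, Equiv.prodCongr_apply, Prod.map_fst, Prod.map_snd,
    Equiv.refl_apply, Equiv.pnatEquivNat_symm_apply, Nat.succPNat_coe, Nat.succ_eq_add_one, e, pw,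
    PNat.mk_coe]
  push_cast
  rw [Real.rpow_neg (by positivity), ← Real.rpow_pow_comm this.le, ← div_div, div_eq_mul_inv _ (_ ^ _)]

theorem CuspForm3.partB (h : CuspForm3 φ α) {q : ℕ} (hq : q.Prime) :
    ¬ Summable fun p : TemperedPrimes α => (p : ℝ) ^ (-max (1 / 2) (2 * theta α q)) := by
  intro hs
  rcases le_total (2 * theta α q) (1 / 2) with hc | hc
  · rw [max_eq_left hc] at hs
    obtain ⟨t, d, hk, h1, h2, h3, h4⟩ := h.core
    have := (hk 0).dir (σ := 1 / 2) (by norm_num) (by norm_num)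
      (tsum_ne_top h1 h2 (by norm_num) hs)
    replace := ne_top_of_le_ne_top this (ENNReal.tsum_comp_le_tsum_of_injective
      (f := fun p => pw (p, 1)) (fun p q h => congrArg Prod.fst (pw_inj h)) _)
    replace := ne_top_of_le_ne_top this (ENNReal.tsum_le_tsum
      (f := fun p : Nat.Primes => ENNReal.ofReal (if theta α p = 0 then 0 else 1 / p)) fun p => ?_)
    · have s1 := ENNReal.summable_toReal this
      have s2 := ((summable_subtype_iff_indicator (s := TemperedPrimes α)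
        (f := fun p : ℕ => (p : ℝ) ^ (-(1 / 2) : ℝ))).1 hs).comp_injective
        (i := fun p : Nat.Primes => (p : ℕ)) Subtype.val_injective
      refine Nat.Primes.not_summable_one_div ((s1.add s2).of_nonneg_of_le
        (fun p => by positivity) fun p => ?_)
      have hp : (1 : ℝ) ≤ p := by exact_mod_cast p.2.pos
      by_cases h0 : theta α p = 0
      · simp only [h0, if_true, Function.comp_apply, ENNReal.ofReal_zero, ENNReal.toReal_zero,
          zero_add]
        rw [Set.indicator_of_mem (show (p : ℕ) ∈ TemperedPrimes α from ⟨p.2, h0⟩), one_div,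
          ← Real.rpow_neg_one]
        exact Real.rpow_le_rpow_of_exponent_le hp (by norm_num)
      · simp only [h0, if_false, Function.comp_apply]
        rw [ENNReal.toReal_ofReal (by positivity), le_add_iff_nonneg_right]
        exact Set.indicator_nonneg (fun _ _ => by positivity) _
    · split_ifs with h0
      · simp
      · refine le_trans (le_of_eq ?_) (mul_le_mul_left (h4 p p.2 h0) _)
        have : (0 : ℝ) < p := by exact_mod_cast p.2.pos
        simp only [pw, PNat.mk_coe, one_mul]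
        push_cast
        rw [← Real.rpow_natCast_mul this.le, one_div, ← Real.rpow_neg_one]
        norm_num
  · rw [max_eq_right hc] at hs
    have h1 := (h.sumA (by linarith) hs).prod_factor ⟨q, hq⟩
    have hq1 : (1 : ℝ) < q := by exact_mod_cast hq.one_lt
    have hr : 1 < (q : ℝ) ^ theta α q := Real.one_lt_rpow hq1 (by linarith)
    have e : ∀ n : ℕ, ((pw (⟨q, hq⟩, n) : ℕ) : ℝ) ^ (-(2 * theta α q)) =
        ((((q : ℝ) ^ theta α q) ^ (n + 1)) ^ 2)⁻¹ := by
      intro n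
      simp only [pw, PNat.mk_coe]
      push_cast
      rw [Real.rpow_neg (by positivity), ← Real.rpow_pow_comm (by positivity), mul_comm 2,
        Real.rpow_mul (by positivity), Real.rpow_two, pow_right_comm]
    simp only [e] at h1
    generalize (q : ℝ) ^ theta α q = r at *
    have hr' : 0 < 1 - r⁻¹ := sub_pos.2 (inv_lt_one_of_one_lt₀ hr)
    apply Real.not_summable_one_div_natCast
    rw [← summable_nat_add_iff 1, ← summable_mul_left_iff (pow_pos hr' 2).ne']
    refine h1.of_nonneg_of_le (fun n => by positivity) fun n => ?_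
    have : r ≤ r ^ (n + 1) := le_self_pow₀ hr.le n.succ_ne_zero
    calc _ ≤ (1 - (r ^ (n + 1))⁻¹) ^ 2 * (1 / (n + 1 : ℝ)) := by push_cast; gcongr
      _ = _ := by field_simp

open Classical in
lemma lower {d : AF} (h3 : ∀ p : ℕ, p.Prime → ∀ n : ℕ,
      ENNReal.ofReal ((((p : ℝ) ^ theta α p) ^ (n + 1) - 1) ^ 2 / (n + 1)) ≤ d (p ^ (n + 1)))
    (h4 : ∀ p : ℕ, p.Prime → theta α p ≠ 0 → 1 ≤ d (p ^ 2)) {q : ℕ} (hq : q.Prime) {s : ℝ}
    (h0 : 0 < s) (hs : s < max (1 / 2) (2 * theta α q)) :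
    ∀ᶠ y : ℝ in atTop, ∃ X : ℝ, 0 < X ∧ X ≤ y ∧ y ≤ q * X ∧ ENNReal.ofReal (X ^ s) ≤
      ∑' k : ℕ+, (if X ≤ 16 * (k : ℕ) ∧ (k : ℕ) ≤ X then d k else 0) +
        #{p ∈ range (⌊y⌋₊ + 1) | p.Prime ∧ theta α p = 0} := by
  have hq1 : (1 : ℝ) < q := by exact_mod_cast hq.one_lt
  rcases lt_max_iff.1 hs with hs | hs
  · filter_upwards [Real.tendsto_sqrt_atTop.eventually (many_primes (s := 2 * s) (by linarith)),
      eventually_ge_atTop 1] with y hy h1
    have hy0 : 0 < y := by linarith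
    refine ⟨y, hy0, le_rfl, le_mul_of_one_le_left hy0.le hq1.le, ?_⟩
    rw [Real.rpow_mul (by positivity), Real.rpow_two, Real.sq_sqrt hy0.le] at hy
    rw [tsum_pnat_nat (fun k => if y ≤ 16 * (k : ℝ) ∧ (k : ℝ) ≤ y then d k else 0) (by simp)]
    refine (ENNReal.ofReal_le_ofReal hy).trans ?_
    rw [ENNReal.ofReal_natCast, ← card_filter_add_card_filter_not (p := fun p => ¬ theta α p = 0),
      Nat.cast_add]
    have hm : ∀ p ∈ Ioc ⌊√y / 4⌋₊ ⌊√y⌋₊, √y / 4 < p ∧ p ≤ √y := fun p hp =>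
      ⟨Nat.lt_of_floor_lt (mem_Ioc.1 hp).1, (Nat.le_floor_iff (by positivity)).1 (mem_Ioc.1 hp).2⟩
    have hsq := Real.sq_sqrt hy0.le
    have hs0 := Real.sqrt_nonneg y
    gcongr
    · refine le_trans ?_ (ENNReal.sum_le_tsum (image (· ^ 2)
        {p ∈ {p ∈ Ioc ⌊√y / 4⌋₊ ⌊√y⌋₊ | p.Prime} | ¬ theta α p = 0}))
      rw [sum_image fun a _ b _ h => Nat.pow_left_injective two_ne_zero h, card_eq_sum_ones,
        Nat.cast_sum]
      refine sum_le_sum fun p hp => ?_
      simp only [mem_filter] at hp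
      have := hm p hp.1.1
      rw [if_pos (by push_cast; constructor <;> nlinarith [(by positivity : (0 : ℝ) ≤ p)])]
      exact_mod_cast h4 p hp.1.2 hp.2
    · intro p hp
      simp only [mem_filter, not_not, mem_range] at hp ⊢
      have := hm p hp.1.1
      refine ⟨Nat.lt_succ_of_le (Nat.le_floor (this.2.trans ?_)), hp.1.2, hp.2⟩
      rw [Real.sqrt_le_left hy0.le]
      nlinarith
  · have hr : 1 < (q : ℝ) ^ theta α q := Real.one_lt_rpow hq1 (by linarith)
    have hρ : 1 < ((q : ℝ) ^ theta α q) ^ 2 / q ^ s := by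
      rw [one_lt_div (by positivity), ← Real.rpow_mul_natCast (by positivity)]
      exact Real.rpow_lt_rpow_of_exponent_lt hq1 (by push_cast; linarith)
    have e1 := (tendsto_pow_const_div_const_pow_of_one_lt 1 hρ).eventually_le_const
      (show (0 : ℝ) < 1 / 4 by norm_num)
    have e2 := (tendsto_pow_atTop_atTop_of_one_lt hr).eventually_ge_atTop 2
    obtain ⟨K, hK⟩ := eventually_atTop.1 (e1.and e2)
    filter_upwards [eventually_ge_atTop ((q ^ (K + 1) : ℕ) : ℝ)] with y hy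
    have hl : K + 1 ≤ Nat.log q ⌊y⌋₊ := Nat.le_log_of_pow_le hq.one_lt (Nat.le_floor hy)
    have hy0 : 0 ≤ y := le_trans (by positivity) hy
    have l1 := Nat.pow_log_le_self q (x := ⌊y⌋₊) (by rintro h; simp [h] at hl)
    have l2 := Nat.lt_pow_succ_log_self hq.one_lt ⌊y⌋₊
    obtain ⟨n, hn⟩ : ∃ n, Nat.log q ⌊y⌋₊ = n + 1 := ⟨_, (Nat.sub_add_cancel (by omega)).symm⟩
    rw [hn] at hl l1 l2
    refine ⟨(q ^ (n + 1) : ℕ), by exact_mod_cast pow_pos hq.pos _, (Nat.le_floor_iff hy0).1 l1, ?_, ?_⟩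
    · have := (Nat.floor_lt hy0).1 l2
      rw [pow_succ'] at this
      exact_mod_cast this.le
    · refine le_trans ?_ le_self_add
      refine le_trans ?_ (ENNReal.le_tsum (pw (⟨q, hq⟩, n)))
      simp only [pw, PNat.mk_coe]
      rw [if_pos ⟨le_mul_of_one_le_left (by positivity) (by norm_num), le_rfl⟩]
      refine le_trans (ENNReal.ofReal_le_ofReal ?_) (h3 q hq n)
      obtain ⟨k1, k2⟩ := hK (n + 1) (by omega)
      push_cast at k1 ⊢
      rw [← Real.rpow_pow_comm (by positivity)]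
      rw [pow_one, div_pow, pow_right_comm, div_div_eq_mul_div, div_le_iff₀ (by positivity)] at k1
      rw [le_div_iff₀ (by positivity)]
      nlinarith

open Classical in
lemma CuspForm3.psi_ge (h : CuspForm3 φ α) {q : ℕ} (hq : q.Prime) {s : ℝ}
    (hs : s < max (1 / 2) (2 * theta α q)) :
    ∀ᶠ x : ℝ in atTop, x ^ s ≤ psi (fun p => theta α p = 0) ⌊x⌋₊ := by
  wlog h0 : 0 < s generalizing s
  · filter_upwards [this (s := 1 / 4) (lt_max_of_lt_left (by norm_num)) (by norm_num),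
      eventually_ge_atTop 1] with x h h1
    exact (Real.rpow_le_rpow_of_exponent_le h1 (by linarith)).trans h
  obtain ⟨t, d, hk, h1, h2, h3, h4⟩ := h.core
  obtain ⟨s1, a1, a2⟩ := exists_between hs
  have a3 : 0 < s1 := by linarith
  obtain ⟨η, b1, b2⟩ := exists_between ((div_lt_one a3).2 a1)
  have b3 : 0 < η := lt_trans (by positivity) b1
  rw [div_lt_iff₀ a3] at b1
  obtain ⟨C, hC, hc⟩ := (hk ⌈2 / (1 - η)⌉₊).count h1 h2 b3.le
    ((div_le_iff₀' (by linarith)).1 (lt_B _).le)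
  filter_upwards [(tendsto_rpow_atTop b3).eventually (lower h3 h4 hq a3 a2),
    (tendsto_rpow_atTop (sub_pos.2 b1)).eventually_ge_atTop ((C + 1) * q ^ s1),
    eventually_ge_atTop 1] with x ⟨X, x1, x2, x3, x4⟩ x5 x6
  have x7 : x ^ η ≤ x := Real.rpow_le_self_of_one_le x6 b2.le
  have c1 := hc X x1 ⌊x⌋₊ (Nat.le_floor (by exact_mod_cast x6))
    (x2.trans (by gcongr; exact (Nat.lt_floor_add_one x).le))
  have c2 : #{p ∈ range (⌊x ^ η⌋₊ + 1) | p.Prime ∧ theta α p = 0} ≤
      psi (fun p => theta α p = 0) ⌊x⌋₊ := by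
    refine le_trans (card_le_card ?_) (count_le_psi _)
    gcongr
  replace x4 := x4.trans (add_le_add c1 (Nat.cast_le.2 c2))
  rw [← ENNReal.ofReal_natCast, ← ENNReal.ofReal_add (by positivity) (by positivity),
    ENNReal.ofReal_le_ofReal_iff (by positivity)] at x4
  have hq0 : (0 : ℝ) < q := by exact_mod_cast hq.pos
  refine le_of_mul_le_mul_left ?_ (show 0 < (C + 1) * (q : ℝ) ^ s1 by positivity)
  calc _ ≤ x ^ (η * s1 - s) * x ^ s := by gcongr
    _ = (x ^ η) ^ s1 := by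
        rw [← Real.rpow_add (by linarith), sub_add_cancel, Real.rpow_mul (by linarith)]
    _ ≤ (q * X) ^ s1 := by gcongr
    _ ≤ q ^ s1 * (C * psi (fun p => theta α p = 0) ⌊x⌋₊ + psi (fun p => theta α p = 0) ⌊x⌋₊) := by
        rw [Real.mul_rpow hq0.le x1.le]; gcongr
    _ = _ := by ring

theorem CuspForm3.partC (h : CuspForm3 φ α) {q : ℕ} (hq : q.Prime) {s : ℝ}
    (hs : s < max (1 / 2) (2 * theta α q)) : ∀ᶠ x : ℝ in atTop, x ^ s ≤
      {n : ℕ | 0 < n ∧ n ≤ x ∧ ∀ p : ℕ, p.Prime → p ∣ n → p ∈ TemperedPrimes α}.ncard := by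
  filter_upwards [h.psi_ge hq hs, eventually_ge_atTop 0] with x hx h0
  refine hx.trans (le_of_eq ?_)
  rw [psi, ← Set.ncard_coe_finset]
  congr 2
  ext n
  simp +contextual [TemperedPrimes, Nat.le_floor_iff h0, Nat.one_le_iff_ne_zero, and_assoc,
    Nat.pos_iff_ne_zero]

theorem CuspForm3.partD (h : CuspForm3 φ α) {q : ℕ} (hq : q.Prime) {c : ℝ}
    (hc : c * (1 - max (1 / 2) (2 * theta α q)) < 1) :
    ∀ᶠ x : ℝ in atTop, Real.log x ^ c ≤ {p ∈ TemperedPrimes α | (p : ℝ) ≤ x}.ncard := by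
  classical
  have hm : 1 / 2 ≤ max (1 / 2) (2 * theta α q) := le_max_left _ _
  wlog h0 : 1 < c generalizing c
  · filter_upwards [this (c := 3 / 2) (by linarith) (by norm_num),
      Real.tendsto_log_atTop.eventually_ge_atTop 1] with x h h1
    exact (Real.rpow_le_rpow_of_exponent_le h1 (by linarith)).trans h
  have a0 : 0 < c⁻¹ := by positivity
  have a1 : 1 - c⁻¹ < min 1 (max (1 / 2) (2 * theta α q)) := by
    refine lt_min (by linarith) ?_
    rw [← lt_inv_mul_iff₀ (by linarith), mul_one] at hc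
    linarith
  obtain ⟨σ, a2, a3⟩ := exists_between a1
  obtain ⟨s, a4, a5⟩ := exists_between (lt_min_iff.1 a3).2
  have a6 := (lt_min_iff.1 a3).1
  have a7 : c⁻¹ < 1 := inv_lt_one_of_one_lt₀ h0
  obtain ⟨k, hk, hp⟩ := psi_le (T := fun p => theta α p = 0) (σ := σ) (by linarith) a6
  have a8 : 0 < 1 - c * (1 - σ) := by
    have : c * c⁻¹ = 1 := mul_inv_cancel₀ (by linarith)
    nlinarith
  filter_upwards [h.psi_ge hq a5, eventually_gt_atTop 1, ((tendsto_rpow_atTop a8).comp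
    Real.tendsto_log_atTop).eventually_ge_atTop (k / (s - σ))] with x x1 x2 x3
  have hl := Real.log_pos x2
  have e : {p ∈ TemperedPrimes α | (p : ℝ) ≤ x}.ncard =
      #{p ∈ range (⌊x⌋₊ + 1) | p.Prime ∧ theta α p = 0} := by
    rw [← Set.ncard_coe_finset]
    congr 1
    ext n
    simp [TemperedPrimes, Nat.lt_succ_iff, Nat.le_floor_iff (by linarith : 0 ≤ x), and_comm]
  rw [e]
  have := x1.trans (hp ⌊x⌋₊)
  generalize (#{p ∈ range (⌊x⌋₊ + 1) | p.Prime ∧ theta α p = 0}) = N at *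
  replace := this.trans (mul_le_mul_of_nonneg_right (Real.rpow_le_rpow (by positivity)
    (Nat.floor_le (by linarith)) (by linarith)) (by positivity))
  rw [Real.rpow_def_of_pos (by linarith), Real.rpow_def_of_pos (by linarith : 0 < x),
    ← Real.exp_add, Real.exp_le_exp] at this
  rw [← Real.rpow_le_rpow_iff (z := 1 - σ) (by positivity) (by positivity) (by linarith),
    ← Real.rpow_mul hl.le]
  rw [Function.comp_apply, Real.rpow_sub hl, Real.rpow_one,
    div_le_div_iff₀ (by linarith) (by positivity)] at x3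
  refine le_of_mul_le_mul_left ?_ hk
  linarith

end Pool.Agent.Lib.MP_fa98d2_nt
end
end
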