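import Mathlib

-- part Pool.Agent.Lib.MP_fa98d2_nt.LocA
section

/- Partial fractions, killing factors and Gaussian averages on a vertical line. -/

open Complex Filter Topology MeasureTheory Set
open scoped Real

noncomputable section

namespace Pool.Agent.Lib.MP_fa98d2_nt

lemma factor_one {U : Set ℂ} {f : ℂ → ℂ} (hU : IsPreconnected U) (hf : AnalyticOnNhd ℂ f U)
    {z : ℂ} (hz : z ∈ U) (h0 : f z ≠ 0) {ρ : ℂ} (hρ : ρ ∈ U) :
    ∃ (n : ℕ) (g : ℂ → ℂ), AnalyticOnNhd ℂ g U ∧ g ρ ≠ 0 ∧ ∀ s, f s = (s - ρ) ^ n * g s := by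
  classical
  have ho : analyticOrderAt f ρ ≠ ⊤ := fun h => h0
    (hf.eqOn_zero_of_preconnected_of_eventuallyEq_zero hU hρ (analyticOrderAt_eq_top.1 h) hz)
  obtain ⟨g₀, hg₀, hne, hev⟩ := (hf ρ hρ).analyticOrderAt_ne_top.1 ho
  set n := analyticOrderNatAt f ρ
  refine ⟨n, fun s => if s = ρ then g₀ ρ else f s / (s - ρ) ^ n, fun s hs' => ?_,
    by simpa using hne, fun s => ?_⟩
  · by_cases hs : s = ρ
    · subst hs
      refine hg₀.congr ?_
      filter_upwards [hev] with w hw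
      by_cases hw' : w = s
      · simp [hw']
      · rw [if_neg hw', hw, smul_eq_mul]
        have : (w - s) ^ n ≠ 0 := pow_ne_zero _ (sub_ne_zero.2 hw')
        field_simp
    · have h1 : AnalyticAt ℂ (fun w => f w / (w - ρ) ^ n) s :=
        (hf s hs').div (by fun_prop) (pow_ne_zero _ (sub_ne_zero.2 hs))
      refine h1.congr ?_
      filter_upwards [isOpen_ne.mem_nhds hs] with w hw
      rw [if_neg hw]
  · by_cases hs : s = ρ
    · subst hs
      simpa using hev.self_of_nhds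
    · have : (s - ρ) ^ n ≠ 0 := pow_ne_zero _ (sub_ne_zero.2 hs)
      simp only [if_neg hs]
      field_simp

lemma factor_fin {U : Set ℂ} {f : ℂ → ℂ} (hU : IsPreconnected U) (hf : AnalyticOnNhd ℂ f U)
    {z : ℂ} (hz : z ∈ U) (h0 : f z ≠ 0) (Z : Finset ℂ) (hZ : ∀ ρ ∈ Z, ρ ∈ U) :
    ∃ (n : ℂ → ℕ) (g : ℂ → ℂ), AnalyticOnNhd ℂ g U ∧ (∀ ρ ∈ Z, g ρ ≠ 0) ∧
      ∀ s, f s = (∏ ρ ∈ Z, (s - ρ) ^ n ρ) * g s := by
  classical
  induction Z using Finset.induction_on with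
  | empty => exact ⟨fun _ => 0, f, hf, by simp, by simp⟩
  | insert ρ Z hρ ih =>
    obtain ⟨n, g, hg, hne, heq⟩ := ih fun σ hσ => hZ σ (Finset.mem_insert_of_mem hσ)
    have hgz : g z ≠ 0 := fun h => h0 (by rw [heq z, h, mul_zero])
    obtain ⟨m, g', hg', hne', heq'⟩ := factor_one hU hg hz hgz (hZ ρ (Finset.mem_insert_self _ _))
    refine ⟨Function.update n ρ m, g', hg', fun σ hσ => ?_, fun s => ?_⟩
    · rcases Finset.mem_insert.1 hσ with rfl | hσ
      · exact hne'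
      · intro h
        exact hne σ hσ (by rw [heq' σ, h, mul_zero])
    · have e : ∏ σ ∈ Z, (s - σ) ^ Function.update n ρ m σ = ∏ σ ∈ Z, (s - σ) ^ n σ :=
        Finset.prod_congr rfl fun σ hσ => by
          rw [Function.update_of_ne (by rintro rfl; exact hρ hσ)]
      rw [Finset.prod_insert hρ, heq s, heq' s, Function.update_self, e]
      ring

lemma pfrac {U : Set ℂ} {f : ℂ → ℂ} (hU : IsPreconnected U) (hK : IsCompact U)
    (hf : AnalyticOnNhd ℂ f U) {z : ℂ} (hz : z ∈ U) (h0 : f z ≠ 0) :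
    ∃ (Z : Finset ℂ) (n : ℂ → ℕ) (h : ℂ → ℂ), (∀ ρ, ρ ∈ Z ↔ ρ ∈ U ∧ f ρ = 0) ∧
      (∀ ρ ∈ Z, 1 ≤ n ρ) ∧ AnalyticOnNhd ℂ h U ∧
      ∀ s ∈ U, f s ≠ 0 → logDeriv f s = ∑ ρ ∈ Z, n ρ / (s - ρ) + h s := by
  classical
  have hfin : {ρ ∈ U | f ρ = 0}.Finite :=
    (hK.finite_sdiff_of_mem_codiscreteWithin
      (hf.preimage_zero_mem_codiscreteWithin h0 hz ⟨⟨z, hz⟩, hU⟩)).subset
      fun ρ hρ => ⟨hρ.1, by simpa using hρ.2⟩
  obtain ⟨n, g, hg, hne, heq⟩ := factor_fin hU hf hz h0 hfin.toFinset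
    fun ρ hρ => (hfin.mem_toFinset.1 hρ).1
  have hg0 : ∀ s ∈ U, g s ≠ 0 := fun s hs h =>
    hne s (hfin.mem_toFinset.2 ⟨hs, by rw [heq, h, mul_zero]⟩) h
  refine ⟨hfin.toFinset, n, logDeriv g, fun ρ => hfin.mem_toFinset, fun ρ hρ => ?_,
    fun s hs => (hg s hs).deriv.div (hg s hs) (hg0 s hs), fun s hs h => ?_⟩
  · have h1 := (hfin.mem_toFinset.1 hρ).2
    rw [heq, mul_eq_zero, or_iff_left (hne ρ hρ), Finset.prod_eq_zero_iff] at h1
    obtain ⟨σ, _, h2⟩ := h1
    rw [sub_eq_zero.1 (pow_eq_zero_iff'.1 h2).1]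
    exact Nat.one_le_iff_ne_zero.2 (pow_eq_zero_iff'.1 h2).2
  · have h1 : ∀ ρ ∈ hfin.toFinset, s - ρ ≠ 0 := fun ρ hρ h2 =>
      h (by rw [sub_eq_zero.1 h2]; exact (hfin.mem_toFinset.1 hρ).2)
    generalize hfin.toFinset = Z at *
    rw [funext heq, logDeriv_mul s (Finset.prod_ne_zero_iff.2 fun ρ hρ => pow_ne_zero _ (h1 ρ hρ))
      (hg0 s hs) (by fun_prop) (hg s hs).differentiableAt,
      logDeriv_prod (f := fun ρ w => (w - ρ) ^ n ρ) (fun ρ hρ => pow_ne_zero _ (h1 ρ hρ))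
        (fun ρ _ => by fun_prop)]
    congr 1
    refine Finset.sum_congr rfl fun ρ _ => ?_
    rw [logDeriv_fun_pow (f := fun w => w - ρ) (by fun_prop), logDeriv_apply]
    simp [div_eq_mul_inv]

lemma exists_kill (S : Finset ℂ) (hS : ∀ ρ ∈ S, ρ.im ≠ 0) :
    ∃ (ι : Type) (_ : Fintype ι) (_ : Nonempty ι) (c a : ι → ℝ), (∀ j, 0 < c j) ∧ (∀ j, 0 ≤ a j) ∧
      ∀ ρ ∈ S, ∑ j, (c j : ℂ) * cexp (-(ρ * a j)) = 0 := by
  classical
  induction S using Finset.induction_on with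
  | empty => exact ⟨Unit, inferInstance, inferInstance, fun _ => 1, fun _ => 0, by simp, by simp,
      by simp⟩
  | insert ρ S hρ ih =>
    obtain ⟨ι, _, _, c, a, hc, ha, h⟩ := ih fun σ hσ => hS σ (Finset.mem_insert_of_mem hσ)
    have hi := hS ρ (Finset.mem_insert_self _ _)
    set b := π / |ρ.im| with hb
    have hb0 : 0 ≤ b := by positivity
    have key : (Real.exp (ρ.re * b) : ℂ) * cexp (-(ρ * b)) = -1 := by
      rw [Complex.ofReal_exp, ← Complex.exp_add]
      have e : ((ρ.re * b : ℝ) : ℂ) + -(ρ * b) = -((ρ.im * b : ℝ) * I) := by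
        conv_lhs => rw [← Complex.re_add_im ρ]
        simp only [add_re, ofReal_re, mul_re, I_re, mul_zero, ofReal_im, I_im, mul_one, sub_self,
          add_zero]
        push_cast; ring
      rw [e]
      rcases lt_or_gt_of_ne hi with h1 | h1
      · rw [show ρ.im * b = -π by rw [hb, abs_of_neg h1]; field_simp]
        simp [Complex.exp_pi_mul_I]
      · rw [show ρ.im * b = π by rw [hb, abs_of_pos h1]; field_simp, Complex.exp_neg,
          Complex.exp_pi_mul_I]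
        norm_num
    refine ⟨ι ⊕ ι, inferInstance, inferInstance, Sum.elim c fun j => Real.exp (ρ.re * b) * c j,
      Sum.elim a fun j => a j + b, ?_, ?_, fun σ hσ => ?_⟩
    · rintro (j | j)
      · exact hc j
      · exact mul_pos (Real.exp_pos _) (hc j)
    · rintro (j | j)
      · exact ha j
      · exact add_nonneg (ha j) hb0
    · have e : ∑ j : ι ⊕ ι, ((Sum.elim c (fun j => Real.exp (ρ.re * b) * c j) j : ℝ) : ℂ) *
          cexp (-(σ * (Sum.elim a (fun j => a j + b) j : ℝ))) =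
          (∑ j, (c j : ℂ) * cexp (-(σ * a j))) * (1 + Real.exp (ρ.re * b) * cexp (-(σ * b))) := by
        rw [Fintype.sum_sum_type, mul_add, mul_one, Finset.sum_mul]
        congr 1
        refine Finset.sum_congr rfl fun j _ => ?_
        simp only [Sum.elim_inr]
        push_cast
        rw [mul_add, neg_add, Complex.exp_add]
        ring
      rw [e]
      rcases Finset.mem_insert.1 hσ with rfl | hσ
      · rw [key]; simp
      · rw [h σ hσ, zero_mul]

/-- the Gaussian kernel -/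
def WG (k μ : ℝ) (s : ℂ) : ℂ := cexp (k * s ^ 2 + μ * s)

def gam (k μ u : ℝ) : ℝ := √(π / k) * Real.exp (-(u - μ) ^ 2 / (4 * k))

lemma gam_nonneg (k μ u : ℝ) : 0 ≤ gam k μ u := by unfold gam; positivity

lemma norm_WG (k μ σ t : ℝ) : ‖WG k μ (σ + t * I)‖ = Real.exp (k * (σ ^ 2 - t ^ 2) + μ * σ) := by
  rw [WG, Complex.norm_exp]
  congr 1
  simp [sq]

lemma continuous_WG (k μ : ℝ) : Continuous (WG k μ) := by unfold WG; fun_prop

lemma integrable_WG {k : ℝ} (hk : 0 < k) (μ : ℝ) :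
    Integrable fun t : ℝ => WG k μ (2 + t * I) := by
  have := integrable_cexp_quadratic' (b := -k) (by simpa using hk) ((4 * k + μ) * I) (4 * k + 2 * μ)
  refine this.congr (Eventually.of_forall fun t => ?_)
  simp only [WG]
  congr 1
  linear_combination (-k * t ^ 2) * I_mul_I

lemma J_exp {k : ℝ} (hk : 0 < k) (μ u : ℝ) :
    ∫ t : ℝ, cexp (-((2 + t * I) * u)) * WG k μ (2 + t * I) = gam k μ u := by
  have := integral_cexp_quadratic (b := -k) (by simpa using hk) ((4 * k + μ - u) * I)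
    (4 * k + 2 * (μ - u))
  have hk' : (k : ℂ) ≠ 0 := by exact_mod_cast hk.ne'
  convert this using 1
  · congr 1
    ext t
    rw [WG, ← Complex.exp_add]
    congr 1
    linear_combination (k * t ^ 2) * I_mul_I
  · rw [gam, Complex.ofReal_mul, Real.sqrt_eq_rpow, Complex.ofReal_cpow (by positivity),
      Complex.ofReal_exp]
    congr 2
    · simp
    · norm_num
    · push_cast
      field_simp
      linear_combination (-(4 * k + μ - u) ^ 2) * I_mul_I

lemma norm_line (u t : ℝ) : ‖cexp (-((2 + t * I) * u))‖ = Real.exp (-(2 * u)) := by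
  rw [Complex.norm_exp]
  congr 1
  simp

lemma J_series {k : ℝ} (hk : 0 < k) (μ : ℝ) {ι : Type*} [Countable ι] {e u : ι → ℝ}
    (he : Summable fun i => |e i| * Real.exp (-(2 * u i))) :
    HasSum (fun i => ((e i * gam k μ (u i) : ℝ) : ℂ))
      (∫ t : ℝ, (∑' i, e i * cexp (-((2 + t * I) * u i))) * WG k μ (2 + t * I)) := by
  have hi : ∀ i, Integrable fun t : ℝ =>
      e i * cexp (-((2 + t * I) * u i)) * WG k μ (2 + t * I) := fun i =>
    (integrable_WG hk μ).bdd_mul (c := |e i| * Real.exp (-(2 * u i)))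
      (Continuous.aestronglyMeasurable (by fun_prop))
      (Eventually.of_forall fun t => by rw [norm_mul, norm_line, Complex.norm_real]; rfl)
  have := hasSum_integral_of_summable_integral_norm hi (by
    simp only [norm_mul, norm_line, Complex.norm_real, integral_const_mul]
    exact he.mul_right _)
  simp only [mul_assoc, integral_const_mul, J_exp hk] at this
  simpa only [← mul_assoc, tsum_mul_right, Complex.ofReal_mul] using this

def QG (k μ β : ℝ) : ℝ := ∫ u in Ioi (0 : ℝ), Real.exp (β * u) * gam k μ u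

lemma J_pole {k : ℝ} (hk : 0 < k) (μ : ℝ) {β : ℝ} (hβ : β < 2) :
    ∫ t : ℝ, (2 + t * I - β)⁻¹ * WG k μ (2 + t * I) = QG k μ β := by
  have e : ∀ t : ℝ, (2 + t * I - β)⁻¹ =
      ∫ u in Ioi (0 : ℝ), Real.exp (β * u) * cexp (-((2 + t * I) * u)) := by
    intro t
    have := integral_exp_mul_complex_Ioi (a := -(2 + t * I - β)) (by simpa using hβ) 0
    rw [neg_div_neg_eq, Complex.ofReal_zero, mul_zero, Complex.exp_zero, one_div] at this
    rw [← this]
    congr 1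
    ext u
    rw [Complex.ofReal_exp, ← Complex.exp_add]
    congr 1
    push_cast; ring
  simp only [e, ← integral_mul_const]
  rw [integral_integral_swap]
  · simp only [mul_assoc, integral_const_mul, J_exp hk, QG, ← Complex.ofReal_mul]
    exact integral_ofReal
  · have := (integrable_WG hk μ).norm.mul_prod (integrableOn_exp_mul_Ioi (a := β - 2) (by linarith) 0)
    refine this.mono' (Continuous.aestronglyMeasurable ?_) (Eventually.of_forall fun p => ?_)
    · have := continuous_WG k μ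
      unfold Function.uncurry
      fun_prop
    · simp only [Function.uncurry, norm_mul, norm_line, Complex.norm_real,
        Real.norm_of_nonneg (Real.exp_pos _).le, ← Real.exp_add]
      rw [mul_comm]
      exact le_of_eq (by congr 2; ring)

lemma QG_integrand {k : ℝ} (hk : 0 < k) (μ β u : ℝ) : Real.exp (β * u) * gam k μ u =
    √(π / k) * Real.exp (k * β ^ 2 + μ * β) *
      Real.exp (-(4 * k)⁻¹ * (u - (μ + 2 * k * β)) ^ 2) := by
  rw [gam, mul_left_comm, mul_assoc, ← Real.exp_add, ← Real.exp_add]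
  congr 2
  field_simp
  ring

lemma integrable_QG {k : ℝ} (hk : 0 < k) (μ β : ℝ) :
    Integrable fun u => Real.exp (β * u) * gam k μ u := by
  simp only [QG_integrand hk]
  exact ((integrable_exp_neg_mul_sq (by positivity)).comp_sub_right _).const_mul _

lemma QG_nonneg (k μ β : ℝ) : 0 ≤ QG k μ β :=
  integral_nonneg fun u => mul_nonneg (Real.exp_pos _).le (gam_nonneg _ _ _)

lemma QG_le {k : ℝ} (hk : 0 < k) (μ β : ℝ) :
    QG k μ β ≤ 2 * π * Real.exp (k * β ^ 2 + μ * β) := by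
  refine (setIntegral_le_integral (integrable_QG hk μ β) (Eventually.of_forall fun u =>
    mul_nonneg (Real.exp_pos _).le (gam_nonneg _ _ _))).trans (le_of_eq ?_)
  simp only [QG_integrand hk]
  rw [integral_const_mul,
    integral_sub_right_eq_self (fun u => Real.exp (-(4 * k)⁻¹ * u ^ 2)), integral_gaussian,
    mul_right_comm, ← Real.sqrt_mul (by positivity),
    show π / k * (π / (4 * k)⁻¹) = (2 * π) ^ 2 by field_simp; norm_num,
    Real.sqrt_sq (by positivity)]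

lemma le_QG {k : ℝ} (hk : 0 < k) {μ β : ℝ} (hμ : 0 ≤ μ) (hβ : 0 ≤ β) :
    Real.exp (-1) * Real.exp (k * β ^ 2 + μ * β) ≤ QG k μ β := by
  set m := μ + 2 * k * β with hm
  have hm0 : 0 ≤ m := by positivity
  have hs : 0 < √k := Real.sqrt_pos.2 hk
  have h1 : ∫ u in Ioc m (m + √k), Real.exp (β * u) * gam k μ u ≤ QG k μ β :=
    setIntegral_mono_set (integrable_QG hk μ β).integrableOn
      (Eventually.of_forall fun u => mul_nonneg (Real.exp_pos _).le (gam_nonneg _ _ _))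
      (Eventually.of_forall fun u hu => lt_of_le_of_lt hm0 hu.1)
  refine le_trans ?_ h1
  have h2 := setIntegral_ge_of_const_le_real (μ := volume) (s := Ioc m (m + √k))
    (c := √(π / k) * Real.exp (k * β ^ 2 + μ * β) * Real.exp (-1)) measurableSet_Ioc (by simp)
    (f := fun u => Real.exp (β * u) * gam k μ u) (fun u hu => by
      rw [QG_integrand hk, ← hm]
      gcongr
      have : (u - m) ^ 2 ≤ √k ^ 2 := by gcongr <;> linarith [hu.1, hu.2]
      rw [Real.sq_sqrt hk.le] at this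
      rw [neg_mul, neg_le_neg_iff, inv_mul_le_iff₀ (by positivity)]
      linarith) (integrable_QG hk μ β).integrableOn
  refine le_trans ?_ h2
  rw [Real.volume_real_Ioc_of_le (by linarith), add_sub_cancel_left, Real.sqrt_div Real.pi_pos.le]
  have : 1 ≤ √π := Real.one_le_sqrt.2 (by linarith [Real.pi_gt_three])
  calc _ = 1 * (Real.exp (-1) * Real.exp (k * β ^ 2 + μ * β)) := (one_mul _).symm
    _ ≤ √π * (Real.exp (-1) * Real.exp (k * β ^ 2 + μ * β)) := by gcongr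
    _ = _ := by field_simp

end Pool.Agent.Lib.MP_fa98d2_nt
end
end

-- part Pool.Agent.Lib.MP_fa98d2_nt.LocB
section

/- A localised Landau theorem. -/

open Complex Filter Topology MeasureTheory Set
open scoped Real

noncomputable section

namespace Pool.Agent.Lib.MP_fa98d2_nt

def Rect (σ0 H : ℝ) : Set ℂ := Icc σ0 2 ×ℂ Icc (-H) H

lemma isCompact_Rect (σ0 H : ℝ) : IsCompact (Rect σ0 H) := isCompact_Icc.reProdIm isCompact_Icc

lemma convex_Rect (σ0 H : ℝ) : Convex ℝ (Rect σ0 H) :=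
  ((convex_Icc σ0 2).linear_preimage reLm).inter ((convex_Icc (-H) H).linear_preimage imLm)

lemma mem_Rect {σ0 H : ℝ} {s : ℂ} :
    s ∈ Rect σ0 H ↔ (σ0 ≤ s.re ∧ s.re ≤ 2) ∧ -H ≤ s.im ∧ s.im ≤ H := Iff.rfl

lemma rect_bound {h : ℂ → ℂ} {σ0 H B k ν : ℝ} (h0 : 0 ≤ σ0) (h2 : σ0 ≤ 2) (hH : 0 ≤ H)
    (hk : 0 ≤ k) (hν : 0 ≤ ν) (hHν : 4 + 2 * ν ≤ H ^ 2) (hd : DifferentiableOn ℂ h (Rect σ0 H))
    (hB : ∀ s ∈ Rect σ0 H, ‖h s‖ ≤ B) :
    ‖∫ t in (-H)..H, h (2 + t * I) * WG k (ν * k) (2 + t * I)‖ ≤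
      B * (2 * H * Real.exp (k * σ0 ^ 2 + ν * k * σ0) + 4) := by
  have hB0 : 0 ≤ B := (norm_nonneg _).trans (hB 2 (by simp [mem_Rect, h2, hH]))
  have hW : Differentiable ℂ (WG k (ν * k)) := by unfold WG; fun_prop
  have key := integral_boundary_rect_eq_zero_of_differentiableOn
    (fun s => h s * WG k (ν * k) s) ⟨σ0, -H⟩ ⟨2, H⟩ (by
      simp only [uIcc_of_le h2, uIcc_of_le (show -H ≤ H by linarith)]
      exact hd.mul hW.differentiableOn)
  simp only [ofReal_ofNat, smul_eq_mul] at key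
  have side : ∀ y : ℝ, y ^ 2 = H ^ 2 → -H ≤ y → y ≤ H →
      ‖∫ x : ℝ in σ0..2, h (x + y * I) * WG k (ν * k) (x + y * I)‖ ≤ B * 2 := by
    intro y hy h3 h4
    refine (intervalIntegral.norm_integral_le_of_norm_le_const (C := B) fun x hx => ?_).trans ?_
    · rw [uIoc_of_le h2] at hx
      rw [norm_mul, norm_WG, hy]
      refine (mul_le_of_le_one_right (norm_nonneg _) (Real.exp_le_one_iff.2 ?_)).trans
        (hB _ (by simp [mem_Rect, hx.1.le, hx.2, h3, h4]))
      have h5 : x ^ 2 ≤ 4 := by nlinarith [hx.1, hx.2]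
      have h6 : ν * x ≤ 2 * ν := by nlinarith [hx.2]
      nlinarith
    · gcongr
      rw [abs_of_nonneg (by linarith)]; linarith
  have left : ‖∫ y : ℝ in (-H)..H, h (σ0 + y * I) * WG k (ν * k) (σ0 + y * I)‖ ≤
      B * Real.exp (k * σ0 ^ 2 + ν * k * σ0) * (2 * H) := by
    refine (intervalIntegral.norm_integral_le_of_norm_le_const
      (C := B * Real.exp (k * σ0 ^ 2 + ν * k * σ0)) fun y hy => ?_).trans ?_
    · rw [uIoc_of_le (by linarith)] at hy
      rw [norm_mul, norm_WG]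
      gcongr
      · exact hB _ (by simp [mem_Rect, hy.1.le, hy.2, h2])
      · nlinarith [sq_nonneg y]
    · rw [abs_of_nonneg (by linarith)]
      exact le_of_eq (by ring)
  have s1 := side (-H) (by ring) le_rfl (by linarith)
  have s2 := side H rfl (by linarith) le_rfl
  set a := ∫ x : ℝ in σ0..2, h (x + (-H : ℝ) * I) * WG k (ν * k) (x + (-H : ℝ) * I)
  set b := ∫ x : ℝ in σ0..2, h (x + H * I) * WG k (ν * k) (x + H * I)
  set c := ∫ t in (-H)..H, h (2 + t * I) * WG k (ν * k) (2 + t * I)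
  set d := ∫ y : ℝ in (-H)..H, h (σ0 + y * I) * WG k (ν * k) (σ0 + y * I)
  have e : I * c = I * d + (b - a) := by linear_combination key
  have : ‖c‖ ≤ ‖d‖ + (‖b‖ + ‖a‖) := by
    have h3 := norm_add_le (I * d) (b - a)
    rw [← e, norm_mul, norm_mul, norm_I, one_mul, one_mul] at h3
    linarith [norm_sub_le b a]
  linarith

lemma tail_bound {g : ℝ → ℂ} {H B k ν : ℝ} (hH : 0 ≤ H) (hk : 1 ≤ k)
    (hHν : 4 + 2 * ν ≤ H ^ 2) (hB : ∀ t, ‖g t‖ ≤ B) :
    ‖∫ t in (Ioc (-H) H)ᶜ, g t * WG k (ν * k) (2 + t * I)‖ ≤ B * Real.exp (H ^ 2) * √π := by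
  have hB0 : 0 ≤ B := (norm_nonneg _).trans (hB 0)
  have hi : Integrable fun t : ℝ => B * Real.exp (H ^ 2) * Real.exp (-1 * t ^ 2) :=
    (integrable_exp_neg_mul_sq one_pos).const_mul _
  refine (norm_integral_le_of_norm_le hi.integrableOn ?_).trans
    ((setIntegral_le_integral hi (Eventually.of_forall fun t => by positivity)).trans
      (le_of_eq ?_))
  · refine (ae_restrict_iff' measurableSet_Ioc.compl).2 (Eventually.of_forall fun t ht => ?_)
    have h1 : H ^ 2 ≤ t ^ 2 := by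
      simp only [mem_compl_iff, mem_Ioc, not_and_or, not_lt, not_le] at ht
      rcases ht with h | h <;> nlinarith
    have := norm_WG k (ν * k) 2 t
    rw [ofReal_ofNat] at this
    rw [norm_mul, this, mul_assoc B, ← Real.exp_add]
    refine mul_le_mul (hB t) (Real.exp_le_exp.2 ?_) (Real.exp_pos _).le hB0
    nlinarith [mul_nonneg (sub_nonneg.2 hk) (sub_nonneg.2 h1),
      mul_nonneg (zero_le_one.trans hk) (sub_nonneg.2 hHν)]
  · rw [integral_const_mul, integral_gaussian, div_one]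

lemma kill_sum (Z : Finset ℂ) (n : ℂ → ℕ) {K : ℂ → ℂ} (hK : Differentiable ℂ K)
    (h0 : ∀ ρ ∈ Z, ρ.im ≠ 0 → K ρ = 0) :
    ∃ h : ℂ → ℂ, Differentiable ℂ h ∧ ∀ s ∉ Z, K s * ∑ ρ ∈ Z, n ρ / (s - ρ) =
      ∑ ρ ∈ Z with ρ.im = 0, n ρ * K ρ.re * (s - ρ.re)⁻¹ + h s := by
  refine ⟨fun s => ∑ ρ ∈ Z, n ρ * dslope K ρ s, ?_, fun s hs => ?_⟩
  · refine Differentiable.fun_sum fun ρ _ => Differentiable.const_mul ?_ _
    exact differentiableOn_univ.1 ((differentiableOn_dslope univ_mem).2 hK.differentiableOn)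
  · rw [Finset.sum_filter, ← Finset.sum_add_distrib, Finset.mul_sum]
    refine Finset.sum_congr rfl fun ρ hρ => ?_
    have h1 : s - ρ ≠ 0 := fun h => hs (by rwa [sub_eq_zero.1 h])
    have h2 := sub_smul_dslope K ρ s
    rw [smul_eq_mul] at h2
    split_ifs with h3
    · have : (ρ.re : ℂ) = ρ := Complex.ext (by simp) (by simp [h3])
      rw [this]
      field_simp
      linear_combination (-(n ρ : ℂ)) * h2
    · rw [h0 ρ hρ h3] at h2
      field_simp
      linear_combination (-(n ρ : ℂ)) * h2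

lemma gam_le {k : ℝ} (hk : 1 ≤ k) (μ u : ℝ) :
    gam k μ u ≤ 2 * Real.exp (-(u - μ) ^ 2 / (4 * k)) := by
  unfold gam
  gcongr
  rw [Real.sqrt_le_iff, div_le_iff₀ (by linarith)]
  exact ⟨by norm_num, by nlinarith [Real.pi_lt_four]⟩

lemma series_low {e : ℕ → ℝ} (he : Summable fun n => |e n| * Real.exp (-(2 * Real.log n)))
    {k a l : ℝ} (hk : 1 ≤ k) (ha : 0 ≤ a) (hl : 16 ≤ l) :
    -(2 * (∑ n ∈ Finset.range (⌊Real.exp ((l ^ 2 / 16 + l) * k)⌋₊ + 1), max (-e n) 0 +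
      ∑' n, |e n| * Real.exp (-(2 * Real.log n)))) ≤
      ∑' n, e n * gam k (l ^ 2 / 16 * k - a) (Real.log n) := by
  set x := Real.exp ((l ^ 2 / 16 + l) * k)
  have hs : Summable fun n => e n * gam k (l ^ 2 / 16 * k - a) (Real.log n) :=
    summable_ofReal.1 (J_series (by linarith : 0 < k) (l ^ 2 / 16 * k - a) he).summable
  have h2 : HasSum (fun n => if n ∈ Finset.range (⌊x⌋₊ + 1) then max (-e n) 0 else 0)
      (∑ n ∈ Finset.range (⌊x⌋₊ + 1), max (-e n) 0) := by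
    have := hasSum_sum_of_ne_finset_zero (L := SummationFilter.unconditional ℕ)
      (f := fun n => if n ∈ Finset.range (⌊x⌋₊ + 1) then max (-e n) 0 else 0)
      (s := Finset.range (⌊x⌋₊ + 1)) fun b hb => if_neg hb
    rwa [Finset.sum_congr rfl fun n hn => if_pos hn] at this
  refine hasSum_le (fun n => ?_) ((h2.add he.hasSum).mul_left 2).neg hs.hasSum
  have g0 := gam_nonneg k (l ^ 2 / 16 * k - a) (Real.log n)
  have g1 := gam_le hk (l ^ 2 / 16 * k - a) (Real.log n)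
  have p0 : 0 ≤ |e n| * Real.exp (-(2 * Real.log n)) := by positivity
  split_ifs with hn
  · have g2 : gam k (l ^ 2 / 16 * k - a) (Real.log n) ≤ 2 := by
      refine g1.trans (mul_le_of_le_one_right two_pos.le (Real.exp_le_one_iff.2 ?_))
      exact div_nonpos_of_nonpos_of_nonneg (neg_nonpos.2 (sq_nonneg _)) (by linarith)
    nlinarith [le_max_left (-e n) 0, le_max_right (-e n) 0]
  · have h3 : x < n := by
      rw [Finset.mem_range, not_lt] at hn
      exact (Nat.lt_floor_add_one x).trans_le (by exact_mod_cast hn)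
    have h4 : (l ^ 2 / 16 + l) * k < Real.log n :=
      (Real.lt_log_iff_exp_lt ((Real.exp_pos _).trans h3)).2 h3
    set u := Real.log n
    have g2 : gam k (l ^ 2 / 16 * k - a) u ≤ 2 * Real.exp (-(2 * u)) := by
      refine g1.trans ?_
      gcongr
      rw [neg_div, neg_le_neg_iff, le_div_iff₀ (by linarith)]
      set d := u - l ^ 2 / 16 * k with hd
      have d1 : l * k ≤ d := by linarith
      have d0 : 0 ≤ l * k := by positivity
      have d2 : d ^ 2 ≤ (u - (l ^ 2 / 16 * k - a)) ^ 2 := by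
        gcongr <;> linarith
      have d3 : u = d + l ^ 2 / 16 * k := by linarith
      have d4 : 16 * k * d ≤ d ^ 2 := by nlinarith
      have d5 : (l * k) ^ 2 ≤ d ^ 2 := by gcongr
      rw [d3] at *
      nlinarith
    have := neg_abs_le (e n)
    nlinarith [abs_nonneg (e n)]

lemma norm_pole {β : ℝ} (hβ : β < 2) (t : ℝ) : ‖(2 + t * I - β : ℂ)⁻¹‖ ≤ (2 - β)⁻¹ := by
  rw [norm_inv]
  refine inv_anti₀ (by linarith) ((le_of_eq ?_).trans (re_le_norm _))
  simp

lemma continuous_pole {β : ℝ} (hβ : β < 2) : Continuous fun t : ℝ => (2 + t * I - β : ℂ)⁻¹ := by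
  refine Continuous.inv₀ (by fun_prop) fun t h => ?_
  have := congrArg re h
  simp at this
  linarith

lemma pole_sum (Z : Finset ℂ) (w : ℂ → ℝ) (hZ : ∀ ρ ∈ Z, ρ.re < 2) :
    (Continuous fun t : ℝ => ∑ ρ ∈ Z, (w ρ : ℂ) * (2 + t * I - ρ.re)⁻¹) ∧
    (∀ t : ℝ, ‖∑ ρ ∈ Z, (w ρ : ℂ) * (2 + t * I - ρ.re)⁻¹‖ ≤ ∑ ρ ∈ Z, |w ρ| * (2 - ρ.re)⁻¹) ∧
    ∀ k μ : ℝ, 0 < k → ∫ t : ℝ, (∑ ρ ∈ Z, (w ρ : ℂ) * (2 + t * I - ρ.re)⁻¹) * WG k μ (2 + t * I) =
      (∑ ρ ∈ Z, w ρ * QG k μ ρ.re : ℝ) := by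
  refine ⟨continuous_finsetSum _ fun ρ hρ => (continuous_pole (hZ ρ hρ)).const_mul _,
    fun t => norm_sum_le_of_le _ fun ρ hρ => ?_, fun k μ hk => ?_⟩
  · rw [norm_mul, norm_real]
    exact mul_le_mul_of_nonneg_left (norm_pole (hZ ρ hρ) t) (abs_nonneg _)
  · simp only [Finset.sum_mul, mul_assoc]
    rw [integral_finsetSum _ fun ρ hρ => ((integrable_WG hk μ).bdd_mul
      (continuous_pole (hZ ρ hρ)).aestronglyMeasurable
      (Eventually.of_forall (norm_pole (hZ ρ hρ)))).const_mul _]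
    push_cast
    exact Finset.sum_congr rfl fun ρ hρ => by rw [integral_const_mul, J_pole hk μ (hZ ρ hρ)]

lemma main_ineq {e : ℕ → ℝ} {N D : ℂ → ℂ} {σ0 σ1 : ℝ} (h0 : 0 ≤ σ0) (h01 : σ0 < σ1)
    (h12 : σ1 < 2) (hN : ∀ s : ℂ, σ0 ≤ s.re → s.re ≤ 2 → AnalyticAt ℂ N s)
    (hD : ∀ s : ℂ, σ0 ≤ s.re → s.re ≤ 2 → AnalyticAt ℂ D s)
    (hN2 : N 2 ≠ 0) (hD0 : ∀ σ : ℝ, σ1 ≤ σ → σ ≤ 2 → D σ ≠ 0) (hN1 : N σ1 = 0)
    (he : Summable fun n => |e n| * Real.exp (-(2 * Real.log n)))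
    (hL : ∀ t : ℝ, N (2 + t * I) ≠ 0 → D (2 + t * I) ≠ 0 →
      ∑' n, (e n : ℂ) * cexp (-((2 + t * I) * Real.log n)) =
        logDeriv D (2 + t * I) - logDeriv N (2 + t * I)) {l : ℝ} (hl : 16 ≤ l) :
    ∃ c C β : ℝ, 0 < c ∧ 0 ≤ C ∧ 0 ≤ β ∧ β < σ1 ∧ ∀ k : ℝ, 1 ≤ k →
      c * Real.exp (k * σ1 ^ 2 + l ^ 2 / 16 * k * σ1) ≤
        C * (1 + Real.exp (k * β ^ 2 + l ^ 2 / 16 * k * β) +
          ∑ n ∈ Finset.range (⌊Real.exp ((l ^ 2 / 16 + l) * k)⌋₊ + 1), max (-e n) 0) := by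
  classical
  set ν := l ^ 2 / 16 with hν
  have hν0 : 0 ≤ ν := by positivity
  have h02 : σ0 ≤ 2 := by linarith
  set H := 2 + ν
  have hH : 0 ≤ H := by positivity
  have hHν : 4 + 2 * ν ≤ H ^ 2 := by simp only [H]; nlinarith
  have h2U : (2 : ℂ) ∈ Rect σ0 H := by simp [mem_Rect, h02, hH]
  obtain ⟨ZN, n, hN', zN, n1, aN, eN⟩ := pfrac (convex_Rect σ0 H).isPreconnected
    (isCompact_Rect σ0 H) (fun s hs => hN s hs.1.1 hs.1.2) h2U hN2
  obtain ⟨ZD, m, hD', zD, -, aD, eD⟩ := pfrac (convex_Rect σ0 H).isPreconnected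
    (isCompact_Rect σ0 H) (fun s hs => hD s hs.1.1 hs.1.2) h2U (by simpa using hD0 2 h12.le le_rfl)
  obtain ⟨ι, _, _, c, a, hc, ha, hk⟩ := exists_kill ((ZN ∪ ZD).filter fun ρ => ρ.im ≠ 0)
    fun ρ hρ => (Finset.mem_filter.1 hρ).2
  set K : ℂ → ℂ := fun s => ∑ j, (c j : ℂ) * cexp (-(s * a j)) with hK
  have dK : Differentiable ℂ K := by simp only [hK]; fun_prop
  set Kr : ℝ → ℝ := fun β => ∑ j, c j * Real.exp (-(β * a j)) with hKr
  have KKr : ∀ β : ℝ, K β = Kr β := fun β => by simp [hK, hKr]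
  have Kr0 : ∀ β, 0 < Kr β := fun β =>
    Finset.sum_pos (fun j _ => mul_pos (hc j) (Real.exp_pos _)) Finset.univ_nonempty
  obtain ⟨h1, d1, e1⟩ := kill_sum ZN n dK fun ρ hρ h => hk ρ (by simp [hρ, h])
  obtain ⟨h2, d2, e2⟩ := kill_sum ZD m dK fun ρ hρ h => hk ρ (by simp [hρ, h])
  set h : ℂ → ℂ := fun s => h2 s + K s * hD' s - (h1 s + K s * hN' s) with hh
  have dh : DifferentiableOn ℂ h (Rect σ0 H) :=
    (d2.differentiableOn.add (dK.differentiableOn.mul aD.differentiableOn)).sub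
      (d1.differentiableOn.add (dK.differentiableOn.mul aN.differentiableOn))
  obtain ⟨B, hB⟩ := (isCompact_Rect σ0 H).exists_bound_of_continuousOn dh.continuousOn
  have hB0 : 0 ≤ B := (norm_nonneg _).trans (hB 2 h2U)
  have real : ∀ ρ : ℂ, ρ.im = 0 → (ρ.re : ℂ) = ρ := fun ρ h => Complex.ext (by simp) (by simp [h])
  set RN := ZN.filter fun ρ => ρ.im = 0
  set RD := ZD.filter fun ρ => ρ.im = 0
  have rN : ∀ ρ ∈ RN, ρ.re < 2 := fun ρ hρ => by
    obtain ⟨a1, a2⟩ := Finset.mem_filter.1 hρ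
    refine lt_of_le_of_ne ((zN ρ).1 a1).1.1.2 fun h => hN2 ?_
    rw [← ((zN ρ).1 a1).2, ← real ρ a2, h, ofReal_ofNat]
  have rD : ∀ ρ ∈ RD, ρ.re < σ1 := fun ρ hρ => by
    obtain ⟨a1, a2⟩ := Finset.mem_filter.1 hρ
    by_contra h
    exact hD0 ρ.re (not_lt.1 h) ((zD ρ).1 a1).1.1.2 (by rw [real ρ a2, ((zD ρ).1 a1).2])
  obtain ⟨β, b1, b2, b3⟩ : ∃ β, β < σ1 ∧ σ0 ≤ β ∧ ∀ ρ ∈ RD, ρ.re ≤ β := by
    have : ∀ᶠ β in 𝓝[<] σ1, β < σ1 ∧ σ0 ≤ β ∧ ∀ ρ ∈ RD, ρ.re ≤ β :=
      eventually_mem_nhdsWithin.and (Eventually.and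
        (mem_of_superset (Ioo_mem_nhdsLT h01) fun β hβ => hβ.1.le) ((eventually_all_finset RD).2 fun ρ hρ =>
          mem_of_superset (Ioo_mem_nhdsLT (rD ρ hρ)) fun β hβ => hβ.1.le))
    exact this.exists
  obtain ⟨cN, bN, iN⟩ := pole_sum RN (fun ρ => n ρ * Kr ρ.re) rN
  obtain ⟨cD, bD, iD⟩ := pole_sum RD (fun ρ => m ρ * Kr ρ.re) fun ρ hρ => (rD ρ hρ).trans h12
  set PN : ℝ → ℂ := fun t => ∑ ρ ∈ RN, ((n ρ * Kr ρ.re : ℝ) : ℂ) * (2 + t * I - ρ.re)⁻¹ with hPN
  set PD : ℝ → ℂ := fun t => ∑ ρ ∈ RD, ((m ρ * Kr ρ.re : ℝ) : ℂ) * (2 + t * I - ρ.re)⁻¹ with hPD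
  set T := ∑' n, |e n| * Real.exp (-(2 * Real.log n))
  have T0 : 0 ≤ T := tsum_nonneg fun n => by positivity
  set F : ℝ → ℂ := fun t => ∑' n, (e n : ℂ) * cexp (-((2 + t * I) * Real.log n)) with hF
  have nF : ∀ (n : ℕ) (t : ℝ), ‖(e n : ℂ) * cexp (-((2 + t * I) * Real.log n))‖ ≤
      |e n| * Real.exp (-(2 * Real.log n)) := fun n t => by
    rw [norm_mul, norm_line, norm_real]; rfl
  have cF : Continuous F := continuous_tsum (fun n => by fun_prop) he nF
  have bF : ∀ t, ‖F t‖ ≤ T := fun t => tsum_of_norm_bounded he.hasSum fun n => nF n t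
  have bK : ∀ t : ℝ, ‖K (2 + t * I)‖ ≤ Kr 2 := fun t => norm_sum_le_of_le _ fun j _ => by
    rw [norm_mul, norm_line, norm_real, Real.norm_of_nonneg (hc j).le]
  set BN := ∑ ρ ∈ RN, |n ρ * Kr ρ.re| * (2 - ρ.re)⁻¹
  set BD := ∑ ρ ∈ RD, |m ρ * Kr ρ.re| * (2 - ρ.re)⁻¹
  set g : ℝ → ℂ := fun t => K (2 + t * I) * F t - (PD t - PN t) with hg
  have cK : Continuous fun t : ℝ => K (2 + t * I) := dK.continuous.comp (by fun_prop)
  have cg : Continuous g := (cK.mul cF).sub (cD.sub cN)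
  have bKF : ∀ t : ℝ, ‖K (2 + t * I) * F t‖ ≤ Kr 2 * T := fun t => by
    rw [norm_mul]; exact mul_le_mul (bK t) (bF t) (norm_nonneg _) (Kr0 2).le
  have bP : ∀ t : ℝ, ‖PD t - PN t‖ ≤ BD + BN := fun t =>
    (norm_sub_le _ _).trans (add_le_add (bD t) (bN t))
  have bg : ∀ t, ‖g t‖ ≤ Kr 2 * T + (BD + BN) := fun t =>
    (norm_sub_le _ _).trans (add_le_add (bKF t) (bP t))
  set B' := Kr 2 * T + (BD + BN)
  have hB' : 0 ≤ B' := (norm_nonneg _).trans (bg 0)
  have gh : ∀ᵐ t : ℝ, t ∈ uIoc (-H) H → g t = h (2 + t * I) := by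
    have fin : {t : ℝ | (2 + t * I : ℂ) ∈ ZN ∪ ZD}.Finite :=
      (ZN ∪ ZD).finite_toSet.preimage (f := fun t : ℝ => (2 + t * I : ℂ))
        fun t _ t' _ h => by simpa using h
    filter_upwards [fin.countable.ae_notMem volume] with t ht ht'
    rw [uIoc_of_le (by linarith)] at ht'
    simp only [mem_setOf_eq, Finset.mem_union, not_or] at ht
    have hU : (2 + t * I : ℂ) ∈ Rect σ0 H := by simp [mem_Rect, h02, ht'.1.le, ht'.2]
    have a1 : N (2 + t * I) ≠ 0 := fun h => ht.1 ((zN _).2 ⟨hU, h⟩)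
    have a2 : D (2 + t * I) ≠ 0 := fun h => ht.2 ((zD _).2 ⟨hU, h⟩)
    have a3 := e1 _ ht.1
    have a4 := e2 _ ht.2
    simp only [KKr] at a3 a4
    simp only [hg, hF, hL t a1 a2, eN _ hU a1, eD _ hU a2, hPN, hPD, hh]
    push_cast
    linear_combination a4 - a3
  set W := ∑ ρ ∈ RD, m ρ * Kr ρ.re * (2 * π)
  have W0 : 0 ≤ W := Finset.sum_nonneg fun ρ _ => by have := Kr0 ρ.re; positivity
  have c0 : 0 ≤ ∑ j, c j := Finset.sum_nonneg fun j _ => (hc j).le
  set C := 2 * (∑ j, c j) * (1 + T) + W + B * (2 * H + 4) + B' * Real.exp (H ^ 2) * √π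
  refine ⟨Kr σ1 * Real.exp (-1), C, β, mul_pos (Kr0 _) (Real.exp_pos _), by positivity,
    h0.trans b2, b1, fun k hk1 => ?_⟩
  have hk0 : 0 < k := by linarith
  have iW := integrable_WG hk0 (ν * k)
  have ig := iW.bdd_mul cg.aestronglyMeasurable (Eventually.of_forall bg)
  have i1 : ‖∫ t, g t * WG k (ν * k) (2 + t * I)‖ ≤
      B * (2 * H * Real.exp (k * σ0 ^ 2 + ν * k * σ0) + 4) + B' * Real.exp (H ^ 2) * √π := by
    rw [← integral_add_compl (s := Ioc (-H) H) measurableSet_Ioc ig]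
    refine (norm_add_le _ _).trans (add_le_add ?_ (tail_bound hH hk1 hHν bg))
    rw [← intervalIntegral.integral_of_le (by linarith),
      intervalIntegral.integral_congr_ae (g := fun t => h (2 + t * I) * WG k (ν * k) (2 + t * I))
        (by filter_upwards [gh] with t ht ht'; rw [ht ht'])]
    exact rect_bound h0 h02 hH hk0.le hν0 hHν dh hB
  have i2 : ∫ t : ℝ, K (2 + t * I) * F t * WG k (ν * k) (2 + t * I) =
      (∑ j, c j * ∑' n, e n * gam k (ν * k - a j) (Real.log n) : ℝ) := by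
    have : ∀ t : ℝ, K (2 + t * I) * F t * WG k (ν * k) (2 + t * I) =
        ∑ j, c j * (F t * WG k (ν * k - a j) (2 + t * I)) := fun t => by
      simp only [hK, Finset.sum_mul]
      refine Finset.sum_congr rfl fun j _ => ?_
      rw [WG, WG, mul_assoc, mul_assoc, mul_left_comm (cexp _), ← Complex.exp_add]
      congr 3
      push_cast; ring
    simp only [this]
    rw [integral_finsetSum _ fun j _ => ((integrable_WG hk0 _).bdd_mul cF.aestronglyMeasurable
      (Eventually.of_forall bF)).const_mul _, ofReal_sum]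
    refine Finset.sum_congr rfl fun j _ => ?_
    rw [integral_const_mul, ofReal_mul, ofReal_tsum, (J_series hk0 _ he).tsum_eq]
  have i3 : ∫ t, g t * WG k (ν * k) (2 + t * I) =
      ((∑ j, c j * ∑' n, e n * gam k (ν * k - a j) (Real.log n) -
        (∑ ρ ∈ RD, m ρ * Kr ρ.re * QG k (ν * k) ρ.re -
          ∑ ρ ∈ RN, n ρ * Kr ρ.re * QG k (ν * k) ρ.re) : ℝ) : ℂ) := by
    simp only [hg, sub_mul]
    have j1 := iW.bdd_mul cD.aestronglyMeasurable (Eventually.of_forall bD)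
    have j2 := iW.bdd_mul cN.aestronglyMeasurable (Eventually.of_forall bN)
    have j3 : Integrable fun t : ℝ => K (2 + t * I) * F t * WG k (ν * k) (2 + t * I) :=
      iW.bdd_mul (cK.mul cF).aestronglyMeasurable (Eventually.of_forall bKF)
    have j4 : Integrable fun t : ℝ => PD t * WG k (ν * k) (2 + t * I) -
      PN t * WG k (ν * k) (2 + t * I) := j1.sub j2
    rw [integral_sub j3 j4, integral_sub j1 j2, i2, iN _ _ hk0, iD _ _ hk0, ofReal_sub, ofReal_sub]
  rw [i3, norm_real] at i1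
  replace i1 := (le_abs_self _).trans i1
  set S := ∑ n ∈ Finset.range (⌊Real.exp ((ν + l) * k)⌋₊ + 1), max (-e n) 0
  have S0 : 0 ≤ S := Finset.sum_nonneg fun n _ => le_max_right _ _
  set E := Real.exp (k * β ^ 2 + ν * k * β)
  have E0 : 0 < E := Real.exp_pos _
  have mono : ∀ b, 0 ≤ b → b ≤ β → Real.exp (k * b ^ 2 + ν * k * b) ≤ E := fun b _ _ => by
    simp only [E]; gcongr
  have i4 : -(2 * (∑ j, c j) * (S + T)) ≤ ∑ j, c j * ∑' n, e n * gam k (ν * k - a j) (Real.log n) := by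
    rw [mul_comm 2, mul_assoc, ← mul_neg, Finset.sum_mul]
    exact Finset.sum_le_sum fun j _ =>
      mul_le_mul_of_nonneg_left (series_low he hk1 (ha j) hl) (hc j).le
  have i5 : ∑ ρ ∈ RD, m ρ * Kr ρ.re * QG k (ν * k) ρ.re ≤ W * E := by
    rw [Finset.sum_mul]
    refine Finset.sum_le_sum fun ρ hρ => ?_
    have := Kr0 ρ.re
    rw [mul_assoc _ (2 * π)]
    gcongr
    refine (QG_le hk0 _ _).trans ?_
    gcongr
    exact mono _ (h0.trans ((zD ρ).1 (Finset.mem_filter.1 hρ).1).1.1.1) (b3 ρ hρ)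
  have i6 : Kr σ1 * Real.exp (-1) * Real.exp (k * σ1 ^ 2 + ν * k * σ1) ≤
      ∑ ρ ∈ RN, n ρ * Kr ρ.re * QG k (ν * k) ρ.re := by
    have m1 : (σ1 : ℂ) ∈ ZN := (zN _).2 ⟨by simp [mem_Rect, h01.le, h12.le, hH], hN1⟩
    refine le_trans ?_ (Finset.single_le_sum (f := fun ρ => n ρ * Kr ρ.re * QG k (ν * k) ρ.re)
      (fun ρ _ => mul_nonneg (mul_nonneg (Nat.cast_nonneg _) (Kr0 _).le) (QG_nonneg _ _ _))
      (Finset.mem_filter.2 ⟨m1, ofReal_im σ1⟩))
    have : (1 : ℝ) ≤ n σ1 := by exact_mod_cast n1 _ m1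
    rw [ofReal_re, mul_assoc]
    exact mul_le_mul (le_mul_of_one_le_left (Kr0 _).le this)
      (le_QG hk0 (by positivity) (h0.trans h01.le)) (by positivity)
      (mul_nonneg (Nat.cast_nonneg _) (Kr0 _).le)
  have i7 : B * (2 * H * Real.exp (k * σ0 ^ 2 + ν * k * σ0) + 4) ≤ B * (2 * H * E + 4) := by
    gcongr
    exact mono _ h0 b2
  set Y := B' * Real.exp (H ^ 2) * √π
  have Y0 : 0 ≤ Y := by positivity
  set s := ∑ j, c j
  have : C * (1 + E + S) - (2 * s * (S + T) + W * E + B * (2 * H * E + 4) + Y) =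
      2 * s * (1 + E + T * E + T * S) + W * (1 + S) + B * (2 * H * (1 + S) + 4 * (E + S)) +
        Y * (E + S) := by simp only [C]; ring
  have : 0 ≤ 2 * s * (1 + E + T * E + T * S) + W * (1 + S) +
      B * (2 * H * (1 + S) + 4 * (E + S)) + Y * (E + S) := by positivity
  linarith

theorem local_landau {e : ℕ → ℝ} {N D : ℂ → ℂ} {σ0 σ1 : ℝ} (h0 : 0 ≤ σ0) (h01 : σ0 < σ1)
    (h12 : σ1 < 2) (hN : ∀ s : ℂ, σ0 ≤ s.re → s.re ≤ 2 → AnalyticAt ℂ N s)
    (hD : ∀ s : ℂ, σ0 ≤ s.re → s.re ≤ 2 → AnalyticAt ℂ D s)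
    (hN2 : N 2 ≠ 0) (hD0 : ∀ σ : ℝ, σ1 ≤ σ → σ ≤ 2 → D σ ≠ 0) (hN1 : N σ1 = 0)
    (he : Summable fun n => |e n| * Real.exp (-(2 * Real.log n)))
    (hL : ∀ t : ℝ, N (2 + t * I) ≠ 0 → D (2 + t * I) ≠ 0 →
      ∑' n, (e n : ℂ) * cexp (-((2 + t * I) * Real.log n)) =
        logDeriv D (2 + t * I) - logDeriv N (2 + t * I)) {s : ℝ} (hs : s < σ1) :
    ∀ᶠ x : ℝ in atTop, x ^ s ≤ ∑ n ∈ Finset.range (⌊x⌋₊ + 1), max (-e n) 0 := by
  obtain ⟨l, hl, hl'⟩ : ∃ l : ℝ, 16 ≤ l ∧ 16 * s < (σ1 - s) * l :=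
    ((eventually_ge_atTop 16).and ((tendsto_id.const_mul_atTop (sub_pos.2 hs)).eventually
      (eventually_gt_atTop (16 * s)))).exists
  obtain ⟨c, C, β, hc, hC, b0, b1, h⟩ := main_ineq h0 h01 h12 hN hD hN2 hD0 hN1 he hL hl
  set ν := l ^ 2 / 16 with hν
  have hν0 : 0 < ν := by positivity
  have hσ : 0 < σ1 := h0.trans_lt h01
  have hL0 : 0 < ν + l := by linarith
  set δ := ν * σ1 - s * (ν + l) with hδ
  have hδ0 : 0 < δ := by
    have : δ = l / 16 * ((σ1 - s) * l - 16 * s) := by rw [hδ, hν]; ring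
    rw [this]
    exact mul_pos (by linarith) (by linarith)
  have t0 : ∀ a : ℝ, 0 < a → Tendsto (fun k : ℝ => Real.exp (-(a * k))) atTop (𝓝 0) :=
    fun a ha => Real.tendsto_exp_neg_atTop_nhds_zero.comp (tendsto_id.const_mul_atTop ha)
  have t1 := (((t0 _ (mul_pos hν0 hσ)).add (t0 _ (mul_pos hν0 (sub_pos.2 b1)))).add
    (t0 _ hδ0)).const_mul C
  simp only [add_zero, mul_zero] at t1
  have t2 : Tendsto (fun x => Real.log x / (ν + l)) atTop atTop :=
    Real.tendsto_log_atTop.atTop_div_const hL0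
  filter_upwards [t2.eventually (t1.eventually (gt_mem_nhds hc)),
    t2.eventually (eventually_ge_atTop 1), eventually_gt_atTop 0] with x h1 h2 h3
  set k := Real.log x / (ν + l) with hk
  have e1 : (ν + l) * k = Real.log x := by rw [hk]; field_simp
  have h4 := h k h2
  rw [e1, Real.exp_log h3] at h4
  by_contra h5
  set M := Real.exp (k * σ1 ^ 2 + ν * k * σ1) with hM
  have M0 : 0 < M := Real.exp_pos _
  have k0 : 0 ≤ k * σ1 ^ 2 := by positivity
  have a1 : 1 ≤ Real.exp (-(ν * σ1 * k)) * M := by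
    rw [hM, ← Real.exp_add]
    exact Real.one_le_exp (by nlinarith)
  have a2 : Real.exp (k * β ^ 2 + ν * k * β) ≤ Real.exp (-(ν * (σ1 - β) * k)) * M := by
    rw [hM, ← Real.exp_add]
    have : k * β ^ 2 ≤ k * σ1 ^ 2 := by gcongr
    exact Real.exp_le_exp.2 (by nlinarith)
  have a3 : x ^ s ≤ Real.exp (-(δ * k)) * M := by
    rw [hM, ← Real.exp_add, Real.rpow_def_of_pos h3, ← e1, hδ]
    exact Real.exp_le_exp.2 (by nlinarith)
  have a4 := mul_lt_mul_of_pos_right h1 M0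
  have a5 := mul_le_mul_of_nonneg_left (add_le_add (add_le_add a1 a2) ((not_le.1 h5).le.trans a3)) hC
  nlinarith

end Pool.Agent.Lib.MP_fa98d2_nt
end
end

-- part Pool.Agent.Lib.MP_fa98d2_nt.Mel
section

/- Analytic continuation by Mellin transforms, and logarithmic derivatives. -/

open Complex Filter Topology MeasureTheory Set Asymptotics
open scoped Real ComplexOrder

noncomputable section

namespace Pool.Agent.Lib.MP_fa98d2_nt

lemma mel_ok {f : ℝ → ℝ} (hm : Measurable f) {C : ℝ} (h1 : ∀ y, 0 < y → y ≤ 1 → |f y| ≤ C)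
    (h2 : ∀ y, 1 ≤ y → |f y| ≤ C * y ^ (-48 : ℝ)) {s : ℂ} (h3 : 0 < s.re) (h4 : s.re < 48) :
    MellinConvergent (fun y => (f y : ℂ)) s ∧ AnalyticAt ℂ (mellin fun y => (f y : ℂ)) s := by
  have C0 : 0 ≤ C := (abs_nonneg _).trans (h1 1 one_pos le_rfl)
  have a1 : LocallyIntegrableOn (fun y => (f y : ℂ)) (Ioi 0) := by
    refine (locallyIntegrableOn_iff isOpen_Ioi.isLocallyClosed).2 fun K hK hc =>
      Measure.integrableOn_of_bounded (M := C) hc.measure_lt_top.ne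
        (measurable_ofReal.comp hm).aestronglyMeasurable
        ((ae_restrict_iff' hc.measurableSet).2 (Eventually.of_forall fun y hy => ?_))
    rw [norm_real]
    rcases le_total y 1 with h | h
    · exact h1 y (hK hy) h
    · exact (h2 y h).trans (mul_le_of_le_one_right C0
        (Real.rpow_le_one_of_one_le_of_nonpos h (by norm_num)))
  have a2 : (fun y => (f y : ℂ)) =O[atTop] (· ^ (-48 : ℝ)) := by
    refine IsBigO.of_bound C ?_
    filter_upwards [eventually_ge_atTop 1] with y hy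
    rw [norm_real, Real.norm_of_nonneg (Real.rpow_nonneg (by linarith) _)]
    exact h2 y hy
  have a3 : (fun y => (f y : ℂ)) =O[𝓝[>] 0] (· ^ (-0 : ℝ)) := by
    refine IsBigO.of_bound C ?_
    filter_upwards [Ioc_mem_nhdsGT one_pos] with y hy
    simpa using h1 y hy.1 hy.2
  refine ⟨mellinConvergent_of_isBigO_rpow a1 a2 h4 a3 h3, DifferentiableOn.analyticAt
    (s := {s | 0 < s.re} ∩ {s | s.re < 48}) (fun z hz =>
      (mellin_differentiableAt_of_isBigO_rpow a1 a2 hz.2 a3 hz.1).differentiableWithinAt) ?_⟩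
  exact ((isOpen_lt continuous_const continuous_re).inter
    (isOpen_lt continuous_re continuous_const)).mem_nhds ⟨h3, h4⟩

lemma mellin_real (f : ℝ → ℝ) (σ : ℝ) :
    mellin (fun y => (f y : ℂ)) σ = (∫ y in Ioi (0 : ℝ), y ^ (σ - 1) * f y : ℝ) := by
  rw [mellin, ← integral_complex_ofReal]
  refine setIntegral_congr_fun measurableSet_Ioi fun y hy => ?_
  simp only [smul_eq_mul, ofReal_mul, ofReal_cpow (le_of_lt hy), ofReal_sub, ofReal_one]

theorem mel_main {b : ℕ → ℝ} {κ Θ : ℝ → ℝ} {c C : ℝ} (b0 : b 0 = 0) (hb0 : ∀ n, 0 ≤ b n)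
    (hb : ∀ σ : ℝ, 1 < σ → LSeriesSummable (fun n => b n) σ) (mκ : Measurable κ)
    (mΘ : Measurable Θ) (κ0 : ∀ y, 0 ≤ κ y) (κ1 : ∀ y, 0 < y → y ≤ 1 → κ y ≤ C)
    (κ2 : ∀ y, 1 ≤ y → κ y ≤ C * y ^ (-48 : ℝ))
    (κp : ∃ δ : ℝ, 0 < δ ∧ ∀ y, 0 < y → y < δ → 0 < κ y)
    (hΘ : ∀ y, 0 < y → HasSum (fun n => b n * κ (n * y)) (Θ y))
    (as : ∀ y, 0 < y → y ≤ 1 → |Θ y - c * y⁻¹| ≤ C) :
    ∃ Λ G : ℂ → ℂ, (∀ s : ℂ, 0 < s.re → s.re < 48 → AnalyticAt ℂ Λ s ∧ AnalyticAt ℂ G s) ∧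
      (∀ σ : ℝ, 0 < σ → σ < 48 → G σ ≠ 0) ∧
      (∀ s : ℂ, 1 < s.re → s.re < 48 → Λ s = (s - 1) * LSeries (fun n => b n) s * G s) ∧
      ((∀ y, 0 < y → y ≤ 1 → Θ y ≤ c * y⁻¹) → (∀ y, 1 < y → Θ y = 0) → 0 < c →
        ∀ σ : ℝ, σ ≤ 1 → Λ σ ≠ 0) := by
  have C0 : 0 ≤ C := (κ0 1).trans (κ1 1 one_pos le_rfl)
  have k := fun s => mel_ok mκ (fun y h h' => by rw [abs_of_nonneg (κ0 y)]; exact κ1 y h h')
    (fun y h => by rw [abs_of_nonneg (κ0 y)]; exact κ2 y h) (s := s)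
  set G := mellin fun y => (κ y : ℂ)
  set J : ℝ → ℝ := fun y => Θ y - (Ioc 0 1).indicator (fun y => c * y⁻¹) y with hJ
  have sb : Summable fun n => b n / (n : ℝ) ^ (48 : ℝ) := by
    refine (hb 48 (by norm_num)).norm.congr fun n => ?_
    rw [LSeries.norm_term_eq, norm_real, Real.norm_of_nonneg (hb0 n), ofReal_re]
    split_ifs with h <;> simp [h, b0]
  set S := ∑' n, b n / (n : ℝ) ^ (48 : ℝ)
  have S0 : 0 ≤ S := tsum_nonneg fun n => div_nonneg (hb0 n) (by positivity)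
  have Θ2 : ∀ y, 1 ≤ y → |Θ y| ≤ C * S * y ^ (-48 : ℝ) := fun y hy => by
    have y0 : 0 < y := by linarith
    rw [abs_of_nonneg ((hΘ y y0).nonneg fun n => mul_nonneg (hb0 n) (κ0 _))]
    refine hasSum_le (fun n => ?_) (hΘ y y0) ((sb.hasSum.mul_left C).mul_right _)
    rcases n.eq_zero_or_pos with rfl | hn
    · simp [b0]
    have hn1 : (1 : ℝ) ≤ n := by exact_mod_cast hn
    refine (mul_le_mul_of_nonneg_left (κ2 _ (one_le_mul_of_one_le_of_one_le hn1 hy)) (hb0 n)).trans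
      (le_of_eq ?_)
    rw [Real.mul_rpow (by positivity) y0.le, Real.rpow_neg (by positivity) 48]
    ring
  have j := fun s => mel_ok (f := J) (C := C + |c| + C * S)
    (mΘ.sub ((measurable_inv.const_mul c).indicator measurableSet_Ioc))
    (fun y h h' => by
      rw [hJ]
      simp only [indicator_of_mem (show y ∈ Ioc 0 1 from ⟨h, h'⟩)]
      exact (as y h h').trans (by have := mul_nonneg C0 S0; linarith [abs_nonneg c]))
    (fun y h => by
      rcases h.eq_or_lt with rfl | h'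
      · have := as 1 one_pos le_rfl
        simp only [hJ, indicator_of_mem (show (1 : ℝ) ∈ Ioc 0 1 from ⟨one_pos, le_rfl⟩),
          Real.one_rpow, mul_one]
        exact this.trans (by have := mul_nonneg C0 S0; linarith [abs_nonneg c])
      · simp only [hJ, indicator_of_notMem (show y ∉ Ioc 0 1 from fun h => h.2.not_gt h'), sub_zero]
        refine (Θ2 y h).trans ?_
        gcongr
        linarith [abs_nonneg c]) (s := s)
  have t : ∀ (n : ℕ) (s : ℂ), 0 < s.re → s.re < 48 → HasMellin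
      (fun y => ((b n * κ (n * y) : ℝ) : ℂ)) s (LSeries.term (fun n => b n) s n * G s) := by
    intro n s h h'
    rcases n.eq_zero_or_pos with rfl | hn
    · simp [b0, HasMellin, MellinConvergent, mellin]
    have hn0 : (0 : ℝ) < n := by exact_mod_cast hn
    have := hasMellin_const_smul ((MellinConvergent.comp_mul_left hn0).2 (k s h h').1) (b n : ℂ)
    rw [mellin_comp_mul_left (fun y => (κ y : ℂ)) s hn0] at this
    simp only [smul_eq_mul, ← ofReal_mul] at this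
    rwa [LSeries.term_of_ne_zero hn.ne', div_eq_mul_inv, ← cpow_neg, mul_assoc]
  refine ⟨fun s => (s - 1) * mellin (fun y => (J y : ℂ)) s + c, G, fun s h h' =>
    ⟨((analyticAt_id.sub analyticAt_const).mul (j s h h').2).add analyticAt_const, (k s h h').2⟩,
    fun σ h h' => ?_, fun s h h' => ?_, fun a1 a2 a3 σ h => ?_⟩
  · obtain ⟨δ, d0, d1⟩ := κp
    have hi := (mellin_convergent_iff_norm Subset.rfl measurableSet_Ioi
      (measurable_ofReal.comp mκ).aestronglyMeasurable).1 (k σ h h').1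
    simp only [Function.comp_apply, norm_real, Real.norm_of_nonneg (κ0 _), ofReal_re] at hi
    simp only [G, mellin_real, ne_eq, ofReal_eq_zero]
    refine ((setIntegral_pos_iff_support_of_nonneg_ae ((ae_restrict_iff' measurableSet_Ioi).2
      (Eventually.of_forall fun y hy => mul_nonneg (Real.rpow_nonneg (le_of_lt hy) _) (κ0 y)))
      hi).2 (lt_of_lt_of_le (b := volume (Ioo 0 δ)) (by simpa using d0)
        (measure_mono fun y hy => ⟨?_, hy.1⟩))).ne'
    exact (mul_pos (Real.rpow_pos_of_pos hy.1 _) (d1 y hy.1 hy.2)).ne'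
  · have h0 : 0 < s.re := by linarith
    have hs := hasSum_integral_of_summable_integral_norm (μ := volume.restrict (Ioi 0))
      (F := fun (n : ℕ) (y : ℝ) => (y : ℂ) ^ (s - 1) • ((b n * κ (n * y) : ℝ) : ℂ))
      (fun n => (t n s h0 h').1) (by
        refine summable_ofReal.1 (((hb s.re h).mul_right (G s.re)).congr fun n => ?_)
        rw [← (t n s.re h0 h').2, mellin_real]
        congr 1
        refine setIntegral_congr_fun measurableSet_Ioi fun y hy => ?_
        simp only [norm_smul, norm_cpow_eq_rpow_re_of_pos hy, norm_real, sub_re, one_re,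
          Real.norm_of_nonneg (mul_nonneg (hb0 n) (κ0 _))])
    have e1 : LSeries (fun n => b n) s * G s = mellin (fun y => (Θ y : ℂ)) s := by
      rw [LSeries, ← tsum_mul_right, ← funext fun n => (t n s h0 h').2]
      refine hs.tsum_eq.trans (setIntegral_congr_fun measurableSet_Ioi fun y hy => ?_)
      exact ((hasSum_ofReal.2 (hΘ y hy)).const_smul _).tsum_eq
    have p := hasMellin_cpow_Ioc (-1) (s := s) (by simpa using h)
    have p2 := hasMellin_const_smul p.1 (c : ℂ)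
    have e2 := (hasMellin_add (j s h0 h').1 p2.1).2
    rw [p2.2, p.2] at e2
    have e3 : mellin (fun y => (Θ y : ℂ)) s = mellin (fun y => (J y : ℂ) + (c : ℂ) •
        (Ioc (0 : ℝ) 1).indicator (fun t : ℝ => (t : ℂ) ^ (-1 : ℂ)) y) s := by
      congr 1
      ext y
      by_cases hy : y ∈ Ioc (0 : ℝ) 1 <;> simp [hJ, hy, cpow_neg_one]
    have : s - 1 ≠ 0 := fun e => by
      rw [sub_eq_zero.1 e] at h; simp at h
    rw [mul_assoc, e1, e3, e2, smul_eq_mul, ← sub_eq_add_neg]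
    field_simp
  · have : ∫ y in Ioi (0 : ℝ), y ^ (σ - 1) * J y ≤ 0 := by
      refine setIntegral_nonpos measurableSet_Ioi fun y hy =>
        mul_nonpos_of_nonneg_of_nonpos (Real.rpow_nonneg (le_of_lt hy) _) ?_
      by_cases h1 : y ≤ 1
      · simpa [hJ, show y ∈ Ioc 0 1 from ⟨hy, h1⟩] using a1 y hy h1
      · simp [hJ, h1, a2 y (not_le.1 h1)]
    simp only [mellin_real]
    have h2 : (σ - 1) * (∫ y in Ioi (0 : ℝ), y ^ (σ - 1) * J y) + c ≠ 0 := by
      nlinarith [mul_nonneg_of_nonpos_of_nonpos (sub_nonpos.2 h) this]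
    exact_mod_cast h2

/-- `a` is the coefficient sequence of the logarithmic derivative of `D / N`. -/
structure Rep (R : ℝ) (a : ℕ → ℝ) (N D : ℂ → ℂ) : Prop where
  aN : ∀ s : ℂ, 0 < s.re → s.re < R → AnalyticAt ℂ N s
  aD : ∀ s : ℂ, 0 < s.re → s.re < R → AnalyticAt ℂ D s
  nN : ∀ σ : ℝ, 2 ≤ σ → σ < R → N σ ≠ 0
  nD : ∀ σ : ℝ, 0 < σ → σ < R → D σ ≠ 0
  sm : Summable fun n => |a n| * Real.exp (-(2 * Real.log n))
  eq : ∀ s : ℂ, 2 ≤ s.re → s.re < R → N s ≠ 0 → D s ≠ 0 →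
    ∑' n, (a n : ℂ) * cexp (-(s * Real.log n)) = logDeriv D s - logDeriv N s

lemma summable_line {a : ℕ → ℝ} (h : Summable fun n => |a n| * Real.exp (-(2 * Real.log n)))
    {s : ℂ} (hs : 2 ≤ s.re) : Summable fun n => (a n : ℂ) * cexp (-(s * Real.log n)) := by
  refine Summable.of_norm_bounded h fun n => ?_
  rw [norm_mul, norm_real, norm_exp]
  have := Real.log_natCast_nonneg n
  simp only [neg_re, mul_re, ofReal_re, ofReal_im, mul_zero, sub_zero, Real.norm_eq_abs]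
  gcongr

lemma Rep.add {R : ℝ} {a a' : ℕ → ℝ} {N D N' D' : ℂ → ℂ} (h : Rep R a N D) (h' : Rep R a' N' D') :
    Rep R (fun n => a n + a' n) (fun s => N s * N' s) fun s => D s * D' s := by
  refine ⟨fun s h1 h2 => (h.aN s h1 h2).mul (h'.aN s h1 h2),
    fun s h1 h2 => (h.aD s h1 h2).mul (h'.aD s h1 h2),
    fun s h1 h2 => mul_ne_zero (h.nN s h1 h2) (h'.nN s h1 h2),
    fun s h1 h2 => mul_ne_zero (h.nD s h1 h2) (h'.nD s h1 h2),
    Summable.of_nonneg_of_le (fun n => by positivity) (fun n => ?_) (h.sm.add h'.sm),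
    fun s h1 h2 h3 h4 => ?_⟩
  · rw [← add_mul]
    gcongr
    exact abs_add_le _ _
  · have h0 : 0 < s.re := by linarith
    rw [mul_ne_zero_iff] at h3 h4
    simp only [ofReal_add, add_mul]
    rw [(summable_line h.sm h1).tsum_add (summable_line h'.sm h1), h.eq s h1 h2 h3.1 h4.1,
      h'.eq s h1 h2 h3.2 h4.2, logDeriv_mul s h3.1 h3.2 (h.aN s h0 h2).differentiableAt
        (h'.aN s h0 h2).differentiableAt, logDeriv_mul s h4.1 h4.2 (h.aD s h0 h2).differentiableAt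
        (h'.aD s h0 h2).differentiableAt]
    ring

lemma Rep.mono {R R' : ℝ} {a : ℕ → ℝ} {N D : ℂ → ℂ} (h : Rep R a N D) (hR : R' ≤ R) :
    Rep R' a N D :=
  ⟨fun s h1 h2 => h.aN s h1 (h2.trans_le hR), fun s h1 h2 => h.aD s h1 (h2.trans_le hR),
    fun s h1 h2 => h.nN s h1 (h2.trans_le hR), fun s h1 h2 => h.nD s h1 (h2.trans_le hR), h.sm,
    fun s h1 h2 => h.eq s h1 (h2.trans_le hR)⟩

/-- the sequence supported on squares -/
def sqf (a : ℕ → ℝ) (n : ℕ) : ℝ := if n.sqrt ^ 2 = n then 2 * a n.sqrt else 0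

lemma sqf_sq (a : ℕ → ℝ) (n : ℕ) : sqf a (n ^ 2) = 2 * a n := by simp [sqf]

lemma Rep.sq {R : ℝ} {a : ℕ → ℝ} {N D : ℂ → ℂ} (h : Rep (2 * R) a N D) :
    Rep R (sqf a) (fun s => N (2 * s)) fun s => D (2 * s) := by
  have hi : Function.Injective fun n : ℕ => n ^ 2 := Nat.pow_left_injective two_ne_zero
  have z : ∀ n, n ∉ range (fun n : ℕ => n ^ 2) → sqf a n = 0 := fun n hn =>
    if_neg fun h => hn ⟨_, h⟩
  have r : ∀ s : ℂ, (2 * s).re = 2 * s.re := fun s => by simp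
  refine ⟨fun s h1 h2 => (h.aN _ (by rw [r]; linarith) (by rw [r]; linarith)).comp (by fun_prop),
    fun s h1 h2 => (h.aD _ (by rw [r]; linarith) (by rw [r]; linarith)).comp (by fun_prop),
    fun s h1 h2 => by exact_mod_cast h.nN (2 * s) (by linarith) (by linarith),
    fun s h1 h2 => by exact_mod_cast h.nD (2 * s) (by linarith) (by linarith), ?_,
    fun s h1 h2 h3 h4 => ?_⟩
  · refine (hi.summable_iff fun n hn => by simp [z n hn]).1 (Summable.of_nonneg_of_le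
      (fun n => mul_nonneg (abs_nonneg _) (Real.exp_pos _).le) (fun n => ?_) (h.sm.mul_left 2))
    have := Real.log_natCast_nonneg n
    simp only [Function.comp_apply, sqf_sq, abs_mul, abs_two, mul_assoc, Nat.cast_pow, Real.log_pow]
    gcongr
    push_cast; linarith
  · have a1 : 0 < (2 * s).re := by rw [r]; linarith
    have a2 : (2 * s).re < 2 * R := by rw [r]; linarith
    have d : deriv (fun s : ℂ => 2 * s) s = 2 := by simp
    rw [← hi.tsum_eq fun n hn => by_contra fun h => hn (by simp [z n h]),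
      show (fun s => D (2 * s)) = D ∘ fun s => 2 * s from rfl,
      show (fun s => N (2 * s)) = N ∘ fun s => 2 * s from rfl,
      logDeriv_comp (h.aD _ a1 a2).differentiableAt (by fun_prop),
      logDeriv_comp (h.aN _ a1 a2).differentiableAt (by fun_prop), d, ← sub_mul,
      ← h.eq _ (by rw [r]; linarith) a2 h3 h4, ← tsum_mul_right]
    refine tsum_congr fun n => ?_
    simp only [sqf_sq, Nat.cast_pow, Real.log_pow]
    push_cast
    ring_nf

lemma term_eq {a : ℕ → ℝ} (a0 : a 0 = 0) (s : ℂ) (n : ℕ) :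
    LSeries.term (fun n => a n) s n = a n * cexp (-(s * Real.log n)) := by
  rcases eq_or_ne n 0 with rfl | hn
  · simp [a0]
  rw [LSeries.term_of_ne_zero hn, div_eq_mul_inv, cpow_def_of_ne_zero (by exact_mod_cast hn),
    ← Complex.exp_neg, natCast_log, mul_comm s]

lemma base {a b : ℕ → ℝ} (a0 : a 0 = 0) (ha : ∀ n, 0 ≤ a n) (hb0 : ∀ n, 0 ≤ b n) (b1 : b 1 = 1)
    (hb : ∀ σ : ℝ, 1 < σ → LSeriesSummable (fun n => b n) σ)
    (hab : ∀ n : ℕ, n ≠ 0 → Real.log n * b n = ∑ p ∈ n.divisorsAntidiagonal, a p.1 * b p.2)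
    {Λ G : ℂ → ℂ} (hG : ∀ s : ℂ, 0 < s.re → s.re < 48 → AnalyticAt ℂ G s)
    (hG0 : ∀ σ : ℝ, 0 < σ → σ < 48 → G σ ≠ 0)
    (h : ∀ s : ℂ, 1 < s.re → s.re < 48 → Λ s = (s - 1) * LSeries (fun n => b n) s * G s) :
    (∀ σ : ℝ, 1 < σ → σ < 48 → Λ σ ≠ 0) ∧
    (Summable fun n => |a n| * Real.exp (-(2 * Real.log n))) ∧
    ∀ s : ℂ, 2 ≤ s.re → s.re < 48 → Λ s ≠ 0 → ∑' n, (a n : ℂ) * cexp (-(s * Real.log n)) =
      logDeriv (fun s => (s - 1) * G s) s - logDeriv Λ s := by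
  have ab := LSeries.abscissaOfAbsConv_le_of_forall_lt_LSeriesSummable hb
  have lt : ∀ {x : ℝ}, 1 < x → LSeries.abscissaOfAbsConv (fun n => (b n : ℂ)) < x := fun hx =>
    ab.trans_lt (by exact_mod_cast hx)
  have sa : ∀ s : ℂ, 1 < s.re → LSeriesSummable (fun n => a n) s := fun s hs => by
    refine Summable.of_norm_bounded (LSeriesSummable_logMul_of_lt_re (lt hs)).norm fun n => ?_
    rcases eq_or_ne n 0 with rfl | hn
    · simp
    refine LSeries.norm_term_le s ?_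
    rw [LSeries.logMul, ← natCast_log, ← ofReal_mul, norm_real, norm_real, hab n hn,
      Real.norm_of_nonneg (ha n)]
    refine le_trans ?_ (le_abs_self _)
    have := Finset.single_le_sum (f := fun p : ℕ × ℕ => a p.1 * b p.2)
      (fun p _ => mul_nonneg (ha _) (hb0 _))
      (show (n, 1) ∈ n.divisorsAntidiagonal by simp [hn])
    simpa [b1] using this
  refine ⟨fun σ h1 h2 => ?_, (sa 2 (by simp)).norm.congr fun n => ?_, fun s h1 h2 h3 => ?_⟩
  · rw [h σ h1 h2]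
    refine mul_ne_zero (mul_ne_zero ?_ (LSeries.positive (fun n => by simpa using hb0 n)
      (by simp [b1]) (lt h1)).ne') (hG0 σ (by linarith) h2)
    exact_mod_cast (sub_pos.2 h1).ne'
  · rw [term_eq a0, norm_mul, norm_real, norm_exp]
    simp [-natCast_log]
  · have h1' : 1 < s.re := by linarith
    have e : Λ =ᶠ[𝓝 s] fun s => LSeries (fun n => b n) s * ((s - 1) * G s) := by
      filter_upwards [((isOpen_lt continuous_const continuous_re).inter
        (isOpen_lt continuous_re continuous_const)).mem_nhds (show s ∈ _ ∩ _ from ⟨h1', h2⟩)]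
        with z hz
      rw [h z hz.1 hz.2]; ring
    have h4 := h3
    rw [e.self_of_nhds, mul_ne_zero_iff] at h4
    have d := LSeries_hasDerivAt (lt h1')
    have e2 : logDeriv Λ s = logDeriv (fun s => LSeries (fun n => b n) s * ((s - 1) * G s)) s := by
      rw [logDeriv_apply, logDeriv_apply, e.deriv_eq, e.self_of_nhds]
    rw [e2, logDeriv_mul (g := fun s => (s - 1) * G s) s h4.1 h4.2 d.differentiableAt
      (DifferentiableAt.mul (by fun_prop) (hG s (by linarith) h2).differentiableAt),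
      logDeriv_apply (LSeries _), d.deriv]
    have e3 : LSeries (LSeries.logMul fun n => (b n : ℂ)) s =
        LSeries (fun n => a n) s * LSeries (fun n => b n) s := by
      rw [← LSeries_convolution' (sa s h1') (LSeriesSummable_of_abscissaOfAbsConv_lt_re (lt h1'))]
      refine LSeries_congr (fun {n} hn => ?_) s
      rw [LSeries.convolution_def, LSeries.logMul, ← natCast_log]
      beta_reduce
      exact_mod_cast hab n hn
    rw [e3, neg_div, mul_div_cancel_right₀ _ h4.1, ← funext (term_eq a0 s), LSeries]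
    ring

end Pool.Agent.Lib.MP_fa98d2_nt
end
end
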