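import Pool.Agent.Lib.MP_fa98d2_nt.Cap
import Pool.Agent.Lib.MP_fa98d2_nt.Final
import Pool.Agent.Lib.MP_fa98d2_nt.Mel

-- part Pool.Agent.Lib.MP_fa98d2_nt.Unf2
section

/- Unfolding for a family of forms depending on the lattice vector. -/

open MeasureTheory Matrix Set Topology Filter
open scoped ENNReal MatrixGroups Real ContDiff

noncomputable section

namespace Pool.Agent.Lib.MP_fa98d2_nt

def c3 (g : G) : ℝ := dt g ^ (-(1 / 3) : ℝ)

lemma c3_pos (g : G) : 0 < c3 g := Real.rpow_pos_of_pos (dt_pos g) _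

lemma rpow_cube {x : ℝ} (hx : 0 < x) : (x ^ (-(1 / 3) : ℝ)) ^ 3 = x⁻¹ := by
  rw [← Real.rpow_natCast, ← Real.rpow_mul hx.le, ← Real.rpow_neg_one]
  norm_num

lemma c3_cube (g : G) : c3 g ^ 3 = (dt g)⁻¹ := rpow_cube (dt_pos g)

lemma continuous_c3 : Continuous c3 := continuous_dt.rpow_const fun g => Or.inl (dt_pos g).ne'

def n3 (g : G) : V3 := c3 g • g.val 2

def nv (v : Fin 3 → ℤ) (g : G) : V3 := c3 g • vm v g

lemma continuous_n3 : Continuous n3 := continuous_c3.smul (continuous_row 2)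

lemma continuous_nv (v : Fin 3 → ℤ) : Continuous (nv v) := continuous_c3.smul (continuous_vm v)

lemma n3_nn (x y z : ℝ) (g : G) : n3 (nn x y z * g) = n3 g := by
  rw [n3, row2_nn, c3, dt_mul, dt_nn, one_mul]; rfl

lemma n3_emb (h : SL(2, ℤ)) (g : G) : n3 (emb h * g) = n3 g := by
  have : (emb h * g).val 2 = g.val 2 := by
    ext j
    simp [Matrix.mul_apply, Fin.sum_univ_three, val_emb]
  rw [n3, this, c3, dt_mul, dt_emb, one_mul]; rfl

lemma n3_io (γ : SL(3, ℤ)) (g : G) : n3 (io γ * g) = nv (γ.val 2) g := by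
  rw [n3, c3, dt_mul, dt_io, one_mul, row_mul]; rfl

section
variable {H : V3 → G → ℂ}

lemma cont_U2 (hc : Continuous (Function.uncurry H)) (c d : ℤ) :
    Continuous fun p : V3 × G => U2 c d (H p.1) p.2 := by
  unfold U2
  refine continuous_fc d (continuous_fc c
    (f := fun (p : (V3 × G) × ℝ) z => H p.1.1 (nn 0 p.2 z * p.1.2)) ?_)
  exact hc.comp (f := fun p : ((V3 × G) × ℝ) × ℝ => (p.1.1.1, nn 0 p.1.2 p.2 * p.1.1.2))
    (Continuous.prodMk (by fun_prop)
      ((continuous_nn continuous_const (by fun_prop) (by fun_prop)).mul (by fun_prop)))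

lemma cont_Wh (hc : Continuous (Function.uncurry H)) (m n : ℤ) :
    Continuous fun p : V3 × G => Wh m n (H p.1) p.2 := by
  unfold Wh
  refine continuous_fc m (f := fun (p : V3 × G) x => U2 0 n (H p.1) (nn x 0 0 * p.2)) ?_
  exact (cont_U2 hc 0 n).comp (f := fun p : (V3 × G) × ℝ => (p.1.1, nn p.2 0 0 * p.1.2))
    (Continuous.prodMk (by fun_prop)
      ((continuous_nn (by fun_prop) continuous_const continuous_const).mul (by fun_prop)))

lemma measurable_F2 {H : V3 × G → ℂ} (hc : Continuous H) {Ψ : V3 → ℝ≥0∞} (hΨ : Measurable Ψ) :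
    Measurable fun g => Sh 1 g * (‖H (n3 g, g)‖ₑ ^ 2 * Ψ (n3 g)) :=
  (measurable_Sh 1).mul ((measurable_sq (hc.comp (continuous_n3.prodMk continuous_id))).mul
    (hΨ.comp continuous_n3.measurable))

theorem unfold2 (hc : Continuous (Function.uncurry H)) (hf : ∀ ξ, Cusp (H ξ)) {β βN : G → ℝ≥0∞}
    (hβ : Measurable β) (hβN : Measurable βN) (h1 : DWt io β) (hN : DWt aN βN) {Ψ : V3 → ℝ≥0∞}
    (hΨ : Measurable Ψ) :
    ∫⁻ g, β g * (Sh 1 g * ∑' v : Prim 3, ‖H (nv v.1 g) g‖ₑ ^ 2 * Ψ (nv v.1 g)) ∂mu =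
      ∑' n : ℕ+, ∑' m : ℤ,
        ∫⁻ g, βN g * (Sh 1 g * (‖Wh m (n : ℕ) (H (n3 g)) g‖ₑ ^ 2 * Ψ (n3 g))) ∂mu := by
  set βP := subWt (fun v : Prim 3 => io (s3 v)) β
  have hβP : Measurable βP := measurable_subWt hβ
  have hP : DWt aP βP := subWt_dwt dinv_io dinv_aP tsum_SL3 h1
  have m0 : Measurable fun g => Sh 1 g * (‖H (n3 g) g‖ₑ ^ 2 * Ψ (n3 g)) := measurable_F2 hc hΨ
  have m1 : ∀ k : ℤ, Measurable fun g => Sh 1 g * (‖U2 0 k (H (n3 g)) g‖ₑ ^ 2 * Ψ (n3 g)) :=
    fun k => measurable_F2 (cont_U2 hc 0 k) hΨ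
  have step1 : ∫⁻ g, β g * (Sh 1 g * ∑' v : Prim 3, ‖H (nv v.1 g) g‖ₑ ^ 2 * Ψ (nv v.1 g)) ∂mu =
      ∫⁻ g, βP g * (Sh 1 g * (‖H (n3 g) g‖ₑ ^ 2 * Ψ (n3 g))) ∂mu := by
    rw [← unfold_sub hβ m0]
    refine lintegral_congr fun g => ?_
    simp only [Sh_mul_of_dt (dt_io _), (hf _).inv, n3_io, s3_row, ENNReal.tsum_mul_left]
  have step2 : ∫⁻ g, βP g * (Sh 1 g * (‖H (n3 g) g‖ₑ ^ 2 * Ψ (n3 g))) ∂mu =
      ∑' k : ℕ+, ∫⁻ g, βP g * ∑' w : Prim 2, (fun g =>
        Sh 1 g * (‖U2 0 (k : ℕ) (H (n3 g)) g‖ₑ ^ 2 * Ψ (n3 g))) (emb (s2 w) * g) ∂mu := by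
    rw [avg dinv_aP continuous_uU.measurable dtile_P hβP m0 hP, ← lintegral_tsum]
    · refine lintegral_congr fun g => ?_
      rw [ENNReal.tsum_mul_left]
      congr 1
      simp only [uU, Sh_mul_of_dt (dt_nn _ _ _), n3_nn, Sh_mul_of_dt (dt_emb _), n3_emb,
        ENNReal.tsum_mul_left, ENNReal.tsum_mul_right]
      have hm : Measurable fun x : ℝ × ℝ => ‖H (n3 g) (nn 0 x.1 x.2 * g)‖ₑ ^ 2 :=
        (measurable_sq (hf _).cont).comp (continuous_uU.measurable.mul_const g)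
      rw [lintegral_const_mul _ (hm.mul_const _), lintegral_mul_const _ hm,
        lintegral_prod _ hm.aemeasurable, parseval_U2 (hf _).cont, tsum_U2 (hf _)]
    · intro k
      exact (hβP.mul (Measurable.tsum fun w => (m1 _).comp (measurable_const_mul _))).aemeasurable
    · rintro ⟨h, a, b⟩ g
      rw [aP, Sh_mul_of_dt (dt_io _), (hf _).inv, ← aP, aP_eq, mul_assoc, n3_nn, n3_emb]
  rw [step1, step2]
  refine tsum_congr fun k => ?_
  have hinv : ∀ (i : ℤ × ℤ × ℤ) (g : G), Sh 1 (aN i * g) *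
      (‖U2 0 (k : ℕ) (H (n3 (aN i * g))) (aN i * g)‖ₑ ^ 2 * Ψ (n3 (aN i * g))) =
      Sh 1 g * (‖U2 0 (k : ℕ) (H (n3 g)) g‖ₑ ^ 2 * Ψ (n3 g)) := by
    rintro ⟨a, b, c⟩ g
    have : nn (a : ℝ) b c = nn 0 b c * nn a 0 0 := by simp [nn_mul]
    simp only [aN, Sh_mul_of_dt (dt_nn _ _ _), n3_nn]
    rw [this, mul_assoc, U2_nn (hf _).toAut, U2_nn_int (hf _).toAut]
    simp
  rw [unfold dinv_aP dinv_aN tsum_P hβP hβN (m1 _) hP hN hinv,
    avg dinv_aN continuous_nR.measurable dtile_N hβN (m1 _) hN hinv, ← lintegral_tsum]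
  · refine lintegral_congr fun g => ?_
    rw [ENNReal.tsum_mul_left]
    congr 1
    have e : ∀ x : ℝ × ℝ × ℝ, ‖U2 0 (k : ℕ) (H (n3 g)) (nR x * g)‖ₑ =
        ‖U2 0 (k : ℕ) (H (n3 g)) (nn x.1 0 0 * g)‖ₑ := by
      intro x
      have : nR x = nn 0 x.2.1 x.2.2 * nn x.1 0 0 := by simp [nn_mul, nR]
      rw [this, mul_assoc, U2_nn (hf _).toAut]
      simp
    have e' : ∀ x, n3 (nR x * g) = n3 g := fun x => n3_nn _ _ _ g
    simp only [e', e]
    simp only [nR, Sh_mul_of_dt (dt_nn _ _ _), ENNReal.tsum_mul_left, ENNReal.tsum_mul_right]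
    have hm0 : Measurable fun x : ℝ => ‖U2 0 (k : ℕ) (H (n3 g)) (nn x 0 0 * g)‖ₑ ^ 2 :=
      (measurable_sq (continuous_U2 (hf _).cont _ _)).comp
        ((continuous_nn continuous_id continuous_const continuous_const).measurable.mul_const g)
    have hm : Measurable fun x : ℝ × ℝ × ℝ => ‖U2 0 (k : ℕ) (H (n3 g)) (nn x.1 0 0 * g)‖ₑ ^ 2 :=
      hm0.comp measurable_fst
    rw [lintegral_const_mul _ (hm.mul_const _), lintegral_mul_const _ hm,
      lintegral_prod _ hm.aemeasurable, ← parseval_Wh (hf _).cont]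
    simp
  · intro m
    exact (hβN.mul (measurable_F2 (cont_Wh hc _ _) hΨ)).aemeasurable

end

lemma cusp_sum {ι : Type} [Fintype ι] {f : ι → G → ℂ} (hf : ∀ i, Cusp (f i)) (c : ι → ℂ) :
    Cusp fun g => ∑ i, c i * f i g := by
  have key : ∀ u : ℝ → ℝ → G, Continuous (Function.uncurry u) →
      (∀ i, ∫ x in (0 : ℝ)..1, ∫ z in (0 : ℝ)..1, f i (u x z) = 0) →
      ∫ x in (0 : ℝ)..1, ∫ z in (0 : ℝ)..1, ∑ i, c i * f i (u x z) = 0 := fun u hu h => by
    have h1 : ∀ i, Continuous (Function.uncurry fun x z => f i (u x z)) := fun i =>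
      (hf i).cont.comp hu
    have h2 : ∀ x, ∫ z in (0 : ℝ)..1, ∑ i, c i * f i (u x z) =
        ∑ i, c i * ∫ z in (0 : ℝ)..1, f i (u x z) := fun x => by
      simp only [← intervalIntegral.integral_const_mul]
      exact intervalIntegral.integral_finsetSum fun i _ => Continuous.intervalIntegrable
        (((h1 i).comp (f := fun z => (x, z)) (by fun_prop)).const_mul _) _ _
    simp only [h2]
    rw [intervalIntegral.integral_finsetSum fun i _ => Continuous.intervalIntegrable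
      ((continuous_int01 (h1 i)).const_mul _) _ _]
    simp [h]
  refine ⟨⟨continuous_finsetSum _ fun i _ => (hf i).cont.const_mul _, fun γ g => ?_,
    fun t ht g => ?_⟩, fun g => key (fun y z => nn 0 y z * g) ?_ fun i => (hf i).c1 g,
    fun g => key (fun x z => nn x 0 z * g) ?_ fun i => (hf i).c2 g⟩
  · simp only [(hf _).inv]
  · simp only [(hf _).cen t ht]
  · exact (continuous_nn continuous_const (by fun_prop) (by fun_prop)).mul continuous_const
  · exact (continuous_nn (by fun_prop) continuous_const (by fun_prop)).mul continuous_const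

/-- a bump function -/
def chi : ContDiffBump (0 : ℝ) := ⟨1 / 2, 1, by norm_num, by norm_num⟩

def p0 (s : ℝ) : ℝ := s * chi s

def ww (ξ : V3) : ℝ := nsq ξ * chi (nsq ξ ^ 3)

lemma continuous_p0 : Continuous p0 := continuous_id.mul chi.continuous

lemma p0_nonneg {s : ℝ} (hs : 0 ≤ s) : 0 ≤ p0 s := mul_nonneg hs chi.nonneg

lemma p0_pos {s : ℝ} (hs : 0 < s) (h1 : s < 1) : 0 < p0 s :=
  mul_pos hs (chi.pos_of_mem_ball (by simpa [chi, abs_of_pos hs] using h1))

lemma chi_zero {s : ℝ} (hs : 1 ≤ s) : chi s = 0 :=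
  chi.zero_of_le_dist (by simpa [chi] using hs.trans (le_abs_self s))

lemma p0_le {s : ℝ} (hs : 0 ≤ s) :
    ENNReal.ofReal (p0 s) ≤ ENNReal.ofReal (Real.exp π) * gauss s := by
  rcases le_or_gt 1 s with h | h
  · simp [p0, chi_zero h]
  rw [gauss, ← ENNReal.ofReal_mul (Real.exp_pos _).le, ← Real.exp_add]
  refine ENNReal.ofReal_le_ofReal ((mul_le_one₀ h.le chi.nonneg chi.le_one).trans
    (Real.one_le_exp ?_))
  have := Real.rpow_le_one hs h.le (z := 1 / 3) (by norm_num)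
  nlinarith [Real.pi_pos]

lemma contDiff_nsq : ContDiff ℝ ∞ nsq := by
  rw [funext nsq_eq]; fun_prop

lemma contDiff_ww : ContDiff ℝ ∞ ww := contDiff_nsq.mul (chi.contDiff.comp (contDiff_nsq.pow 3))

lemma ww_nonneg (ξ : V3) : 0 ≤ ww ξ := mul_nonneg (nsq_nonneg _) chi.nonneg

lemma supp_ww : HasCompactSupport ww := by
  refine HasCompactSupport.intro (isCompact_closedBall (0 : V3) 1) fun ξ hξ => ?_
  rw [mem_closedBall_zero_iff, not_le] at hξ
  rw [ww, chi_zero (one_le_pow₀ ((one_le_pow₀ hξ.le).trans (norm_sq_le_nsq ξ))), mul_zero]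

/-- the modified theta integral -/
def II (β : G → ℝ≥0∞) (F : J6 → G → ℂ) (X : ℝ) : ℝ≥0∞ :=
  ∫⁻ g, β g * (Sh 1 g * ∑' v, ENNReal.ofReal
    (PH PP ww (fun j => F j g) (X ^ (-(1 / 3) : ℝ) • nv v g))) ∂mu

def K1 (f : G → ℂ) (y : ℝ) : ℝ≥0∞ :=
  ∫⁻ g, wt f g * ENNReal.ofReal ((2 * π) ^ 6 * y ^ 2 * p0 (y ^ 2 * z3 g)) ∂mu

lemma Wh_fam {k : E → ℝ} (hk : SK k) {f : G → ℂ} (hf : Cusp f) (m n : ℤ) {τ : ℝ} (hτ : 0 < τ)
    (g : G) : ‖Wh m n (fun x => ∑ j, (PP j (τ • n3 g) : ℂ) * fam k f j x) g‖ₑ ^ 2 *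
      ENNReal.ofReal (ww (τ • n3 g)) = ‖Wh m n (conv (fun h => k (co h)) f) g‖ₑ ^ 2 *
        ENNReal.ofReal ((2 * π) ^ 6 * (m * n ^ 2 * τ ^ 3) ^ 2 * p0 ((τ ^ 3) ^ 2 * z3 g)) := by
  have ht : 0 < τ * c3 g := mul_pos hτ (c3_pos g)
  have hd := dt_pos g
  have e1 : τ • n3 g = (sc (τ * c3 g) * g).val 2 := by
    rw [val_sc_mul ht.ne', n3, smul_smul]; rfl
  have hc : Cusp fun x => ∑ j, (PP j (τ • n3 g) : ℂ) * fam k f j x :=
    cusp_sum (fun j => hf.conv (((hk.De _).De _).De _).ker) _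
  have e2 : |(sc (τ * c3 g) * g).val.det| = τ ^ 3 := by
    rw [← dt, dt_mul, dt_sc ht, mul_pow, c3_cube]
    field_simp
  have e3 : nsq (τ • n3 g) ^ 3 = (τ ^ 3) ^ 2 * z3 g := by
    rw [n3, smul_smul, nsq_smul, z3, mul_pow, ← pow_mul, show 2 * 3 = 3 * 2 from rfl, pow_mul,
      mul_pow, c3_cube]
    field_simp
  rw [← Wh_sc hc.toAut m n ht.ne', e1, capelli hk hf.toAut, Wh_sc (hf.toAut.conv hk.ker) m n ht.ne',
    ← e1, sq_enorm, sq_enorm, ← ENNReal.ofReal_mul (sq_nonneg _),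
    ← ENNReal.ofReal_mul (sq_nonneg _)]
  congr 1
  rw [p0, ← e3, ww]
  simp only [norm_mul, norm_pow, norm_neg, Complex.norm_real, Complex.norm_intCast, Complex.norm_I,
    Complex.norm_ofNat, Real.norm_eq_abs, e2, mul_pow, sq_abs, abs_of_pos Real.pi_pos, ← pow_abs]
  ring

lemma measurable_ps (c d : ℝ) : Measurable fun s => ENNReal.ofReal (c * p0 (d * s)) :=
  ((continuous_p0.comp (continuous_const_mul d)).const_mul c).measurable.ennreal_ofReal

theorem II_eq {k : E → ℝ} (hk : SK k) {f : G → ℂ} (hf : Cusp f) {e1 e2 : ℕ → ℂ}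
    (hH : Hk (conv (fun h => k (co h)) f) e1 e2) {β : G → ℝ≥0∞} (hβ : Measurable β)
    (h1 : DWt io β) {X : ℝ} (hX : 0 < X) :
    II β (fam k f) X = ∑' N : ℕ+, bb e1 e2 N * K1 (conv (fun h => k (co h)) f) ((N : ℕ) / X) := by
  set f1 := conv (fun h => k (co h)) f
  have hf1 : Cusp f1 := hf.conv hk.ker
  have hF : ∀ j, Cusp (fam k f j) := fun j => hf.conv (((hk.De _).De _).De _).ker
  set τ := X ^ (-(1 / 3) : ℝ)
  have hτ : 0 < τ := Real.rpow_pos_of_pos hX _
  have hτ3 : τ ^ 3 = X⁻¹ := rpow_cube hX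
  set H : ℝ → V3 → G → ℂ := fun t ξ x => ∑ j, (PP j (t • ξ) : ℂ) * fam k f j x with hHd
  have cH : ∀ t, Continuous (Function.uncurry (H t)) := fun t =>
    continuous_finsetSum _ fun j _ => (Complex.continuous_ofReal.comp
      ((contDiff_PP j).continuous.comp (by fun_prop))).mul ((hF j).cont.comp continuous_snd)
  have mw : ∀ t : ℝ, Measurable fun ξ : V3 => ENNReal.ofReal (ww (t • ξ)) := fun t =>
    (contDiff_ww.continuous.comp (by fun_prop)).measurable.ennreal_ofReal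
  have s1 : II β (fam k f) X = ∑' l : ℕ+, ∫⁻ g, β g * (Sh 1 g * ∑' v : Prim 3,
      ‖H (τ * (l : ℕ)) (nv v.1 g) g‖ₑ ^ 2 * ENNReal.ofReal (ww ((τ * (l : ℕ)) • nv v.1 g))) ∂mu := by
    rw [II, ← lintegral_tsum]
    swap
    · exact fun l => (hβ.mul ((measurable_Sh 1).mul (Measurable.tsum fun v =>
        (measurable_sq ((cH _).comp ((continuous_nv _).prodMk continuous_id))).mul
          ((mw _).comp (continuous_nv _).measurable)))).aemeasurable
    refine lintegral_congr fun g => ?_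
    simp only [ENNReal.tsum_mul_left]
    congr 2
    have z : vm 0 g = 0 := by ext i; simp [vm, vecMul, dotProduct]
    rw [tsum_prim 3]
    simp only [nv, z, smul_zero, PH, ww, show nsq 0 = 0 by simp [nsq], zero_mul, mul_zero,
      ENNReal.ofReal_zero, zero_add]
    refine tsum_congr fun l => tsum_congr fun v => ?_
    have : vm (((l : ℕ) : ℤ) • v.1) g = ((l : ℕ) : ℝ) • vm v.1 g := by
      rw [vm, vm, ← Matrix.smul_vecMul]
      congr 1
      ext i; simp
    rw [this, smul_comm (c3 g), smul_smul τ, ENNReal.ofReal_mul (sq_nonneg _), ← sq_enorm]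
  rw [s1, bb, ← tsum_three _ fun N => K1 f1 (N / X)]
  refine tsum_congr fun l => ?_
  have hl : 0 < τ * (l : ℕ) := mul_pos hτ (by exact_mod_cast l.pos)
  rw [unfold2 (cH _) (fun ξ => cusp_sum hF _) hβ measurable_bN h1 dwt_bN (mw _),
    ENNReal.tsum_comm (α := ℕ+) (β := ℕ+)]
  refine tsum_congr fun n => ?_
  simp only [hHd, Wh_fam hk hf _ _ hl]
  rw [tsum_int_pnat _ (by simp)]
  refine tsum_congr fun m => ?_
  rw [shell_step hf1.toAut hH isUnit_one m.pos n.pos (measurable_ps _ _),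
    shell_step hf1.toAut hH isUnit_one.neg m.pos n.pos (measurable_ps _ _), ← mul_add,
    ← lintegral_add_left]
  swap
  · exact measurable_bN.mul ((measurable_Sh 1).mul ((measurable_sq
      (continuous_Wh hf1.cont _ _)).mul ((measurable_ps _ _).comp
        (continuous_z3.measurable.const_mul _))))
  congr 1
  refine lintegral_congr fun g => ?_
  simp only [wt, mul_pow τ, hτ3]
  push_cast
  set y := ((l : ℕ) : ℝ) ^ 3 * (((m : ℕ) : ℝ) * ((n : ℕ) : ℝ) ^ 2) / X with hy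
  rw [show (1 * ((m : ℕ) : ℝ) * ((n : ℕ) : ℝ) ^ 2 * (X⁻¹ * ((l : ℕ) : ℝ) ^ 3)) ^ 2 = y ^ 2 by
      rw [hy]; ring,
    show (-1 * ((m : ℕ) : ℝ) * ((n : ℕ) : ℝ) ^ 2 * (X⁻¹ * ((l : ℕ) : ℝ) ^ 3)) ^ 2 = y ^ 2 by
      rw [hy]; ring,
    show (X⁻¹ * ((l : ℕ) : ℝ) ^ 3) ^ 2 * ((((m : ℕ) : ℝ) * ((n : ℕ) : ℝ) ^ 2) ^ 2 * z3 g) =
      y ^ 2 * z3 g by rw [hy]; ring]
  ring

end Pool.Agent.Lib.MP_fa98d2_nt
end
end

-- part Pool.Agent.Lib.MP_fa98d2_nt.Asym
section

/- Asymptotics of the modified theta integral. -/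

open MeasureTheory Matrix Set Topology Filter
open scoped ENNReal MatrixGroups Real

noncomputable section

namespace Pool.Agent.Lib.MP_fa98d2_nt

def pz (s : ℝ) : ℝ≥0∞ := ENNReal.ofReal (1 / s ^ 25)

lemma measurable_pz : Measurable pz := by unfold pz; fun_prop

lemma Zt_fin {f : G → ℂ} (hf : Cusp f) {β : G → ℝ≥0∞} (hβ : Measurable β) (h1 : DWt io β)
    (hd : Dec 137 f) :
    ∫⁻ g, β g * (Sh 1 g * (‖f g‖ₑ ^ 2 * ∑' v : Prim 3, pz (zt v.1 g))) ∂mu ≠ ∞ := by
  obtain ⟨C, hC, hd⟩ := hd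
  obtain ⟨K, hK⟩ : ∃ K : ℝ, K = C * (2 ^ 35 * 13 ^ 5) := ⟨_, rfl⟩
  have hK0 : 0 ≤ K := by rw [hK]; positivity
  refine ne_top_of_le_ne_top (b := zeta2 * (zeta2 * (ENNReal.ofReal K * JJ))) (by
    have := zeta2_ne_top; have := JJ_ne_top; finiteness) ?_
  rw [unfold_main hf hβ measurable_bN h1 dwt_bN measurable_pz]
  have key : ∀ (n : ℕ+) (m : ℤ),
      ∫⁻ g, bN g * (Sh 1 g * (‖Wh m (n : ℕ) f g‖ₑ ^ 2 * pz (z3 g))) ∂mu ≤
        ENNReal.ofReal (1 / ((n : ℕ) : ℝ) ^ 2) * (ENNReal.ofReal (1 / (m : ℝ) ^ 2) *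
          (ENNReal.ofReal K * JJ)) := by
    intro n m
    by_cases hm : m = 0
    · simp [hm, Wh_zero hf]
    have hn : ((n : ℕ) : ℤ) ≠ 0 := by exact_mod_cast n.ne_zero
    have e : ENNReal.ofReal (1 / ((n : ℕ) : ℝ) ^ 2) * (ENNReal.ofReal (1 / (m : ℝ) ^ 2) *
          (ENNReal.ofReal K * JJ)) =
        ENNReal.ofReal (1 / (m : ℝ) ^ 2 * (1 / ((n : ℕ) : ℝ) ^ 2) * K) * JJ := by
      rw [ENNReal.ofReal_mul (q := K) (by positivity),
        ENNReal.ofReal_mul (p := 1 / (m : ℝ) ^ 2) (by positivity)]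
      ac_rfl
    rw [e, JJ, ← lintegral_const_mul' _ _ (by finiteness)]
    refine lintegral_mono fun g => ?_
    unfold bN
    split_ifs with hb
    swap
    · simp
    unfold Sh
    split_ifs with hs
    swap
    · simp
    simp only [one_mul]
    have q1 := Y1_pos g; have q2 := Y2_pos g; have hH := Hh_pos g
    have b1 := (hd m (n : ℕ) g).trans (Wh_bound (B := 135) hC hm hn g)
    have b3 := key_ineq q1 q2 0 (by positivity) (box_norm hb (by linarith [hs.2]))
    rw [sq_enorm, pz, ← ENNReal.ofReal_mul (by positivity), ← ENNReal.ofReal_mul (by positivity)]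
    refine ENNReal.ofReal_le_ofReal
      ((mul_le_mul_of_nonneg_right b1 (by have := z3_pos g; positivity)).trans ?_)
    rw [z3_eq, inv_pow, div_inv_eq_mul, one_mul]
    push_cast
    rw [← Hh] at b3
    have hT : 0 < (1 + Y1 g + Y2 g) ^ 135 := by positivity
    have hN : 0 < (1 + ‖co g‖ ^ 2) ^ 5 := by positivity
    have b4 : Hh g ^ 10 * (Y1 g * Y2 g ^ 2) ^ 25 / (1 + Y1 g + Y2 g) ^ 135 ≤
        2 ^ 35 * 13 ^ 5 / (1 + ‖co g‖ ^ 2) ^ 5 := by
      rw [div_le_div_iff₀ hT hN]; exact b3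
    have hmn : 0 ≤ 1 / (m : ℝ) ^ 2 * (1 / ((n : ℕ) : ℝ) ^ 2) := by positivity
    rw [hK]
    generalize (1 + Y1 g + Y2 g) ^ 135 = T, (1 + ‖co g‖ ^ 2) ^ 5 = N, Hh g ^ 10 = H,
      (Y1 g * Y2 g ^ 2) ^ 25 = w, 1 / (m : ℝ) ^ 2 * (1 / ((n : ℕ) : ℝ) ^ 2) = r at *
    calc _ = r * C * (H * w / T) := by ring
      _ ≤ r * C * (2 ^ 35 * 13 ^ 5 / N) := by gcongr
      _ = _ := by ring
  refine (ENNReal.tsum_le_tsum fun n => ENNReal.tsum_le_tsum (key n)).trans ?_
  simp only [ENNReal.tsum_mul_left, ENNReal.tsum_mul_right, ← zeta2.eq_1]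
  gcongr
  exact tsum_pnat_le

def DZ (g : G) : ℝ≥0∞ := ∑' w, pz (zt w g)

lemma measurable_DZ : Measurable DZ :=
  Measurable.tsum fun v => measurable_pz.comp (continuous_zt v).measurable

lemma DZ_io (γ : SL(3, ℤ)) (g : G) : DZ (io γ * g) = DZ g := by
  let e : (Fin 3 → ℤ) ≃ (Fin 3 → ℤ) :=
    { toFun := fun v => v ᵥ* γ.val
      invFun := fun v => v ᵥ* (γ⁻¹).val
      left_inv := fun v => by
        simp only [Matrix.vecMul_vecMul, ← Matrix.SpecialLinearGroup.coe_mul, mul_inv_cancel,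
          Matrix.SpecialLinearGroup.coe_one, Matrix.vecMul_one]
      right_inv := fun v => by
        simp only [Matrix.vecMul_vecMul, ← Matrix.SpecialLinearGroup.coe_mul, inv_mul_cancel,
          Matrix.SpecialLinearGroup.coe_one, Matrix.vecMul_one] }
  simp only [DZ, zt_io]
  exact e.tsum_eq fun v => pz (zt v g)

lemma vm_zero (g : G) : vm 0 g = 0 := by ext i; simp [vm, vecMul, dotProduct]

lemma DZ_le (g : G) : DZ g ≤ zeta2 * ∑' v : Prim 3, pz (zt v.1 g) := by
  rw [DZ, tsum_prim 3]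
  simp only [zt_smul]
  rw [show pz (zt 0 g) = 0 by simp [pz, zt, vm_zero, nsq], zero_add]
  refine le_trans (ENNReal.tsum_le_tsum fun k => ?_)
    ((le_of_eq ENNReal.tsum_mul_right).trans (mul_le_mul_left tsum_pnat_le _))
  rw [← ENNReal.tsum_mul_left]
  refine ENNReal.tsum_le_tsum fun v => ?_
  rw [pz, pz, ← ENNReal.ofReal_mul (by positivity), mul_pow, div_mul_div_comm, one_mul]
  have hk : (1 : ℝ) ≤ (k : ℕ) := by exact_mod_cast k.pos
  have hz : 0 < zt v.1 g := div_pos (pow_pos (nsq_pos (vm_ne_zero (fun h => by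
    obtain ⟨u, hu⟩ := v.2
    simp [h] at hu) g)) 3) (pow_pos (dt_pos g) 2)
  push_cast
  gcongr
  rw [← pow_mul]
  exact pow_le_pow_right₀ hk (by norm_num)

lemma err_fin {f : G → ℂ} (hf : Cusp f) {β : G → ℝ≥0∞} (hβ : Measurable β) (h1 : DWt io β)
    (hd : Dec 137 (dual f)) : ∫⁻ g, β g * (Sh 1 g * (‖f g‖ₑ ^ 2 * DZ (du g))) ∂mu ≠ ∞ := by
  have hβ' : Measurable fun g => β (du g) := hβ.comp continuous_du.measurable
  have e := shift_disc (F := fun g => ‖dual f g‖ₑ ^ 2 * DZ g) dinv_io dt_io hβ'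
    ((measurable_sq hf.dual.cont).mul measurable_DZ) (dwt_du h1)
    (fun γ g => by simp only [hf.dual.inv, DZ_io])
    (fun t ht g => by simp only [hf.dual.cen t ht.ne', DZ, zt_sc _ ht]) (c := 1 / 2) (by norm_num)
  rw [← lintegral_du]
  simp only [Sh_du, du_du]
  refine ne_top_of_le_ne_top (ENNReal.mul_ne_top zeta2_ne_top
    (Zt_fin hf.dual hβ' (dwt_du h1) hd)) (e.le.trans ?_)
  rw [← lintegral_const_mul' _ _ zeta2_ne_top]
  refine lintegral_mono fun g => ?_
  calc _ ≤ β (du g) * (Sh 1 g * (‖dual f g‖ₑ ^ 2 * (zeta2 * ∑' v : Prim 3, pz (zt v.1 g)))) := by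
        gcongr; exact DZ_le g
    _ = _ := by ring

lemma pois_fam : ∃ K : ℝ, 0 < K ∧ ∀ (z : J6 → ℂ) (g : G) (X : ℝ), 0 < X →
    ∑' v, ENNReal.ofReal (PH PP ww z (X ^ (-(1 / 3) : ℝ) • nv v g)) ≤
      ENNReal.ofReal X * ENNReal.ofReal (∫ x, PH PP ww z x) + ENNReal.ofReal (K * X⁻¹ ^ 49) *
        ∑ j, ‖z j‖ₑ ^ 2 * DZ (du g) ∧
    ENNReal.ofReal X * ENNReal.ofReal (∫ x, PH PP ww z x) ≤
      ∑' v, ENNReal.ofReal (PH PP ww z (X ^ (-(1 / 3) : ℝ) • nv v g)) +
        ENNReal.ofReal (K * X⁻¹ ^ 49) * ∑ j, ‖z j‖ₑ ^ 2 * DZ (du g) := by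
  classical
  obtain ⟨K, K0, hK⟩ := FT_PH contDiff_PP contDiff_ww supp_ww 75
  refine ⟨K, K0, fun z g X hX => ?_⟩
  have z0 : 0 ≤ ∑ i, ‖z i‖ ^ 2 := by positivity
  rcases z0.eq_or_lt with h | h
  · have : z = 0 := funext fun i => by
      simpa using (Finset.sum_eq_zero_iff_of_nonneg fun i _ => by positivity).1 h.symm i
        (Finset.mem_univ i)
    simp [this, PH]
  set t := X ^ (-(1 / 3) : ℝ) * c3 g with ht
  have t0 : 0 < t := mul_pos (Real.rpow_pos_of_pos hX _) (c3_pos g)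
  have hd := dt_pos g
  have t3 : t ^ 3 = X⁻¹ * (dt g)⁻¹ := by rw [ht, mul_pow, rpow_cube hX, c3_cube]
  have hc : Continuous (PH PP ww z) := by
    have := fun j => (contDiff_PP j).continuous
    have := contDiff_ww.continuous
    unfold PH
    fun_prop
  have p := pois_err hc supp_ww.mul_left (fun x => mul_nonneg (sq_nonneg _) (ww_nonneg x))
    (mul_pos K0 h) (hK z) (sc t * g)
  have e1 : ∀ v, vm v (sc t * g) = X ^ (-(1 / 3) : ℝ) • nv v g := fun v => by
    rw [vm, val_sc_mul t0.ne', Matrix.vecMul_smul, nv, smul_smul]; rfl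
  have e2 : (dt (sc t * g))⁻¹ = X := by
    rw [dt_mul, dt_sc t0, t3]; field_simp
  have e3 : DS 75 (du (sc t * g)) = ENNReal.ofReal (X⁻¹ ^ 50) * DZ (du g) := by
    rw [DS, DZ, ← ENNReal.tsum_mul_left]
    refine tsum_congr fun w => ?_
    split_ifs with hw
    · simp [hw, pz, zt, vm_zero, nsq]
    rw [pz, ← ENNReal.ofReal_mul (by positivity), du_mul, du_sc t0.ne',
      nsq_vm_sc _ (inv_ne_zero t0.ne'), zt, dt_du]
    congr 1
    have := nsq_pos (vm_ne_zero hw (du g))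
    rw [show 75 = 3 * 25 from rfl, pow_mul, mul_pow, ← pow_mul, inv_pow,
      show 2 * 3 = 3 * 2 from rfl, pow_mul, t3]
    field_simp
  have e4 : ENNReal.ofReal X * (ENNReal.ofReal (K * ∑ i, ‖z i‖ ^ 2) *
      (ENNReal.ofReal (X⁻¹ ^ 50) * DZ (du g))) =
      ENNReal.ofReal (K * X⁻¹ ^ 49) * ∑ j, ‖z j‖ₑ ^ 2 * DZ (du g) := by
    simp only [sq_enorm]
    rw [← Finset.sum_mul, ← ENNReal.ofReal_sum_of_nonneg fun i _ => sq_nonneg _, ← mul_assoc,
      ← mul_assoc, ← mul_assoc, ← ENNReal.ofReal_mul hX.le, ← ENNReal.ofReal_mul (by positivity),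
      ← ENNReal.ofReal_mul (by positivity)]
    congr 2
    field_simp
  simp only [e1, e2, e3, mul_add, e4] at p
  exact p

lemma II_asym {F : J6 → G → ℂ} (hF : ∀ j, Cusp (F j)) {β : G → ℝ≥0∞} (hβ : Measurable β)
    (h1 : DWt io β) (h2 : ∀ j, N2 β (F j) ≠ ∞) (hd : ∀ j, Dec 137 (dual (F j))) :
    ∃ c C : ℝ≥0∞, c ≠ ∞ ∧ C ≠ ∞ ∧ ∀ X : ℝ, 0 < X →
      II β F X ≤ ENNReal.ofReal X * c + ENNReal.ofReal (X⁻¹ ^ 49) * C ∧
      ENNReal.ofReal X * c ≤ II β F X + ENNReal.ofReal (X⁻¹ ^ 49) * C := by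
  obtain ⟨K, K0, hK⟩ := pois_fam
  obtain ⟨K', K0', hK'⟩ := FT_PH contDiff_PP contDiff_ww supp_ww 0
  have m1 : ∀ j, Measurable fun g => β g * (Sh 1 g * (‖F j g‖ₑ ^ 2 * DZ (du g))) := fun j =>
    hβ.mul ((measurable_Sh 1).mul ((measurable_sq (hF j).cont).mul
      (measurable_DZ.comp continuous_du.measurable)))
  have m2 : ∀ j, Measurable fun g => β g * (Sh 1 g * ‖F j g‖ₑ ^ 2) := fun j =>
    hβ.mul ((measurable_Sh 1).mul (measurable_sq (hF j).cont))
  have e : ∀ X : ℝ, 0 < X → ∫⁻ g, β g * (Sh 1 g * (ENNReal.ofReal (K * X⁻¹ ^ 49) *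
      ∑ j, ‖F j g‖ₑ ^ 2 * DZ (du g))) ∂mu = ENNReal.ofReal (X⁻¹ ^ 49) * (ENNReal.ofReal K *
        ∑ j, ∫⁻ g, β g * (Sh 1 g * (‖F j g‖ₑ ^ 2 * DZ (du g))) ∂mu) := fun X hX => by
    rw [← lintegral_finsetSum _ fun j _ => m1 j, ← mul_assoc,
      ← ENNReal.ofReal_mul (by positivity), ← lintegral_const_mul' _ _ ENNReal.ofReal_ne_top,
      mul_comm K]
    refine lintegral_congr fun g => ?_
    simp only [← Finset.mul_sum]
    ring
  have m3 : ∀ X : ℝ, Measurable fun g => β g * (Sh 1 g * (ENNReal.ofReal (K * X⁻¹ ^ 49) *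
      ∑ j, ‖F j g‖ₑ ^ 2 * DZ (du g))) := fun X =>
    hβ.mul ((measurable_Sh 1).mul ((Finset.measurable_sum _ fun j _ => (measurable_sq
      (hF j).cont).mul (measurable_DZ.comp continuous_du.measurable)).const_mul _))
  refine ⟨∫⁻ g, β g * (Sh 1 g * ENNReal.ofReal (∫ x, PH PP ww (fun j => F j g) x)) ∂mu,
    ENNReal.ofReal K * ∑ j, ∫⁻ g, β g * (Sh 1 g * (‖F j g‖ₑ ^ 2 * DZ (du g))) ∂mu, ?_,
    ENNReal.mul_ne_top ENNReal.ofReal_ne_top
      (ENNReal.sum_ne_top.2 fun j _ => err_fin (hF j) hβ h1 (hd j)), fun X hX => ?_⟩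
  · refine ne_top_of_le_ne_top (b := ENNReal.ofReal K' * ∑ j, N2 β (F j))
      (ENNReal.mul_ne_top ENNReal.ofReal_ne_top (ENNReal.sum_ne_top.2 fun j _ => h2 j)) ?_
    simp only [N2]
    rw [← lintegral_finsetSum _ fun j _ => m2 j, ← lintegral_const_mul' _ _ ENNReal.ofReal_ne_top]
    refine lintegral_mono fun g => ?_
    have := hK' (fun j => F j g) 0
    simp only [pow_zero, one_mul, FT, zero_dotProduct, ec_zero, integral_complex_ofReal,
      Complex.norm_real] at this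
    simp only [← Finset.mul_sum, sq_enorm]
    rw [← ENNReal.ofReal_sum_of_nonneg fun i _ => sq_nonneg _, mul_left_comm _ (β g),
      mul_left_comm (ENNReal.ofReal K'), ← ENNReal.ofReal_mul K0'.le]
    gcongr
    exact (le_abs_self _).trans this
  · rw [← e X hX, ← lintegral_const_mul' _ _ ENNReal.ofReal_ne_top, II,
      ← lintegral_add_right _ (m3 X), ← lintegral_add_right _ (m3 X)]
    refine ⟨lintegral_mono fun g => ?_, lintegral_mono fun g => ?_⟩
    · rw [mul_left_comm _ (β g), mul_left_comm (ENNReal.ofReal X), ← mul_add, ← mul_add]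
      gcongr
      exact (hK _ g X hX).1
    · rw [mul_left_comm _ (β g), mul_left_comm (ENNReal.ofReal X), ← mul_add, ← mul_add]
      gcongr
      exact (hK _ g X hX).2

lemma measurable_K1 {f : G → ℂ} (hf : Continuous f) : Measurable (K1 f) := by
  refine Measurable.lintegral_prod_right' (f := fun p : ℝ × G => wt f p.2 *
    ENNReal.ofReal ((2 * π) ^ 6 * p.1 ^ 2 * p0 (p.1 ^ 2 * z3 p.2))) ?_
  refine ((measurable_wt hf).comp measurable_snd).mul (Measurable.ennreal_ofReal ?_)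
  have := continuous_p0
  have := continuous_z3
  exact Continuous.measurable (by fun_prop)

lemma K1_le (f : G → ℂ) (y : ℝ) :
    K1 f y ≤ ENNReal.ofReal ((2 * π) ^ 6 * Real.exp π * y ^ 2) * kap f y := by
  rw [kap, ← lintegral_const_mul' _ _ ENNReal.ofReal_ne_top]
  refine lintegral_mono fun g => ?_
  rw [mul_left_comm, ENNReal.ofReal_mul (by positivity), mul_right_comm _ (Real.exp π),
    ENNReal.ofReal_mul (q := Real.exp π) (by positivity), mul_assoc]
  gcongr
  exact p0_le (mul_nonneg (sq_nonneg _) (z3_pos g).le)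

lemma K1_pos {f : G → ℂ} (hf : Continuous f) (h : gap f ≠ 0) :
    ∃ δ : ℝ, 0 < δ ∧ ∀ y, 0 < y → y < δ → K1 f y ≠ 0 := by
  by_contra h0
  push Not at h0
  choose y y0 y1 hy using fun n : ℕ => h0 (1 / (n + 1)) (by positivity)
  apply h
  have : ∀ᵐ g ∂mu, ∀ n, wt f g * ENNReal.ofReal
      ((2 * π) ^ 6 * y n ^ 2 * p0 (y n ^ 2 * z3 g)) = 0 := by
    refine ae_all_iff.2 fun n => ?_
    exact (lintegral_eq_zero_iff ((measurable_wt hf).mul ((measurable_ps _ _).comp
      continuous_z3.measurable))).1 (hy n)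
  rw [gap, ← lintegral_zero (μ := mu)]
  refine lintegral_congr_ae ?_
  filter_upwards [this] with g hg
  obtain ⟨n, hn⟩ := exists_nat_gt (z3 g)
  have z0 := z3_pos g
  have := y0 n
  have h2 : y n ^ 2 * z3 g < 1 := by
    have a1 := y1 n
    rw [lt_div_iff₀ (by positivity)] at a1
    have a2 : y n ≤ 1 := by nlinarith
    nlinarith
  have h3 := p0_pos (by positivity) h2
  rw [(mul_eq_zero.1 (hg n)).resolve_right (ENNReal.ofReal_pos.2 (by positivity)).ne', zero_mul]

theorem asym {β : G → ℝ≥0∞} {e1 e2 : ℕ → ℂ} {f : G → ℂ} (hβ : Measurable β) (h1 : DWt io β)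
    (h : Good β e1 e2 f) :
    ∃ (κ : ℝ → ℝ≥0∞) (c C : ℝ≥0∞), Measurable κ ∧ c ≠ ∞ ∧ C ≠ ∞ ∧
      (∃ δ : ℝ, 0 < δ ∧ ∀ y, 0 < y → y < δ → κ y ≠ 0) ∧
      (∀ y, 0 < y → κ y ≤ C * ENNReal.ofReal (y⁻¹ ^ 48)) ∧
      (∀ y, 0 < y → y ≤ 1 → κ y ≤ C * ENNReal.ofReal y) ∧
      ∀ y : ℝ, 0 < y →
        ∑' N : ℕ+, bb e1 e2 N * κ ((N : ℕ) * y) ≤
          ENNReal.ofReal y⁻¹ * c + ENNReal.ofReal (y ^ 49) * C ∧
        ENNReal.ofReal y⁻¹ * c ≤
          ∑' N : ℕ+, bb e1 e2 N * κ ((N : ℕ) * y) + ENNReal.ofReal (y ^ 49) * C := by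
  obtain ⟨f0, h0, d1, d2⟩ := h.smooth hβ h1 136
  obtain ⟨k, hk, hne⟩ := exists_SK h0.cusp.cont h0.ne
  have hG : ∀ {k}, SK k → Cusp (conv (fun h => k (co h)) f0) ∧
      N2 β (conv (fun h => k (co h)) f0) ≠ ∞ ∧ Dec 137 (conv (fun h => k (co h)) f0) ∧
      Dec 137 (dual (conv (fun h => k (co h)) f0)) := fun hk =>
    ⟨h0.cusp.conv hk.ker, N2_conv hβ h1 h0.cusp.toAut hk.ker h0.fin,
      dec_step h0.cusp.toAut hk.ker d1,
      by rw [dual_conv]; exact dec_step h0.cusp.toAut.dual hk.ker.du d2⟩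
  set f1 := conv (fun h => k (co h)) f0
  obtain ⟨a1, a2, a3, a4⟩ := hG hk
  have hH : Hk f1 e1 e2 := fun p hp => ⟨fun g => by
    rw [TA_conv hk.ker h0.cusp.cont, ← conv_const_mul, funext (h0.hk p hp).1], fun g => by
    rw [TB_conv hk.ker h0.cusp.cont, ← conv_const_mul, funext (h0.hk p hp).2]⟩
  have hs : ∀ j : J6, SK (De j.1 (De j.2.1 (De j.2.2 k))) := fun j => ((hk.De _).De _).De _
  obtain ⟨c, C, hc, hC, hI⟩ := II_asym (F := fam k f0) (fun j => (hG (hs j)).1) hβ h1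
    (fun j => (hG (hs j)).2.1) fun j => (hG (hs j)).2.2.2
  obtain ⟨C1, hC1, b1⟩ := Th_le a1 hβ h1 0 a3
  obtain ⟨C2, hC2, b2⟩ := Th_le (β := fun g => β (du g)) a1.dual
    (hβ.comp continuous_du.measurable) (dwt_du h1) 0 a4
  have k1 : ∀ y : ℝ, kap f1 y ≤ Th β f1 y⁻¹ := fun y => by
    rw [Th_shell a1 hH hβ h1]
    refine le_trans ?_ (ENNReal.le_tsum 1)
    refine le_trans ?_ (ENNReal.le_tsum 1)
    refine le_trans ?_ (ENNReal.le_tsum 1)
    simp [AC_one, f1]
  set A := ENNReal.ofReal ((2 * π) ^ 6 * Real.exp π)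
  refine ⟨K1 f1, c, C + A * (C1 + (N2 β f1 + C2)), measurable_K1 a1.cont, hc, by finiteness,
    K1_pos a1.cont (gap_ne_zero a1 hH hβ h1 hne), fun y hy => ?_, fun y hy hy1 => ?_,
    fun y hy => ?_⟩
  · refine (K1_le f1 y).trans ?_
    calc _ ≤ ENNReal.ofReal ((2 * π) ^ 6 * Real.exp π * y ^ 2) *
          (C1 * ENNReal.ofReal (y⁻¹ ^ 50)) := by
          gcongr; exact (k1 y).trans (b1 _ (inv_pos.2 hy))
      _ = A * C1 * ENNReal.ofReal (y⁻¹ ^ 48) := by
          rw [ENNReal.ofReal_mul (by positivity), mul_mul_mul_comm,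
            ← ENNReal.ofReal_mul (by positivity)]
          congr 2
          field_simp
      _ ≤ _ := by gcongr; exact le_add_left (by gcongr; exact le_self_add)
  · refine (K1_le f1 y).trans ?_
    have k2 := func_eq hβ h1 a1.toAut (inv_pos.2 hy)
    rw [inv_inv] at k2
    have k3 : Th (fun g => β (du g)) (dual f1) y ≤ C2 := (b2 y hy).trans
      (mul_le_of_le_one_right' (ENNReal.ofReal_le_one.2 (pow_le_one₀ hy.le hy1)))
    calc _ ≤ ENNReal.ofReal ((2 * π) ^ 6 * Real.exp π * y ^ 2) *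
          (ENNReal.ofReal y⁻¹ * (N2 β f1 + C2)) := by
          gcongr
          refine (k1 y).trans (le_add_self.trans (k2.le.trans ?_))
          gcongr
      _ = A * (N2 β f1 + C2) * ENNReal.ofReal y := by
          rw [ENNReal.ofReal_mul (by positivity), mul_comm (ENNReal.ofReal y⁻¹), mul_mul_mul_comm,
            ← ENNReal.ofReal_mul (by positivity)]
          congr 2
          field_simp
      _ ≤ _ := by gcongr; exact le_add_left (mul_le_mul_right le_add_self _)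
  · have := hI y⁻¹ (inv_pos.2 hy)
    rw [II_eq hk h0.cusp hH hβ h1 (inv_pos.2 hy), inv_inv] at this
    simp only [div_inv_eq_mul] at this
    exact ⟨this.1.trans (by gcongr; exact le_self_add), this.2.trans (by gcongr; exact le_self_add)⟩

end Pool.Agent.Lib.MP_fa98d2_nt
end
end

-- part Pool.Agent.Lib.MP_fa98d2_nt.LogD
section

/- The logarithmic derivative of the Rankin-Selberg series. -/

open PowerSeries Finset Filter Topology ArithmeticFunction
open scoped ComplexConjugate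

noncomputable section

namespace Pool.Agent.Lib.MP_fa98d2_nt

lemma rec_gen {x y z : ℂ} (h : x * y * z = 1) (hA : Alt x y z 2 1 ≠ 0) (j : ℕ) :
    bs (x + y + z) (x * y + y * z + z * x) (j + 1) * (j + 1) = ∑ q ∈ antidiagonal j,
      bs (x + y + z) (x * y + y * z + z * x) q.1 *
        ‖x ^ (q.2 + 1) + y ^ (q.2 + 1) + z ^ (q.2 + 1)‖ ^ 2 := by
  have hc := cauchy (u := conj x) (v := conj y) (w := conj z) h
    (by rw [← map_mul, ← map_mul, h, map_one]) hA
    (by simpa [Alt, WW] using (map_ne_zero (starRingEnd ℂ)).2 hA)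
  have hL := ((((((((LD_GG (x * conj x)).mul (LD_GG (x * conj y))).mul
    (LD_GG (x * conj z))).mul (LD_GG (y * conj x))).mul
    (LD_GG (y * conj y))).mul (LD_GG (y * conj z))).mul
    (LD_GG (z * conj x))).mul (LD_GG (z * conj y))).mul (LD_GG (z * conj z))
  have e3 : (mk fun n => if 3 ∣ n then (1 : ℂ) else 0) * (1 - X ^ 3) = 1 := by
    ext n
    rw [mul_sub, mul_one, map_sub, coeff_mul_X_pow', coeff_mk, coeff_one]
    simp only [coeff_mk]
    split_ifs <;> first | omega | simp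
  have hc' := congrArg ((mk fun n => if 3 ∣ n then (1 : ℂ) else 0) * ·) hc
  beta_reduce at hc'
  rw [← mul_assoc _ (1 - X ^ 3), e3, one_mul] at hc'
  rw [← hc'] at hL
  have e : ∀ j, coeff j ((mk fun n => if 3 ∣ n then (1 : ℂ) else 0) *
      PS fun a b => SS (x + y + z) (x * y + y * z + z * x) a b *
        SS (conj x + conj y + conj z) (conj x * conj y + conj y * conj z + conj z * conj x) a b) =
      bs (x + y + z) (x * y + y * z + z * x) j := fun j => by
    rw [coeff_mul]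
    simp only [PS, coeff_mk, ← map_mul, ← map_add, ← conj_SS, Complex.mul_conj,
      Complex.normSq_eq_norm_sq, bs, qs]
    have e4 : ∀ (p : Prop) [Decidable p] (a : ℝ),
        ((if p then a else 0 : ℝ) : ℂ) = if p then (a : ℂ) else 0 := by
      intro p _ a; split_ifs <;> simp
    simp only [Complex.ofReal_sum, Complex.ofReal_mul, e4, Complex.ofReal_one]
  have := hL.rec_eq j
  simp only [e] at this
  apply Complex.ofReal_injective
  push_cast
  rw [this]
  refine sum_congr rfl fun q _ => ?_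
  rw [← Complex.mul_conj']
  simp only [map_add, map_pow, mul_pow]
  ring

lemma continuous_HH (k : ℕ) : Continuous fun p : ℂ × ℂ => HH p.1 p.2 k := by
  induction k using Nat.strong_induction_on with
  | _ k ih =>
    match k with
    | 0 => exact continuous_const
    | 1 => exact continuous_const
    | 2 => exact continuous_const
    | k + 3 =>
      exact ((continuous_fst.mul (ih _ (by omega))).sub
        (continuous_snd.mul (ih _ (by omega)))).add (ih _ (by omega))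

lemma continuous_bs (j : ℕ) : Continuous fun p : ℂ × ℂ => bs p.1 p.2 j := by
  refine continuous_finsetSum _ fun q _ => Continuous.const_mul
    (continuous_finsetSum _ fun b _ => ?_) _
  split_ifs
  · exact (((continuous_HH _).mul (continuous_HH _)).sub
      ((continuous_HH _).mul (continuous_HH _))).norm.pow 2
  · exact continuous_const

lemma rec_all {x y z : ℂ} (h : x * y * z = 1) (j : ℕ) :
    bs (x + y + z) (x * y + y * z + z * x) (j + 1) * (j + 1) = ∑ q ∈ antidiagonal j,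
      bs (x + y + z) (x * y + y * z + z * x) q.1 *
        ‖x ^ (q.2 + 1) + y ^ (q.2 + 1) + z ^ (q.2 + 1)‖ ^ 2 := by
  have hx : x ≠ 0 := by rintro rfl; simp at h
  have hz : z ≠ 0 := by rintro rfl; simp at h
  obtain ⟨w, hw⟩ := IsAlgClosed.exists_pow_nat_eq (y / x) two_pos
  have ne : ∀ c : ℂ, ∀ᶠ t in 𝓝[≠] (1 : ℂ), t ≠ c := fun c => by
    rcases eq_or_ne c 1 with rfl | hc
    · exact self_mem_nhdsWithin
    · exact mem_nhdsWithin_of_mem_nhds (isOpen_ne.mem_nhds hc.symm)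
  have c0 : ContinuousAt (fun t : ℂ => y / t) 1 := continuousAt_const.div continuousAt_id one_ne_zero
  have c1 : ∀ i, ContinuousAt (fun t : ℂ => bs (x * t + y / t + z)
      (x * t * (y / t) + y / t * z + z * (x * t)) i) 1 := fun i =>
    (continuous_bs i).continuousAt.comp (f := fun t : ℂ => (x * t + y / t + z,
      x * t * (y / t) + y / t * z + z * (x * t))) (by fun_prop)
  have t1 := ((c1 (j + 1)).mul_const ((j : ℝ) + 1)).tendsto.mono_left
    (nhdsWithin_le_nhds (s := {1}ᶜ))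
  have t2 := (tendsto_finsetSum (antidiagonal j) fun q _ => (c1 q.1).tendsto.mul
    (ContinuousAt.tendsto (f := fun t : ℂ => ‖(x * t) ^ (q.2 + 1) + (y / t) ^ (q.2 + 1) +
      z ^ (q.2 + 1)‖ ^ 2) (by fun_prop))).mono_left (nhdsWithin_le_nhds (s := {1}ᶜ))
  simp only [mul_one, div_one] at t1 t2
  refine tendsto_nhds_unique (t1.congr' ?_) t2
  filter_upwards [ne 0, ne w, ne (-w), ne (y / z), ne (z / x)] with t a0 a1 a2 a3 a4
  refine rec_gen (by rw [← h]; field_simp) ?_ j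
  have : Alt (x * t) (y / t) z 2 1 = (x * t - y / t) * (y / t - z) * (x * t - z) := by
    simp only [Alt, WW]; ring
  rw [this]
  refine mul_ne_zero (mul_ne_zero ?_ ?_) ?_ <;> rw [sub_ne_zero] <;> intro he
  · have : t ^ 2 = w ^ 2 := by
      rw [hw, eq_div_iff hx]
      rw [eq_div_iff a0] at he
      linear_combination he
    exact (sq_eq_sq_iff_eq_or_eq_neg.1 this).elim a1 a2
  · exact a3 (by rw [← he]; field_simp [show y ≠ 0 by rintro rfl; simp at h])
  · exact a4 (by rw [← he]; field_simp)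

/-- squared power sums -/
def Pk (α : ℕ → Fin 3 → ℂ) (p k : ℕ) : ℝ := ‖α p 0 ^ k + α p 1 ^ k + α p 2 ^ k‖ ^ 2

lemma psum_eq {x y z x' y' z' : ℂ} (h1 : x + y + z = x' + y' + z')
    (h2 : x * y + y * z + z * x = x' * y' + y' * z' + z' * x') (h3 : x * y * z = x' * y' * z')
    (k : ℕ) : x ^ k + y ^ k + z ^ k = x' ^ k + y' ^ k + z' ^ k := by
  induction k using Nat.strong_induction_on with
  | _ k ih =>
    match k with
    | 0 => simp
    | 1 => simpa using h1
    | 2 => linear_combination (x + y + z + (x' + y' + z')) * h1 - 2 * h2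
    | k + 3 =>
      linear_combination (x + y + z) * ih (k + 2) (by omega) -
        (x * y + y * z + z * x) * ih (k + 1) (by omega) + x * y * z * ih k (by omega) +
        (x' ^ (k + 2) + y' ^ (k + 2) + z' ^ (k + 2)) * h1 -
        (x' ^ (k + 1) + y' ^ (k + 1) + z' ^ (k + 1)) * h2 + (x' ^ k + y' ^ k + z' ^ k) * h3

lemma nsq_form {t : ℝ} {u z : ℂ} (hu : ‖u‖ = 1) (hz : ‖z‖ = 1) :
    ‖t * u + z‖ ^ 2 = t ^ 2 + 2 * t * (u * conj z).re + 1 := by
  have a := Complex.normSq_eq_norm_sq u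
  have b := Complex.normSq_eq_norm_sq z
  rw [hu, Complex.normSq_apply] at a
  rw [hz, Complex.normSq_apply] at b
  rw [← Complex.normSq_eq_norm_sq, Complex.normSq_apply]
  simp only [Complex.add_re, Complex.mul_re, Complex.ofReal_re, Complex.ofReal_im, Complex.add_im,
    Complex.mul_im, Complex.conj_re, Complex.conj_im]
  linear_combination t ^ 2 * a + b

lemma Pk_low {α : ℕ → Fin 3 → ℂ} {p : ℕ} (hp : p.Prime) (h : α p 0 * α p 1 * α p 2 = 1)
    (ha : el2 α p = conj (el1 α p)) (hn : theta α p ≠ 0) {k : ℕ} (hk : k ≠ 0) :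
    (((p : ℝ) ^ theta α p) ^ k - 1) ^ 2 ≤ Pk α p k ∧ 1 ≤ Pk α p k ∧
      3 ≤ Pk α p k + Pk α p (2 * k) := by
  obtain ⟨r, u, z, h1, h2, h3, h4, h5, h6, h7, i, h8⟩ := shape h ha fun h => hn (by simp [theta, h])
  have hp1 : (1 : ℝ) < p := by exact_mod_cast hp.one_lt
  have hl : 0 < Real.logb p r := Real.logb_pos hp1 h1
  have : theta α p = Real.logb p r := by
    refine le_antisymm (ciSup_le fun j => ?_) (le_ciSup_of_le (Set.finite_range _).bddAbove i ?_)
    · rcases h7 j with h | h | h <;> simp [h, abs_of_pos hl, hl.le]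
    · rw [h8, abs_of_pos hl]
  rw [this, Real.rpow_logb (by linarith) hp1.ne' (by linarith)]
  set v := u * conj z with hv
  have hv1 : ‖v‖ = 1 := by rw [hv, norm_mul, h2, Complex.norm_conj, h3, mul_one]
  have e : ∀ k, Pk α p k = (r ^ k + (r ^ k)⁻¹) ^ 2 + 2 * (r ^ k + (r ^ k)⁻¹) * (v ^ k).re + 1 := by
    intro k
    rw [Pk, psum_eq h5 h6 (h.trans h4.symm), hv, mul_pow u, ← map_pow,
      ← nsq_form (by rw [norm_pow, h2, one_pow]) (by rw [norm_pow, h3, one_pow])]
    congr 2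
    push_cast; ring
  have b1 : ∀ s : ℝ, 1 < s → 2 ≤ s + s⁻¹ := by
    intro s hs
    have h2 : s * s⁻¹ = 1 := mul_inv_cancel₀ (by linarith)
    have h4 : 0 ≤ s⁻¹ * (s - 1) ^ 2 := by positivity
    nlinarith
  have a1 : (v ^ (2 * k)).re = 2 * (v ^ k).re ^ 2 - 1 := by
    have := Complex.normSq_eq_norm_sq (v ^ k)
    rw [norm_pow, hv1, Complex.normSq_apply] at this
    rw [mul_comm, pow_mul]
    simp only [sq, Complex.mul_re, one_pow] at this ⊢
    linarith
  have a2 : -1 ≤ (v ^ k).re := by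
    have := (abs_le.1 (Complex.abs_re_le_norm (v ^ k))).1
    rwa [norm_pow, hv1, one_pow] at this
  have s1 := one_lt_pow₀ h1 hk
  have b2 := b1 _ s1
  have b3 := b1 _ (one_lt_pow₀ h1 (mul_ne_zero two_ne_zero hk))
  rw [e, e, a1]
  have s0 : 0 < (r ^ k)⁻¹ := by positivity
  generalize r ^ (2 * k) + (r ^ (2 * k))⁻¹ = t' at *
  generalize (r ^ k)⁻¹ = s' at *
  generalize r ^ k = s at *
  generalize (v ^ k).re = c at *
  have c1 : 4 * (1 + c) ≤ (s + s') ^ 2 + 2 * (s + s') * c := by nlinarith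
  have c2 : 8 * c ^ 2 ≤ t' ^ 2 + 2 * t' * (2 * c ^ 2 - 1) := by nlinarith [sq_nonneg c]
  refine ⟨?_, by linarith, by nlinarith [sq_nonneg (4 * c + 1)]⟩
  nlinarith [mul_nonneg (by linarith : 0 ≤ s + s') (by linarith : 0 ≤ c + 1)]

/-- the Rankin-Selberg von Mangoldt function -/
def aRS (α : ℕ → Fin 3 → ℂ) (n : ℕ) : ℝ := vonMangoldt n * Pk α n.minFac (n.factorization n.minFac)

lemma aRS_nonneg (α : ℕ → Fin 3 → ℂ) (n : ℕ) : 0 ≤ aRS α n :=
  mul_nonneg vonMangoldt_nonneg (sq_nonneg _)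

lemma aRS_pow (α : ℕ → Fin 3 → ℂ) {p k : ℕ} (hp : p.Prime) (hk : k ≠ 0) :
    aRS α (p ^ k) = Real.log p * Pk α p k := by
  rw [aRS, vonMangoldt_apply_pow hk, vonMangoldt_apply_prime hp, hp.pow_minFac hk,
    Nat.factorization_pow_self hp]

lemma conv_mult {a b : ℕ → ℝ} (ha : ∀ n, ¬ IsPrimePow n → a n = 0)
    (hb : ∀ m n, Nat.Coprime m n → b (m * n) = b m * b n)
    (h : ∀ p j, p.Prime → Real.log (p ^ j : ℕ) * b (p ^ j) =
      ∑ d ∈ (p ^ j).divisors, a d * b (p ^ j / d)) (n : ℕ) :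
    Real.log n * b n = ∑ d ∈ n.divisors, a d * b (n / d) := by
  have e : ∀ (n : ℕ) (f : ℕ → ℝ), ∑ d ∈ n.divisors, a d * f d =
      ∑ d ∈ n.divisors with IsPrimePow d, a d * f d := fun n f =>
    (sum_filter_of_ne fun d _ hd => by_contra fun h => hd (by rw [ha d h, zero_mul])).symm
  refine Nat.recOnPrimeCoprime ?_ h ?_ n
  · simp
  intro m n hm hn hab h1 h2
  rw [e] at h1 h2 ⊢
  rw [Nat.mul_divisors_filter_prime_pow hab, filter_union,
    sum_union (Nat.disjoint_divisors_filter_isPrimePow hab), Nat.cast_mul,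
    Real.log_mul (by positivity) (by positivity), hb m n hab, add_mul, ← mul_assoc, h1,
    mul_left_comm, h2, sum_mul, mul_sum]
  congr 1
  · refine sum_congr rfl fun d hd => ?_
    have hd := Nat.dvd_of_mem_divisors (mem_filter.1 hd).1
    rw [mul_comm m, Nat.mul_div_assoc _ hd,
      hb _ _ (hab.symm.coprime_dvd_right (Nat.div_dvd_of_dvd hd))]
    ring
  · refine sum_congr rfl fun d hd => ?_
    have hd := Nat.dvd_of_mem_divisors (mem_filter.1 hd).1
    rw [Nat.mul_div_assoc _ hd, hb _ _ (hab.coprime_dvd_right (Nat.div_dvd_of_dvd hd))]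
    ring

def br (α : ℕ → Fin 3 → ℂ) (n : ℕ) : ℝ := (bb (el1 α) (el2 α) n).toReal

lemma bs_nonneg (a b : ℂ) (j : ℕ) : 0 ≤ bs a b j :=
  sum_nonneg fun _ _ => mul_nonneg (by split_ifs <;> norm_num) (qs_nonneg _ _ _)

lemma br_conv {α : ℕ → Fin 3 → ℂ} (h : ∀ p : ℕ, p.Prime → α p 0 * α p 1 * α p 2 = 1) (n : ℕ) :
    Real.log n * br α n = ∑ p ∈ n.divisorsAntidiagonal, aRS α p.1 * br α p.2 := by
  rw [Nat.sum_divisorsAntidiagonal fun a b => aRS α a * br α b]
  refine conv_mult (fun n hn => by rw [aRS, vonMangoldt_eq_zero_iff.2 hn, zero_mul])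
    (fun m n h => by rw [br, bb_mult.2 h, ENNReal.toReal_mul]; rfl) (fun p j hp => ?_) n
  have e : ∀ j, br α (p ^ j) = bs (el1 α p) (el2 α p) j := fun j => by
    rw [br, bb_pow hp, ENNReal.toReal_ofReal (bs_nonneg _ _ _)]
  rw [Nat.sum_divisors_prime_pow hp, sum_range_succ', pow_zero, aRS, vonMangoldt_apply_one,
    zero_mul, zero_mul, add_zero]
  rcases j with _ | j
  · simp
  have := rec_all (h p hp) j
  rw [← Nat.sum_antidiagonal_swap, Nat.sum_antidiagonal_eq_sum_range_succ_mk] at this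
  rw [Nat.cast_pow, Real.log_pow, e, el1, el2, mul_comm _ (Real.log p), mul_assoc, mul_comm _ (bs _ _ _),
    Nat.cast_succ, this, mul_sum]
  refine sum_congr rfl fun i hi => ?_
  rw [aRS_pow α hp i.succ_ne_zero, Nat.pow_div (by simpa using mem_range.1 hi) hp.pos, e,
    Nat.add_sub_add_right, Pk, el1, el2]
  simp only [Prod.fst_swap, Prod.snd_swap]
  ring

end Pool.Agent.Lib.MP_fa98d2_nt
end
end

-- part Pool.Agent.Lib.MP_fa98d2_nt.Final2
section

/- Many tempered primes below every large bound. -/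

open Finset Filter Topology ArithmeticFunction Complex
open scoped ENNReal

noncomputable section

namespace Pool.Agent.Lib.MP_fa98d2_nt

/-- continuation data for the sequence `a` -/
structure Dat (a : ℕ → ℝ) (L M : ℂ → ℂ) : Prop where
  an : ∀ s : ℂ, 0 < s.re → s.re < 48 → AnalyticAt ℂ L s ∧ AnalyticAt ℂ M s
  nM : ∀ σ : ℝ, 0 < σ → σ < 48 → M σ ≠ 0
  nL : ∀ σ : ℝ, 1 < σ → σ < 48 → L σ ≠ 0
  sm : Summable fun n => |a n| * Real.exp (-(2 * Real.log n))
  eq : ∀ s : ℂ, 2 ≤ s.re → s.re < 48 → L s ≠ 0 → ∑' n, (a n : ℂ) * cexp (-(s * Real.log n)) =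
      logDeriv (fun s => (s - 1) * M s) s - logDeriv L s

lemma zeta_data : ∃ L M, Dat vonMangoldt L M ∧ ∀ σ : ℝ, 0 < σ → σ < 48 → L σ ≠ 0 := by
  have hb : ∀ σ : ℝ, 1 < σ → LSeriesSummable (fun n => ((if n = 0 then 0 else 1 : ℝ) : ℂ)) σ :=
    fun σ h => LSeriesSummable_of_bounded_of_one_lt_re (m := 1) (fun n hn => by simp [hn]) h
  have hb0 : ∀ n : ℕ, 0 ≤ (if n = 0 then 0 else 1 : ℝ) := fun n => by split_ifs <;> norm_num
  obtain ⟨L, M, h1, h2, h3, h4⟩ := mel_main (b := fun n => if n = 0 then 0 else 1)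
    (κ := fun y => if y ≤ 1 then 1 else 0) (Θ := fun y => ⌊y⁻¹⌋₊) (c := 1) (C := 1) (by simp) hb0 hb
    (Measurable.ite measurableSet_Iic measurable_const measurable_const)
    (measurable_from_nat.comp (Nat.measurable_floor.comp measurable_inv))
    (fun y => by split_ifs <;> norm_num) (fun y _ h => by simp [h])
    (fun y h => by
      split_ifs with h'
      · simp [le_antisymm h' h]
      · positivity)
    ⟨1, one_pos, fun y _ h => by simp [h.le]⟩
    (fun y hy => by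
      have k : ∀ n : ℕ, n * y ≤ 1 ↔ n ≤ ⌊y⁻¹⌋₊ := fun n => by
        rw [Nat.le_floor_iff (inv_pos.2 hy).le, ← one_div, le_div_iff₀ hy]
      have := hasSum_sum_of_ne_finset_zero (L := SummationFilter.unconditional ℕ)
        (f := fun n : ℕ => (if n = 0 then 0 else 1 : ℝ) * if n * y ≤ 1 then 1 else 0)
        (s := Icc 1 ⌊y⁻¹⌋₊) fun n hn => by
          simp only [k]
          rw [mem_Icc] at hn
          split_ifs <;> first | omega | simp
      rwa [sum_congr rfl (g := fun _ => 1) fun n hn => by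
        rw [mem_Icc] at hn
        rw [if_neg (by omega), if_pos ((k n).2 hn.2), one_mul], sum_const, Nat.card_Icc,
        Nat.add_sub_cancel, nsmul_one] at this)
    (fun y hy _ => by
      have := Nat.floor_le (inv_pos.2 hy).le
      have := Nat.lt_floor_add_one y⁻¹
      rw [abs_le]; constructor <;> linarith)
  obtain ⟨h5, h6, h7⟩ := base (a := vonMangoldt) (by simp) (fun n => vonMangoldt_nonneg) hb0
    (by simp) hb (fun n hn => by
      rw [if_neg hn, mul_one, ← vonMangoldt_sum,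
        Nat.sum_divisorsAntidiagonal fun a b => vonMangoldt a * if b = 0 then 0 else 1]
      refine sum_congr rfl fun d hd => ?_
      rw [if_neg (Nat.div_pos (Nat.divisor_le hd) (Nat.pos_of_mem_divisors hd)).ne', mul_one])
    (fun s a b => (h1 s a b).2) h2 h3
  refine ⟨L, M, ⟨h1, h2, h5, h6, h7⟩, fun σ a b => ?_⟩
  rcases le_or_gt σ 1 with h | h
  · exact h4 (fun y hy _ => by simpa using Nat.floor_le (inv_pos.2 hy).le)
      (fun y hy => by simpa using inv_lt_one_of_one_lt₀ hy) one_pos σ h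
  · exact h5 σ h b

variable {φ : Mat → ℂ} {α : ℕ → Fin 3 → ℂ}

lemma CuspForm3.adj (h : CuspForm3 φ α) {p : ℕ} (hp : p.Prime) :
    el2 α p = starRingEnd ℂ (el1 α p) := by
  obtain ⟨β, hβ, h1, hg⟩ := h.good
  have := adjoint hp hβ h1 hg.cusp.toAut hg.fin (N2_ne_zero hβ h1 hg.cusp.toAut hg.ne)
    (hg.hk p hp).1 (hg.hk p hp).2
  rw [map_mul, map_natCast] at this
  exact mul_left_cancel₀ (by exact_mod_cast hp.ne_zero) this

lemma CuspForm3.rs_data (h : CuspForm3 φ α) : ∃ L M, Dat (aRS α) L M := by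
  obtain ⟨β, hβ, h1, hg⟩ := h.good
  obtain ⟨κ, c, C, mκ, hc, hC, ⟨δ, d0, d1⟩, k1, k2, k3⟩ := asym hβ h1 hg
  set b := bb (el1 α) (el2 α)
  have o1 : ∀ N, N ≠ 0 → mkMul (fun _ _ => 1) N = 1 := fun N hN => by simp [mkMul_apply _ hN]
  have o2 : ∀ N, mkMul (fun _ _ => 1) N ≤ 1 := fun N => by
    rcases eq_or_ne N 0 with rfl | hN
    · simp
    · exact (o1 N hN).le
  have hb : ∀ σ : ℝ, 1 < σ → LSeriesSummable (fun n => br α n) σ := fun σ hσ => by
    have := (hg.key hβ h1 ⌈σ⌉₊ (mul_comm _ _) o1 o2).dir (by linarith) (lt_B σ) (by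
      simp only [o1 _ (PNat.ne_zero _), one_mul]
      have s := (Real.summable_nat_rpow.2 (neg_lt_neg hσ)).comp_injective PNat.coe_injective
      exact (ENNReal.ofReal_tsum_of_nonneg
        (fun n => Real.rpow_nonneg (Nat.cast_nonneg _) _) s ▸ ENNReal.ofReal_ne_top :))
    rw [tsum_pnat_nat (fun n => b n * ENNReal.ofReal ((n : ℝ) ^ (-σ))) (by simp)] at this
    refine Summable.of_norm ((ENNReal.summable_toReal this).congr fun n => ?_)
    rw [LSeries.norm_term_eq, ENNReal.toReal_mul, ENNReal.toReal_ofReal (by positivity),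
      Real.rpow_neg (by positivity)]
    split_ifs with hn
    · simp [hn]
    · simp [br, b, div_eq_mul_inv]
  have fin : ∀ y : ℝ, 0 < y → ∑' N : ℕ, b N * κ (N * y) ≠ ∞ := fun y hy => by
    rw [← tsum_pnat_nat (fun n => b n * κ (n * y)) (by simp)]
    exact ne_top_of_le_ne_top (by finiteness) (k3 y hy).1
  obtain ⟨L, M, a1, a2, a3, -⟩ := mel_main (b := br α) (κ := fun y => (κ y).toReal)
    (Θ := fun y => (∑' N : ℕ, b N * κ (N * y)).toReal) (c := c.toReal) (C := C.toReal)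
    (by simp [br]) (fun n => ENNReal.toReal_nonneg) hb mκ.ennreal_toReal
    (Measurable.tsum fun n => (mκ.comp (measurable_const_mul _)).const_mul _).ennreal_toReal
    (fun y => ENNReal.toReal_nonneg)
    (fun y a b => ENNReal.toReal_mono hC ((k2 y a b).trans
      (mul_le_of_le_one_right' (ENNReal.ofReal_le_one.2 b))))
    (fun y a => by
      have y0 : 0 < y := by linarith
      refine (ENNReal.toReal_mono (by finiteness) (k1 y y0)).trans (le_of_eq ?_)
      rw [ENNReal.toReal_mul, ENNReal.toReal_ofReal (by positivity), Real.rpow_neg y0.le, inv_pow]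
      norm_num)
    ⟨δ, d0, fun y a b => ENNReal.toReal_pos (d1 y a b)
      (ne_top_of_le_ne_top (by finiteness) (k1 y a))⟩
    (fun y hy => by
      have := ENNReal.hasSum_toReal (fin y hy)
      rw [← ENNReal.tsum_toReal_eq (ENNReal.ne_top_of_tsum_ne_top (fin y hy))] at this
      simp only [ENNReal.toReal_mul] at this
      exact this)
    (fun y hy hy1 => by
      have k := k3 y hy
      have f := fin y hy
      rw [tsum_pnat_nat (fun n => b n * κ (n * y)) (by simp)] at k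
      have u1 := ENNReal.toReal_mono (by finiteness) k.1
      have u2 := ENNReal.toReal_mono (by finiteness) k.2
      rw [ENNReal.toReal_add (by finiteness) (by finiteness)] at u1 u2
      simp only [ENNReal.toReal_mul, ENNReal.toReal_ofReal (inv_pos.2 hy).le,
        ENNReal.toReal_ofReal (pow_pos hy 49).le] at u1 u2
      have : y ^ 49 * C.toReal ≤ C.toReal :=
        mul_le_of_le_one_left ENNReal.toReal_nonneg (pow_le_one₀ hy.le hy1)
      rw [abs_le]; constructor <;> linarith)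
  obtain ⟨a4, a5, a6⟩ := base (a := aRS α) (by simp [aRS]) (aRS_nonneg α)
    (fun n => ENNReal.toReal_nonneg) (by simp [br, bb_mult.1]) hb (fun n _ => br_conv h.prod_eq n)
    (fun s a b => (a1 s a b).2) a2 a3
  exact ⟨L, M, a1, a2, a4, a5, a6⟩

lemma sub_one_ne {s : ℂ} (h : 2 ≤ s.re) : s - 1 ≠ 0 := fun e => by
  rw [sub_eq_zero.1 e] at h; norm_num at h

lemma Dat.repZ {a : ℕ → ℝ} {L M : ℂ → ℂ} (h : Dat a L M)
    (h0 : ∀ σ : ℝ, 0 < σ → σ < 48 → L σ ≠ 0) : Rep 48 (fun n => -a n) (fun s => (s - 1) * M s) L :=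
  ⟨fun s a b => (analyticAt_id.sub analyticAt_const).mul (h.an s a b).2, fun s a b => (h.an s a b).1,
    fun σ a b => mul_ne_zero (sub_one_ne (by simpa using a)) (h.nM σ (by linarith) b), h0,
    by simpa only [abs_neg] using h.sm, fun s a b _ d => by
      simp only [ofReal_neg, neg_mul, tsum_neg, h.eq s a b d, neg_sub]⟩

lemma Dat.repA {a a' : ℕ → ℝ} {L M L' M' : ℂ → ℂ} (h : Dat a L M) (h' : Dat a' L' M')
    (h0 : ∀ σ : ℝ, 0 < σ → σ < 48 → L' σ ≠ 0) :
    Rep 48 (fun n => a n - a' n) (fun s => L s * M' s) fun s => M s * L' s := by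
  refine ⟨fun s a b => (h.an s a b).1.mul (h'.an s a b).2,
    fun s a b => (h.an s a b).2.mul (h'.an s a b).1,
    fun σ a b => mul_ne_zero (h.nL σ (by linarith) b) (h'.nM σ (by linarith) b),
    fun σ a b => mul_ne_zero (h.nM σ a b) (h0 σ a b),
    Summable.of_nonneg_of_le (fun n => by positivity) (fun n => ?_) (h.sm.add h'.sm),
    fun s h1 h2 h3 h4 => ?_⟩
  · rw [← add_mul]
    gcongr
    exact abs_sub _ _
  · have s0 : 0 < s.re := by linarith
    rw [mul_ne_zero_iff] at h3 h4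
    have d1 := (h.an s s0 h2).1.differentiableAt
    have d2 := (h.an s s0 h2).2.differentiableAt
    have d3 := (h'.an s s0 h2).1.differentiableAt
    have d4 := (h'.an s s0 h2).2.differentiableAt
    simp only [ofReal_sub, sub_mul]
    rw [(summable_line h.sm h1).tsum_sub (summable_line h'.sm h1), h.eq s h1 h2 h3.1,
      h'.eq s h1 h2 h4.2, logDeriv_mul s h3.1 h3.2 d1 d4, logDeriv_mul s h4.1 h4.2 d2 d3,
      logDeriv_mul (f := fun s => s - 1) s (sub_one_ne h1) h4.1 (by fun_prop) d2,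
      logDeriv_mul (f := fun s => s - 1) s (sub_one_ne h1) h3.2 (by fun_prop) d4]
    ring

def qp (q : ℕ) (t : ℝ) (n : ℕ) : ℝ := if n.minFac = q then vonMangoldt n * (n : ℝ) ^ t else 0

lemma qp_pow {q : ℕ} (hq : q.Prime) (t : ℝ) {k : ℕ} (hk : k ≠ 0) :
    qp q t (q ^ k) = Real.log q * Real.exp (k * (t * Real.log q)) := by
  have : (0 : ℝ) < q := by exact_mod_cast hq.pos
  rw [qp, if_pos (hq.pow_minFac hk), vonMangoldt_apply_pow hk, vonMangoldt_apply_prime hq,
    Nat.cast_pow, Real.rpow_def_of_pos (by positivity), Real.log_pow]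
  congr 2; ring

lemma repQ {q : ℕ} (hq : q.Prime) {t : ℝ} (ht : t < 2) (R : ℝ) :
    Rep R (fun n => -qp q t n) (fun s => 1 - cexp ((t - s) * Real.log q)) fun _ => 1 := by
  have l0 : 0 < Real.log q := Real.log_pos (by exact_mod_cast hq.one_lt)
  have hi : Function.Injective fun k : ℕ => q ^ (k + 1) := fun a b h => by
    simpa using Nat.pow_right_injective hq.two_le h
  have z : ∀ n, n ∉ Set.range (fun k : ℕ => q ^ (k + 1)) → qp q t n = 0 := fun n hn => by
    by_contra h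
    rw [qp] at h
    split_ifs at h with h1
    · obtain ⟨p, k, hp, hk, rfl⟩ := (isPrimePow_nat_iff _).1
        (vonMangoldt_ne_zero_iff.1 (left_ne_zero_of_mul h))
      rw [hp.pow_minFac hk.ne'] at h1
      exact hn ⟨k - 1, by simp [h1, Nat.sub_add_cancel hk]⟩
    · exact h rfl
  have w : ∀ s : ℂ, 2 ≤ s.re → ‖cexp ((t - s) * Real.log q)‖ < 1 := fun s hs => by
    rw [norm_exp, Real.exp_lt_one_iff]
    simp only [mul_re, sub_re, ofReal_re, ofReal_im, mul_zero, sub_zero]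
    exact mul_neg_of_neg_of_pos (by linarith) l0
  have e : ∀ (s : ℂ) (k : ℕ), ((-qp q t (q ^ (k + 1)) : ℝ) : ℂ) *
      cexp (-(s * Real.log (q ^ (k + 1) : ℕ))) =
      -(Real.log q * cexp ((t - s) * Real.log q)) * cexp ((t - s) * Real.log q) ^ k := fun s k => by
    rw [qp_pow hq t k.succ_ne_zero, Nat.cast_pow, Real.log_pow, neg_mul, mul_assoc, ← pow_succ',
      ← Complex.exp_nat_mul, ofReal_neg, ofReal_mul, ofReal_exp, neg_mul, mul_assoc,
      ← Complex.exp_add]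
    congr 3
    push_cast; ring
  refine ⟨fun s _ _ => by fun_prop, fun s _ _ => analyticAt_const, fun σ a _ h => ?_,
    fun _ _ _ => one_ne_zero, ?_, fun s a _ h _ => ?_⟩
  · have := w σ a
    rw [← sub_eq_zero.1 h, norm_one] at this
    exact this.false
  · refine (hi.summable_iff fun n hn => by simp [z n hn]).1
      (((summable_geometric_of_norm_lt_one (w 2 (by simp))).mul_left
        (-(Real.log q * cexp ((t - 2) * Real.log q)))).norm.congr fun k => ?_)
    rw [← e 2 k, norm_mul, norm_real, norm_exp]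
    simp [-natCast_log]
  · rw [← hi.tsum_eq fun n hn => by_contra fun h => hn (by simp [z n h])]
    simp only [e]
    have d : HasDerivAt (fun s : ℂ => 1 - cexp ((t - s) * Real.log q))
        (-(cexp ((t - s) * Real.log q) * (-1 * Real.log q))) s :=
      ((((hasDerivAt_id s).const_sub _).mul_const _).cexp).const_sub 1
    rw [tsum_mul_left, tsum_geometric_of_norm_lt_one (w s a), logDeriv_const, logDeriv_apply,
      d.deriv]
    simp only [Pi.zero_apply]
    ring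

/-- the coefficients of the auxiliary logarithmic derivative -/
def ee (α : ℕ → Fin 3 → ℂ) (q n : ℕ) : ℝ :=
  aRS α n - vonMangoldt n + (aRS α n - vonMangoldt n) +
    sqf (fun n => aRS α n - vonMangoldt n + -vonMangoldt n) n +
    (-qp q (2 * theta α q) n + -qp q (2 * theta α q) n)

open Classical in
lemma CuspForm3.ee_low (h : CuspForm3 φ α) (q n : ℕ) : max (-ee α q n) 0 ≤
    6 * (if theta α n.minFac = 0 then vonMangoldt n else 0) +
      8 * (n : ℝ) ^ theta α q * if n.minFac = q then vonMangoldt n else 0 := by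
  have v0 : 0 ≤ vonMangoldt n := vonMangoldt_nonneg
  refine max_le ?_ (by split_ifs <;> positivity)
  by_cases hn : IsPrimePow n
  swap
  · have a := vonMangoldt_eq_zero_iff.2 hn
    have : sqf (fun n => aRS α n - vonMangoldt n + -vonMangoldt n) n = 0 := by
      rw [sqf]
      split_ifs with h1
      · rw [← h1, vonMangoldt_apply_pow two_ne_zero] at a
        simp [aRS, a]
      · rfl
    rw [ee, this]
    simp [aRS, qp, a]
  obtain ⟨p, k, hp, hk, rfl⟩ := (isPrimePow_nat_iff _).1 hn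
  have l0 : 0 < Real.log p := Real.log_pos (by exact_mod_cast hp.one_lt)
  have P0 : ∀ k, 0 ≤ Pk α p k := fun k => sq_nonneg _
  obtain ⟨S, hS, S1, S2⟩ : ∃ S, sqf (fun n => aRS α n - vonMangoldt n + -vonMangoldt n) (p ^ k) =
      Real.log p * S ∧ -4 ≤ S ∧ (theta α p ≠ 0 → 2 ≤ 2 * Pk α p k + S) := by
    by_cases h1 : (p ^ k).sqrt ^ 2 = p ^ k
    · obtain ⟨j, -, hj⟩ := (Nat.dvd_prime_pow hp).1
        ((dvd_pow_self (p ^ k).sqrt two_ne_zero).trans h1.dvd)
      rw [hj, ← pow_mul] at h1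
      obtain rfl := Nat.pow_right_injective hp.two_le h1
      have j0 : j ≠ 0 := by omega
      refine ⟨2 * Pk α p j - 4, ?_, by linarith [P0 j], fun h0 => ?_⟩
      · rw [pow_mul, sqf_sq, aRS_pow α hp j0, vonMangoldt_apply_pow j0, vonMangoldt_apply_prime hp]
        ring
      · have := (Pk_low hp (h.prod_eq p hp) (h.adj hp) h0 j0).2.2
        rw [mul_comm j]
        linarith
    · exact ⟨0, by rw [sqf, if_neg h1, mul_zero], by norm_num, fun h0 => by
        linarith [(Pk_low hp (h.prod_eq p hp) (h.adj hp) h0 hk.ne').2.1]⟩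
  rw [ee, hS, qp, aRS_pow α hp hk.ne', vonMangoldt_apply_pow hk.ne', vonMangoldt_apply_prime hp,
    hp.pow_minFac hk.ne']
  have R1 : 1 ≤ ((p ^ k : ℕ) : ℝ) ^ theta α q :=
    Real.one_le_rpow (by exact_mod_cast pow_pos hp.pos k) (theta_nonneg α q)
  have R2 : ((p ^ k : ℕ) : ℝ) ^ (2 * theta α q) = (((p ^ k : ℕ) : ℝ) ^ theta α q) ^ 2 := by
    rw [mul_comm, Real.rpow_mul (by positivity), Real.rpow_two]
  rw [R2]
  have := P0 k
  split_ifs with h1 h2 h2
  · rw [← h1, h2, Real.rpow_zero]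
    nlinarith
  · have := (Pk_low hp (h.prod_eq p hp) (h.adj hp) h2 hk.ne').1
    subst h1
    rw [Real.rpow_pow_comm (by positivity), ← Nat.cast_pow] at this
    generalize ((p ^ k : ℕ) : ℝ) ^ theta α p = R at *
    nlinarith [mul_nonneg l0.le (by nlinarith : 0 ≤ 2 * Pk α p k - 2 + S - 2 * R ^ 2 + 8 * R)]
  · nlinarith
  · nlinarith [S2 h2]

lemma sum_minFac (p : ℕ) {M : ℕ} (hM : M ≠ 0) :
    ∑ n ∈ range (M + 1), (if n.minFac = p then vonMangoldt n else 0) ≤ Real.log M := by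
  by_cases hp : p.Prime
  · have h1 := Nat.pow_log_le_self p hM
    refine le_trans ?_ (Real.log_le_log (by exact_mod_cast pow_pos hp.pos _)
      (show ((p ^ Nat.log p M : ℕ) : ℝ) ≤ M by exact_mod_cast h1))
    rw [← vonMangoldt_sum, ← sum_filter]
    rw [← sum_filter_ne_zero]
    refine sum_le_sum_of_subset_of_nonneg (fun n hn => ?_) fun _ _ _ => vonMangoldt_nonneg
    simp only [mem_filter, mem_range] at hn
    obtain ⟨r, k, hr, hk, rfl⟩ := (isPrimePow_nat_iff _).1 (vonMangoldt_ne_zero_iff.1 hn.2)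
    obtain rfl : r = p := by simpa [hr.pow_minFac hk.ne'] using hn.1.2
    exact Nat.mem_divisors.2 ⟨pow_dvd_pow _ (Nat.le_log_of_pow_le hp.one_lt
      (Nat.lt_succ_iff.1 hn.1.1)), (pow_pos hp.pos _).ne'⟩
  · refine (sum_eq_zero fun n _ => ?_).trans_le (Real.log_natCast_nonneg M)
    split_ifs with h
    · by_contra h1
      exact hp (h ▸ Nat.minFac_prime (vonMangoldt_ne_zero_iff.1 h1).ne_one)
    · rfl

lemma sum_pred (T : ℕ → Prop) [DecidablePred T] {M : ℕ} (hM : M ≠ 0) :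
    ∑ n ∈ range (M + 1), (if T n.minFac then vonMangoldt n else 0) ≤
      #{p ∈ range (M + 1) | p.Prime ∧ T p} * Real.log M := by
  rw [← nsmul_eq_mul]
  refine le_trans ?_ (sum_le_card_nsmul _ _ _ fun p _ => sum_minFac p hM)
  rw [sum_comm]
  refine sum_le_sum fun n hn => ?_
  rw [sum_ite_eq]
  split_ifs with h1 h2 h2
  · rfl
  · by_contra h
    have h3 := (vonMangoldt_ne_zero_iff.1 (not_le.1 h).ne')
    exact h2 (mem_filter.2 ⟨mem_range.2 ((Nat.minFac_le h3.pos).trans_lt (mem_range.1 hn)),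
      Nat.minFac_prime h3.ne_one, h1⟩)
  · exact vonMangoldt_nonneg
  · rfl

theorem CuspForm3.partE (h : CuspForm3 φ α) {q : ℕ} (hq : q.Prime) {s : ℝ}
    (hs : s < max (1 / 2) (2 * theta α q)) :
    ∀ᶠ x : ℝ in atTop, x ^ s ≤ {p ∈ TemperedPrimes α | (p : ℝ) ≤ x}.ncard := by
  classical
  have m1 : max (1 / 2) (2 * theta α q) ≤ 1 := not_lt.1 fun c => h.partB hq
    ((Real.summable_nat_rpow.2 (neg_lt_neg c)).subtype _)
  have m2 := le_max_left (1 / 2) (2 * theta α q)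
  have m3 := le_max_right (1 / 2) (2 * theta α q)
  have t0 := theta_nonneg α q
  obtain ⟨L', M', dz, hz⟩ := zeta_data
  obtain ⟨L, M, dr⟩ := h.rs_data
  have A := dr.repA dz hz
  have B := A.add (dz.repZ hz)
  rw [show (48 : ℝ) = 2 * 24 by norm_num] at B
  have Q := repQ hq (t := 2 * theta α q) (by linarith) 24
  have A' := A.mono (R' := 24) (by norm_num)
  have E := ((A'.add A').add B.sq).add (Q.add Q)
  obtain ⟨s', a1, a2⟩ := exists_between (show max s (theta α q) < max (1 / 2) (2 * theta α q) from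
    max_lt hs (by linarith))
  rw [max_lt_iff] at a1
  have key := local_landau (e := ee α q) (σ0 := 1 / 4) (by norm_num) (by linarith) (by linarith)
    (fun s a b => E.aN s (by linarith) (by linarith))
    (fun s a b => E.aD s (by linarith) (by linarith))
    (by exact_mod_cast E.nN 2 le_rfl (by norm_num))
    (fun σ a b => E.nD σ (by linarith) (by linarith))
    (by rcases max_choice (1 / 2) (2 * theta α q) with c | c <;> rw [c] <;> simp)
    E.sm (fun t => E.eq _ (by simp) (by simp; norm_num)) a2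
  have u : ∀ r, r < s' → ∀ᶠ x : ℝ in atTop, 14 * (x ^ r * Real.log x) ≤ x ^ s' := fun r hr => by
    filter_upwards [(isLittleO_log_rpow_atTop (sub_pos.2 hr)).bound (c := 1 / 14) (by norm_num),
      eventually_gt_atTop 1] with x x1 x2
    rw [Real.norm_of_nonneg (Real.log_pos x2).le, Real.norm_of_nonneg (by positivity)] at x1
    have : x ^ s' = x ^ r * x ^ (s' - r) := by rw [← Real.rpow_add (by linarith)]; congr 1; ring
    have x3 : 0 < x ^ r := by positivity
    nlinarith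
  filter_upwards [key, u s a1.1, u _ a1.2, eventually_gt_atTop 1] with x x1 x2 x3 x4
  have hl := Real.log_pos x4
  have e : {p ∈ TemperedPrimes α | (p : ℝ) ≤ x}.ncard =
      #{p ∈ range (⌊x⌋₊ + 1) | p.Prime ∧ theta α p = 0} := by
    rw [← Set.ncard_coe_finset]
    congr 1
    ext n
    simp [TemperedPrimes, Nat.lt_succ_iff, Nat.le_floor_iff (by linarith : 0 ≤ x), and_comm]
  rw [e]
  have f0 : ⌊x⌋₊ ≠ 0 := (Nat.floor_pos.2 x4.le).ne'
  have f1 : (⌊x⌋₊ : ℝ) ≤ x := Nat.floor_le (by linarith)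
  have f2 : Real.log ⌊x⌋₊ ≤ Real.log x := Real.log_le_log (by positivity) f1
  have b1 := (sum_pred (fun p => theta α p = 0) f0).trans
    (mul_le_mul_of_nonneg_left f2 (Nat.cast_nonneg _))
  have b2 := (sum_minFac q f0).trans f2
  have b3 := x1.trans (sum_le_sum (g := fun n =>
    6 * (if theta α n.minFac = 0 then vonMangoldt n else 0) +
      8 * x ^ theta α q * if n.minFac = q then vonMangoldt n else 0) fun n hn => by
    refine (h.ee_low q n).trans ?_
    have : (n : ℝ) ≤ x := (Nat.cast_le.2 (Nat.lt_succ_iff.1 (mem_range.1 hn))).trans f1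
    gcongr)
  rw [sum_add_distrib, ← mul_sum, ← mul_sum] at b3
  have x5 : 0 < x ^ theta α q := by positivity
  refine le_of_mul_le_mul_right ?_ hl
  nlinarith [mul_le_mul_of_nonneg_left b2 x5.le]

end Pool.Agent.Lib.MP_fa98d2_nt
end
end
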